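import Pool.Agent.G4.Defs

/-!
# A potential from arrays of real numbers

The transfer operator of the path is evaluated with `m ^ 2 / 2` vector steps: the sum over the
decision time of the earlier neighbour is carried along (`G`).
-/

set_option autoImplicit false
set_option linter.unusedSimpArgs false

namespace Pool.Agent.G4

open Finset
open scoped Classical

/-- one step of the recursion `he`, `e` decided neighbours besides the children -/
noncomputable def hstep (A : ℕ → ℕ → ℕ) (N : ℕ) (z : ℝ) (t e : ℕ) (v : ℕ → ℝ) (q : ℕ) : ℝ :=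
  ∑ k ∈ range (q + 1), (q.choose k : ℝ) * v k * (1 - (A t (k + e) : ℝ) / N) * z ^ (q - k)

theorem he_succ (A : ℕ → ℕ → ℕ) (N : ℕ) (Z : ℕ → ℝ) (e : ℕ → ℕ) (t q : ℕ) :
    he A N Z e (t + 1) q = hstep A N (Z t) t (e t) (he A N Z e t) q := rfl

theorem he_congr (A : ℕ → ℕ → ℕ) (N : ℕ) (Z : ℕ → ℝ) {e e' : ℕ → ℕ} :
    ∀ (t : ℕ), (∀ τ < t, e τ = e' τ) → ∀ q, he A N Z e t q = he A N Z e' t q := by
  intro t
  induction t with
  | zero => intro _ q; rfl
  | succ t ih =>
    intro h q
    rw [he_succ, he_succ, h t (Nat.lt_succ_self t)]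
    unfold hstep
    refine Finset.sum_congr rfl fun k _ => ?_
    rw [ih (fun τ hτ => h τ (Nat.lt_succ_of_lt hτ)) k]

section Real

variable (A : ℕ → ℕ → ℕ) (N : ℕ) {m : ℕ} (w : Law m N A)

/-- the functional of `FB` and `FE` -/
noncomputable def fB (t e : ℕ) (v : ℕ → ℝ) : ℝ :=
  if t < m then ∑ k ∈ range 3, (Nat.choose 2 k : ℝ) * v k * (1 - (A t (k + e) : ℝ) / N) *
    (w.W t ^ (2 - k) - (w.W t - w.X t) ^ (2 - k))
  else ∑ k ∈ range 3, (Nat.choose 2 k : ℝ) * v k * w.W m ^ (2 - k)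

/-- the functional of `FM` -/
noncomputable def fM (t e : ℕ) (v : ℕ → ℝ) : ℝ :=
  ∑ k ∈ range 3, (Nat.choose 2 k : ℝ) * v k * ((A t (k + e) : ℝ) / N) * w.W t ^ (2 - k)

/-- the functional of `FO` -/
noncomputable def fO (t e : ℕ) (v : ℕ → ℝ) : ℝ :=
  ∑ k ∈ range 3, (Nat.choose 2 k : ℝ) * v k * ((A t (k + e) : ℝ) / N) *
    (w.W t ^ (2 - k) - (w.W t - w.P t / 2) ^ (2 - k))

/-- the functional of `Fw l r t ρ` -/
noncomputable def fw (l r : Info) (t : ℕ) (ρ : Bool) (e : ℕ) (v : ℕ → ℝ) : ℝ :=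
  if ρ then (if l = Info.tl ∨ r = Info.tl then fM A N w t e v else fO A N w t e v)
  else fB A N w t e v

theorem Fw_eq (l r : Info) (t : ℕ) (ρ : Bool) (ht : t ≤ m) :
    Fw A N w l r t ρ = fw A N w l r t ρ (l.dl t + r.dl t)
      (he A N w.Z (fun τ => l.dl τ + r.dl τ) t) := by
  unfold Fw fw
  cases ρ
  · simp only [Bool.false_eq_true, if_false]
    unfold fB
    by_cases h : t < m
    · rw [if_pos h, if_pos h]; rfl
    · have : t = m := le_antisymm ht (not_lt.mp h)
      subst this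
      rw [if_neg h, if_neg h]; rfl
  · simp only [if_true]
    by_cases h : l = Info.tl ∨ r = Info.tl
    · rw [if_pos h, if_pos h]; rfl
    · rw [if_neg h, if_neg h]; rfl

theorem fw_sum {ι : Type} (s : Finset ι) (c : ι → ℝ) (v : ι → ℕ → ℝ) (l r : Info) (t : ℕ)
    (ρ : Bool) (e : ℕ) :
    ∑ i ∈ s, c i * fw A N w l r t ρ e (v i) =
      fw A N w l r t ρ e (fun k => ∑ i ∈ s, c i * v i k) := by
  have key : ∀ (g : ℕ → ℝ), ∑ i ∈ s, c i * (∑ k ∈ range 3, (Nat.choose 2 k : ℝ) * v i k * g k) =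
      ∑ k ∈ range 3, (Nat.choose 2 k : ℝ) * (∑ i ∈ s, c i * v i k) * g k := by
    intro g
    simp only [Finset.mul_sum, Finset.sum_mul]
    rw [Finset.sum_comm]
    refine Finset.sum_congr rfl fun k _ => Finset.sum_congr rfl fun i _ => ?_
    ring
  have key2 : ∀ (g g' : ℕ → ℝ), ∑ i ∈ s, c i * (∑ k ∈ range 3, (Nat.choose 2 k : ℝ) * v i k * g k
      * g' k) = ∑ k ∈ range 3, (Nat.choose 2 k : ℝ) * (∑ i ∈ s, c i * v i k) * g k * g' k := by
    intro g g'
    have := key (fun k => g k * g' k)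
    simp only [← mul_assoc] at this
    exact this
  unfold fw
  cases ρ
  · simp only [Bool.false_eq_true, if_false]
    unfold fB
    by_cases h : t < m
    · simp only [if_pos h]
      exact key2 _ _
    · simp only [if_neg h]
      exact key _
  · simp only [if_true]
    by_cases h : l = Info.tl ∨ r = Info.tl
    · simp only [if_pos h]
      exact key2 _ _
    · simp only [if_neg h]
      exact key2 _ _

/-- the weight vector of a vertex with information `l` from one side and none from the other -/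
noncomputable def H (l : Info) (t : ℕ) (k : ℕ) : ℝ := he A N w.Z l.dl t k

/-- the sum of the weight vectors over the decision time of the other neighbour, with weights
`φ` -/
noncomputable def G (φ : ℕ → ℝ) (l : Info) (t : ℕ) (k : ℕ) : ℝ :=
  ∑ c ∈ range t, φ c * he A N w.Z (fun τ => l.dl τ + (Info.ea c).dl τ) t k

theorem H_zero (l : Info) (k : ℕ) : H A N w l 0 k = if k = 0 then 1 else 0 := rfl

theorem H_succ (l : Info) (t q : ℕ) :
    H A N w l (t + 1) q = hstep A N (w.Z t) t (l.dl t) (H A N w l t) q := rfl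

theorem G_zero (φ : ℕ → ℝ) (l : Info) (k : ℕ) : G A N w φ l 0 k = 0 := by
  simp [G]

theorem G_succ (φ : ℕ → ℝ) (l : Info) (t q : ℕ) :
    G A N w φ l (t + 1) q = hstep A N (w.Z t) t (l.dl t + 1) (G A N w φ l t) q +
      φ t * hstep A N (w.Z t) t (l.dl t) (H A N w l t) q := by
  unfold G
  rw [Finset.sum_range_succ]
  congr 1
  · unfold hstep
    simp only [Finset.mul_sum, Finset.sum_mul]
    have h1 : ∀ c ∈ range t, φ c * he A N w.Z (fun τ => l.dl τ + (Info.ea c).dl τ) (t + 1) q =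
        ∑ k ∈ range (q + 1), (q.choose k : ℝ) *
          (φ c * he A N w.Z (fun τ => l.dl τ + (Info.ea c).dl τ) t k) *
          (1 - (A t (k + (l.dl t + 1)) : ℝ) / N) * w.Z t ^ (q - k) := by
      intro c hc
      rw [he_succ]
      unfold hstep
      rw [Finset.mul_sum]
      refine Finset.sum_congr rfl fun k _ => ?_
      have : (Info.ea c).dl t = 1 := by
        simp [Info.dl, Finset.mem_range.mp hc]
      simp only [this]
      ring
    rw [Finset.sum_congr rfl h1, Finset.sum_comm]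
  · rw [he_succ]
    have h0 : (Info.ea t).dl t = 0 := by simp [Info.dl]
    simp only [h0, Nat.add_zero]
    congr 1
    unfold hstep
    refine Finset.sum_congr rfl fun k _ => ?_
    rw [he_congr A N w.Z (e := fun τ => l.dl τ + (Info.ea t).dl τ) (e' := l.dl) t ?_ k]
    · rfl
    · intro τ hτ
      have : (Info.ea t).dl τ = 0 := by simp [Info.dl, not_lt.mpr hτ.le]
      simp only [this, Nat.add_zero]

/-- the value of the transfer operator at `(l, t, ρ)`; `a`, `d`, `b` are the potentials of `ne`,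
`tl` and the sum of the potentials of `ea t` -/
noncomputable def Sf (a : ℕ → Bool → ℝ) (d b φ : ℕ → ℝ) (l : Info) (t : ℕ) (ρ : Bool) : ℝ :=
  fw A N w l Info.ne t ρ (l.dl t + 1) (G A N w φ l t) +
    (if ρ then
      fw A N w l Info.ne t ρ (l.dl t) (H A N w l t) * (b t + a t false) +
      fw A N w l Info.tl t ρ (l.dl t) (H A N w l t) * (a t true / 2) +
      fw A N w l Info.ne t ρ (l.dl t) (H A N w l t) * (d t / 2)
    else fw A N w l Info.ne t ρ (l.dl t) (H A N w l t) * (b t + φ t))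

/-- the sum of the potentials of `ne` over the admissible flags -/
noncomputable def phi (m : ℕ) (a : ℕ → Bool → ℝ) (t : ℕ) : ℝ :=
  a t false + if t < m then a t true else 0

/-- positivity of the law -/
structure Pos : Prop where
  A_le : ∀ t k, A t k ≤ N
  W_nonneg : ∀ t ≤ m, 0 ≤ w.W t
  Z_nonneg : ∀ t < m, 0 ≤ w.Z t
  X_nonneg : ∀ t < m, 0 ≤ w.X t
  X_le : ∀ t < m, w.X t ≤ w.W t
  P_nonneg : ∀ t < m, 0 ≤ w.P t
  P_le : ∀ t < m, w.P t / 2 ≤ w.W t

variable {A N w}

theorem Pos.one_sub (h : Pos A N w) (t k : ℕ) : 0 ≤ 1 - (A t k : ℝ) / N := by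
  have h1 : (A t k : ℝ) ≤ N := by exact_mod_cast h.A_le t k
  rcases eq_or_lt_of_le (Nat.zero_le N) with h0 | h0
  · rw [← h0]; simp
  · have : (0 : ℝ) < N := by exact_mod_cast h0
    rw [sub_nonneg, div_le_one this]
    exact h1

theorem Pos.hstep_nonneg (h : Pos A N w) {t e : ℕ} (ht : t < m) {v : ℕ → ℝ} (hv : ∀ k, 0 ≤ v k)
    (q : ℕ) : 0 ≤ hstep A N (w.Z t) t e v q := by
  unfold hstep
  refine Finset.sum_nonneg fun k _ => ?_
  exact mul_nonneg (mul_nonneg (mul_nonneg (Nat.cast_nonneg _) (hv k)) (h.one_sub _ _))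
    (pow_nonneg (h.Z_nonneg t ht) _)

theorem Pos.he_nonneg (h : Pos A N w) (e : ℕ → ℕ) :
    ∀ t ≤ m, ∀ q, 0 ≤ he A N w.Z e t q := by
  intro t
  induction t with
  | zero => intro _ q; simp only [he]; split_ifs <;> norm_num
  | succ t ih =>
    intro ht q
    rw [he_succ]
    exact h.hstep_nonneg (Nat.lt_of_succ_le ht) (ih (by omega)) q

theorem sub_pow_nonneg {x y : ℝ} (hx : 0 ≤ x) (hxy : x ≤ y) (n : ℕ) : 0 ≤ y ^ n - (y - x) ^ n := by
  rw [sub_nonneg]
  exact pow_le_pow_left₀ (by linarith) (by linarith) n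

theorem Pos.fw_nonneg (h : Pos A N w) {l r : Info} {t : ℕ} {ρ : Bool} (hA : Adm m t ρ) (e : ℕ)
    {v : ℕ → ℝ} (hv : ∀ k, 0 ≤ v k) : 0 ≤ fw A N w l r t ρ e v := by
  have hc : ∀ k, (0 : ℝ) ≤ (Nat.choose 2 k : ℝ) := fun k => Nat.cast_nonneg _
  have hN : (0 : ℝ) ≤ N := Nat.cast_nonneg _
  unfold fw
  cases ρ
  · simp only [Bool.false_eq_true, if_false]
    unfold fB
    by_cases ht : t < m
    · rw [if_pos ht]
      refine Finset.sum_nonneg fun k _ => ?_
      exact mul_nonneg (mul_nonneg (mul_nonneg (hc k) (hv k)) (h.one_sub _ _))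
        (sub_pow_nonneg (h.X_nonneg t ht) (h.X_le t ht) _)
    · rw [if_neg ht]
      refine Finset.sum_nonneg fun k _ => ?_
      exact mul_nonneg (mul_nonneg (hc k) (hv k)) (pow_nonneg (h.W_nonneg m le_rfl) _)
  · have ht : t < m := hA.2 rfl
    simp only [if_true]
    split_ifs
    · unfold fM
      refine Finset.sum_nonneg fun k _ => ?_
      exact mul_nonneg (mul_nonneg (mul_nonneg (hc k) (hv k))
        (div_nonneg (Nat.cast_nonneg _) hN)) (pow_nonneg (h.W_nonneg t ht.le) _)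
    · unfold fO
      refine Finset.sum_nonneg fun k _ => ?_
      exact mul_nonneg (mul_nonneg (mul_nonneg (hc k) (hv k))
        (div_nonneg (Nat.cast_nonneg _) hN))
        (sub_pow_nonneg (by linarith [h.P_nonneg t ht]) (h.P_le t ht) _)

/-- the potential from the arrays -/
noncomputable def Phi (ε ρ₀ : ℝ) (a : ℕ → Bool → ℝ) (d : ℕ → ℝ) (s : ℕ → ℕ → Bool → ℝ) :
    Info → ℕ → Bool → ℝ
  | Info.ne, t, ρ => a t ρ
  | Info.tl, t, _ => d t
  | Info.ea c, t, ρ => s c t ρ / ρ₀ + ε

/-- the sum in `Potential.step` -/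
theorem step_sum (Φ : Info → ℕ → Bool → ℝ) (l : Info) {t : ℕ} {ρ : Bool} (hA : Adm m t ρ) :
    ∑ t' ∈ range (m + 1), ∑ ρ' : Bool, ∑ c : Bool,
      (if Adm m t' ρ' then cw t ρ t' ρ' c * Fw A N w l (rInfo t ρ t' ρ' c) t ρ *
        Φ (lInfo t ρ t' ρ' c) t' ρ' else 0) =
    (∑ t' ∈ range t, Fw A N w l (Info.ea t') t ρ * phi m (fun τ ρ' => Φ Info.ne τ ρ') t') +
    ((if ρ then
      Fw A N w l Info.ne t ρ * Φ Info.ne t false +
      Fw A N w l Info.tl t ρ * (Φ Info.ne t true / 2) +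
      Fw A N w l Info.ne t ρ * (Φ Info.tl t true / 2)
    else Fw A N w l Info.ne t ρ * phi m (fun τ ρ' => Φ Info.ne τ ρ') t) +
    Fw A N w l Info.ne t ρ * ∑ t' ∈ Ico (t + 1) (m + 1), phi m (fun τ ρ' => Φ (Info.ea t) τ ρ') t')
    := by
  have ht : t ≤ m := hA.1
  rw [← Finset.sum_range_add_sum_Ico _ (show t ≤ m + 1 by omega),
    Finset.sum_eq_sum_Ico_succ_bot (show t < m + 1 by omega)]
  congr 1
  · refine Finset.sum_congr rfl fun t' ht' => ?_
    have h1 : t' < t := Finset.mem_range.mp ht'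
    have h2 : t' < m := by omega
    have h3 : ¬ t < t' := by omega
    have h4 : t' ≠ t := by omega
    simp only [Fintype.sum_bool, phi, Adm, cw, rInfo, lInfo, h1, h2, h3, h4, h2.le, if_true,
      if_false, false_and, and_false, true_and, and_true, implies_true, Bool.false_eq_true,
      Bool.true_eq_false, false_implies, reduceIte, not_true_eq_false, not_false_eq_true]
    ring
  congr 1
  · cases ρ
    · simp only [Fintype.sum_bool, phi, Adm, cw, rInfo, lInfo, lt_irrefl, ht, if_true,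
        if_false, false_and, and_false, true_and, and_true, implies_true, Bool.false_eq_true,
        Bool.true_eq_false, false_implies, reduceIte, not_true_eq_false, not_false_eq_true]
      by_cases h : t < m
      · simp only [h, forall_const, if_true]; ring
      · simp only [h, forall_const, if_false]; ring
    · have h : t < m := hA.2 rfl
      simp only [Fintype.sum_bool, phi, Adm, cw, rInfo, lInfo, lt_irrefl, ht, h, if_true,
        if_false, false_and, and_false, true_and, and_true, implies_true, Bool.false_eq_true,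
        Bool.true_eq_false, false_implies, reduceIte, not_true_eq_false, not_false_eq_true]
      ring
  · rw [Finset.mul_sum]
    refine Finset.sum_congr rfl fun t' ht' => ?_
    have h0 := Finset.mem_Ico.mp ht'
    have h1 : t < t' := by omega
    have h2 : t' ≤ m := by omega
    have h3 : ¬ t' < t := by omega
    have h4 : t' ≠ t := by omega
    simp only [Fintype.sum_bool, phi, Adm, cw, rInfo, lInfo, h1, h2, h3, h4, if_true,
      if_false, false_and, and_false, true_and, and_true, implies_true, Bool.false_eq_true,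
      Bool.true_eq_false, false_implies, reduceIte, not_true_eq_false, not_false_eq_true]
    by_cases h : t' < m
    · simp only [h, forall_const, if_true]; ring
    · simp only [h, forall_const, if_false]; ring

/-- the transfer operator through the vectors `G` and `H` -/
theorem sum_eq_Sf (a : ℕ → Bool → ℝ) (d b : ℕ → ℝ) (l : Info) {t : ℕ} {ρ : Bool}
    (hA : Adm m t ρ) :
    (∑ t' ∈ range t, Fw A N w l (Info.ea t') t ρ * phi m a t') +
    ((if ρ then
      Fw A N w l Info.ne t ρ * a t false +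
      Fw A N w l Info.tl t ρ * (a t true / 2) +
      Fw A N w l Info.ne t ρ * (d t / 2)
    else Fw A N w l Info.ne t ρ * phi m a t) + Fw A N w l Info.ne t ρ * b t) =
    Sf A N w a d b (phi m a) l t ρ := by
  have ht : t ≤ m := hA.1
  have h1 : ∑ t' ∈ range t, Fw A N w l (Info.ea t') t ρ * phi m a t' =
      fw A N w l Info.ne t ρ (l.dl t + 1) (G A N w (phi m a) l t) := by
    unfold G
    rw [← fw_sum]
    refine Finset.sum_congr rfl fun c hc => ?_
    rw [Fw_eq A N w _ _ _ _ ht]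
    have h2 : (Info.ea c).dl t = 1 := by simp [Info.dl, Finset.mem_range.mp hc]
    rw [h2, mul_comm]
    congr 1
    unfold fw
    simp
  have hne : Fw A N w l Info.ne t ρ = fw A N w l Info.ne t ρ (l.dl t) (H A N w l t) := by
    rw [Fw_eq A N w _ _ _ _ ht]
    rfl
  have htl : Fw A N w l Info.tl t ρ = fw A N w l Info.tl t ρ (l.dl t) (H A N w l t) := by
    rw [Fw_eq A N w _ _ _ _ ht]
    rfl
  rw [h1, hne, htl]
  unfold Sf
  cases ρ
  · simp only [Bool.false_eq_true, if_false]
    ring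
  · simp only [if_true]
    ring

theorem potential_of_arrays (hpos : Pos A N w) {ρ₀ ε : ℝ} (hρ : 0 < ρ₀) (hε : 0 < ε)
    (a : ℕ → Bool → ℝ) (d b : ℕ → ℝ) (s : ℕ → ℕ → Bool → ℝ)
    (ha : ∀ t ρ, ε ≤ a t ρ) (hd : ∀ t, ε ≤ d t) (hs : ∀ c t ρ, 0 ≤ s c t ρ)
    (c1 : ∀ t ρ, Adm m t ρ → Sf A N w a d b (phi m a) Info.ne t ρ ≤ ρ₀ * a t ρ)
    (c2 : ∀ t, t < m → Sf A N w a d b (phi m a) Info.tl t true ≤ ρ₀ * d t)
    (c3 : ∀ c t ρ, c < t → Adm m t ρ → Sf A N w a d b (phi m a) (Info.ea c) t ρ ≤ s c t ρ)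
    (c4 : ∀ c ≤ m, ∑ t ∈ Ico (c + 1) (m + 1), phi m (fun τ ρ => s c τ ρ / ρ₀ + ε) t ≤ b c) :
    Nonempty (Potential m N A w ρ₀) := by
  have hge : ∀ l t ρ, ε ≤ Phi ε ρ₀ a d s l t ρ := by
    intro l t ρ
    cases l with
    | ea c =>
      have : 0 ≤ s c t ρ / ρ₀ := div_nonneg (hs c t ρ) hρ.le
      simp only [Phi]; linarith
    | ne => exact ha t ρ
    | tl => exact hd t
  refine ⟨⟨fun l t ρ => Phi ε ρ₀ a d s l t ρ / ε, ?_, ?_⟩⟩
  · intro l t ρ
    rw [le_div_iff₀ hε, one_mul]
    exact hge l t ρ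
  · intro l t ρ hA htl hea
    have hFn : 0 ≤ Fw A N w l Info.ne t ρ := by
      rw [Fw_eq A N w _ _ _ _ hA.1]
      exact hpos.fw_nonneg hA _ (hpos.he_nonneg _ t hA.1)
    have hmain : ∑ t' ∈ range (m + 1), ∑ ρ' : Bool, ∑ c : Bool,
        (if Adm m t' ρ' then cw t ρ t' ρ' c * Fw A N w l (rInfo t ρ t' ρ' c) t ρ *
          Phi ε ρ₀ a d s (lInfo t ρ t' ρ' c) t' ρ' else 0) ≤ ρ₀ * Phi ε ρ₀ a d s l t ρ := by
      rw [step_sum _ l hA]
      have hle : (∑ t' ∈ range t, Fw A N w l (Info.ea t') t ρ * phi m a t') +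
          ((if ρ then
            Fw A N w l Info.ne t ρ * a t false +
            Fw A N w l Info.tl t ρ * (a t true / 2) +
            Fw A N w l Info.ne t ρ * (d t / 2)
          else Fw A N w l Info.ne t ρ * phi m a t) +
          Fw A N w l Info.ne t ρ * ∑ t' ∈ Ico (t + 1) (m + 1),
            phi m (fun τ ρ' => s t τ ρ' / ρ₀ + ε) t') ≤ Sf A N w a d b (phi m a) l t ρ := by
        rw [← sum_eq_Sf a d b l hA]
        have := mul_le_mul_of_nonneg_left (c4 t hA.1) hFn
        linarith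
      refine le_trans hle ?_
      cases l with
      | ne => exact c1 t ρ hA
      | tl =>
        have hr : ρ = true := htl rfl
        subst hr
        exact c2 t (hA.2 rfl)
      | ea c =>
        have h1 := c3 c t ρ (hea c rfl) hA
        have h2 : ρ₀ * Phi ε ρ₀ a d s (Info.ea c) t ρ = s c t ρ + ρ₀ * ε := by
          simp only [Phi]
          field_simp
        rw [h2]
        have : 0 < ρ₀ * ε := mul_pos hρ hε
        linarith
    have hscale : ∑ t' ∈ range (m + 1), ∑ ρ' : Bool, ∑ c : Bool,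
        (if Adm m t' ρ' then cw t ρ t' ρ' c * Fw A N w l (rInfo t ρ t' ρ' c) t ρ *
          (Phi ε ρ₀ a d s (lInfo t ρ t' ρ' c) t' ρ' / ε) else 0) =
        (∑ t' ∈ range (m + 1), ∑ ρ' : Bool, ∑ c : Bool,
        (if Adm m t' ρ' then cw t ρ t' ρ' c * Fw A N w l (rInfo t ρ t' ρ' c) t ρ *
          Phi ε ρ₀ a d s (lInfo t ρ t' ρ' c) t' ρ' else 0)) / ε := by
      simp only [Finset.sum_div]
      refine Finset.sum_congr rfl fun t' _ => Finset.sum_congr rfl fun ρ' _ =>
        Finset.sum_congr rfl fun c _ => ?_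
      split_ifs
      · ring
      · simp
    rw [hscale, div_le_iff₀ hε]
    calc _ ≤ ρ₀ * Phi ε ρ₀ a d s l t ρ := hmain
      _ = ρ₀ * (Phi ε ρ₀ a d s l t ρ / ε) * ε := by field_simp

end Real

end Pool.Agent.G4
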