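import Pool.Agent.G4.Sound5
import Pool.Agent.G4.Data

/-!
# The certificate
-/

set_option autoImplicit false

namespace Pool.Agent.G4

/-- There are thresholds with `128` rounds for which the transfer operator of the path has growth
`0.9985 / 3`. -/
theorem cert : ∃ (m N : ℕ) (A : ℕ → ℕ → ℕ) (w : Law m N A) (ρ₀ : ℝ), 0 < ρ₀ ∧ 3 * ρ₀ < 1 ∧
    0 < N ∧ Even N ∧ (∀ t k, A t k ≤ N) ∧ Nonempty (Potential m N A w ρ₀) := by
  obtain ⟨hA, w, hw⟩ := Chk.check_sound (by norm_num) Chk.check_table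
  refine ⟨Chk.table.length, Chk.NN, Chk.AA Chk.table Chk.last, w, Chk.rho 9985, ?_, ?_, ?_, ?_, hA,
    hw⟩
  · unfold Chk.rho; norm_num
  · unfold Chk.rho; norm_num
  · exact Chk.NN_pos'
  · exact ⟨32768, rfl⟩

end Pool.Agent.G4
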