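import Mathlib

/-!
# The integer checker of the certificate

Plain structural recursion on lists of natural numbers, to be evaluated by the kernel.
-/

set_option autoImplicit false

namespace Pool.Agent.G4.Chk

/-- One round: thresholds `a0 .. a4`, upper bounds `w x p z` (unit `2 ^ 64`) of the law, potentials
`b r l q` (unit `2 ^ 20`). -/
structure Rd where
  a0 : ℕ
  a1 : ℕ
  a2 : ℕ
  a3 : ℕ
  a4 : ℕ
  w : ℕ
  x : ℕ
  p : ℕ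
  z : ℕ
  b : ℕ
  r : ℕ
  l : ℕ
  q : ℕ

/-- number of thresholds -/
def NN : ℕ := 65536
/-- unit of the law -/
def SS : ℕ := 18446744073709551616
/-- unit of the potentials -/
def UU : ℕ := 1048576

/-- state: two vectors -/
structure Vs where
  v0 : ℕ
  v1 : ℕ
  v2 : ℕ
  g0 : ℕ
  g1 : ℕ
  g2 : ℕ

def h0 (c0 v0 : ℕ) : ℕ := v0 * c0 / NN + 1
def h1 (c0 c1 z v0 v1 : ℕ) : ℕ := (v0 * c0 * z + v1 * c1 * SS) / (NN * SS) + 1
def h2 (c0 c1 c2 z v0 v1 v2 : ℕ) : ℕ :=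
  (v0 * c0 * (z * z) + 2 * (v1 * c1 * (z * SS)) + v2 * c2 * (SS * SS)) / (NN * (SS * SS)) + 1

/-- the functional of `FB` -/
def kB (c0 c1 w x v0 v1 : ℕ) : ℕ :=
  (v0 * c0 * (x * (2 * w - x)) + 2 * (v1 * c1 * (x * SS))) / (NN * (SS * SS)) + 1
/-- the functional of `FM` -/
def kM (a0 a1 a2 w v0 v1 v2 : ℕ) : ℕ :=
  (v0 * a0 * (w * w) + 2 * (v1 * a1 * (w * SS)) + v2 * a2 * (SS * SS)) / (NN * (SS * SS)) + 1
/-- the functional of `FO` -/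
def kO (a0 a1 w p v0 v1 : ℕ) : ℕ :=
  (v0 * a0 * (p * (4 * w - p)) + 4 * (v1 * a1 * (p * SS))) / (4 * (NN * (SS * SS))) + 1
/-- the functional of `FE` -/
def kE (w v0 v1 v2 : ℕ) : ℕ :=
  (v0 * (w * w) + 2 * (v1 * (w * SS)) + v2 * (SS * SS)) / (SS * SS) + 1

/-- potential from the value of the operator; the growth is `rn / (3 * 10000)` -/
def pot (rn s : ℕ) : ℕ := UU + (30000 * s) / rn + 1

/-- value at `(ea c, t, false)` or (with the thresholds of one neighbour less) `(ne, t, false)` -/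
def eB (c0 c1 c2 : ℕ) (r : Rd) (s : Vs) : ℕ :=
  (kB c1 c2 r.w r.x s.g0 s.g1 + kB c0 c1 r.w r.x s.v0 s.v1 * (r.b + r.r + r.q)) / SS + 1

/-- value at `(·, t, true)`; `fo` and `fm` are the functionals of `v` -/
def eR (a1 a2 fo fm : ℕ) (r : Rd) (s : Vs) : ℕ :=
  (2 * kO a1 a2 r.w r.p s.g0 s.g1 + fo * (2 * (r.q + r.b) + r.l) + fm * r.r) / (2 * SS) + 1

/-- value at `(tl, t, true)` -/
def eL (fm : ℕ) (r : Rd) (s : Vs) : ℕ :=
  (2 * kM r.a1 r.a2 r.a3 r.w s.g0 s.g1 s.g2 + fm * (2 * (r.q + r.b) + r.r + r.l)) / (2 * SS) + 1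

/-- value at the end -/
def eE (e : Rd) (s : Vs) : ℕ :=
  (kE e.w s.g0 s.g1 s.g2 + kE e.w s.v0 s.v1 s.v2 * (e.b + e.q)) / SS + 1

/-- evaluate `n` -/
@[inline] def force {α : Type} (n : ℕ) (k : ℕ → α) : α :=
  match n with
  | 0 => k 0
  | n + 1 => k (n + 1)

/-- a step; `c0 c1 c2 c3`: `N` minus the thresholds -/
def stp {α : Type} (c0 c1 c2 c3 : ℕ) (r : Rd) (s : Vs) (k : Vs → α) : α :=
  force (h0 c0 s.v0) fun v0 =>
  force (h1 c0 c1 r.z s.v0 s.v1) fun v1 =>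
  force (h2 c0 c1 c2 r.z s.v0 s.v1 s.v2) fun v2 =>
  force (h0 c1 s.g0 + (r.b + r.r) * v0) fun g0 =>
  force (h1 c1 c2 r.z s.g0 s.g1 + (r.b + r.r) * v1) fun g1 =>
  force (h2 c1 c2 c3 r.z s.g0 s.g1 s.g2 + (r.b + r.r) * v2) fun g2 =>
  k ⟨v0, v1, v2, g0, g1, g2⟩

/-- the sum of the potentials of `ea c` from the present time on -/
def inner (rn : ℕ) (e : Rd) : List Rd → Vs → ℕ → ℕ
  | [], s, acc => acc + pot rn (eE e s)
  | r :: rs, s, acc =>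
    force (acc + pot rn (eB (NN - r.a1) (NN - r.a2) (NN - r.a3) r s) +
      pot rn (eR r.a2 r.a3 (kO r.a1 r.a2 r.w r.p s.v0 s.v1)
        (kM r.a1 r.a2 r.a3 r.w s.v0 s.v1 s.v2) r s)) fun acc' =>
    stp (NN - r.a1) (NN - r.a2) (NN - r.a3) (NN - r.a4) r s fun s' =>
    inner rn e rs s' acc'

/-- the outer loop -/
def outer (rn : ℕ) (e : Rd) : List Rd → Vs → Bool
  | [], s => Nat.ble (pot rn (eE e s)) e.b
  | r :: rs, s =>
    Nat.ble (pot rn (eB (NN - r.a0) (NN - r.a1) (NN - r.a2) r s)) r.b &&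
    Nat.ble (pot rn (eR r.a1 r.a2 (kO r.a0 r.a1 r.w r.p s.v0 s.v1)
        (kM r.a0 r.a1 r.a2 r.w s.v0 s.v1 s.v2) r s)) r.r &&
    Nat.ble (pot rn (eL (kM r.a0 r.a1 r.a2 r.w s.v0 s.v1 s.v2) r s)) r.l &&
    stp (NN - r.a0) (NN - r.a1) (NN - r.a2) (NN - r.a3) r s fun s' =>
    Nat.ble (inner rn e rs s' 0) r.q && outer rn e rs s'

/-! ### The law -/

/-- unit of the intervals -/
def KK : ℕ := 2 ^ 350
/-- `KK / SS` -/
def DD : ℕ := 2 ^ 286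

/-- intervals for `he 0..3` and `W` -/
structure Ls where
  l0 : ℕ
  l1 : ℕ
  l2 : ℕ
  l3 : ℕ
  u0 : ℕ
  u1 : ℕ
  u2 : ℕ
  u3 : ℕ
  wl : ℕ
  wu : ℕ

/-- numerator of the cubic form of `P`, `X`, `W` -/
def ev (h0 h1 h2 h3 a0 a1 a2 a3 x : ℕ) : ℕ :=
  (h0 * a0 * (x * x * x) + 3 * (h1 * a1 * (x * x * KK)) + 3 * (h2 * a2 * (x * KK * KK)) +
    h3 * a3 * (KK * KK * KK)) / (NN * (KK * KK * KK))

def e0 (h0 c0 : ℕ) : ℕ := h0 * c0 / NN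
def e1 (h0 h1 c0 c1 z : ℕ) : ℕ := (h0 * c0 * z + h1 * c1 * KK) / (NN * KK)
def e2 (h0 h1 h2 c0 c1 c2 z : ℕ) : ℕ :=
  (h0 * c0 * (z * z) + 2 * (h1 * c1 * (z * KK)) + h2 * c2 * (KK * KK)) / (NN * (KK * KK))

/-- one round of the law -/
def lstp {α : Type} (r : Rd) (s : Ls) (k : (pu xu zu : ℕ) → Ls → α) : α :=
  force (ev s.l0 s.l1 s.l2 s.l3 r.a0 r.a1 r.a2 r.a3 s.wl) fun pl =>
  force (ev s.u0 s.u1 s.u2 s.u3 r.a0 r.a1 r.a2 r.a3 s.wu + 1) fun pu =>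
  force (s.wl - (pu / 2 + 1)) fun bl =>
  force (s.wu - pl / 2) fun bu =>
  force (ev s.l0 s.l1 s.l2 s.l3 r.a0 r.a1 r.a2 r.a3 bl) fun xl =>
  force (ev s.u0 s.u1 s.u2 s.u3 r.a0 r.a1 r.a2 r.a3 bu + 1) fun xu =>
  force (s.wl - xu) fun cl =>
  force (s.wu - xl) fun cu =>
  force (ev s.l0 s.l1 s.l2 s.l3 (NN - r.a0) (NN - r.a1) (NN - r.a2) (NN - r.a3) cl) fun wl =>
  force (ev s.u0 s.u1 s.u2 s.u3 (NN - r.a0) (NN - r.a1) (NN - r.a2) (NN - r.a3) cu + 1) fun wu =>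
  force (cl - wu) fun zl =>
  force (cu - wl) fun zu =>
  force (e0 s.l0 (NN - r.a0)) fun l0 =>
  force (e1 s.l0 s.l1 (NN - r.a0) (NN - r.a1) zl) fun l1 =>
  force (e2 s.l0 s.l1 s.l2 (NN - r.a0) (NN - r.a1) (NN - r.a2) zl) fun l2 =>
  force (ev s.l0 s.l1 s.l2 s.l3 (NN - r.a0) (NN - r.a1) (NN - r.a2) (NN - r.a3) zl) fun l3 =>
  force (e0 s.u0 (NN - r.a0) + 1) fun u0 =>
  force (e1 s.u0 s.u1 (NN - r.a0) (NN - r.a1) zu + 1) fun u1 =>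
  force (e2 s.u0 s.u1 s.u2 (NN - r.a0) (NN - r.a1) (NN - r.a2) zu + 1) fun u2 =>
  force (ev s.u0 s.u1 s.u2 s.u3 (NN - r.a0) (NN - r.a1) (NN - r.a2) (NN - r.a3) zu + 1) fun u3 =>
  k pu xu zu ⟨l0, l1, l2, l3, u0, u1, u2, u3, wl, wu⟩

/-- check the upper bounds of the law -/
def law (e : Rd) : List Rd → Ls → Bool
  | [], s => Nat.ble s.wu (e.w * DD) && Nat.ble UU e.b && Nat.ble UU e.r && Nat.ble UU e.l &&
      Nat.ble e.a0 NN && Nat.ble e.a1 NN && Nat.ble e.a2 NN && Nat.ble e.a3 NN && Nat.ble e.a4 NN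
  | r :: rs, s =>
    lstp r s fun pu xu zu s' =>
      Nat.ble s.wu (r.w * DD) && Nat.ble pu (r.p * DD) && Nat.ble xu (r.x * DD) &&
      Nat.ble zu (r.z * DD) && Nat.ble r.x r.w && Nat.ble r.p (2 * r.w) &&
      Nat.ble r.a0 NN && Nat.ble r.a1 NN && Nat.ble r.a2 NN && Nat.ble r.a3 NN &&
      Nat.ble r.a4 NN && Nat.ble UU r.b && Nat.ble UU r.r && Nat.ble UU r.l && law e rs s'

/-- the whole check -/
def check (rn : ℕ) (T : List Rd) (e : Rd) : Bool :=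
  law e T ⟨KK, 0, 0, 0, KK, 0, 0, 0, KK, KK⟩ && outer rn e T ⟨SS, 0, 0, 0, 0, 0⟩

end Pool.Agent.G4.Chk
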