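import Pool.Agent.Acy.Prod

/-!
# A local random process on graphs of degree four: definitions

`nb` is the neighbour map of a graph, `S` a finite set of deleted vertices, `lab v t` the label of
`v` in round `t`, `bt x y t` says that `x` beats `y` in round `t`, `A t k` is the threshold for a
vertex with `k` decided neighbours.
-/

set_option autoImplicit false

namespace Pool.Agent.G4

open Finset
open scoped Classical

/-- status of a vertex: undecided, member of the independent set, dead -/
inductive St
  | u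
  | x
  | d

/-- the data which determine the process -/
structure Sys (V : Type) where
  nb : V → Finset V
  A : ℕ → ℕ → ℕ
  lab : V → ℕ → ℕ
  bt : V → V → ℕ → Prop

namespace Sys

variable {V : Type} (s : Sys V)

/-- number of decided neighbours outside `S` -/
noncomputable def cnt (S : Finset V) (σ : V → St) (v : V) : ℕ :=
  ((s.nb v \ S).filter fun y => σ y ≠ St.u).card

/-- `v` rings in round `t` if the present statuses are `σ` -/
def RingA (S : Finset V) (σ : V → St) (t : ℕ) (v : V) : Prop :=
  σ v = St.u ∧ s.lab v t < s.A t (s.cnt S σ v)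

/-- `v` rings and beats all its ringing neighbours -/
def WinA (S : Finset V) (σ : V → St) (t : ℕ) (v : V) : Prop :=
  s.RingA S σ t v ∧ ∀ y ∈ s.nb v \ S, s.RingA S σ t y → s.bt v y t

/-- statuses before round `t` in the process without the vertices of `S` -/
noncomputable def st (S : Finset V) : ℕ → V → St
  | 0, _ => St.u
  | t + 1, v =>
    if st S t v ≠ St.u then st S t v
    else if s.RingA S (st S t) t v then (if s.WinA S (st S t) t v then St.x else St.d)
    else if ∃ y ∈ s.nb v \ S, s.WinA S (st S t) t y then St.d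
    else St.u

/-- `v` rings in round `t` -/
def Ring (S : Finset V) (t : ℕ) (v : V) : Prop := s.RingA S (s.st S t) t v

/-- `v` rings in round `t` and beats its ringing neighbours: it joins the independent set -/
def Win (S : Finset V) (t : ℕ) (v : V) : Prop := s.WinA S (s.st S t) t v

/-- `v` dies in round `t` -/
def Die (S : Finset V) (t : ℕ) (v : V) : Prop := s.st S t v = St.u ∧ s.st S (t + 1) v = St.d

end Sys

/-- ball of radius `r` around `v` in the graph without `S` -/
noncomputable def ball {V : Type} (nb : V → Finset V) (S : Finset V) : ℕ → V → Finset V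
  | 0, v => {v}
  | r + 1, v => insert v ((nb v \ S).biUnion (ball nb S r))

/-- up to depth `r` the graph without `S` looks, seen from `v`, like the tree in which every vertex
has three children -/
def Good {V : Type} (nb : V → Finset V) : ℕ → Finset V → V → Prop
  | 0, _, _ => True
  | r + 1, S, v => v ∉ S ∧ (nb v \ S).card = 3 ∧
      (∀ j ∈ nb v \ S, Good nb r (insert v S) j) ∧
      ∀ j ∈ nb v \ S, ∀ k ∈ nb v \ S, j ≠ k →
        Disjoint (ball nb (insert v S) r j) (ball nb (insert v S) r k)

/-! ### The probability space -/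

section Space

variable {V : Type} [Fintype V]

/-- coordinates: `(s(v, v), t)` is the label of `v`, `(s(x, y), t)` the coin of the edge `x y` -/
abbrev Co (V : Type) (m : ℕ) : Type := Sym2 V × Fin m

/-- the uniform measure on every coordinate -/
noncomputable def mu (V : Type) (m N : ℕ) : Co V m → Fin N → ℝ := fun _ _ => 1 / N

/-- the label of the vertex `v` in round `t` -/
def labOf {V : Type} {m N : ℕ} (ω : Co V m → Fin N) (v : V) (t : ℕ) : ℕ :=
  if h : t < m then (ω (s(v, v), ⟨t, h⟩) : ℕ) else N

/-- `x` beats `y` in round `t`; `ori` is an orientation -/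
def btOf {V : Type} {m N : ℕ} (ori : V → V → Prop) (ω : Co V m → Fin N) (x y : V) (t : ℕ) : Prop :=
  ∃ h : t < m, (((ω (s(x, y), ⟨t, h⟩) : ℕ) < N / 2) ↔ ori x y)

/-- the random process -/
def sys {V : Type} (nb : V → Finset V) (A : ℕ → ℕ → ℕ) (ori : V → V → Prop) {m N : ℕ}
    (ω : Co V m → Fin N) : Sys V where
  nb := nb
  A := A
  lab := labOf ω
  bt := btOf ori ω

/-- the coordinates of a set of vertices -/
noncomputable def coo (m : ℕ) (B : Finset V) : Finset (Co V m) := B.sym2 ×ˢ univ

end Space

/-! ### The numbers -/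

/-- `he A N Z e t k`: weight of a set of `k` children which are dead at time `t`, `e` counts other
decided neighbours -/
noncomputable def he (A : ℕ → ℕ → ℕ) (N : ℕ) (Z : ℕ → ℝ) (e : ℕ → ℕ) : ℕ → ℕ → ℝ
  | 0, k => if k = 0 then 1 else 0
  | t + 1, q => ∑ k ∈ range (q + 1), (q.choose k : ℝ) * he A N Z e t k *
      (1 - (A t (k + e t) : ℝ) / N) * Z t ^ (q - k)

/-- the law of a child: `W` undecided, `P` rings, `X` joins, `Z` dies -/
structure Law (m N : ℕ) (A : ℕ → ℕ → ℕ) where
  W : ℕ → ℝ
  P : ℕ → ℝ
  X : ℕ → ℝ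
  Z : ℕ → ℝ
  W_zero : W 0 = 1
  P_eq : ∀ t < m, P t = ∑ k ∈ range 4, (Nat.choose 3 k : ℝ) * he A N Z 0 t k *
    ((A t k : ℝ) / N) * W t ^ (3 - k)
  X_eq : ∀ t < m, X t = ∑ k ∈ range 4, (Nat.choose 3 k : ℝ) * he A N Z 0 t k *
    ((A t k : ℝ) / N) * (W t - P t / 2) ^ (3 - k)
  W_succ : ∀ t < m, W (t + 1) = ∑ k ∈ range 4, (Nat.choose 3 k : ℝ) * he A N Z 0 t k *
    (1 - (A t k : ℝ) / N) * (W t - X t) ^ (3 - k)
  Z_eq : ∀ t < m, Z t = W t - X t - W (t + 1)

/-- what a vertex of the path knows about a neighbour on the path, seen at its decision time: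
`ea c`: the neighbour was decided in round `c`, earlier; `tl`: both ring in the same round and the
neighbour beats it; `ne`: everything else -/
inductive Info
  | ea (c : ℕ)
  | ne
  | tl

/-- the contribution of a neighbour on the path to the number of decided neighbours before
round `τ` -/
def Info.dl : Info → ℕ → ℕ
  | Info.ea c, τ => if c < τ then 1 else 0
  | _, _ => 0

section Weights

variable (A : ℕ → ℕ → ℕ) (N : ℕ) {m : ℕ} (w : Law m N A)

/-- the weights of a vertex of the path with two other neighbours -/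
noncomputable def hv (l r : Info) (t k : ℕ) : ℝ := he A N w.Z (fun τ => l.dl τ + r.dl τ) t k

/-- undecided up to `t`, does not ring, killed by a child -/
noncomputable def FB (l r : Info) (t : ℕ) : ℝ :=
  ∑ k ∈ range 3, (Nat.choose 2 k : ℝ) * hv A N w l r t k *
    (1 - (A t (k + (l.dl t + r.dl t)) : ℝ) / N) *
    (w.W t ^ (2 - k) - (w.W t - w.X t) ^ (2 - k))

/-- undecided up to `t`, rings -/
noncomputable def FM (l r : Info) (t : ℕ) : ℝ :=
  ∑ k ∈ range 3, (Nat.choose 2 k : ℝ) * hv A N w l r t k *
    ((A t (k + (l.dl t + r.dl t)) : ℝ) / N) * w.W t ^ (2 - k)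

/-- undecided up to `t`, rings, beaten by a child -/
noncomputable def FO (l r : Info) (t : ℕ) : ℝ :=
  ∑ k ∈ range 3, (Nat.choose 2 k : ℝ) * hv A N w l r t k *
    ((A t (k + (l.dl t + r.dl t)) : ℝ) / N) *
    (w.W t ^ (2 - k) - (w.W t - w.P t / 2) ^ (2 - k))

/-- undecided at the end -/
noncomputable def FE (l r : Info) : ℝ :=
  ∑ k ∈ range 3, (Nat.choose 2 k : ℝ) * hv A N w l r m k * w.W m ^ (2 - k)

/-- the weight of a vertex of the path decided in round `t` (`t = m`: never), `ρ`: by ringing -/
noncomputable def Fw (l r : Info) (t : ℕ) (ρ : Bool) : ℝ :=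
  if ρ then (if l = Info.tl ∨ r = Info.tl then FM A N w l r t else FO A N w l r t)
  else if t < m then FB A N w l r t else FE A N w l r

end Weights

/-- information of the left vertex (decided at `t`, `ρ`) about the right one (decided at `t'`,
`ρ'`); `c`: in a tie the right one beats the left one -/
def rInfo (t : ℕ) (ρ : Bool) (t' : ℕ) (ρ' c : Bool) : Info :=
  if t' < t then Info.ea t' else if t' = t ∧ ρ ∧ ρ' ∧ c then Info.tl else Info.ne

/-- information of the right vertex about the left one -/
def lInfo (t : ℕ) (ρ : Bool) (t' : ℕ) (ρ' c : Bool) : Info :=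
  if t < t' then Info.ea t else if t' = t ∧ ρ ∧ ρ' ∧ ¬ c then Info.tl else Info.ne

/-- weight of the coin of an edge of the path: outside ties only `c = false` is used -/
noncomputable def cw (t : ℕ) (ρ : Bool) (t' : ℕ) (ρ' c : Bool) : ℝ :=
  if t' = t ∧ ρ ∧ ρ' then 1 / 2 else if c then 0 else 1

/-- admissible decision data -/
def Adm (m t : ℕ) (ρ : Bool) : Prop := t ≤ m ∧ (ρ → t < m)

/-- A potential for the transfer operator of the path with growth `ρ₀`. -/
structure Potential (m N : ℕ) (A : ℕ → ℕ → ℕ) (w : Law m N A) (ρ₀ : ℝ) where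
  Φ : Info → ℕ → Bool → ℝ
  one_le : ∀ l t ρ, 1 ≤ Φ l t ρ
  step : ∀ l t ρ, Adm m t ρ → (l = Info.tl → ρ) → (∀ c, l = Info.ea c → c < t) →
    ∑ t' ∈ range (m + 1), ∑ ρ' : Bool, ∑ c : Bool,
      (if Adm m t' ρ' then cw t ρ t' ρ' c * Fw A N w l (rInfo t ρ t' ρ' c) t ρ *
        Φ (lInfo t ρ t' ρ' c) t' ρ' else 0) ≤ ρ₀ * Φ l t ρ

end Pool.Agent.G4
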