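import Pool.Agent.G4.Nb

/-!
# Module Embed: a finite graph of maximum degree four and girth larger than `g` is contained in a
finite 4-regular graph of girth larger than `g`
-/

set_option autoImplicit false

namespace Pool.Agent.G4

open Finset
open scoped Classical

/-! ### Closed walks without immediate returns -/

/-- In a graph of girth larger than `g`, a closed walk of length at most `g` in which no edge is
used twice in a row is trivial. -/
theorem closed_chain_length {V : Type} (G : SimpleGraph V) (g : ℕ)
    (hg : ∀ (u : V) (c : G.Walk u u), c.IsCycle → g < c.length) {u : V} (p : G.Walk u u)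
    (hch : List.IsChain (· ≠ ·) p.edges) (hl : p.length ≤ g) : p.length = 0 := by
  set S : SimpleGraph V := SimpleGraph.fromEdgeSet {e | e ∈ p.edges} with hSdef
  have hS : S ≤ G := by
    intro x y hxy
    rw [hSdef, SimpleGraph.fromEdgeSet_adj] at hxy
    exact SimpleGraph.Walk.adj_of_mem_edges p hxy.1
  have hac : S.IsAcyclic := by
    intro v c hc
    have h1 : (c.mapLe hS).IsCycle := hc.mapLe hS
    have h2 := hg v _ h1
    rw [SimpleGraph.Walk.length_map] at h2
    have h3 : c.edges.Nodup := hc.isCircuit.isTrail.edges_nodup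
    have h4 : c.edges ⊆ p.edges := by
      intro e he
      have h5 := SimpleGraph.Walk.edges_subset_edgeSet c he
      rw [hSdef, SimpleGraph.edgeSet_fromEdgeSet] at h5
      exact h5.1
    have h6 : c.edges.length ≤ p.edges.length := (h3.subperm h4).length_le
    rw [SimpleGraph.Walk.length_edges, SimpleGraph.Walk.length_edges] at h6
    omega
  have hp : ∀ e ∈ p.edges, e ∈ S.edgeSet := by
    intro e he
    rw [hSdef, SimpleGraph.edgeSet_fromEdgeSet]
    refine ⟨he, ?_⟩
    have := SimpleGraph.Walk.edges_subset_edgeSet p he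
    exact fun h => G.not_isDiag_of_mem_edgeSet this h
  have hq : (p.transfer S hp).IsPath := by
    rw [hac.isPath_iff_isChain, SimpleGraph.Walk.edges_transfer]
    exact hch
  have h0 := SimpleGraph.Walk.isPath_iff_eq_nil.mp hq
  have h1 : (p.transfer S hp).length = 0 := by rw [h0]; rfl
  rwa [SimpleGraph.Walk.length_transfer] at h1

/-! ### Involutions without short relations -/

section Words

variable (I : Type) (N : ℕ)

/-- reduced words of length at most `N` -/
def Wd : Type := {l : List I // l.IsChain (· ≠ ·) ∧ l.length ≤ N}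

instance [Finite I] : Finite (Wd I N) :=
  have : Finite {l : List I | l.length ≤ N} := (List.finite_length_le I N).to_subtype
  Finite.of_injective (fun w : Wd I N => (⟨w.1, w.2.2⟩ : {l : List I | l.length ≤ N})) (by
    intro a b hab
    exact Subtype.ext (congrArg (fun x : {l : List I | l.length ≤ N} => (x : List I)) hab))

variable {I}

/-- remove or add the letter `i` -/
noncomputable def pushL (i : I) : List I → List I
  | [] => if 0 < N then [i] else []
  | j :: l => if i = j then l else if l.length + 1 < N then i :: j :: l else j :: l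

theorem pushL_mem (i : I) (l : List I) (h : l.IsChain (· ≠ ·) ∧ l.length ≤ N) :
    (pushL N i l).IsChain (· ≠ ·) ∧ (pushL N i l).length ≤ N := by
  cases l with
  | nil =>
    by_cases h0 : 0 < N
    · have h2 : pushL N i [] = [i] := by simp [pushL, h0]
      rw [h2]
      exact ⟨List.isChain_singleton _, by simp; omega⟩
    · have h2 : pushL N i [] = [] := by simp [pushL, h0]
      rw [h2]
      exact h
  | cons j l =>
    by_cases h0 : i = j
    · have h2 : pushL N i (j :: l) = l := by simp [pushL, h0]
      rw [h2]
      exact ⟨h.1.tail, by have := h.2; simp at this; omega⟩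
    · by_cases h1 : l.length + 1 < N
      · have h2 : pushL N i (j :: l) = i :: j :: l := by simp [pushL, h0, h1]
        rw [h2]
        exact ⟨List.isChain_cons_cons.mpr ⟨h0, h.1⟩, by simp only [List.length_cons]; omega⟩
      · have h2 : pushL N i (j :: l) = j :: l := by simp [pushL, h0, h1]
        rw [h2]
        exact h

theorem pushL_pushL (i : I) (l : List I) (h : l.IsChain (· ≠ ·) ∧ l.length ≤ N) :
    pushL N i (pushL N i l) = l := by
  cases l with
  | nil =>
    by_cases h0 : 0 < N
    · simp [pushL, h0]
    · simp [pushL, h0]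
  | cons j l =>
    by_cases h0 : i = j
    · subst h0
      have h1 : pushL N i (i :: l) = l := by simp [pushL]
      rw [h1]
      cases l with
      | nil =>
        have : 0 < N := by have := h.2; simp at this; omega
        simp [pushL, this]
      | cons k l =>
        have h2 : i ≠ k := (List.isChain_cons_cons.mp h.1).1
        have h3 : l.length + 1 < N := by have := h.2; simp at this; omega
        simp [pushL, h2, h3]
    · by_cases h1 : l.length + 1 < N
      · have h2 : pushL N i (j :: l) = i :: j :: l := by simp [pushL, h0, h1]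
        rw [h2]
        simp [pushL]
      · have h2 : pushL N i (j :: l) = j :: l := by simp [pushL, h0, h1]
        rw [h2, h2]

/-- the involution of the letter `i` -/
noncomputable def sw (i : I) : Equiv.Perm (Wd I N) :=
  Function.Involutive.toPerm (fun w : Wd I N => (⟨pushL N i w.1, pushL_mem N i w.1 w.2⟩ : Wd I N))
    (fun w => Subtype.ext (pushL_pushL N i w.1 w.2))

theorem sw_val (i : I) (w : Wd I N) : (sw N i w).1 = pushL N i w.1 := rfl

theorem sw_mul_self (i : I) : sw N i * sw N i = 1 := by
  ext w
  exact Subtype.ext (pushL_pushL N i w.1 w.2)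

/-- the empty word -/
def nilW : Wd I N := ⟨[], List.isChain_nil, by simp⟩

theorem prod_apply (W : List I) : W.IsChain (· ≠ ·) → W.length ≤ N →
    ((W.map (sw N)).prod (nilW N)).1 = W := by
  induction W with
  | nil => intro _ _; rfl
  | cons i W ih =>
    intro hch hl
    rw [List.map_cons, List.prod_cons, Equiv.Perm.mul_apply, sw_val,
      ih hch.tail (by simp at hl; omega)]
    cases W with
    | nil =>
      have : 0 < N := by simp at hl; omega
      simp [pushL, this]
    | cons j W =>
      have h2 : i ≠ j := (List.isChain_cons_cons.mp hch).1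
      have h3 : W.length + 1 < N := by simp at hl; omega
      simp [pushL, h2, h3]

theorem prod_ne_one (W : List I) (hch : W.IsChain (· ≠ ·)) (hl : W.length ≤ N) (hW : W ≠ []) :
    (W.map (sw N)).prod ≠ 1 := by
  intro h
  have h1 := prod_apply N W hch hl
  rw [h] at h1
  exact hW h1.symm

end Words

/-! ### The graph -/

section Graph

variable {V I Γ : Type} [Group Γ] (G : SimpleGraph V) (own : I → V) (s : I → Γ)

/-- copies of `G` indexed by the elements of `Γ`, connected by the letters -/
def HG (hs : ∀ i, s i * s i = 1) (hs1 : ∀ i, s i ≠ 1) : SimpleGraph (V × Γ) where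
  Adj a b := (G.Adj a.1 b.1 ∧ a.2 = b.2) ∨ (a.1 = b.1 ∧ ∃ i, own i = a.1 ∧ b.2 = a.2 * s i)
  symm := ⟨by
    rintro a b (⟨h1, h2⟩ | ⟨h1, i, h2, h3⟩)
    · exact Or.inl ⟨h1.symm, h2.symm⟩
    · refine Or.inr ⟨h1.symm, i, h2.trans h1, ?_⟩
      rw [h3, mul_assoc, hs, mul_one]⟩
  loopless := ⟨by
    rintro a (⟨h1, _⟩ | ⟨_, i, _, h3⟩)
    · exact G.loopless.irrefl _ h1
    · exact hs1 i (by simpa using h3)⟩

variable (hs : ∀ i, s i * s i = 1) (hs1 : ∀ i, s i ≠ 1)

theorem chain_of_map {α β : Type} (f : α → β) {l : List α}
    (h : (l.map f).IsChain (· ≠ ·)) : l.IsChain (· ≠ ·) := by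
  rw [List.isChain_map] at h
  exact h.imp (fun _ _ hab he => hab (by rw [he]))

/-- The structure of a short walk without immediate returns. -/
theorem decomp (g : ℕ) (hg : ∀ (u : V) (c : G.Walk u u), c.IsCycle → g < c.length)
    {a b : V × Γ} (p : (HG G own s hs hs1).Walk a b) :
    List.IsChain (· ≠ ·) p.edges → p.length ≤ g →
    ∃ (w : V) (q : G.Walk a.1 w) (W : List I), W.IsChain (· ≠ ·) ∧
      b.2 = a.2 * (W.map s).prod ∧ q.length + W.length ≤ p.length ∧
      ((W = [] ∧ w = b.1 ∧ p.edges = q.edges.map (Sym2.map fun v => (v, a.2))) ∨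
        (∃ i W' rest, W = i :: W' ∧ own i = w ∧
          p.edges = q.edges.map (Sym2.map fun v => (v, a.2)) ++
            s((w, a.2), (w, a.2 * s i)) :: rest)) := by
  induction p with
  | nil =>
    intro _ _
    exact ⟨_, SimpleGraph.Walk.nil, [], List.isChain_nil, by simp, by simp, Or.inl ⟨rfl, rfl, rfl⟩⟩
  | @cons a c b h p ih =>
    intro hch hl
    rw [SimpleGraph.Walk.edges_cons] at hch
    rw [SimpleGraph.Walk.length_cons] at hl
    obtain ⟨w, q, W, h1, h2, h3, h4⟩ := ih hch.tail (by omega)
    obtain ⟨a1, a2⟩ := a
    obtain ⟨c1, c2⟩ := c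
    rcases h with ⟨hG, heq⟩ | ⟨heq, i, hi, hc⟩
    · -- an edge of `G`
      change a2 = c2 at heq
      subst heq
      refine ⟨w, SimpleGraph.Walk.cons hG q, W, h1, h2, ?_, ?_⟩
      · rw [SimpleGraph.Walk.length_cons, SimpleGraph.Walk.length_cons]; omega
      · rcases h4 with ⟨hW, hw, he⟩ | ⟨i, W', rest, hW, hw, he⟩
        · refine Or.inl ⟨hW, hw, ?_⟩
          rw [SimpleGraph.Walk.edges_cons, SimpleGraph.Walk.edges_cons, List.map_cons, he]
          rfl
        · refine Or.inr ⟨i, W', rest, hW, hw, ?_⟩
          rw [SimpleGraph.Walk.edges_cons, SimpleGraph.Walk.edges_cons, List.map_cons, he]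
          rfl
    · -- a letter
      change a1 = c1 at heq
      change own i = a1 at hi
      change c2 = a2 * s i at hc
      subst heq
      refine ⟨a1, SimpleGraph.Walk.nil, i :: W, ?_, ?_, ?_, Or.inr ⟨i, W, p.edges, rfl, hi, ?_⟩⟩
      · cases W with
        | nil => exact List.isChain_singleton _
        | cons j W =>
          refine List.isChain_cons_cons.mpr ⟨?_, h1⟩
          intro hij
          rcases h4 with ⟨hW, _, _⟩ | ⟨k, W', rest, hW, hw, he⟩
          · exact absurd hW (by simp)
          · have hk : k = j := by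
              have := List.cons.inj hW
              exact this.1.symm
            have hw' : w = a1 := by rw [← hw, hk, ← hij, hi]
            subst hw'
            have hlen : q.length = 0 := by
              apply closed_chain_length G g hg q
              · have h5 := hch.tail
                simp only [List.tail_cons] at h5
                rw [he] at h5
                exact chain_of_map _ (List.IsChain.left_of_append h5)
              · simp only at h3
                omega
            have hq : q.edges = [] := by
              rw [← List.length_eq_zero_iff, SimpleGraph.Walk.length_edges, hlen]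
            rw [he, hq, List.map_nil, List.nil_append] at hch
            have h6 := (List.isChain_cons_cons.mp hch).1
            apply h6
            rw [Sym2.eq_swap]
            congr 1
            have : a2 = c2 * s k := by rw [hk, ← hij, hc, mul_assoc, hs, mul_one]
            rw [this]
      · change b.2 = a2 * _
        rw [List.map_cons, List.prod_cons, ← mul_assoc, ← hc]
        exact h2
      · simp only [SimpleGraph.Walk.length_nil, List.length_cons, SimpleGraph.Walk.length_cons]
        omega
      · rw [SimpleGraph.Walk.edges_cons]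
        exact congrArg (fun z => s((a1, a2), (a1, z)) :: p.edges) hc

theorem HG_girth (g : ℕ) (hg : ∀ (u : V) (c : G.Walk u u), c.IsCycle → g < c.length)
    (hW : ∀ W : List I, W.IsChain (· ≠ ·) → W.length ≤ g → W ≠ [] → (W.map s).prod ≠ 1)
    (u : V × Γ) (c : (HG G own s hs hs1).Walk u u) (hc : c.IsCycle) : g < c.length := by
  by_contra hcon
  push Not at hcon
  have hch : List.IsChain (· ≠ ·) c.edges := hc.isCircuit.isTrail.edges_nodup.isChain
  obtain ⟨w, q, W, h1, h2, h3, h4⟩ := decomp G own s hs hs1 g hg c hch hcon
  have h5 : (W.map s).prod = 1 := by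
    have : u.2 * (W.map s).prod = u.2 * 1 := by rw [mul_one]; exact h2.symm
    exact mul_left_cancel this
  have h6 : W = [] := by
    by_contra hne
    exact hW W h1 (by omega) hne h5
  rcases h4 with ⟨_, hw, he⟩ | ⟨i, W', rest, hW', _, _⟩
  · subst hw
    have h7 : q.length = 0 := by
      apply closed_chain_length G g hg q
      · rw [he] at hch
        exact chain_of_map _ hch
      · omega
    have h8 : c.length = 0 := by
      rw [← SimpleGraph.Walk.length_edges, he, List.length_map, SimpleGraph.Walk.length_edges, h7]
    have := hc.three_le_length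
    omega
  · rw [h6] at hW'
    exact absurd hW' (by simp)

end Graph

theorem nbG_HG_card {V I Γ : Type} [Fintype V] [Fintype I] [Group Γ] [Fintype Γ]
    (G : SimpleGraph V) (own : I → V) (s : I → Γ) (hs : ∀ i, s i * s i = 1) (hs1 : ∀ i, s i ≠ 1)
    (hinj : Function.Injective s) (v : V) (x : Γ) :
    (nbG (HG G own s hs hs1) (v, x)).card =
      (nbG G v).card + (univ.filter fun i => own i = v).card := by
  have h1 : nbG (HG G own s hs hs1) (v, x) = (nbG G v).image (fun w => (w, x)) ∪
      (univ.filter fun i => own i = v).image (fun i => (v, x * s i)) := by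
    ext ⟨w, y⟩
    rw [mem_nbG, mem_union, mem_image, mem_image]
    constructor
    · rintro (⟨h1, h2⟩ | ⟨h1, i, h2, h3⟩)
      · exact Or.inl ⟨w, mem_nbG.mpr h1, by rw [show x = y from h2]⟩
      · refine Or.inr ⟨i, by simpa using h2, ?_⟩
        rw [show v = w from h1, show y = x * s i from h3]
    · rintro (⟨w', h1, h2⟩ | ⟨i, h1, h2⟩)
      · have e1 : w' = w := congrArg Prod.fst h2
        have e2 : x = y := congrArg Prod.snd h2
        subst e1 e2
        exact Or.inl ⟨mem_nbG.mp h1, rfl⟩
      · have e1 : v = w := congrArg Prod.fst h2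
        have e2 : x * s i = y := congrArg Prod.snd h2
        rw [mem_filter] at h1
        exact Or.inr ⟨e1, i, h1.2, e2.symm⟩
  rw [h1, card_union_of_disjoint]
  · congr 1
    · exact card_image_of_injective _ (fun a b hab => congrArg Prod.fst hab)
    · exact card_image_of_injective _ (fun a b hab =>
        hinj (mul_left_cancel (congrArg Prod.snd hab)))
  · rw [disjoint_left]
    intro z hz1 hz2
    rw [mem_image] at hz1 hz2
    obtain ⟨w, hw, rfl⟩ := hz1
    obtain ⟨i, _, hi⟩ := hz2
    have : v = w := congrArg Prod.fst hi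
    rw [← this, mem_nbG] at hw
    exact G.loopless.irrefl _ hw

theorem embed_regular_inj {V : Type} [Fintype V] (G : SimpleGraph V) (g : ℕ)
    (hdeg : ∀ v, (nbG G v).card ≤ 4)
    (hg : ∀ (u : V) (c : G.Walk u u), c.IsCycle → g < c.length) :
    ∃ (W : Type) (_ : Fintype W) (H : SimpleGraph W) (f : V → W),
      Function.Injective f ∧
      (∀ x y, G.Adj x y → H.Adj (f x) (f y)) ∧
      (∀ v, (nbG H v).card = 4) ∧
      (∀ (u : W) (c : H.Walk u u), c.IsCycle → g < c.length) := by
  let I : Type := Σ v : V, Fin (4 - (nbG G v).card)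
  let N : ℕ := g + 2
  let Γ : Type := Equiv.Perm (Wd I N)
  have hfin : Finite Γ := inferInstance
  let _ : Fintype Γ := Fintype.ofFinite Γ
  let s : I → Γ := sw N
  have hs : ∀ i, s i * s i = 1 := sw_mul_self N
  have hs1 : ∀ i, s i ≠ 1 := by
    intro i
    have := prod_ne_one N [i] (List.isChain_singleton _) (by simp [N]) (by simp)
    simpa using this
  have hinj : Function.Injective s := by
    intro i j hij
    by_contra hne
    have h1 := prod_ne_one N [i, j] (List.isChain_cons_cons.mpr ⟨hne, List.isChain_singleton _⟩)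
      (by simp [N]) (by simp)
    apply h1
    simp only [List.map_cons, List.map_nil, List.prod_cons, List.prod_nil, mul_one]
    change s i * s j = 1
    rw [hij]
    exact hs j
  refine ⟨V × Γ, inferInstance, HG G Sigma.fst s hs hs1, fun v => (v, 1), ?_, ?_, ?_, ?_⟩
  · intro x y hxy
    exact congrArg Prod.fst hxy
  · intro x y hxy
    exact Or.inl ⟨hxy, rfl⟩
  · rintro ⟨v, x⟩
    rw [nbG_HG_card G Sigma.fst s hs hs1 hinj v x]
    have h1 : (univ.filter fun i : I => i.1 = v) =
        (univ : Finset (Fin (4 - (nbG G v).card))).image (fun k => (⟨v, k⟩ : I)) := by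
      ext ⟨w, k⟩
      simp only [mem_filter, mem_univ, true_and, mem_image]
      constructor
      · intro h
        subst h
        exact ⟨k, rfl⟩
      · rintro ⟨k', hk'⟩
        exact (congrArg Sigma.fst hk').symm
    have h2 : (univ.filter fun i : I => i.1 = v).card = 4 - (nbG G v).card := by
      rw [h1, card_image_of_injective _ sigma_mk_injective, card_univ, Fintype.card_fin]
    rw [h2]
    have := hdeg v
    omega
  · exact HG_girth G Sigma.fst s hs hs1 g hg (fun W h1 h2 h3 =>
      prod_ne_one N W h1 (by simp only [N]; omega) h3)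

theorem embed_regular {V : Type} [Fintype V] (G : SimpleGraph V) (g : ℕ)
    (hdeg : ∀ v, (nbG G v).card ≤ 4)
    (hg : ∀ (u : V) (c : G.Walk u u), c.IsCycle → g < c.length) :
    ∃ (W : Type) (_ : Fintype W) (H : SimpleGraph W) (f : V → W),
      (∀ x y, G.Adj x y → H.Adj (f x) (f y)) ∧
      (∀ v, (nbG H v).card = 4) ∧
      (∀ (u : W) (c : H.Walk u u), c.IsCycle → g < c.length) := by
  obtain ⟨W, hW, H, f, _, h1, h2, h3⟩ := embed_regular_inj G g hdeg hg
  exact ⟨W, hW, H, f, h1, h2, h3⟩

/-! ### Maximum degree `k` -/

theorem exists_max_indep {V : Type} [Finite V] (G : SimpleGraph V) :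
    ∃ M : Set V, (∀ x ∈ M, ∀ y ∈ M, ¬ G.Adj x y) ∧ ∀ x, x ∉ M → ∃ y ∈ M, G.Adj x y := by
  obtain ⟨M, _, hM⟩ := Finite.exists_le_maximal (α := Set V)
    (p := fun M => ∀ x ∈ M, ∀ y ∈ M, ¬ G.Adj x y) (a := ∅) (by intro x hx; exact absurd hx (by simp))
  refine ⟨M, hM.1, fun x hx => ?_⟩
  by_contra hcon
  push Not at hcon
  have h1 : ∀ y ∈ insert x M, ∀ z ∈ insert x M, ¬ G.Adj y z := by
    rintro y (rfl | hy) z (rfl | hz)
    · exact G.loopless.irrefl _
    · exact hcon z hz
    · exact fun h => hcon y hy h.symm
    · exact hM.1 y hy z hz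
  exact hx (hM.2 h1 (Set.subset_insert x M) (Set.mem_insert x M))

/-- The step from 4-regular graphs to graphs of maximum degree at most `k`. -/
theorem max_degree_of (h4 : ∃ g : ℕ, ∀ (V : Type) [Fintype V] (G : SimpleGraph V),
      (∀ v, (nbG G v).card = 4) → (∀ (u : V) (c : G.Walk u u), c.IsCycle → g < c.length) →
      G.Colorable 3) (k : ℕ) (hk : 4 ≤ k) :
    ∃ g : ℕ, ∀ (V : Type) [Finite V] (G : SimpleGraph V),
      (∀ v, (G.neighborSet v).ncard ≤ k) → (g : ℕ∞) ≤ G.egirth → G.Colorable (k - 1) := by
  induction k, hk using Nat.le_induction with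
  | base =>
    obtain ⟨g, hg⟩ := h4
    refine ⟨g + 1, fun V _ G hdeg hgir => ?_⟩
    have hfin : Fintype V := Fintype.ofFinite V
    have hgir' : ∀ (u : V) (c : G.Walk u u), c.IsCycle → g < c.length := by
      intro u c hc
      have h1 := SimpleGraph.le_egirth.mp hgir u c hc
      have h2 : g + 1 ≤ c.length := by exact_mod_cast h1
      omega
    have hdeg' : ∀ v, (nbG G v).card ≤ 4 := by
      intro v
      have h1 : (nbG G v : Set V) = G.neighborSet v := by
        ext w
        rw [Finset.mem_coe, mem_nbG, SimpleGraph.mem_neighborSet]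
      have h2 := hdeg v
      rwa [← h1, Set.ncard_coe_finset] at h2
    obtain ⟨W, _, H, f, hf, hH, hHg⟩ := embed_regular G g hdeg' hgir'
    exact SimpleGraph.Colorable.of_hom ⟨f, fun h => hf _ _ h⟩ (hg W H hH hHg)
  | succ k hk ih =>
    obtain ⟨g, hg⟩ := ih
    refine ⟨g, fun V _ G hdeg hgir => ?_⟩
    obtain ⟨M, hM1, hM2⟩ := exists_max_indep G
    have hU : (G.induce Mᶜ).Colorable (k - 1) := by
      apply hg
      · intro v
        have h1 : (Subtype.val '' ((G.induce Mᶜ).neighborSet v)).ncard =
            ((G.induce Mᶜ).neighborSet v).ncard :=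
          Set.ncard_image_of_injective _ Subtype.val_injective
        rw [← h1]
        obtain ⟨y, hy, hvy⟩ := hM2 v v.2
        have h2 : Subtype.val '' ((G.induce Mᶜ).neighborSet v) ⊆ G.neighborSet v \ {y} := by
          rintro _ ⟨w, hw, rfl⟩
          refine ⟨hw, ?_⟩
          intro h
          rw [Set.mem_singleton_iff] at h
          exact w.2 (h ▸ hy)
        have h3 := Set.ncard_le_ncard h2 (Set.toFinite _)
        have h4 : (G.neighborSet v \ {y}).ncard = (G.neighborSet v).ncard - 1 :=
          Set.ncard_sdiff_singleton_of_mem hvy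
        have h5 := hdeg v
        omega
      · rw [SimpleGraph.le_egirth] at hgir ⊢
        intro a c hc
        have h1 : (c.map (SimpleGraph.Embedding.induce (G := G) Mᶜ).toHom).IsCycle :=
          (SimpleGraph.Walk.isCycle_map_iff_of_injective
            (SimpleGraph.Embedding.induce (G := G) Mᶜ).injective).mpr hc
        have h2 := hgir _ _ h1
        rwa [SimpleGraph.Walk.length_map] at h2
    obtain ⟨C⟩ := hU
    let D : G.Coloring (Option (Fin (k - 1))) := SimpleGraph.Coloring.mk
      (fun v => if h : v ∈ M then none else some (C ⟨v, h⟩)) (by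
        intro v w hvw
        by_cases hv : v ∈ M
        · by_cases hw : w ∈ M
          · exact absurd hvw (hM1 v hv w hw)
          · simp [hv, hw]
        · by_cases hw : w ∈ M
          · simp [hv, hw]
          · simp only [hv, hw, dif_neg, not_false_eq_true, ne_eq, Option.some.injEq]
            exact C.valid (show (G.induce Mᶜ).Adj ⟨v, hv⟩ ⟨w, hw⟩ from hvw))
    have h1 := D.colorable
    rw [Fintype.card_option, Fintype.card_fin] at h1
    have h2 : k - 1 + 1 = k + 1 - 1 := by omega
    rwa [h2] at h1

end Pool.Agent.G4
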