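import Pool.Agent.G4.TreePath

/-!
# The events of a path
-/

set_option autoImplicit false

namespace Pool.Agent.G4

open Finset
open scoped Classical

/-- the two neighbours of an inner vertex of the path which are not on the path -/
noncomputable def chs {V : Type} (nb : V → Finset V) (p : ℕ → V) (i : ℕ) : Finset V :=
  (nb (p i)).filter fun j => j ≠ p (i - 1) ∧ j ≠ p (i + 1)

namespace Sys

variable {V : Type} (s : Sys V)

/-- number of decided children, in the process without `v` -/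
noncomputable def dch (v : V) (Ch : Finset V) (τ : ℕ) : ℕ :=
  (Ch.filter fun j => ¬ s.st {v} τ j = St.u).card

/-- The event of the vertex `v` with children `Ch`, decided in round `t` (`t = m`: never),
`ρ`: by ringing. It only depends on the label of `v`, on the coins of the edges to the children
and on the branches. -/
def EvV (m : ℕ) (v : V) (Ch : Finset V) (l r : Info) (t : ℕ) (ρ : Bool) : Prop :=
  (∀ j ∈ Ch, s.st {v} t j = St.u ∨ s.st {v} t j = St.d) ∧
  (∀ τ < t, ¬ s.lab v τ < s.A τ (s.dch v Ch τ + (l.dl τ + r.dl τ))) ∧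
  (if ρ then s.lab v t < s.A t (s.dch v Ch t + (l.dl t + r.dl t)) ∧
      (l = Info.tl ∨ r = Info.tl ∨ ∃ j ∈ Ch, s.Ring {v} t j ∧ ¬ s.bt v j t)
    else (t < m → ¬ s.lab v t < s.A t (s.dch v Ch t + (l.dl t + r.dl t)) ∧
      ∃ j ∈ Ch, s.Win {v} t j))

/-- the coin of the edge between `p i` (decided at `t`, `ρ`) and `p (i + 1)` -/
def CoinOK (p : ℕ → V) (i t : ℕ) (ρ : Bool) (t' : ℕ) (ρ' c : Bool) : Prop :=
  if t' = t ∧ ρ ∧ ρ' then ((c : Prop) ↔ s.bt (p (i + 1)) (p i) t) else c = false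

/-- the vertices `p (L - n), ..., p (L - 1)` behave like vertices outside `X`; `l`, `t`, `ρ` are
the data of the first one -/
def Suf (m L : ℕ) (p : ℕ → V) : ℕ → Info → ℕ → Bool → Prop
  | 0, _, _, _ => True
  | n + 1, l, t, ρ => ∃ t' ρ' c, Adm m t' ρ' ∧ s.CoinOK p (L - (n + 1)) t ρ t' ρ' c ∧
      s.EvV m (p (L - (n + 1))) (chs s.nb p (L - (n + 1))) l (rInfo t ρ t' ρ' c) t ρ ∧
      Suf m L p n (lInfo t ρ t' ρ' c) t' ρ'

end Sys

end Pool.Agent.G4
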