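import Pool.Agent.G4.Law
import Pool.Agent.G4.PathDefs

/-!
# The law of a branch and the probability of the event of a vertex of the path
-/

set_option autoImplicit false
set_option linter.unusedSectionVars false

namespace Pool.Agent.G4

open Finset Pool.Agent.Acy
open scoped Classical

section

variable {V : Type} [Fintype V] {m N : ℕ} {A : ℕ → ℕ → ℕ} (w : Law m N A)
  {nb : V → Finset V} {ori : V → V → Prop}

/-- the star of a vertex with a good neighbourhood -/
theorem brStar (hN : 0 < N) (hA : ∀ t k, A t k ≤ N) (hirr : ∀ x, x ∉ nb x) {q t : ℕ}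
    {S : Finset V} {v : V} (hg : Good nb (q + 1) S v) (ht : t ≤ m) (hR : 3 * t ≤ q)
    (hZ : ∀ τ < t, ∀ (S' : Finset V) (v' : V), Good nb (3 * τ + 3) S' v' →
      Pr (mu V m N) (fun ω => (sys nb A ori ω).Die S' τ v') = w.Z τ) :
    StarD (mu V m N) A N w.Z t (nb v \ S)
      (fun j τ ω => (sys nb A ori ω).st (insert v S) τ j = St.u)
      (fun j τ ω => (sys nb A ori ω).st (insert v S) τ j = St.d)
      (fun τ k ω => ¬ labOf ω v τ < A τ k)
      (reg nb m (insert v S) q v) (cvs m v) := by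
  refine starD hN hA (insert v S) q v (nb v \ S) (mem_insert_self _ _) ?_ hg.2.2.2 ht hR w.Z ?_
  · intro j hj hj'
    rcases mem_insert.1 hj' with h | h
    · subst h
      exact hirr j (mem_sdiff.1 hj).1
    · exact (mem_sdiff.1 hj).2 h
  · intro τ hτ j hj
    exact hZ τ hτ _ j (good_mono nb (by omega) (hg.2.2.1 j hj))

theorem und_star (hirr : ∀ x, x ∉ nb x) (S : Finset V) (v : V) (t : ℕ) (ω : Co V m → Fin N) :
    (sys nb A ori ω).st S t v = St.u ↔
      StarD.Und (nb v \ S) (fun j τ ω => (sys nb A ori ω).st (insert v S) τ j = St.u)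
        (fun j τ ω => (sys nb A ori ω).st (insert v S) τ j = St.d)
        (fun τ k ω => ¬ labOf ω v τ < A τ k) 0 t ω :=
  (sys nb A ori ω).und_iff (hirr v)

theorem ring_star (hirr : ∀ x, x ∉ nb x) (S : Finset V) (v : V) (t : ℕ) (ω : Co V m → Fin N) :
    (sys nb A ori ω).Ring S t v ↔
      (sys nb A ori ω).st S t v = St.u ∧
        labOf ω v t < A t (StarD.dc (nb v \ S)
          (fun j τ (ω : Co V m → Fin N) => (sys nb A ori ω).st (insert v S) τ j = St.u) t ω +
            (0 : ℕ → ℕ) t) := by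
  show (sys nb A ori ω).st S t v = St.u ∧ labOf ω v t < A t _ ↔ _
  refine and_congr_right fun h => ?_
  rw [(sys nb A ori ω).cnt_eq (hirr v) (nb v \ S) (Subset.refl _) h]
  have h1 : (((sys nb A ori ω).nb v \ S) \ (nb v \ S)) = ∅ := Finset.sdiff_self _
  rw [h1, filter_empty, card_empty]
  rfl

theorem die_eq (S : Finset V) (v : V) (t : ℕ) :
    Pr (mu V m N) (fun ω => (sys nb A ori ω).Die S t v) =
      Pr (mu V m N) (fun ω => (sys nb A ori ω).st S t v = St.u) -
      Pr (mu V m N) (fun ω => (sys nb A ori ω).Win S t v) -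
      Pr (mu V m N) (fun ω => (sys nb A ori ω).st S (t + 1) v = St.u) := by
  have h1 : Pr (mu V m N) (fun ω => (sys nb A ori ω).st S t v = St.u) =
      Pr (mu V m N) (fun ω => ((sys nb A ori ω).Die S t v ∨ (sys nb A ori ω).Win S t v) ∨
        (sys nb A ori ω).st S (t + 1) v = St.u) := by
    refine Pr_congr fun ω => ⟨fun h => ?_, ?_⟩
    · rcases (sys nb A ori ω).st_cases S (t + 1) v with h1 | h1 | h1
      · exact Or.inr h1
      · rcases Sys.st_succ_x _ |>.1 h1 with h2 | h2
        · rw [h] at h2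
          simp at h2
        · exact Or.inl (Or.inr h2)
      · exact Or.inl (Or.inl ⟨h, h1⟩)
    · rintro ((h | h) | h)
      · exact h.1
      · exact h.1.1
      · exact (Sys.st_succ_u _ |>.1 h).1
  rw [h1, Pr_add, Pr_add]
  · ring
  · intro ω h h'
    have := Sys.st_succ_x _ |>.2 (Or.inr h' : (sys nb A ori ω).st S t v = St.x ∨ _)
    rw [h.2] at this
    simp at this
  · rintro ω (h | h) h'
    · rw [h.2] at h'
      simp at h'
    · have := Sys.st_succ_x _ |>.2 (Or.inr h : (sys nb A ori ω).st S t v = St.x ∨ _)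
      rw [h'] at this
      simp at this

theorem Pr_ringbt (hN : 0 < N) (hN2 : Even N) {T : Finset V} {v j : V} (hv : v ∈ T)
    (hj : j ∉ T) {t : ℕ} (ht : t < m) {P W : ℝ}
    (hP : Pr (mu V m N) (fun ω => (sys nb A ori ω).Ring T t j) = P)
    (hW : Pr (mu V m N) (fun ω => (sys nb A ori ω).st T t j = St.u) = W) :
    Pr (mu V m N) (fun ω => (sys nb A ori ω).st T t j = St.u ∧
      ((sys nb A ori ω).Ring T t j → btOf ori ω v j t)) = W - P / 2 := by
  have h1 : Pr (mu V m N) (fun ω => (sys nb A ori ω).st T t j = St.u ∧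
      ((sys nb A ori ω).Ring T t j → btOf ori ω v j t)) =
      Pr (mu V m N) (fun ω => (sys nb A ori ω).st T t j = St.u ∧
      ¬ ((sys nb A ori ω).Ring T t j ∧ ¬ btOf ori ω v j t)) := by
    refine Pr_congr fun ω => and_congr_right fun _ => ?_
    rw [not_and, not_not]
  rw [h1, Pr_and_not, hW]
  congr 1
  have h2 : Pr (mu V m N) (fun ω => (sys nb A ori ω).st T t j = St.u ∧
      ((sys nb A ori ω).Ring T t j ∧ ¬ btOf ori ω v j t)) =
      Pr (mu V m N) (fun ω => (sys nb A ori ω).Ring T t j ∧ ¬ btOf ori ω v j t) := by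
    refine Pr_congr fun ω => ⟨fun h => h.2, fun h => ⟨h.1.1, h⟩⟩
  rw [h2, Pr_and_disjoint (pm_mu hN) (ring_dependsOn nb A ori t T j)
    (dep_not (dep_bt ori v j t)) (coo_disj_of_notMem (fun h => ball_disj nb hj h hv) j), hP,
    Pr_not (pm_mu hN), Pr_bt hN hN2 ori v j ht]
  ring

theorem Pr_unwin {T : Finset V} {j : V} {t : ℕ} {X W : ℝ}
    (hX : Pr (mu V m N) (fun ω => (sys nb A ori ω).Win T t j) = X)
    (hW : Pr (mu V m N) (fun ω => (sys nb A ori ω).st T t j = St.u) = W) :
    Pr (mu V m N) (fun ω => (sys nb A ori ω).st T t j = St.u ∧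
      ¬ (sys nb A ori ω).Win T t j) = W - X := by
  rw [Pr_and_not, hW, ← hX]
  congr 1
  exact Pr_congr fun ω => ⟨fun h => h.2, fun h => ⟨h.1.1, h⟩⟩

theorem dep_const' {ι α : Type*} (S : Set ι) : DependsOn (fun _ : ι → α => True) S :=
  fun _ _ _ => rfl

/-- one round -/
theorem law_round (hN : 0 < N) (hN2 : Even N) (hA : ∀ t k, A t k ≤ N) (hirr : ∀ x, x ∉ nb x)
    {t : ℕ} (ht : t < m)
    (hZ : ∀ τ < t, ∀ (S' : Finset V) (v' : V), Good nb (3 * τ + 3) S' v' →
      Pr (mu V m N) (fun ω => (sys nb A ori ω).Die S' τ v') = w.Z τ)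
    (hW : ∀ (S' : Finset V) (v' : V), Good nb (3 * t) S' v' →
      Pr (mu V m N) (fun ω => (sys nb A ori ω).st S' t v' = St.u) = w.W t) :
    (∀ (S : Finset V) (v : V), Good nb (3 * t + 1) S v →
      Pr (mu V m N) (fun ω => (sys nb A ori ω).Ring S t v) = w.P t) ∧
    (∀ (S : Finset V) (v : V), Good nb (3 * t + 2) S v →
      Pr (mu V m N) (fun ω => (sys nb A ori ω).Win S t v) = w.X t) ∧
    (∀ (S : Finset V) (v : V), Good nb (3 * t + 3) S v →
      Pr (mu V m N) (fun ω => (sys nb A ori ω).st S (t + 1) v = St.u) = w.W (t + 1)) ∧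
    (∀ (S : Finset V) (v : V), Good nb (3 * t + 3) S v →
      Pr (mu V m N) (fun ω => (sys nb A ori ω).Die S t v) = w.Z t) := by
  have hnot : ∀ (S : Finset V) (v j : V), j ∈ nb v \ S → j ∉ insert v S := by
    intro S v j hj hj'
    rcases mem_insert.1 hj' with h | h
    · subst h
      exact hirr j (mem_sdiff.1 hj).1
    · exact (mem_sdiff.1 hj).2 h
  have hne : ∀ (S : Finset V) (v j : V), j ∈ nb v \ S → j ≠ v := by
    intro S v j hj h
    subst h
    exact hirr j (mem_sdiff.1 hj).1
  have hP : ∀ (S : Finset V) (v : V), Good nb (3 * t + 1) S v →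
      Pr (mu V m N) (fun ω => (sys nb A ori ω).Ring S t v) = w.P t := by
    intro S v hg
    have hs := brStar w hN hA hirr hg ht.le le_rfl hZ
    have h := hs.vf 0 le_rfl (fun _ _ => True) (w.W t) (fun j _ => dep_const' _)
      (fun j hj => by
        rw [← hW (insert v S) j (hg.2.2.1 j hj)]
        exact Pr_congr fun ω => by simp)
      (fun k ω => labOf ω v t < A t k)
      (fun k x y hxy => by
        show (labOf x v t < A t k) = (labOf y v t < A t k)
        rw [show labOf x v t = labOf y v t from dep_lab v t hxy])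
    rw [hg.2.1] at h
    rw [w.P_eq t ht]
    refine Eq.trans (Pr_congr fun ω => ?_) (h.trans ?_)
    · rw [ring_star hirr, und_star hirr]
      simp only [implies_true, and_true]
    · refine sum_congr rfl fun k _ => ?_
      rw [Pr_lab hN hA v ht]
      rfl
  have hX : ∀ (S : Finset V) (v : V), Good nb (3 * t + 2) S v →
      Pr (mu V m N) (fun ω => (sys nb A ori ω).Win S t v) = w.X t := by
    intro S v hg
    have hs := brStar w hN hA hirr hg ht.le (by omega) hZ
    have h := hs.vf 0 le_rfl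
      (fun j ω => (sys nb A ori ω).Ring (insert v S) t j → btOf ori ω v j t)
      (w.W t - w.P t / 2)
      (fun j _ => dep_imp
        (dep_mono (ring_dependsOn nb A ori t (insert v S) j) Set.subset_union_left)
        (dep_mono (dep_bt ori v j t) Set.subset_union_right))
      (fun j hj => Pr_ringbt hN hN2 (mem_insert_self _ _) (hnot S v j hj) ht
        (hP _ j (hg.2.2.1 j hj)) (hW _ j (good_mono nb (by omega) (hg.2.2.1 j hj))))
      (fun k ω => labOf ω v t < A t k)
      (fun k x y hxy => by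
        show (labOf x v t < A t k) = (labOf y v t < A t k)
        rw [show labOf x v t = labOf y v t from dep_lab v t hxy])
    rw [hg.2.1] at h
    rw [w.X_eq t ht]
    refine Eq.trans (Pr_congr fun ω => ?_) (h.trans ?_)
    · show (sys nb A ori ω).Ring S t v ∧ (∀ y ∈ nb v \ S, (sys nb A ori ω).Ring S t y →
        btOf ori ω v y t) ↔ _
      constructor
      · rintro ⟨h1, h2⟩
        have h3 := (ring_star hirr S v t ω).1 h1
        refine ⟨(und_star hirr S v t ω).1 h3.1, h3.2, fun j hj _ hr => h2 j hj ?_⟩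
        exact (Sys.silent_ring _ h3.1 (hne S v j hj)).2 hr
      · rintro ⟨h1, h2, h3⟩
        have h4 := (und_star hirr S v t ω).2 h1
        refine ⟨(ring_star hirr S v t ω).2 ⟨h4, h2⟩, fun j hj hr => ?_⟩
        have h5 := (Sys.silent_ring _ h4 (hne S v j hj)).1 hr
        exact h3 j hj h5.1 h5
    · refine sum_congr rfl fun k _ => ?_
      rw [Pr_lab hN hA v ht]
      rfl
  have hU : ∀ (S : Finset V) (v : V), Good nb (3 * t + 3) S v →
      Pr (mu V m N) (fun ω => (sys nb A ori ω).st S (t + 1) v = St.u) = w.W (t + 1) := by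
    intro S v hg
    have hs := brStar w hN hA hirr hg ht.le (by omega) hZ
    have h := hs.vf 0 le_rfl
      (fun j ω => ¬ (sys nb A ori ω).Win (insert v S) t j)
      (w.W t - w.X t)
      (fun j _ => dep_not (dep_mono (win_dependsOn nb A ori t (insert v S) j)
        Set.subset_union_left))
      (fun j hj => Pr_unwin (hX _ j (hg.2.2.1 j hj))
        (hW _ j (good_mono nb (by omega) (hg.2.2.1 j hj))))
      (fun k ω => ¬ labOf ω v t < A t k)
      (fun k x y hxy => by
        show (¬ labOf x v t < A t k) = (¬ labOf y v t < A t k)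
        rw [show labOf x v t = labOf y v t from dep_lab v t hxy])
    rw [hg.2.1] at h
    rw [w.W_succ t ht]
    refine Eq.trans (Pr_congr fun ω => ?_) (h.trans ?_)
    · rw [Sys.st_succ_u]
      constructor
      · rintro ⟨h1, h2, h3⟩
        refine ⟨(und_star hirr S v t ω).1 h1, fun h4 => h2 ?_, fun j hj _ hw => h3 j hj ?_⟩
        · exact (ring_star hirr S v t ω).2 ⟨h1, h4⟩
        · exact (Sys.silent_win _ h1 h2 (hne S v j hj)).2 hw
      · rintro ⟨h1, h2, h3⟩
        have h4 := (und_star hirr S v t ω).2 h1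
        have h5 : ¬ (sys nb A ori ω).Ring S t v := fun h =>
          h2 ((ring_star hirr S v t ω).1 h).2
        refine ⟨h4, h5, fun j hj hw => ?_⟩
        have h6 := (Sys.silent_win _ h4 h5 (hne S v j hj)).1 hw
        exact h3 j hj h6.1.1 h6
    · refine sum_congr rfl fun k _ => ?_
      rw [Pr_nlab hN hA v ht]
      rfl
  refine ⟨hP, hX, hU, fun S v hg => ?_⟩
  rw [die_eq, hW S v (good_mono nb (by omega) hg), hX S v (good_mono nb (by omega) hg),
    hU S v hg, w.Z_eq t ht]

/-- THE LAW OF A BRANCH -/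
theorem law_all (hN : 0 < N) (hN2 : Even N) (hA : ∀ t k, A t k ≤ N) (hirr : ∀ x, x ∉ nb x) :
    ∀ t ≤ m, (∀ (S : Finset V) (v : V), Good nb (3 * t) S v →
      Pr (mu V m N) (fun ω => (sys nb A ori ω).st S t v = St.u) = w.W t) ∧
    (∀ τ < t, ∀ (S : Finset V) (v : V), Good nb (3 * τ + 3) S v →
      Pr (mu V m N) (fun ω => (sys nb A ori ω).Die S τ v) = w.Z τ) := by
  intro t
  induction t with
  | zero =>
    intro _
    refine ⟨fun S v _ => ?_, fun τ hτ => absurd hτ (Nat.not_lt_zero _)⟩
    rw [w.W_zero, ← Pr_true (pm_mu (V := V) (m := m) hN)]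
    exact Pr_congr fun ω => by simp [Sys.st_zero]
  | succ t ih =>
    intro ht
    obtain ⟨h1, h2⟩ := ih (by omega)
    obtain ⟨_, _, h3, h4⟩ := law_round w hN hN2 hA hirr (t := t) (by omega) h2 h1
    refine ⟨fun S v hg => h3 S v hg, fun τ hτ => ?_⟩
    rcases Nat.lt_succ_iff_lt_or_eq.1 hτ with h5 | rfl
    · exact h2 τ h5
    · exact h4

theorem law_und (hN : 0 < N) (hN2 : Even N) (hA : ∀ t k, A t k ≤ N) (hirr : ∀ x, x ∉ nb x)
    {t : ℕ} (ht : t ≤ m) {S : Finset V} {v : V} (hg : Good nb (3 * t) S v) :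
    Pr (mu V m N) (fun ω => (sys nb A ori ω).st S t v = St.u) = w.W t :=
  (law_all w hN hN2 hA hirr t ht).1 S v hg

theorem law_die (hN : 0 < N) (hN2 : Even N) (hA : ∀ t k, A t k ≤ N) (hirr : ∀ x, x ∉ nb x)
    {t : ℕ} (ht : t < m) {S : Finset V} {v : V} (hg : Good nb (3 * t + 3) S v) :
    Pr (mu V m N) (fun ω => (sys nb A ori ω).Die S t v) = w.Z t :=
  (law_all w hN hN2 hA hirr (t + 1) ht).2 t (Nat.lt_succ_self t) S v hg

theorem law_ring (hN : 0 < N) (hN2 : Even N) (hA : ∀ t k, A t k ≤ N) (hirr : ∀ x, x ∉ nb x)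
    {t : ℕ} (ht : t < m) {S : Finset V} {v : V} (hg : Good nb (3 * t + 1) S v) :
    Pr (mu V m N) (fun ω => (sys nb A ori ω).Ring S t v) = w.P t :=
  (law_round w hN hN2 hA hirr ht (law_all w hN hN2 hA hirr t ht.le).2
    (law_all w hN hN2 hA hirr t ht.le).1).1 S v hg

theorem law_win (hN : 0 < N) (hN2 : Even N) (hA : ∀ t k, A t k ≤ N) (hirr : ∀ x, x ∉ nb x)
    {t : ℕ} (ht : t < m) {S : Finset V} {v : V} (hg : Good nb (3 * t + 2) S v) :
    Pr (mu V m N) (fun ω => (sys nb A ori ω).Win S t v) = w.X t :=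
  (law_round w hN hN2 hA hirr ht (law_all w hN hN2 hA hirr t ht.le).2
    (law_all w hN hN2 hA hirr t ht.le).1).2.1 S v hg

/-! ### The event of a vertex of the path -/

theorem Pr_EvV (hN : 0 < N) (hN2 : Even N) (hA : ∀ t k, A t k ≤ N)
    (nb : V → Finset V) (ori : V → V → Prop) (hirr : ∀ x, x ∉ nb x) (v : V) (Ch : Finset V)
    (hCh : Ch ⊆ nb v) (hc : Ch.card = 2) (hgood : ∀ j ∈ Ch, Good nb (3 * m + 3) {v} j)
    (hdis : ∀ j ∈ Ch, ∀ k ∈ Ch, j ≠ k →
      Disjoint (ball nb {v} (3 * m + 3) j) (ball nb {v} (3 * m + 3) k))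
    (l r : Info) (t : ℕ) (ρ : Bool) (hadm : Adm m t ρ) :
    Pr (mu V m N) (fun ω => (sys nb A ori ω).EvV m v Ch l r t ρ) = Fw A N w l r t ρ := by
  obtain ⟨htm, hρ⟩ := hadm
  have hnot : ∀ j ∈ Ch, j ∉ ({v} : Finset V) := by
    intro j hj hj'
    rw [mem_singleton] at hj'
    subst hj'
    exact hirr j (hCh hj)
  have hs : StarD (mu V m N) A N w.Z t Ch (fun j τ ω => (sys nb A ori ω).st {v} τ j = St.u)
      (fun j τ ω => (sys nb A ori ω).st {v} τ j = St.d) (fun τ k ω => ¬ labOf ω v τ < A τ k)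
      (reg nb m {v} (3 * m + 3) v) (cvs m v) :=
    starD hN hA {v} (3 * m + 3) v Ch (mem_singleton_self _) hnot hdis htm (by omega) w.Z
      (fun τ hτ j hj => law_die w hN hN2 hA hirr (by omega) (good_mono nb (by omega)
        (hgood j hj)))
  set e : ℕ → ℕ := fun τ => l.dl τ + r.dl τ with he'
  have hlabdep : ∀ k, DependsOn (fun ω : Co V m → Fin N => labOf ω v t < A t k) (cvs m v t) :=
    fun k x y hxy => by
      show (labOf x v t < A t k) = (labOf y v t < A t k)
      rw [show labOf x v t = labOf y v t from dep_lab v t hxy]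
  have hWt : ∀ j ∈ Ch, Pr (mu V m N) (fun ω => (sys nb A ori ω).st {v} t j = St.u) = w.W t :=
    fun j hj => law_und w hN hN2 hA hirr htm (good_mono nb (by omega) (hgood j hj))
  have hWt' : ∀ j ∈ Ch, Pr (mu V m N) (fun ω => (sys nb A ori ω).st {v} t j = St.u ∧ True) =
      w.W t := fun j hj => by
    rw [← hWt j hj]
    exact Pr_congr fun ω => by simp
  -- Und
  have hUnd : ∀ ω : Co V m → Fin N, StarD.Und Ch (fun j τ ω => (sys nb A ori ω).st {v} τ j = St.u)
      (fun j τ ω => (sys nb A ori ω).st {v} τ j = St.d) (fun τ k ω => ¬ labOf ω v τ < A τ k)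
      e t ω ↔ (∀ j ∈ Ch, (sys nb A ori ω).st {v} t j = St.u ∨ (sys nb A ori ω).st {v} t j = St.d) ∧
      (∀ τ < t, ¬ (sys nb A ori ω).lab v τ <
        (sys nb A ori ω).A τ ((sys nb A ori ω).dch v Ch τ + (l.dl τ + r.dl τ))) :=
    fun ω => Iff.rfl
  cases ρ with
  | true =>
    have ht : t < m := hρ rfl
    have h1 := hs.vf e le_rfl (fun _ _ => True) (w.W t) (fun j _ => dep_const' _) hWt'
      (fun k ω => labOf ω v t < A t k) hlabdep
    rw [hc] at h1
    by_cases hfl : l = Info.tl ∨ r = Info.tl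
    · have h2 : Fw A N w l r t true = FM A N w l r t := by
        unfold Fw
        rw [if_pos rfl, if_pos hfl]
      rw [h2]
      refine Eq.trans (Pr_congr fun ω => ?_) (h1.trans ?_)
      · unfold Sys.EvV
        rw [if_pos rfl, ← and_assoc, ← hUnd ω]
        constructor
        · rintro ⟨ha, hb, _⟩
          exact ⟨ha, hb, fun _ _ _ => trivial⟩
        · rintro ⟨ha, hb, _⟩
          refine ⟨ha, hb, ?_⟩
          rcases hfl with h | h
          · exact Or.inl h
          · exact Or.inr (Or.inl h)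
      · unfold FM hv
        refine sum_congr rfl fun k _ => ?_
        rw [Pr_lab hN hA v ht]
    · have h2 : Fw A N w l r t true = FO A N w l r t := by
        unfold Fw
        rw [if_pos rfl, if_neg hfl]
      have h3 := hs.vf e le_rfl
        (fun j ω => (sys nb A ori ω).Ring {v} t j → btOf ori ω v j t) (w.W t - w.P t / 2)
        (fun j _ => dep_imp
          (dep_mono (ring_dependsOn nb A ori t {v} j)
            ((coo_mono (ball_mono nb (by omega) j)).trans Set.subset_union_left))
          (dep_mono (dep_bt ori v j t) Set.subset_union_right))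
        (fun j hj => Pr_ringbt hN hN2 (mem_singleton_self _) (hnot j hj) ht
          (law_ring w hN hN2 hA hirr ht (good_mono nb (by omega) (hgood j hj))) (hWt j hj))
        (fun k ω => labOf ω v t < A t k) hlabdep
      rw [hc] at h3
      rw [h2]
      have h4 : Pr (mu V m N) (fun ω => (sys nb A ori ω).EvV m v Ch l r t true) =
          Pr (mu V m N) (fun ω => (StarD.Und Ch
            (fun j τ ω => (sys nb A ori ω).st {v} τ j = St.u)
            (fun j τ ω => (sys nb A ori ω).st {v} τ j = St.d)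
            (fun τ k ω => ¬ labOf ω v τ < A τ k) e t ω ∧
            labOf ω v t < A t (StarD.dc Ch
              (fun j τ (ω : Co V m → Fin N) => (sys nb A ori ω).st {v} τ j = St.u) t ω + e t) ∧
            ∀ j ∈ Ch, (sys nb A ori ω).st {v} t j = St.u → True) ∧
            ¬ (∀ j ∈ Ch, (sys nb A ori ω).st {v} t j = St.u →
              ((sys nb A ori ω).Ring {v} t j → btOf ori ω v j t))) := by
        refine Pr_congr fun ω => ?_
        unfold Sys.EvV
        rw [if_pos rfl, ← and_assoc, ← hUnd ω]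
        constructor
        · rintro ⟨ha, hb, hd⟩
          refine ⟨⟨ha, hb, fun _ _ _ => trivial⟩, fun hall => ?_⟩
          rcases hd with h | h | ⟨j, hj, hr, hbt⟩
          · exact hfl (Or.inl h)
          · exact hfl (Or.inr h)
          · exact hbt (hall j hj hr.1 hr)
        · rintro ⟨⟨ha, hb, _⟩, hd⟩
          refine ⟨ha, hb, Or.inr (Or.inr ?_)⟩
          push Not at hd
          obtain ⟨j, hj, _, hr, hbt⟩ := hd
          exact ⟨j, hj, hr, hbt⟩
      rw [h4, Pr_and_not, h1]
      have h5 : Pr (mu V m N) (fun ω => (StarD.Und Ch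
            (fun j τ ω => (sys nb A ori ω).st {v} τ j = St.u)
            (fun j τ ω => (sys nb A ori ω).st {v} τ j = St.d)
            (fun τ k ω => ¬ labOf ω v τ < A τ k) e t ω ∧
            labOf ω v t < A t (StarD.dc Ch
              (fun j τ (ω : Co V m → Fin N) => (sys nb A ori ω).st {v} τ j = St.u) t ω + e t) ∧
            ∀ j ∈ Ch, (sys nb A ori ω).st {v} t j = St.u → True) ∧
            (∀ j ∈ Ch, (sys nb A ori ω).st {v} t j = St.u →
              ((sys nb A ori ω).Ring {v} t j → btOf ori ω v j t))) =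
          ∑ k ∈ range (2 + 1), (Nat.choose 2 k : ℝ) * he A N w.Z e t k *
            Pr (mu V m N) (fun ω => labOf ω v t < A t (k + e t)) *
            (w.W t - w.P t / 2) ^ (2 - k) := by
        rw [← h3]
        refine Pr_congr fun ω => ?_
        simp only [implies_true, and_true, and_assoc]
      rw [h5, ← sum_sub_distrib]
      unfold FO hv
      refine sum_congr rfl fun k _ => ?_
      rw [Pr_lab hN hA v ht]
      ring
  | false =>
    by_cases ht : t < m
    · have h2 : Fw A N w l r t false = FB A N w l r t := by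
        unfold Fw
        rw [if_neg (by simp), if_pos ht]
      have h1 := hs.vf e le_rfl (fun _ _ => True) (w.W t) (fun j _ => dep_const' _) hWt'
        (fun k ω => ¬ labOf ω v t < A t k) (fun k => dep_not (hlabdep k))
      have h3 := hs.vf e le_rfl
        (fun j ω => ¬ (sys nb A ori ω).Win {v} t j) (w.W t - w.X t)
        (fun j _ => dep_not (dep_mono (win_dependsOn nb A ori t {v} j)
            ((coo_mono (ball_mono nb (by omega) j)).trans Set.subset_union_left)))
        (fun j hj => Pr_unwin (law_win w hN hN2 hA hirr ht (good_mono nb (by omega)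
          (hgood j hj))) (hWt j hj))
        (fun k ω => ¬ labOf ω v t < A t k) (fun k => dep_not (hlabdep k))
      rw [hc] at h1 h3
      rw [h2]
      have h4 : Pr (mu V m N) (fun ω => (sys nb A ori ω).EvV m v Ch l r t false) =
          Pr (mu V m N) (fun ω => (StarD.Und Ch
            (fun j τ ω => (sys nb A ori ω).st {v} τ j = St.u)
            (fun j τ ω => (sys nb A ori ω).st {v} τ j = St.d)
            (fun τ k ω => ¬ labOf ω v τ < A τ k) e t ω ∧
            ¬ labOf ω v t < A t (StarD.dc Ch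
              (fun j τ (ω : Co V m → Fin N) => (sys nb A ori ω).st {v} τ j = St.u) t ω + e t) ∧
            ∀ j ∈ Ch, (sys nb A ori ω).st {v} t j = St.u → True) ∧
            ¬ (∀ j ∈ Ch, (sys nb A ori ω).st {v} t j = St.u →
              ¬ (sys nb A ori ω).Win {v} t j)) := by
        refine Pr_congr fun ω => ?_
        unfold Sys.EvV
        rw [if_neg (by simp), ← and_assoc, ← hUnd ω]
        constructor
        · rintro ⟨ha, hb⟩
          obtain ⟨hb, j, hj, hw⟩ := hb ht
          exact ⟨⟨ha, hb, fun _ _ _ => trivial⟩, fun hall => hall j hj hw.1.1 hw⟩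
        · rintro ⟨⟨ha, hb, _⟩, hd⟩
          refine ⟨ha, fun _ => ⟨hb, ?_⟩⟩
          push Not at hd
          obtain ⟨j, hj, _, hr⟩ := hd
          exact ⟨j, hj, hr⟩
      rw [h4, Pr_and_not, h1]
      have h5 : Pr (mu V m N) (fun ω => (StarD.Und Ch
            (fun j τ ω => (sys nb A ori ω).st {v} τ j = St.u)
            (fun j τ ω => (sys nb A ori ω).st {v} τ j = St.d)
            (fun τ k ω => ¬ labOf ω v τ < A τ k) e t ω ∧
            ¬ labOf ω v t < A t (StarD.dc Ch
              (fun j τ (ω : Co V m → Fin N) => (sys nb A ori ω).st {v} τ j = St.u) t ω + e t) ∧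
            ∀ j ∈ Ch, (sys nb A ori ω).st {v} t j = St.u → True) ∧
            (∀ j ∈ Ch, (sys nb A ori ω).st {v} t j = St.u →
              ¬ (sys nb A ori ω).Win {v} t j)) =
          ∑ k ∈ range (2 + 1), (Nat.choose 2 k : ℝ) * he A N w.Z e t k *
            Pr (mu V m N) (fun ω => ¬ labOf ω v t < A t (k + e t)) *
            (w.W t - w.X t) ^ (2 - k) := by
        rw [← h3]
        refine Pr_congr fun ω => ?_
        simp only [implies_true, and_true, and_assoc]
      rw [h5, ← sum_sub_distrib]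
      unfold FB hv
      refine sum_congr rfl fun k _ => ?_
      rw [Pr_nlab hN hA v ht]
      ring
    · have htm' : t = m := by omega
      subst htm'
      have h2 : Fw A N w l r t false = FE A N w l r := by
        unfold Fw
        rw [if_neg (by simp), if_neg ht]
      have h1 := hs.vf e le_rfl (fun _ _ => True) (w.W t) (fun j _ => dep_const' _) hWt'
        (fun k ω => True) (fun k => dep_const' _)
      rw [hc] at h1
      rw [h2]
      refine Eq.trans (Pr_congr fun ω => ?_) (h1.trans ?_)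
      · unfold Sys.EvV
        rw [if_neg (by simp), ← and_assoc, ← hUnd ω]
        simp
      · unfold FE hv
        refine sum_congr rfl fun k _ => ?_
        rw [Pr_true (pm_mu hN)]
        ring

end

/-- the coordinates of the event of a vertex -/
def regV {V : Type} (nb : V → Finset V) (m : ℕ) (v : V) (Ch : Finset V) : Set (Co V m) :=
  {i | i.1 = s(v, v)} ∪ ⋃ j ∈ Ch, reg nb m {v} (3 * m + 3) v j

theorem dep_EvV {V : Type} [Fintype V] {m N : ℕ} (nb : V → Finset V) (A : ℕ → ℕ → ℕ)
    (ori : V → V → Prop) (v : V) (Ch : Finset V) (l r : Info) (t : ℕ) (ρ : Bool) (ht : t ≤ m) :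
    DependsOn (fun ω : Co V m → Fin N => (sys nb A ori ω).EvV m v Ch l r t ρ)
      (regV nb m v Ch) := by
  intro x y hxy
  have hcoo : ∀ j ∈ Ch, ∀ r ≤ 3 * m + 3, ∀ i ∈ (coo m (ball nb {v} r j) : Set (Co V m)),
      x i = y i := by
    intro j hj r hr i hi
    refine hxy i (Or.inr (Set.mem_biUnion hj (Or.inl ?_)))
    exact coo_mono (ball_mono nb hr j) hi
  have hst : ∀ j ∈ Ch, ∀ τ ≤ m, (sys nb A ori x).st {v} τ j = (sys nb A ori y).st {v} τ j :=
    fun j hj τ hτ => st_dependsOn nb A ori τ {v} j fun i hi => hcoo j hj _ (by omega) i hi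
  have hring : ∀ j ∈ Ch, ∀ τ ≤ m, (sys nb A ori x).Ring {v} τ j = (sys nb A ori y).Ring {v} τ j :=
    fun j hj τ hτ => ring_dependsOn nb A ori τ {v} j fun i hi => hcoo j hj _ (by omega) i hi
  have hwin : ∀ j ∈ Ch, ∀ τ ≤ m, (sys nb A ori x).Win {v} τ j = (sys nb A ori y).Win {v} τ j :=
    fun j hj τ hτ => win_dependsOn nb A ori τ {v} j fun i hi => hcoo j hj _ (by omega) i hi
  have hlab : ∀ τ, labOf x v τ = labOf y v τ := fun τ =>
    dep_lab v τ fun i hi => hxy i (Or.inl hi.1)
  have hbt : ∀ j ∈ Ch, ∀ τ, btOf ori x v j τ = btOf ori y v j τ := fun j hj τ =>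
    dep_bt ori v j τ fun i hi => hxy i (Or.inr (Set.mem_biUnion hj (Or.inr hi)))
  have hd : ∀ τ ≤ m, (sys nb A ori x).dch v Ch τ = (sys nb A ori y).dch v Ch τ := by
    intro τ hτ
    unfold Sys.dch
    congr 1
    exact filter_congr fun j hj => by rw [hst j hj τ hτ]
  unfold Sys.EvV
  show ((∀ j ∈ Ch, _) ∧ (∀ τ < t, ¬ labOf x v τ < A τ _) ∧
      (if ρ then labOf x v t < A t _ ∧ (l = Info.tl ∨ r = Info.tl ∨
        ∃ j ∈ Ch, (sys nb A ori x).Ring {v} t j ∧ ¬ btOf ori x v j t) else
        (t < m → ¬ labOf x v t < A t _ ∧ ∃ j ∈ Ch, (sys nb A ori x).Win {v} t j))) =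
    ((∀ j ∈ Ch, _) ∧ (∀ τ < t, ¬ labOf y v τ < A τ _) ∧
      (if ρ then labOf y v t < A t _ ∧ (l = Info.tl ∨ r = Info.tl ∨
        ∃ j ∈ Ch, (sys nb A ori y).Ring {v} t j ∧ ¬ btOf ori y v j t) else
        (t < m → ¬ labOf y v t < A t _ ∧ ∃ j ∈ Ch, (sys nb A ori y).Win {v} t j)))
  have e1 : (∀ j ∈ Ch, (sys nb A ori x).st {v} t j = St.u ∨ (sys nb A ori x).st {v} t j = St.d) ↔
      (∀ j ∈ Ch, (sys nb A ori y).st {v} t j = St.u ∨ (sys nb A ori y).st {v} t j = St.d) :=
    forall₂_congr fun j hj => by rw [hst j hj t ht]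
  have e2 : (∀ τ < t, ¬ labOf x v τ < A τ ((sys nb A ori x).dch v Ch τ + (l.dl τ + r.dl τ))) ↔
      (∀ τ < t, ¬ labOf y v τ < A τ ((sys nb A ori y).dch v Ch τ + (l.dl τ + r.dl τ))) :=
    forall₂_congr fun τ hτ => by rw [hlab τ, hd τ (by omega)]
  have e3 : (∃ j ∈ Ch, (sys nb A ori x).Ring {v} t j ∧ ¬ btOf ori x v j t) ↔
      (∃ j ∈ Ch, (sys nb A ori y).Ring {v} t j ∧ ¬ btOf ori y v j t) :=
    exists_congr fun j => and_congr_right fun hj => by rw [hring j hj t ht, hbt j hj t]
  have e4 : (∃ j ∈ Ch, (sys nb A ori x).Win {v} t j) ↔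
      (∃ j ∈ Ch, (sys nb A ori y).Win {v} t j) :=
    exists_congr fun j => and_congr_right fun hj => by rw [hwin j hj t ht]
  refine propext (and_congr e1 (and_congr e2 ?_))
  cases ρ
  · simp only [Bool.false_eq_true, if_false]
    rw [hlab t, hd t ht, e4]
  · simp only [if_true]
    rw [hlab t, hd t ht, e3]

end Pool.Agent.G4
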