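import Pool.Agent.G4.Nb

/-!
Graphs of large girth which, outside a locally small set of vertices, have maximum degree four.
-/

set_option autoImplicit false

namespace Pool.Agent.G4

open Finset SimpleGraph
open scoped Classical

/-- an independent set which meets every path with `L + 1` vertices -/
def Hits {V : Type} (G : SimpleGraph V) (X : Set V) (L : ℕ) : Prop :=
  (∀ x y, G.Adj x y → x ∈ X → y ∉ X) ∧
    ∀ b : ℕ → V, (∀ i ≤ L, ∀ j ≤ L, b i = b j → i = j) → (∀ i < L, G.Adj (b i) (b (i + 1))) →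
      ∃ i ≤ L, b i ∈ X

/-- the base: graphs of maximum degree four and large girth have such sets -/
def Base : Prop :=
  ∃ g L : ℕ, ∀ (V : Type) [Fintype V] (G : SimpleGraph V), (∀ v, (nbG G v).card ≤ 4) →
    (∀ (u : V) (c : G.Walk u u), c.IsCycle → g < c.length) → ∃ X : Set V, Hits G X L

/-- an independent set whose complement induces a forest gives a colouring with three colours -/
theorem colorable_of_acyclic {V : Type} (G : SimpleGraph V) (X : Set V)
    (hind : ∀ x y, G.Adj x y → x ∈ X → y ∉ X) (H : SimpleGraph V)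
    (hH : ∀ x y, G.Adj x y → x ∉ X → y ∉ X → H.Adj x y) (hac : H.IsAcyclic) :
    G.Colorable 3 := by
  obtain ⟨col⟩ := hac.colorable_two
  refine ⟨SimpleGraph.Coloring.mk (fun v => if v ∈ X then 2 else (col v).castSucc) ?_⟩
  intro x y hxy
  by_cases hx : x ∈ X
  · have hy := hind x y hxy hx
    simp only [hx, hy, if_true, if_false]
    intro h
    have := congrArg Fin.val h
    simp at this
    omega
  · by_cases hy : y ∈ X
    · simp only [hx, hy, if_true, if_false]
      intro h
      have := congrArg Fin.val h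
      simp at this
      omega
    · simp only [hx, hy, if_false]
      intro h
      exact col.valid (hH x y hxy hx hy) (Fin.castSucc_injective _ h)

/-- from regular graphs to graphs of maximum degree four -/
theorem base_of_regular
    (hreg : ∃ g L : ℕ, ∀ (V : Type) [Fintype V] (G : SimpleGraph V), (∀ v, (nbG G v).card = 4) →
      (∀ (u : V) (c : G.Walk u u), c.IsCycle → g < c.length) → ∃ X : Set V, Hits G X L)
    (hemb : ∀ (V : Type) [Fintype V] (G : SimpleGraph V) (g : ℕ), (∀ v, (nbG G v).card ≤ 4) →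
      (∀ (u : V) (c : G.Walk u u), c.IsCycle → g < c.length) →
      ∃ (W : Type) (_ : Fintype W) (H : SimpleGraph W) (f : V → W), Function.Injective f ∧
        (∀ x y, G.Adj x y → H.Adj (f x) (f y)) ∧ (∀ v, (nbG H v).card = 4) ∧
        (∀ (u : W) (c : H.Walk u u), c.IsCycle → g < c.length)) : Base := by
  obtain ⟨g, L, h⟩ := hreg
  refine ⟨g, L, ?_⟩
  intro V _ G hdeg hg
  obtain ⟨W, hW, H, f, hf, hadj, h4, hgH⟩ := hemb V G g hdeg hg
  obtain ⟨X, hX1, hX2⟩ := h W H h4 hgH
  refine ⟨{v | f v ∈ X}, fun x y hxy hx => hX1 _ _ (hadj x y hxy) hx, ?_⟩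
  intro b hb hb'
  exact hX2 (fun i => f (b i)) (fun i hi j hj hij => hb i hi j hj (hf hij))
    (fun i hi => hadj _ _ (hb' i hi))

/-- A set `Y` of exceptional vertices which, on every path with `(k + 1) * d` vertices, has at most
`k` elements does no harm. -/
theorem few_of_base (hbase : Base) :
    ∃ g d : ℕ, ∀ (k : ℕ) (V : Type) [Finite V] (G : SimpleGraph V) (Y : Set V),
      ((g + (k + 1) * d : ℕ) : ℕ∞) ≤ G.egirth →
      (∀ v, v ∉ Y → {w | G.Adj v w ∧ w ∉ Y}.ncard ≤ 4) →
      (∀ (u v : V) (p : G.Walk u v), p.IsPath → p.length + 1 = (k + 1) * d →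
        {x | x ∈ p.support ∧ x ∈ Y}.ncard ≤ k) →
      G.Colorable 3 := by
  obtain ⟨g, L, hb⟩ := hbase
  refine ⟨g + 1, L + 1, ?_⟩
  intro k V _ G Y hg hdeg hfew
  have := Fintype.ofFinite V
  have hg' : ∀ (u : V) (c : G.Walk u u), c.IsCycle → g + (k + 1) * (L + 1) < c.length := by
    intro u c hc
    have h1 : G.egirth ≤ c.length := G.egirth_le_length hc
    have h2 := hg.trans h1
    have h3 : g + 1 + (k + 1) * (L + 1) ≤ c.length := by exact_mod_cast h2
    omega
  -- the graph without `Y`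
  let G1 : SimpleGraph V :=
    { Adj := fun x y => G.Adj x y ∧ x ∉ Y ∧ y ∉ Y
      symm := ⟨fun x y h => ⟨h.1.symm, h.2.2, h.2.1⟩⟩
      loopless := ⟨fun x h => h.1.ne rfl⟩ }
  have hG1 : G1 ≤ G := fun x y h => h.1
  have hd1 : ∀ v, (nbG G1 v).card ≤ 4 := by
    intro v
    by_cases hv : v ∈ Y
    · have h0 : nbG G1 v = ∅ := by
        ext w
        rw [mem_nbG]
        simp [G1, hv]
      rw [h0]
      simp
    · have h0 : (nbG G1 v : Set V) = {w | G.Adj v w ∧ w ∉ Y} := by
        ext w
        rw [mem_coe, mem_nbG]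
        simp [G1, hv]
      have h2 := hdeg v hv
      rw [← h0, Set.ncard_coe_finset] at h2
      exact h2
  obtain ⟨X, hX1, hX2⟩ := hb V G1 hd1 (fun u c hc => by
    have h1 := hg' u (c.mapLe hG1) (hc.mapLe hG1)
    rw [SimpleGraph.Walk.length_mapLe] at h1
    omega)
  -- the independent set
  let X' : Set V := {v | v ∈ X ∧ v ∉ Y}
  have hind : ∀ x y, G.Adj x y → x ∈ X' → y ∉ X' := by
    intro x y hxy hx hy
    exact hX1 x y ⟨hxy, hx.2, hy.2⟩ hx.1 hy.1
  let H : SimpleGraph V :=
    { Adj := fun x y => G.Adj x y ∧ x ∉ X' ∧ y ∉ X'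
      symm := ⟨fun x y h => ⟨h.1.symm, h.2.2, h.2.1⟩⟩
      loopless := ⟨fun x h => h.1.ne rfl⟩ }
  have hHG : H ≤ G := fun x y h => h.1
  refine colorable_of_acyclic G X' hind H (fun x y h hx hy => ⟨h, hx, hy⟩) ?_
  intro u c hc
  have hlen := hg' u (c.mapLe hHG) (hc.mapLe hHG)
  rw [SimpleGraph.Walk.length_mapLe] at hlen
  have hpos : 0 < (k + 1) * (L + 1) := by positivity
  have hadj : ∀ i < c.length, H.Adj (c.getVert i) (c.getVert (i + 1)) :=
    fun i hi => c.adj_getVert_succ hi
  have hinj : ∀ i ≤ c.length - 1, ∀ j ≤ c.length - 1, c.getVert i = c.getVert j → i = j :=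
    fun i hi j hj h => hc.getVert_injOn' hi hj h
  have hjk : ∀ j : Fin (k + 1), (j.1 + 1) * (L + 1) ≤ (k + 1) * (L + 1) := fun j =>
    Nat.mul_le_mul_right _ (by have := j.2; omega)
  -- every window contains a vertex of `Y`
  have hwin : ∀ j : Fin (k + 1), ∃ i, j.1 * (L + 1) ≤ i ∧ i < (j.1 + 1) * (L + 1) ∧
      c.getVert i ∈ Y := by
    intro j
    by_contra hcon
    push Not at hcon
    have hj := hjk j
    have hj' : (j.1 + 1) * (L + 1) = j.1 * (L + 1) + (L + 1) := by ring
    obtain ⟨i, hi, hiX⟩ := hX2 (fun i => c.getVert (j.1 * (L + 1) + i))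
      (fun i hi i' hi' h => by
        have h1 := hinj (j.1 * (L + 1) + i) (by omega) (j.1 * (L + 1) + i') (by omega) h
        omega)
      (fun i hi => by
        refine ⟨(hadj (j.1 * (L + 1) + i) (by omega)).1, ?_, ?_⟩
        · exact hcon _ (by omega) (by omega)
        · exact hcon _ (by omega) (by omega))
    have h1 : c.getVert (j.1 * (L + 1) + i) ∉ Y := hcon _ (by omega) (by omega)
    have h2 := (hadj (j.1 * (L + 1) + i) (by omega)).2.1
    exact h2 ⟨hiX, h1⟩
  choose f hf1 hf2 hf3 using hwin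
  have hfL : ∀ j, f j < (k + 1) * (L + 1) := fun j => lt_of_lt_of_le (hf2 j) (hjk j)
  have hfi : Function.Injective fun j => c.getVert (f j) := by
    intro j j' h
    have h1 := hinj (f j) (by have := hfL j; omega) (f j') (by have := hfL j'; omega) h
    have h2 := hf1 j
    have h3 := hf2 j
    have h4 := hf1 j'
    have h5 := hf2 j'
    rw [h1] at h2 h3
    have h6 : j.1 < j'.1 + 1 := by
      by_contra h7
      have : (j'.1 + 1) * (L + 1) ≤ j.1 * (L + 1) := Nat.mul_le_mul_right _ (by omega)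
      omega
    have h7 : j'.1 < j.1 + 1 := by
      by_contra h7
      have : (j.1 + 1) * (L + 1) ≤ j'.1 * (L + 1) := Nat.mul_le_mul_right _ (by omega)
      omega
    exact Fin.ext (by omega)
  have hM : (k + 1) * (L + 1) - 1 < c.length := by omega
  have hpath := hc.isPath_take hM
  have hlen2 : (c.take ((k + 1) * (L + 1) - 1)).length + 1 = (k + 1) * (L + 1) := by
    rw [SimpleGraph.Walk.take_length]
    omega
  have h2 := hfew _ _ ((c.take ((k + 1) * (L + 1) - 1)).mapLe hHG) (hpath.mapLe hHG)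
    (by rw [SimpleGraph.Walk.length_mapLe]; exact hlen2)
  rw [SimpleGraph.Walk.support_mapLe_eq_support] at h2
  have hsub : ((univ.image fun j : Fin (k + 1) => c.getVert (f j) : Finset V) : Set V) ⊆
      {x | x ∈ (c.take ((k + 1) * (L + 1) - 1)).support ∧ x ∈ Y} := by
    intro v hv
    rw [mem_coe, mem_image] at hv
    obtain ⟨j, -, rfl⟩ := hv
    refine ⟨?_, hf3 j⟩
    rw [SimpleGraph.Walk.mem_support_iff_exists_getVert]
    have h3 := hfL j
    refine ⟨f j, ?_, by omega⟩
    rw [SimpleGraph.Walk.take_getVert]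
    congr 1
    omega
  have h1 := Set.ncard_le_ncard hsub (Set.toFinite _)
  rw [Set.ncard_coe_finset, card_image_of_injective _ hfi, card_univ, Fintype.card_fin] at h1
  omega

end Pool.Agent.G4
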