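import Pool.Agent.G4.FinX

/-!
# Graphs of large girth with few vertices of degree at least five on every path
-/

set_option autoImplicit false

namespace Pool.Agent.G4

/-- the theorem -/
theorem few_high : ∃ g d : ℕ, ∀ (k : ℕ) (V : Type) [Finite V] (G : SimpleGraph V) (Y : Set V),
    ((g + (k + 1) * d : ℕ) : ℕ∞) ≤ G.egirth →
    (∀ v, v ∉ Y → {w | G.Adj v w ∧ w ∉ Y}.ncard ≤ 4) →
    (∀ (u v : V) (p : G.Walk u v), p.IsPath → p.length + 1 = (k + 1) * d →
      {x | x ∈ p.support ∧ x ∈ Y}.ncard ≤ k) →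
    G.Colorable 3 :=
  few_of_base base

end Pool.Agent.G4
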