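import Pool.Agent.G4.Proc

/-!
# Dependence of the status on the coordinates, counting of paths
-/

set_option autoImplicit false

namespace Pool.Agent.G4

open Finset Pool.Agent.Acy
open scoped Classical

theorem mem_coo_iff {V : Type} [Fintype V] {m : ℕ} {B : Finset V} {e : Sym2 V} {t : Fin m} :
    (e, t) ∈ coo m B ↔ e ∈ B.sym2 := by
  simp [coo]

/-- the dependence of the status on the coordinates in a ball -/
theorem st_dep_ball {V : Type} [Fintype V] (nb : V → Finset V) (A : ℕ → ℕ → ℕ)
    (ori : V → V → Prop) {m N : ℕ} (t : ℕ) (S : Finset V) (v : V) :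
    DependsOn (fun ω : Co V m → Fin N => (sys nb A ori ω).st S t v)
      (coo m (ball nb S (3 * t) v) : Set (Co V m)) := by
  intro ω ω' h
  have hc : ∀ x ∈ ball nb S (3 * t) v, ∀ y ∈ ball nb S (3 * t) v, ∀ (τ : ℕ) (hτ : τ < m),
      ω (s(x, y), ⟨τ, hτ⟩) = ω' (s(x, y), ⟨τ, hτ⟩) := by
    intro x hx y hy τ hτ
    apply h
    rw [mem_coe, mem_coo_iff, mk_mem_sym2_iff]
    exact ⟨hx, hy⟩
  refine Sys.st_congr (sys nb A ori ω) (sys nb A ori ω') id Function.injective_id rfl S S t t v
    le_rfl (fun x _ => ?_) (fun x hx τ _ => ?_) (fun x hx y hy τ _ => ?_)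
  · rw [image_id]; rfl
  · show labOf ω x τ = labOf ω' x τ
    unfold labOf
    by_cases hm : τ < m
    · rw [dif_pos hm, dif_pos hm, hc x hx x hx τ hm]
    · rw [dif_neg hm, dif_neg hm]
  · show btOf ori ω x y τ ↔ btOf ori ω' x y τ
    unfold btOf
    refine exists_congr fun hm => ?_
    rw [hc x hx y hy τ hm]

/-! ### Balls -/

section Balls

variable {V : Type} {nb : V → Finset V}

theorem card_ball_le (h4 : ∀ v, (nb v).card = 4) (r : ℕ) (v : V) :
    (ball nb ∅ r v).card ≤ 5 ^ r := by
  induction r generalizing v with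
  | zero => simp [ball_zero]
  | succ r ih =>
    rw [ball_succ]
    have h1 : ((nb v \ ∅).biUnion (ball nb ∅ r)).card ≤ 4 * 5 ^ r := by
      refine card_biUnion_le.trans ?_
      rw [sdiff_empty]
      calc ∑ j ∈ nb v, (ball nb ∅ r j).card ≤ ∑ _j ∈ nb v, 5 ^ r := sum_le_sum fun j _ => ih j
        _ = 4 * 5 ^ r := by rw [sum_const, h4, smul_eq_mul]
    have h2 : 1 ≤ 5 ^ r := Nat.one_le_pow _ _ (by norm_num)
    calc (insert v ((nb v \ ∅).biUnion (ball nb ∅ r))).card ≤ _ := card_insert_le _ _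
      _ ≤ 4 * 5 ^ r + 1 := Nat.add_le_add_right h1 1
      _ ≤ 5 ^ (r + 1) := by rw [pow_succ]; omega

theorem ball_snoc (r : ℕ) {x y v : V} (hy : y ∈ ball nb ∅ r x) (hv : v ∈ nb y) :
    v ∈ ball nb ∅ (r + 1) x := by
  induction r generalizing x with
  | zero =>
    rw [ball_zero, mem_singleton] at hy
    subst hy
    rw [ball_succ, mem_insert, mem_biUnion]
    exact Or.inr ⟨v, by rwa [sdiff_empty], mem_ball_self nb ∅ 0 v⟩
  | succ r ih =>
    rw [ball_succ, mem_insert, mem_biUnion] at hy
    rcases hy with rfl | ⟨j, hj, hy⟩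
    · rw [ball_succ, mem_insert, mem_biUnion]
      exact Or.inr ⟨v, by rwa [sdiff_empty], mem_ball_self nb ∅ _ v⟩
    · exact ball_sub_of_mem nb hj (ih hy)

theorem ball_symm (hs : ∀ x y, y ∈ nb x → x ∈ nb y) (r : ℕ) {x v : V}
    (hx : x ∈ ball nb ∅ r v) : v ∈ ball nb ∅ r x := by
  induction r generalizing v with
  | zero =>
    rw [ball_zero, mem_singleton] at hx ⊢
    exact hx.symm
  | succ r ih =>
    rw [ball_succ, mem_insert, mem_biUnion] at hx
    rcases hx with rfl | ⟨j, hj, hx⟩
    · exact mem_ball_self _ _ _ _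
    · rw [sdiff_empty] at hj
      exact ball_snoc r (ih hx) (hs v j hj)

theorem card_coo_le (h4 : ∀ v, (nb v).card = 4) [Fintype V] (m r : ℕ) (v : V) :
    (coo m (ball nb ∅ r v)).card ≤ (5 ^ r + 1) ^ 2 * m := by
  unfold coo
  rw [card_product, card_univ, Fintype.card_fin]
  refine Nat.mul_le_mul_right _ ?_
  rw [card_sym2]
  have h1 := card_ball_le h4 r v
  calc ((ball nb ∅ r v).card + 1).choose 2 ≤ ((ball nb ∅ r v).card + 1) ^ 2 :=
        Nat.choose_le_pow _ _
    _ ≤ (5 ^ r + 1) ^ 2 := Nat.pow_le_pow_left (by omega) 2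

end Balls

/-! ### Counting of paths -/

section Ext

variable {V : Type} (nb : V → Finset V)

/-- continuations of length `n` of a path which is at `y`, the next vertex is not in `F` -/
noncomputable def ext : ℕ → Finset V → V → Finset (List V)
  | 0, _, _ => {[]}
  | n + 1, F, y => (nb y \ F).biUnion fun z => (ext n {y} z).image (List.cons z)

variable {nb}

theorem card_ext_one (h4 : ∀ v, (nb v).card = 4) (hs : ∀ x y, y ∈ nb x → x ∈ nb y) (n : ℕ) :
    ∀ x y, x ∈ nb y → (ext nb n {x} y).card ≤ 3 ^ n := by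
  induction n with
  | zero => intro x y _; simp [ext]
  | succ n ih =>
    intro x y hxy
    rw [ext]
    refine card_biUnion_le.trans ?_
    calc ∑ z ∈ nb y \ {x}, ((ext nb n {y} z).image (List.cons z)).card
        ≤ ∑ _z ∈ nb y \ {x}, 3 ^ n := by
          refine sum_le_sum fun z hz => card_image_le.trans (ih y z ?_)
          exact hs y z (mem_sdiff.1 hz).1
      _ = 3 ^ (n + 1) := by
          rw [sum_const, smul_eq_mul, card_sdiff_of_subset (singleton_subset_iff.2 hxy), h4,
            card_singleton, pow_succ]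
          ring

theorem card_ext_le (h4 : ∀ v, (nb v).card = 4) (hs : ∀ x y, y ∈ nb x → x ∈ nb y) (n : ℕ)
    (y : V) : (ext nb n ∅ y).card ≤ 4 * 3 ^ n := by
  cases n with
  | zero => simp [ext]
  | succ n =>
    rw [ext]
    refine card_biUnion_le.trans ?_
    calc ∑ z ∈ nb y \ ∅, ((ext nb n {y} z).image (List.cons z)).card
        ≤ ∑ _z ∈ nb y \ ∅, 3 ^ n := by
          refine sum_le_sum fun z hz => card_image_le.trans (card_ext_one h4 hs n y z ?_)
          exact hs y z (mem_sdiff.1 hz).1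
      _ = 4 * 3 ^ n := by rw [sum_const, smul_eq_mul, sdiff_empty, h4]
      _ ≤ 4 * 3 ^ (n + 1) := by rw [pow_succ]; omega

theorem mem_ext_one (n : ℕ) : ∀ q : ℕ → V, (∀ i < n, q (i + 2) ∈ nb (q (i + 1))) →
    (∀ i < n, q (i + 2) ≠ q i) →
    ((List.range n).map fun i => q (i + 2)) ∈ ext nb n {q 0} (q 1) := by
  induction n with
  | zero => intro q _ _; simp [ext]
  | succ n ih =>
    intro q h1 h2
    rw [ext, mem_biUnion]
    refine ⟨q 2, ?_, ?_⟩
    · rw [mem_sdiff, mem_singleton]
      exact ⟨h1 0 (by omega), h2 0 (by omega)⟩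
    · rw [mem_image]
      refine ⟨(List.range n).map fun i => q (i + 3), ?_, ?_⟩
      · have := ih (fun i => q (i + 1)) (fun i hi => h1 (i + 1) (by omega))
          (fun i hi => h2 (i + 1) (by omega))
        exact this
      · rw [List.range_succ_eq_map, List.map_cons, List.map_map]
        rfl

theorem mem_ext (n : ℕ) (q : ℕ → V) (h1 : ∀ i < n, q (i + 1) ∈ nb (q i))
    (h2 : ∀ i, i + 1 < n → q (i + 2) ≠ q i) :
    ((List.range n).map fun i => q (i + 1)) ∈ ext nb n ∅ (q 0) := by
  cases n with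
  | zero => simp [ext]
  | succ n =>
    rw [ext, mem_biUnion]
    refine ⟨q 1, ?_, ?_⟩
    · rw [sdiff_empty]
      exact h1 0 (by omega)
    · rw [mem_image]
      refine ⟨(List.range n).map fun i => q (i + 2), ?_, ?_⟩
      · exact mem_ext_one n q (fun i hi => h1 (i + 1) (by omega)) (fun i hi => h2 i (by omega))
      · rw [List.range_succ_eq_map, List.map_cons, List.map_map]
        rfl

/-- the sequences `q 0, ..., q L` with `q j = x` -/
theorem card_through [Fintype V] (h4 : ∀ v, (nb v).card = 4) (hs : ∀ x y, y ∈ nb x → x ∈ nb y)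
    (L j : ℕ) (hj : j ≤ L) (x : V) (F : Finset (Fin (L + 1) → V))
    (hF : ∀ b ∈ F, (∀ i (hi : i < L), b ⟨i + 1, by omega⟩ ∈ nb (b ⟨i, by omega⟩)) ∧
      (∀ i (hi : i + 1 < L), b ⟨i + 2, by omega⟩ ≠ b ⟨i, by omega⟩) ∧
      b ⟨j, by omega⟩ = x) : F.card ≤ 16 * 3 ^ L := by
  -- the sequence as a function on ℕ
  set ex : (Fin (L + 1) → V) → ℕ → V := fun b i => b ⟨min i L, by omega⟩ with hex
  have hexi : ∀ (b : Fin (L + 1) → V) (i : ℕ) (hi : i ≤ L), ex b i = b ⟨i, by omega⟩ := by
    intro b i hi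
    simp only [hex]
    congr 1
    exact Fin.ext (by simp [hi])
  set code : (Fin (L + 1) → V) → List V × List V := fun b =>
    ((List.range (L - j)).map (fun i => ex b (j + (i + 1))),
      (List.range j).map (fun i => ex b (j - (i + 1)))) with hcode
  have hmaps : ∀ b ∈ F, code b ∈ ext nb (L - j) ∅ x ×ˢ ext nb j ∅ x := by
    intro b hb
    obtain ⟨h1, h2, h3⟩ := hF b hb
    rw [mem_product]
    constructor
    · have := mem_ext (nb := nb) (L - j) (fun i => ex b (j + i)) (fun i hi => ?_) (fun i hi => ?_)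
      · simpa only [Nat.add_zero, hexi b j hj, h3] using this
      · rw [hexi b _ (by omega), hexi b _ (by omega)]
        exact h1 (j + i) (by omega)
      · rw [hexi b _ (by omega), hexi b _ (by omega)]
        exact h2 (j + i) (by omega)
    · have := mem_ext (nb := nb) j (fun i => ex b (j - i)) (fun i hi => ?_) (fun i hi => ?_)
      · simpa only [Nat.sub_zero, hexi b j hj, h3] using this
      · rw [hexi b _ (by omega), hexi b _ (by omega)]
        have h5 := h1 (j - (i + 1)) (by omega)
        have h6 : (⟨j - (i + 1) + 1, by omega⟩ : Fin (L + 1)) = ⟨j - i, by omega⟩ :=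
          Fin.ext (by simp only; omega)
        rw [h6] at h5
        exact hs _ _ h5
      · rw [hexi b _ (by omega), hexi b _ (by omega)]
        have h5 := h2 (j - (i + 2)) (by omega)
        have h6 : (⟨j - (i + 2) + 2, by omega⟩ : Fin (L + 1)) = ⟨j - i, by omega⟩ :=
          Fin.ext (by simp only; omega)
        rw [h6] at h5
        exact fun h => h5 h.symm
  have hinj : ∀ b ∈ F, ∀ b' ∈ F, code b = code b' → b = b' := by
    intro b hb b' hb' h
    obtain ⟨-, -, h3⟩ := hF b hb
    obtain ⟨-, -, h3'⟩ := hF b' hb'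
    simp only [hcode, Prod.mk.injEq] at h
    obtain ⟨ha, hc⟩ := h
    have key : ∀ i (hi : i ≤ L), ex b i = ex b' i := by
      intro i hi
      rcases lt_trichotomy i j with h | h | h
      · have h6 := (List.map_inj_left.1 hc) (j - i - 1) (List.mem_range.2 (by omega))
        rwa [show j - (j - i - 1 + 1) = i by omega] at h6
      · subst h
        rw [hexi b i hi, hexi b' i hi, h3, h3']
      · have h6 := (List.map_inj_left.1 ha) (i - j - 1) (List.mem_range.2 (by omega))
        rwa [show j + (i - j - 1 + 1) = i by omega] at h6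
    funext i
    have := key i.1 (by omega)
    rwa [hexi b i.1 (by omega), hexi b' i.1 (by omega)] at this
  have hcard := card_le_card_of_injOn code hmaps (fun b hb b' hb' => hinj b hb b' hb')
  refine hcard.trans ?_
  rw [card_product]
  calc (ext nb (L - j) ∅ x).card * (ext nb j ∅ x).card
      ≤ (4 * 3 ^ (L - j)) * (4 * 3 ^ j) :=
        Nat.mul_le_mul (card_ext_le h4 hs _ _) (card_ext_le h4 hs _ _)
    _ = 16 * (3 ^ (L - j) * 3 ^ j) := by ring
    _ = 16 * 3 ^ L := by rw [← pow_add, Nat.sub_add_cancel hj]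

end Ext

end Pool.Agent.G4
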