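import Pool.Agent.G4.Defs

/-!
# Deterministic facts about the process
-/

set_option autoImplicit false

namespace Pool.Agent.G4

open Finset
open scoped Classical

namespace Sys

variable {V : Type} (s : Sys V)

theorem st_zero (S : Finset V) (v : V) : s.st S 0 v = St.u := rfl

theorem st_succ (S : Finset V) (t : ℕ) (v : V) : s.st S (t + 1) v =
    if s.st S t v ≠ St.u then s.st S t v
    else if s.Ring S t v then (if s.Win S t v then St.x else St.d)
    else if ∃ y ∈ s.nb v \ S, s.Win S t y then St.d
    else St.u := rfl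

theorem st_step_of_ne {S : Finset V} {t : ℕ} {v : V} (hv : s.st S t v ≠ St.u) :
    s.st S (t + 1) v = s.st S t v := by
  rw [st_succ, if_pos hv]

theorem st_stay {S : Finset V} {τ t : ℕ} (h : τ ≤ t) {v : V} (hv : s.st S τ v ≠ St.u) :
    s.st S t v = s.st S τ v := by
  induction t, h using Nat.le_induction with
  | base => rfl
  | succ n hn ih =>
    rw [st_step_of_ne, ih]
    rw [ih]
    exact hv

theorem st_u_mono {S : Finset V} {τ t : ℕ} (h : τ ≤ t) {v : V} (hv : s.st S t v = St.u) :
    s.st S τ v = St.u := by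
  by_contra hcon
  rw [s.st_stay h hcon] at hv
  exact hcon hv

theorem ring_u {S : Finset V} {t : ℕ} {v : V} (h : s.Ring S t v) : s.st S t v = St.u := h.1

theorem win_ring {S : Finset V} {t : ℕ} {v : V} (h : s.Win S t v) : s.Ring S t v := h.1

/-- the next status in terms of the round -/
theorem st_succ_u {S : Finset V} {t : ℕ} {v : V} : s.st S (t + 1) v = St.u ↔
    s.st S t v = St.u ∧ ¬ s.Ring S t v ∧ ∀ y ∈ s.nb v \ S, ¬ s.Win S t y := by
  rw [st_succ]
  by_cases h1 : s.st S t v = St.u
  · by_cases h2 : s.Ring S t v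
    · rw [if_neg (by simp [h1]), if_pos h2]
      by_cases h3 : s.Win S t v <;> simp [h3, h2]
    · rw [if_neg (by simp [h1]), if_neg h2]
      by_cases h4 : ∃ y ∈ s.nb v \ S, s.Win S t y
      · rw [if_pos h4]
        constructor
        · intro h
          exact absurd h (by simp)
        · rintro ⟨_, _, h⟩
          obtain ⟨y, hy, hy'⟩ := h4
          exact absurd hy' (h y hy)
      · rw [if_neg h4]
        push Not at h4
        exact ⟨fun _ => ⟨h1, h2, h4⟩, fun _ => rfl⟩
  · rw [if_pos h1]
    exact ⟨fun h => absurd h h1, fun h => absurd h.1 h1⟩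

theorem st_succ_x {S : Finset V} {t : ℕ} {v : V} : s.st S (t + 1) v = St.x ↔
    s.st S t v = St.x ∨ s.Win S t v := by
  rw [st_succ]
  by_cases h1 : s.st S t v = St.u
  · have h5 : ¬ s.st S t v = St.x := by rw [h1]; simp
    by_cases h2 : s.Ring S t v
    · rw [if_neg (by simp [h1]), if_pos h2]
      by_cases h3 : s.Win S t v <;> simp [h3, h5]
    · have h3 : ¬ s.Win S t v := fun h => h2 h.1
      rw [if_neg (by simp [h1]), if_neg h2]
      by_cases h4 : ∃ y ∈ s.nb v \ S, s.Win S t y
      · rw [if_pos h4]
        simp [h3, h5]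
      · rw [if_neg h4]
        simp [h3, h5]
  · rw [if_pos h1]
    have h3 : ¬ s.Win S t v := fun h => h1 h.1.1
    simp [h3]

/-- a vertex which is undecided is not felt -/
theorem silent {S : Finset V} {t : ℕ} {v : V} (hv : s.st S t v = St.u) {τ : ℕ} (hτ : τ ≤ t)
    {y : V} (hy : y ≠ v) : s.st S τ y = s.st (insert v S) τ y := by
  -- first: the number of decided neighbours
  have hcnt : ∀ τ ≤ t, (∀ y ≠ v, s.st S τ y = s.st (insert v S) τ y) →
      ∀ y, s.cnt S (s.st S τ) y = s.cnt (insert v S) (s.st (insert v S) τ) y := by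
    intro τ hτ ih y
    unfold cnt
    congr 1
    ext z
    simp only [mem_filter, mem_sdiff, mem_insert, not_or]
    by_cases hz : z = v
    · subst hz
      simp [s.st_u_mono hτ hv]
    · rw [ih z hz]
      simp [hz]
  have key : ∀ τ ≤ t, ∀ y ≠ v, s.st S τ y = s.st (insert v S) τ y := by
    intro τ
    induction τ with
    | zero => intro _ y _; rfl
    | succ τ ih =>
      intro hτ y hy
      have ih' := ih (by omega)
      have hring : ∀ y ≠ v, s.Ring S τ y ↔ s.Ring (insert v S) τ y := by
        intro y hy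
        unfold Ring RingA
        rw [ih' y hy, hcnt τ (by omega) ih' y]
      have hvr : ¬ s.Ring S τ v := (s.st_succ_u.1 (s.st_u_mono hτ hv)).2.1
      have hwin : ∀ y ≠ v, s.Win S τ y ↔ s.Win (insert v S) τ y := by
        intro y hy
        unfold Win WinA
        refine and_congr (hring y hy) ⟨fun h z hz hzr => ?_, fun h z hz hzr => ?_⟩
        · rw [mem_sdiff, mem_insert, not_or] at hz
          exact h z (mem_sdiff.2 ⟨hz.1, hz.2.2⟩) ((hring z hz.2.1).2 hzr)
        · have hzv : z ≠ v := fun h' => hvr (h' ▸ hzr)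
          rw [mem_sdiff] at hz
          refine h z (mem_sdiff.2 ⟨hz.1, ?_⟩) ((hring z hzv).1 hzr)
          rw [mem_insert, not_or]
          exact ⟨hzv, hz.2⟩
      rw [st_succ, st_succ, ih' y hy]
      have h5 : (∃ z ∈ s.nb y \ S, s.Win S τ z) ↔
          ∃ z ∈ s.nb y \ insert v S, s.Win (insert v S) τ z := by
        constructor
        · rintro ⟨z, hz, hzw⟩
          have hzv : z ≠ v := fun h' => hvr (h' ▸ hzw.1)
          rw [mem_sdiff] at hz
          refine ⟨z, mem_sdiff.2 ⟨hz.1, ?_⟩, (hwin z hzv).1 hzw⟩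
          rw [mem_insert, not_or]
          exact ⟨hzv, hz.2⟩
        · rintro ⟨z, hz, hzw⟩
          rw [mem_sdiff, mem_insert, not_or] at hz
          exact ⟨z, mem_sdiff.2 ⟨hz.1, hz.2.2⟩, (hwin z hz.2.1).2 hzw⟩
      simp only [hring y hy, hwin y hy, h5]
  exact key τ hτ y hy

theorem silent_cnt {S : Finset V} {t : ℕ} {v : V} (hv : s.st S t v = St.u) (y : V) :
    s.cnt S (s.st S t) y = s.cnt (insert v S) (s.st (insert v S) t) y := by
  unfold cnt
  congr 1
  ext z
  simp only [mem_filter, mem_sdiff, mem_insert, not_or]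
  by_cases hz : z = v
  · subst hz
    simp [hv]
  · rw [s.silent hv le_rfl hz]
    simp [hz]

theorem silent_ring {S : Finset V} {t : ℕ} {v : V} (hv : s.st S t v = St.u) {y : V}
    (hy : y ≠ v) : s.Ring S t y ↔ s.Ring (insert v S) t y := by
  unfold Ring RingA
  rw [s.silent hv le_rfl hy, s.silent_cnt hv y]

theorem silent_win {S : Finset V} {t : ℕ} {v : V} (hv : s.st S t v = St.u)
    (hr : ¬ s.Ring S t v) {y : V} (hy : y ≠ v) : s.Win S t y ↔ s.Win (insert v S) t y := by
  unfold Win WinA
  refine and_congr (s.silent_ring hv hy) ⟨fun h z hz hzr => ?_, fun h z hz hzr => ?_⟩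
  · rw [mem_sdiff, mem_insert, not_or] at hz
    exact h z (mem_sdiff.2 ⟨hz.1, hz.2.2⟩) ((s.silent_ring hv hz.2.1).2 hzr)
  · have hzv : z ≠ v := fun h' => hr (h' ▸ hzr)
    rw [mem_sdiff] at hz
    refine h z (mem_sdiff.2 ⟨hz.1, ?_⟩) ((s.silent_ring hv hzv).1 hzr)
    rw [mem_insert, not_or]
    exact ⟨hzv, hz.2⟩

/-- if `x` joins in round `t` then its undecided neighbours do not join later -/
theorem win_nbr (hsymm : ∀ x y, y ∈ s.nb x → x ∈ s.nb y)
    (hanti : ∀ x y t, y ∈ s.nb x → s.bt x y t → ¬ s.bt y x t) {t : ℕ} {x y : V}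
    (hxy : y ∈ s.nb x) (hx : s.Win ∅ t x) : s.st ∅ (t + 1) y ≠ St.u ∧
      (s.st ∅ t y ≠ St.x → s.st ∅ (t + 1) y ≠ St.x) := by
  have hyx : x ∈ s.nb y \ ∅ := by
    rw [sdiff_empty]
    exact hsymm x y hxy
  constructor
  · intro h
    exact (s.st_succ_u.1 h).2.2 x hyx hx
  · intro h1 h2
    rcases s.st_succ_x.1 h2 with h | h
    · exact h1 h
    · have h3 := hx.2 y (by rw [sdiff_empty]; exact hxy) h.1
      have h4 := h.2 x hyx hx.1
      exact hanti x y t hxy h3 h4

/-- the vertices with status `x` are pairwise not adjacent -/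
theorem indep (hsymm : ∀ x y, y ∈ s.nb x → x ∈ s.nb y)
    (hanti : ∀ x y t, y ∈ s.nb x → s.bt x y t → ¬ s.bt y x t) {t : ℕ} {x y : V}
    (hxy : y ∈ s.nb x) (hx : s.st ∅ t x = St.x) : s.st ∅ t y ≠ St.x := by
  induction t generalizing x y with
  | zero => intro h; rw [st_zero] at h; simp at h
  | succ t ih =>
    intro hy
    rcases s.st_succ_x.1 hx with h1 | h1
    · rcases s.st_succ_x.1 hy with h2 | h2
      · exact ih hxy h1 h2
      · -- y joins now, x is in X: then y is decided
        -- x in X before: show y decided: x won at some earlier round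
        have h3 : ∀ n, s.st ∅ n x = St.x → s.st ∅ n y ≠ St.u := by
          intro n
          induction n with
          | zero => intro h; rw [st_zero] at h; simp at h
          | succ n ihn =>
            intro h
            rcases s.st_succ_x.1 h with h4 | h4
            · rw [s.st_step_of_ne (ihn h4)]
              exact ihn h4
            · exact (s.win_nbr hsymm hanti hxy h4).1
        exact h3 t h1 h2.1.1
    · have h2 := (s.win_nbr hsymm hanti hxy h1).2
      by_cases h3 : s.st ∅ t y = St.x
      · -- y is in X, x wins now: symmetric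
        have h4 : ∀ n, s.st ∅ n y = St.x → s.st ∅ n x ≠ St.u := by
          intro n
          induction n with
          | zero => intro h; rw [st_zero] at h; simp at h
          | succ n ihn =>
            intro h
            rcases s.st_succ_x.1 h with h4 | h4
            · rw [s.st_step_of_ne (ihn h4)]
              exact ihn h4
            · exact (s.win_nbr hsymm hanti (hsymm x y hxy) h4).1
        exact h4 t h3 h1.1.1
      · exact h2 h3 hy

end Sys

/-! ### Balls -/

section Ball

variable {V : Type} (nb : V → Finset V)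

theorem ball_zero (S : Finset V) (v : V) : ball nb S 0 v = {v} := rfl

theorem ball_succ (S : Finset V) (r : ℕ) (v : V) :
    ball nb S (r + 1) v = insert v ((nb v \ S).biUnion (ball nb S r)) := rfl

theorem mem_ball_self (S : Finset V) (r : ℕ) (v : V) : v ∈ ball nb S r v := by
  cases r with
  | zero => rw [ball_zero, mem_singleton]
  | succ r => rw [ball_succ]; exact mem_insert_self _ _

theorem ball_sub_of_mem {S : Finset V} {r : ℕ} {v j : V} (hj : j ∈ nb v \ S) :
    ball nb S r j ⊆ ball nb S (r + 1) v := by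
  rw [ball_succ]
  intro x hx
  exact mem_insert_of_mem (mem_biUnion.2 ⟨j, hj, hx⟩)

theorem ball_mono_succ (S : Finset V) (r : ℕ) (v : V) : ball nb S r v ⊆ ball nb S (r + 1) v := by
  induction r generalizing v with
  | zero =>
    rw [ball_zero, singleton_subset_iff]
    exact mem_ball_self nb S 1 v
  | succ r ih =>
    rw [ball_succ nb S r, ball_succ nb S (r + 1)]
    apply insert_subset_insert
    intro x hx
    rw [mem_biUnion] at hx ⊢
    obtain ⟨j, hj, hx⟩ := hx
    exact ⟨j, hj, ih j hx⟩

theorem ball_mono {S : Finset V} {r r' : ℕ} (h : r ≤ r') (v : V) :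
    ball nb S r v ⊆ ball nb S r' v := by
  induction r', h using Nat.le_induction with
  | base => exact Subset.refl _
  | succ n _ ih => exact ih.trans (ball_mono_succ nb S n v)

theorem ball_disj {S : Finset V} {r : ℕ} {v x : V} (hv : v ∉ S) (hx : x ∈ ball nb S r v) :
    x ∉ S := by
  induction r generalizing v with
  | zero =>
    rw [ball_zero, mem_singleton] at hx
    rw [hx]
    exact hv
  | succ r ih =>
    rw [ball_succ, mem_insert, mem_biUnion] at hx
    rcases hx with rfl | ⟨j, hj, hx⟩
    · exact hv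
    · exact ih (mem_sdiff.1 hj).2 hx

theorem ball_anti {S S' : Finset V} (h : S ⊆ S') (r : ℕ) (v : V) :
    ball nb S' r v ⊆ ball nb S r v := by
  induction r generalizing v with
  | zero => exact Subset.refl _
  | succ r ih =>
    rw [ball_succ, ball_succ]
    apply insert_subset_insert
    intro x hx
    rw [mem_biUnion] at hx ⊢
    obtain ⟨j, hj, hx⟩ := hx
    exact ⟨j, sdiff_subset_sdiff (Subset.refl _) h hj, ih j hx⟩

theorem good_mono {r r' : ℕ} (h : r ≤ r') {S : Finset V} {v : V} (hg : Good nb r' S v) :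
    Good nb r S v := by
  induction r generalizing r' S v with
  | zero => exact trivial
  | succ r ih =>
    obtain ⟨r', rfl⟩ : ∃ q, r' = q + 1 := ⟨r' - 1, by omega⟩
    obtain ⟨h1, h2, h3, h4⟩ := hg
    refine ⟨h1, h2, fun j hj => ih (by omega) (h3 j hj), fun j hj k hk hjk => ?_⟩
    exact (h4 j hj k hk hjk).mono (ball_mono nb (by omega) j) (ball_mono nb (by omega) k)

end Ball

namespace Sys

variable {V : Type} (s : Sys V)

/-- locality, also for different graphs: `f` is injective, and inside the ball around `v` the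
two systems agree -/
theorem st_congr {V' : Type} (s' : Sys V') (f : V' → V) (hf : Function.Injective f)
    (hA : s.A = s'.A) (S : Finset V) (S' : Finset V') (T : ℕ) :
    ∀ (t : ℕ) (v : V'), t ≤ T →
      (∀ x ∈ ball s'.nb S' (3 * t) v, s.nb (f x) \ S = (s'.nb x \ S').image f) →
      (∀ x ∈ ball s'.nb S' (3 * t) v, ∀ τ < T, s.lab (f x) τ = s'.lab x τ) →
      (∀ x ∈ ball s'.nb S' (3 * t) v, ∀ y ∈ ball s'.nb S' (3 * t) v, ∀ τ < T,
        (s.bt (f x) (f y) τ ↔ s'.bt x y τ)) →
      s.st S t (f v) = s'.st S' t v := by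
  intro t
  induction t with
  | zero => intro v _ _ _ _; rfl
  | succ t ih =>
    intro v hT hnb hlab hbt
    -- statuses at time t of vertices at distance at most 3
    have hst : ∀ r ≤ 3, ∀ x ∈ ball s'.nb S' (3 - r) v, ball s'.nb S' (3 * t + r) x ⊆
        ball s'.nb S' (3 * (t + 1)) v := by
      intro r hr
      -- general fact: balls of points of balls
      have gen : ∀ (a b : ℕ) (v x : V'), x ∈ ball s'.nb S' a v →
          ball s'.nb S' b x ⊆ ball s'.nb S' (a + b) v := by
        intro a
        induction a with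
        | zero =>
          intro b v x hx
          rw [ball_zero, mem_singleton] at hx
          rw [hx, Nat.zero_add]
        | succ a iha =>
          intro b v x hx
          rw [ball_succ, mem_insert, mem_biUnion] at hx
          rcases hx with rfl | ⟨j, hj, hx⟩
          · exact ball_mono _ (by omega) _
          · refine (iha b j x hx).trans ?_
            have := ball_sub_of_mem s'.nb (S := S') (r := a + b) hj
            rwa [show a + b + 1 = a + 1 + b by omega] at this
      intro x hx
      have := gen (3 - r) (3 * t + r) v x hx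
      rwa [show 3 - r + (3 * t + r) = 3 * (t + 1) by omega] at this
    have hst0 : ∀ x, ball s'.nb S' (3 * t) x ⊆ ball s'.nb S' (3 * (t + 1)) v →
        s.st S t (f x) = s'.st S' t x := fun x hx =>
      ih x (by omega) (fun y hy => hnb y (hx hy)) (fun y hy => hlab y (hx hy))
        (fun y hy z hz => hbt y (hx hy) z (hx hz))
    have hsub : ∀ r x, ball s'.nb S' (3 * t + r) x ⊆ ball s'.nb S' (3 * (t + 1)) v →
        ball s'.nb S' (3 * t) x ⊆ ball s'.nb S' (3 * (t + 1)) v := fun r x hx =>
      (ball_mono _ (by omega) x).trans hx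
    have hsub1 : ∀ r x, ball s'.nb S' (3 * t + (r + 1)) x ⊆ ball s'.nb S' (3 * (t + 1)) v →
        ∀ y ∈ s'.nb x \ S', ball s'.nb S' (3 * t + r) y ⊆ ball s'.nb S' (3 * (t + 1)) v := by
      intro r x hx y hy
      exact (ball_sub_of_mem s'.nb hy).trans hx
    have hmem : ∀ x, ball s'.nb S' (3 * t) x ⊆ ball s'.nb S' (3 * (t + 1)) v →
        x ∈ ball s'.nb S' (3 * (t + 1)) v := fun x hx => hx (mem_ball_self _ _ _ _)
    have hring : ∀ x, ball s'.nb S' (3 * t + 1) x ⊆ ball s'.nb S' (3 * (t + 1)) v →
        (s.Ring S t (f x) ↔ s'.Ring S' t x) := by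
      intro x hx
      have hx0 := hsub 1 x hx
      unfold Ring RingA
      rw [hst0 x hx0, hlab x (hmem x hx0) t (by omega), hA]
      have : s.cnt S (s.st S t) (f x) = s'.cnt S' (s'.st S' t) x := by
        unfold cnt
        rw [hnb x (hmem x hx0), filter_image, card_image_of_injective _ hf]
        congr 1
        apply filter_congr
        intro y hy
        rw [hst0 y (hsub1 0 x hx y hy)]
      rw [this]
    have hwin : ∀ x, ball s'.nb S' (3 * t + 2) x ⊆ ball s'.nb S' (3 * (t + 1)) v →
        (s.Win S t (f x) ↔ s'.Win S' t x) := by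
      intro x hx
      have hx0 := hsub 2 x hx
      unfold Win WinA
      refine and_congr (hring x ((ball_mono _ (by omega) x).trans hx)) ?_
      rw [hnb x (hmem x hx0), forall_mem_image]
      refine forall₂_congr fun y hy => ?_
      have hy1 := hsub1 1 x hx y hy
      refine imp_congr (hring y hy1) ?_
      exact hbt x (hmem x hx0) y (hmem y (hsub 1 y hy1)) t (by omega)
    have hv3 : ball s'.nb S' (3 * t + 3) v ⊆ ball s'.nb S' (3 * (t + 1)) v := by
      rw [show 3 * t + 3 = 3 * (t + 1) by omega]
    have h1 := hst0 v (hsub 3 v hv3)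
    have h2 := hring v ((ball_mono _ (by omega) v).trans hv3)
    have h3 := hwin v ((ball_mono _ (by omega) v).trans hv3)
    have h4 : (∃ y ∈ s.nb (f v) \ S, s.Win S t y) ↔ ∃ y ∈ s'.nb v \ S', s'.Win S' t y := by
      rw [hnb v (hmem v (hsub 3 v hv3)), exists_mem_image]
      refine exists_congr fun y => and_congr_right fun hy => ?_
      exact hwin y (hsub1 2 v hv3 y hy)
    rw [st_succ, st_succ, h1]
    simp only [h2, h3, h4]

end Sys

end Pool.Agent.G4
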