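import Pool.Agent.G4.Defs

/-!
Paths with a tree-like neighbourhood.
-/

set_option autoImplicit false

namespace Pool.Agent.G4

open Finset
open scoped Classical

/-- the path `p 0, ..., p L` has a tree-like neighbourhood of radius `R` in which the inner
vertices of the path have degree four -/
structure TreePath {V : Type} (nb : V → Finset V) (R L : ℕ) (p : ℕ → V) : Prop where
  inj : ∀ i ≤ L, ∀ j ≤ L, p i = p j → i = j
  adj : ∀ i < L, p (i + 1) ∈ nb (p i)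
  deg : ∀ i, 1 ≤ i → i < L → (nb (p i)).card = 4
  good : ∀ i, 1 ≤ i → i < L → ∀ j ∈ nb (p i), j ≠ p (i - 1) → j ≠ p (i + 1) →
    Good nb R {p i} j
  off : ∀ i, 1 ≤ i → i < L → ∀ j ∈ nb (p i), j ≠ p (i - 1) → j ≠ p (i + 1) →
    ∀ k ≤ L, p k ∉ ball nb {p i} R j
  disj : ∀ i, 1 ≤ i → i < L → ∀ j ∈ nb (p i), j ≠ p (i - 1) → j ≠ p (i + 1) →
    ∀ k, 1 ≤ k → k < L → ∀ l ∈ nb (p k), l ≠ p (k - 1) → l ≠ p (k + 1) →
    (i ≠ k ∨ j ≠ l) → Disjoint (ball nb {p i} R j) (ball nb {p k} R l)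

end Pool.Agent.G4
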