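import Pool.Agent.G4.Nb
import Pool.Agent.G4.Proc
import Pool.Agent.G4.TreePath

/-!
Paths in graphs of large girth.
-/

set_option autoImplicit false

namespace Pool.Agent.G4

open Finset SimpleGraph
open scoped Classical

variable {V : Type}

/-- two short paths with the same ends are equal -/
theorem path_eq_of_short {G : SimpleGraph V} {g : ℕ}
    (hg : ∀ (u : V) (c : G.Walk u u), c.IsCycle → g < c.length) {a b : V}
    {p q : G.Walk a b} (hp : p.IsPath) (hq : q.IsPath) (h : p.length + q.length ≤ g) : p = q := by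
  set s : Set (Sym2 V) := {e | e ∈ p.edges ∨ e ∈ q.edges} with hs
  set H : SimpleGraph V := SimpleGraph.fromEdgeSet s with hH
  have hmem : ∀ e, e ∈ H.edgeSet → e ∈ p.edges.toFinset ∪ q.edges.toFinset := by
    intro e he
    rw [hH, SimpleGraph.edgeSet_fromEdgeSet] at he
    rw [mem_union, List.mem_toFinset, List.mem_toFinset]
    exact he.1
  have hle : H ≤ G := by
    intro x y hxy
    rw [hH, SimpleGraph.fromEdgeSet_adj] at hxy
    rcases hxy.1 with h1 | h1
    · exact p.adj_of_mem_edges h1
    · exact q.adj_of_mem_edges h1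
  have hHp : ∀ e ∈ p.edges, e ∈ H.edgeSet := by
    intro e he
    rw [hH, SimpleGraph.edgeSet_fromEdgeSet]
    exact ⟨Or.inl he, G.not_isDiag_of_mem_edgeSet (p.edges_subset_edgeSet he)⟩
  have hHq : ∀ e ∈ q.edges, e ∈ H.edgeSet := by
    intro e he
    rw [hH, SimpleGraph.edgeSet_fromEdgeSet]
    exact ⟨Or.inr he, G.not_isDiag_of_mem_edgeSet (q.edges_subset_edgeSet he)⟩
  have hac : H.IsAcyclic := by
    intro u c hc
    have h1 : (c.mapLe hle).IsCycle := hc.mapLe hle
    have h2 := hg u _ h1
    rw [SimpleGraph.Walk.length_mapLe] at h2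
    have h3 : c.edges.toFinset ⊆ p.edges.toFinset ∪ q.edges.toFinset := by
      intro e he
      rw [List.mem_toFinset] at he
      exact hmem e (c.edges_subset_edgeSet he)
    have h4 := (card_le_card h3).trans (card_union_le _ _)
    rw [List.toFinset_card_of_nodup hc.edges_nodup] at h4
    have h5 := (List.toFinset_card_le p.edges)
    have h6 := (List.toFinset_card_le q.edges)
    rw [SimpleGraph.Walk.length_edges] at h4 h5 h6
    omega
  have h1 := (hac.subsingleton_path a b).elim ⟨p.transfer H hHp, hp.transfer hHp⟩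
    ⟨q.transfer H hHq, hq.transfer hHq⟩
  have h2 : p.transfer H hHp = q.transfer H hHq := congrArg Subtype.val h1
  have h3 : (p.transfer H hHp).support = (q.transfer H hHq).support := by rw [h2]
  rw [SimpleGraph.Walk.support_transfer, SimpleGraph.Walk.support_transfer] at h3
  exact SimpleGraph.Walk.ext_support h3

/-- the walk of a sequence -/
theorem walk_of_fun {G : SimpleGraph V} (n : ℕ) :
    ∀ (q : ℕ → V), (∀ i < n, G.Adj (q i) (q (i + 1))) →
    (∀ i ≤ n, ∀ j ≤ n, q i = q j → i = j) →
    ∃ w : G.Walk (q 0) (q n), w.IsPath ∧ w.length = n ∧ (∀ z ∈ w.support, ∃ t ≤ n, z = q t) ∧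
      (0 < n → w.snd = q 1) := by
  induction n with
  | zero =>
    intro q _ _
    refine ⟨SimpleGraph.Walk.nil, SimpleGraph.Walk.IsPath.nil, rfl, fun z hz => ?_,
      fun h => absurd h (lt_irrefl 0)⟩
    rw [SimpleGraph.Walk.support_nil, List.mem_singleton] at hz
    exact ⟨0, le_refl _, hz⟩
  | succ n ih =>
    intro q hq hi
    obtain ⟨w, h1, h2, h3, h4⟩ := ih (fun i => q (i + 1)) (fun i hin => hq (i + 1) (by omega))
      (fun i hin j hj hij => by
        have := hi (i + 1) (by omega) (j + 1) (by omega) hij
        omega)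
    refine ⟨SimpleGraph.Walk.cons (hq 0 (by omega)) w, ?_, ?_, fun z hz => ?_, fun _ => ?_⟩
    · apply h1.cons
      intro h0
      obtain ⟨t, ht, htq⟩ := h3 _ h0
      have := hi 0 (by omega) (t + 1) (by omega) htq
      omega
    · rw [SimpleGraph.Walk.length_cons, h2]
    · rw [SimpleGraph.Walk.support_cons, List.mem_cons] at hz
      rcases hz with rfl | hz
      · exact ⟨0, by omega, rfl⟩
      · obtain ⟨t, ht, htq⟩ := h3 _ hz
        exact ⟨t + 1, by omega, htq⟩
    · rw [SimpleGraph.Walk.snd_cons]

section Fin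

variable [Fintype V]

/-- a point of a ball is reached by a path which avoids `S` -/
theorem exists_path_of_mem_ball {G : SimpleGraph V} {S : Finset V} {r : ℕ} {v x : V}
    (hx : x ∈ ball (nbG G) S r v) :
    ∃ w : G.Walk v x, w.IsPath ∧ w.length ≤ r ∧ ∀ y ∈ w.support, y = v ∨ y ∉ S := by
  have key : ∃ w : G.Walk v x, w.length ≤ r ∧ ∀ y ∈ w.support, y = v ∨ y ∉ S := by
    induction r generalizing v with
    | zero =>
      rw [ball_zero, mem_singleton] at hx
      subst hx
      refine ⟨SimpleGraph.Walk.nil, le_refl _, fun y hy => ?_⟩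
      rw [SimpleGraph.Walk.support_nil, List.mem_singleton] at hy
      exact Or.inl hy
    | succ r ih =>
      rw [ball_succ, mem_insert, mem_biUnion] at hx
      rcases hx with rfl | ⟨j, hj, hx⟩
      · refine ⟨SimpleGraph.Walk.nil, Nat.zero_le _, fun y hy => ?_⟩
        rw [SimpleGraph.Walk.support_nil, List.mem_singleton] at hy
        exact Or.inl hy
      · obtain ⟨w, h1, h2⟩ := ih hx
        rw [mem_sdiff, mem_nbG] at hj
        refine ⟨SimpleGraph.Walk.cons hj.1 w, ?_, fun y hy => ?_⟩
        · rw [SimpleGraph.Walk.length_cons]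
          omega
        · rw [SimpleGraph.Walk.support_cons, List.mem_cons] at hy
          rcases hy with rfl | hy
          · exact Or.inl rfl
          · rcases h2 y hy with rfl | h
            · exact Or.inr hj.2
            · exact Or.inr h
  obtain ⟨w, h1, h2⟩ := key
  exact ⟨w.bypass, w.bypass_isPath, w.length_bypass_le_length.trans h1,
    fun y hy => h2 y (w.support_bypass_subset_support hy)⟩

/-- a short walk which avoids `S` stays in the ball -/
theorem mem_ball_of_walk {G : SimpleGraph V} {S : Finset V} {v x : V} (w : G.Walk v x) :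
    ∀ {r : ℕ}, w.length ≤ r → (∀ y ∈ w.support.tail, y ∉ S) → x ∈ ball (nbG G) S r v := by
  induction w with
  | nil => intro r _ _; exact mem_ball_self _ _ _ _
  | @cons a b c hab w ih =>
    intro r hr hS
    rw [SimpleGraph.Walk.length_cons] at hr
    obtain ⟨r, rfl⟩ : ∃ q, r = q + 1 := ⟨r - 1, by omega⟩
    rw [SimpleGraph.Walk.support_cons, List.tail_cons] at hS
    rw [ball_succ]
    refine mem_insert_of_mem (mem_biUnion.2 ⟨b, ?_, ih (by omega) fun y hy => ?_⟩)
    · rw [mem_sdiff, mem_nbG]
      exact ⟨hab, hS b w.start_mem_support⟩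
    · exact hS y (List.mem_of_mem_tail hy)

/-- a path from `v` through `j` into the ball around `j` -/
theorem path_via {G : SimpleGraph V} {S : Finset V} {r : ℕ} {v j x : V} (hv : v ∈ S)
    (hj : G.Adj v j) (hjS : j ∉ S) (hx : x ∈ ball (nbG G) S r j) :
    ∃ w : G.Walk v x, w.IsPath ∧ w.length ≤ r + 1 ∧ w.snd = j ∧
      ∀ y ∈ w.support, y = v ∨ y ∈ ball (nbG G) S r j := by
  obtain ⟨w, h1, h2, h3⟩ := exists_path_of_mem_ball hx
  have hS : ∀ y ∈ w.support, y ∉ S := by
    intro y hy
    rcases h3 y hy with rfl | h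
    · exact hjS
    · exact h
  refine ⟨SimpleGraph.Walk.cons hj w, h1.cons fun h => hS v h hv, ?_, ?_, fun y hy => ?_⟩
  · rw [SimpleGraph.Walk.length_cons]
    omega
  · rw [SimpleGraph.Walk.snd_cons]
  · rw [SimpleGraph.Walk.support_cons, List.mem_cons] at hy
    rcases hy with rfl | hy
    · exact Or.inl rfl
    · refine Or.inr (mem_ball_of_walk (w.takeUntil y hy)
        ((w.length_takeUntil_le_length hy).trans h2) fun z hz => ?_)
      exact hS z (w.support_takeUntil_subset_support hy (List.mem_of_mem_tail hz))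

/-- the balls around two neighbours of `v` -/
theorem two_balls {G : SimpleGraph V} {g : ℕ}
    (hg : ∀ (u : V) (c : G.Walk u u), c.IsCycle → g < c.length) {S : Finset V} {r : ℕ}
    (hr : 2 * r + 2 ≤ g) {v j k : V} (hv : v ∈ S) (hj : G.Adj v j) (hjS : j ∉ S)
    (hk : G.Adj v k) (hkS : k ∉ S) (hjk : j ≠ k) :
    Disjoint (ball (nbG G) S r j) (ball (nbG G) S r k) := by
  rw [Finset.disjoint_left]
  intro x hx hx'
  obtain ⟨w, h1, h2, h3, -⟩ := path_via hv hj hjS hx
  obtain ⟨w', h1', h2', h3', -⟩ := path_via hv hk hkS hx'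
  have h := path_eq_of_short hg h1 h1' (by omega)
  rw [h] at h3
  exact hjk (h3.symm.trans h3')

/-- below a path the graph looks like a tree -/
theorem good_of_path {G : SimpleGraph V} {g R : ℕ}
    (hg : ∀ (u : V) (c : G.Walk u u), c.IsCycle → g < c.length) (hgR : 2 * R + 4 ≤ g) {a : V}
    (hdeg : ∀ x ∈ ball (nbG G) ∅ (R + 1) a, (nbG G x).card = 4) (r : ℕ) :
    ∀ (S : Finset V) (u v : V) (w : G.Walk a u), w.IsPath → S = w.support.toFinset → v ∉ S →
      G.Adj u v → w.length + r ≤ R → Good (nbG G) r S v := by
  induction r with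
  | zero => intro _ _ _ _ _ _ _ _ _; exact trivial
  | succ r ih =>
    intro S u v w hw hS hvS huv hlen
    have hvw : v ∉ w.support := by
      intro h
      rw [hS, List.mem_toFinset] at hvS
      exact hvS h
    have huS : u ∈ S := by
      rw [hS, List.mem_toFinset]
      exact w.end_mem_support
    refine ⟨hvS, ?_, ?_, ?_⟩
    · have h4 : (nbG G v).card = 4 := by
        refine hdeg v (mem_ball_of_walk (w.concat huv) ?_ fun y _ => notMem_empty y)
        rw [SimpleGraph.Walk.length_concat]
        omega
      have h1 : nbG G v ∩ S = {u} := by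
        ext y
        rw [mem_inter, mem_nbG, mem_singleton]
        constructor
        · rintro ⟨hvy, hy⟩
          rw [hS, List.mem_toFinset] at hy
          have p1 : ((w.dropUntil y hy).concat huv).IsPath :=
            (hw.dropUntil hy).concat (fun h => hvw (w.support_dropUntil_subset_support hy h)) huv
          have p2 : (SimpleGraph.Walk.cons hvy.symm SimpleGraph.Walk.nil : G.Walk y v).IsPath := by
            apply SimpleGraph.Walk.IsPath.nil.cons
            rw [SimpleGraph.Walk.support_nil, List.mem_singleton]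
            exact hvy.ne'
          have h5 := w.length_dropUntil_le_length hy
          have h6 := path_eq_of_short hg p1 p2 (by
            rw [SimpleGraph.Walk.length_concat, SimpleGraph.Walk.length_cons,
              SimpleGraph.Walk.length_nil]
            omega)
          have h7 := congrArg SimpleGraph.Walk.length h6
          rw [SimpleGraph.Walk.length_concat, SimpleGraph.Walk.length_cons,
              SimpleGraph.Walk.length_nil] at h7
          exact SimpleGraph.Walk.eq_of_length_eq_zero (by omega : (w.dropUntil y hy).length = 0)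
        · rintro rfl
          exact ⟨huv.symm, huS⟩
      have h2 := Finset.card_sdiff_add_card_inter (nbG G v) S
      rw [h1, card_singleton, h4] at h2
      omega
    · intro j hj
      rw [mem_sdiff, mem_nbG] at hj
      refine ih (insert v S) v j (w.concat huv) (hw.concat hvw huv) ?_ ?_ hj.1 ?_
      · ext z
        rw [mem_insert, hS, List.mem_toFinset, List.mem_toFinset,
          SimpleGraph.Walk.support_concat, List.mem_append,
          List.mem_singleton]
        exact or_comm
      · rw [mem_insert, not_or]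
        exact ⟨hj.1.ne', hj.2⟩
      · rw [SimpleGraph.Walk.length_concat]
        omega
    · intro j hj k hk hjk
      rw [mem_sdiff, mem_nbG] at hj hk
      refine two_balls hg (by omega) (mem_insert_self v S) hj.1 ?_ hk.1 ?_ hjk
      · rw [mem_insert, not_or]
        exact ⟨hj.1.ne', hj.2⟩
      · rw [mem_insert, not_or]
        exact ⟨hk.1.ne', hk.2⟩

omit [Fintype V] in
/-- the walk along the path from `p i` to `p k` -/
theorem walk_between {G : SimpleGraph V} {L : ℕ} {p : ℕ → V}
    (hinj : ∀ i ≤ L, ∀ j ≤ L, p i = p j → i = j)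
    (hadj : ∀ i < L, G.Adj (p i) (p (i + 1))) {i k : ℕ} (hi : i ≤ L) (hk : k ≤ L) (hik : i ≠ k) :
    ∃ w : G.Walk (p i) (p k), w.IsPath ∧ w.length ≤ L ∧ (∀ z ∈ w.support, ∃ t ≤ L, z = p t) ∧
      (w.snd = p (i - 1) ∨ w.snd = p (i + 1)) := by
  rcases lt_or_gt_of_ne hik with h | h
  · obtain ⟨w, h1, h2, h3, h4⟩ := walk_of_fun (k - i) (fun t => p (i + t))
      (fun t ht => hadj (i + t) (by omega)) (fun t ht t' ht' htt => by
        have := hinj (i + t) (by omega) (i + t') (by omega) htt
        omega)
    have hk' : i + (k - i) = k := by omega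
    have e : p (i + (k - i)) = p k := by rw [hk']
    refine ⟨w.copy rfl e, ?_, ?_, ?_, Or.inr ?_⟩
    · rw [SimpleGraph.Walk.isPath_copy]; exact h1
    · rw [SimpleGraph.Walk.length_copy]; omega
    · intro z hz
      rw [SimpleGraph.Walk.support_copy] at hz
      obtain ⟨t, ht, htz⟩ := h3 z hz
      exact ⟨i + t, by omega, htz⟩
    · rw [SimpleGraph.Walk.snd, SimpleGraph.Walk.getVert_copy]
      exact h4 (by omega)
  · obtain ⟨w, h1, h2, h3, h4⟩ := walk_of_fun (G := G) (i - k) (fun t => p (i - t))
      (fun t ht => by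
        have h5 := (hadj (i - (t + 1)) (by omega)).symm
        have h6 : i - (t + 1) + 1 = i - t := by omega
        rw [h6] at h5
        exact h5) (fun t ht t' ht' htt => by
        have := hinj (i - t) (by omega) (i - t') (by omega) htt
        omega)
    have hk' : i - (i - k) = k := by omega
    have e : p (i - (i - k)) = p k := by rw [hk']
    refine ⟨w.copy rfl e, ?_, ?_, ?_, Or.inl ?_⟩
    · rw [SimpleGraph.Walk.isPath_copy]; exact h1
    · rw [SimpleGraph.Walk.length_copy]; omega
    · intro z hz
      rw [SimpleGraph.Walk.support_copy] at hz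
      obtain ⟨t, ht, htz⟩ := h3 z hz
      exact ⟨i - t, by omega, htz⟩
    · rw [SimpleGraph.Walk.snd, SimpleGraph.Walk.getVert_copy]
      exact h4 (by omega)

/-- a short path in a 4-regular graph of large girth has a tree-like neighbourhood -/
theorem treePath_of_girth (G : SimpleGraph V) (R L : ℕ) (p : ℕ → V)
    (hg : ∀ (u : V) (c : G.Walk u u), c.IsCycle → L + 2 * R + 10 < c.length)
    (hinj : ∀ i ≤ L, ∀ j ≤ L, p i = p j → i = j)
    (hadj : ∀ i < L, G.Adj (p i) (p (i + 1)))
    (hdeg : ∀ i ≤ L, ∀ x ∈ ball (nbG G) ∅ (R + 1) (p i), (nbG G x).card = 4) :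
    TreePath (nbG G) R L p := by
  have hoff : ∀ i, 1 ≤ i → i < L → ∀ j ∈ nbG G (p i), j ≠ p (i - 1) → j ≠ p (i + 1) →
      ∀ k ≤ L, p k ∉ ball (nbG G) {p i} R j := by
    intro i hi1 hiL j hj hj1 hj2 k hk hx
    rw [mem_nbG] at hj
    have hjS : j ∉ ({p i} : Finset V) := by
      rw [mem_singleton]
      exact hj.ne'
    by_cases hik : i = k
    · subst hik
      exact ball_disj _ hjS hx (mem_singleton_self _)
    · obtain ⟨w, h1, h2, h3, -⟩ := path_via (mem_singleton_self (p i)) hj hjS hx
      obtain ⟨w', h1', h2', -, h4'⟩ := walk_between hinj hadj hiL.le hk hik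
      have h := path_eq_of_short hg h1 h1' (by omega)
      rw [h] at h3
      rcases h4' with h4 | h4
      · exact hj1 (h3.symm.trans h4)
      · exact hj2 (h3.symm.trans h4)
  refine ⟨hinj, fun i hi => mem_nbG.2 (hadj i hi),
    fun i _ hi => hdeg i hi.le _ (mem_ball_self _ _ _ _), ?_, hoff, ?_⟩
  · intro i hi1 hiL j hj hj1 hj2
    rw [mem_nbG] at hj
    refine good_of_path (R := R) hg (by omega) (hdeg i hiL.le) R {p i} (p i) j
      SimpleGraph.Walk.nil SimpleGraph.Walk.IsPath.nil ?_ ?_ hj ?_
    · ext z
      rw [SimpleGraph.Walk.support_nil, List.mem_toFinset, List.mem_singleton, mem_singleton]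
    · rw [mem_singleton]
      exact hj.ne'
    · rw [SimpleGraph.Walk.length_nil]
      omega
  · intro i hi1 hiL j hj hj1 hj2 k hk1 hkL l hl hl1 hl2 hor
    have hjA := mem_nbG.1 hj
    have hlA := mem_nbG.1 hl
    have hjS : j ∉ ({p i} : Finset V) := by
      rw [mem_singleton]
      exact hjA.ne'
    have hlS : l ∉ ({p k} : Finset V) := by
      rw [mem_singleton]
      exact hlA.ne'
    by_cases hik : i = k
    · subst hik
      have hjl : j ≠ l := by
        rcases hor with h | h
        · exact absurd rfl h
        · exact h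
      exact two_balls hg (by omega) (mem_singleton_self _) hjA hjS hlA hlS hjl
    · rw [Finset.disjoint_left]
      intro x hx hx'
      obtain ⟨w, h1, h2, -, h4⟩ := path_via (mem_singleton_self (p i)) hjA hjS hx
      obtain ⟨w', h1', h2', -, h4'⟩ := path_via (mem_singleton_self (p k)) hlA hlS hx'
      obtain ⟨q, q1, q2, q3, -⟩ := walk_between hinj hadj hiL.le hkL.le hik
      have hap : (q.append w').IsPath := by
        rw [SimpleGraph.Walk.isPath_def, SimpleGraph.Walk.support_append, List.nodup_append']
        refine ⟨q1.support_nodup, h1'.support_nodup.tail, ?_⟩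
        intro z hz hz'
        obtain ⟨t, ht, htz⟩ := q3 z hz
        rcases h4' z (List.mem_of_mem_tail hz') with h5 | h5
        · have h6 := h1'.support_nodup
          rw [← SimpleGraph.Walk.cons_tail_support] at h6
          rw [h5] at hz'
          exact (List.nodup_cons.1 h6).1 hz'
        · rw [htz] at h5
          exact hoff k hk1 hkL l hl hl1 hl2 t ht h5
      have h := path_eq_of_short hg h1 hap (by
        rw [SimpleGraph.Walk.length_append]
        omega)
      have h7 : p k ∈ w.support := by
        rw [h, SimpleGraph.Walk.mem_support_append_iff]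
        exact Or.inl q.end_mem_support
      rcases h4 _ h7 with h8 | h8
      · exact hik (hinj k hkL.le i hiL.le h8).symm
      · exact hoff i hi1 hiL j hj hj1 hj2 k hkL.le h8

end Fin

end Pool.Agent.G4
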