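import Pool.Agent.G4.FinA
import Pool.Agent.G4.Geom

/-!
# The local lemma: 4-regular graphs of large girth are 3-colourable
-/

set_option autoImplicit false

namespace Pool.Agent.G4

open Finset Pool.Agent.Acy Filter Topology
open scoped Classical

theorem exists_length {C K ρ : ℝ} (h0 : 0 < ρ) (h3 : 3 * ρ < 1) :
    ∃ L : ℕ, 1 ≤ L ∧ 4 * (C * ρ ^ L) * (K * ((L : ℝ) + 1) ^ 2 * 3 ^ L) ≤ 1 ∧
      2 * (C * ρ ^ L) < 1 := by
  have hr : |3 * ρ| < 1 := by
    rw [abs_of_pos (by linarith)]
    exact h3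
  have h1 := (tendsto_pow_const_mul_const_pow_of_abs_lt_one 2 hr).comp (tendsto_add_atTop_nat 1)
  have h2 := h1.const_mul (4 * C * K)
  rw [mul_zero] at h2
  have h3' := h2.eventually_lt_const (show (0 : ℝ) < 3 * ρ by linarith)
  have h4 : Tendsto (fun n : ℕ => 2 * (C * ρ ^ n)) atTop (𝓝 (2 * (C * 0))) :=
    ((tendsto_pow_atTop_nhds_zero_of_lt_one h0.le (by linarith)).const_mul C).const_mul 2
  rw [mul_zero, mul_zero] at h4
  have h5 := h4.eventually_lt_const (show (0 : ℝ) < 1 by norm_num)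
  obtain ⟨L, hL, hL', hL''⟩ := ((eventually_ge_atTop 1).and (h3'.and h5)).exists
  refine ⟨L, hL, ?_, hL''⟩
  simp only [Function.comp] at hL'
  push_cast at hL'
  have h6 : (3 * ρ) * (4 * (C * ρ ^ L) * (K * ((L : ℝ) + 1) ^ 2 * 3 ^ L)) < 3 * ρ := by
    calc (3 * ρ) * (4 * (C * ρ ^ L) * (K * ((L : ℝ) + 1) ^ 2 * 3 ^ L))
        = 4 * C * K * (((L : ℝ) + 1) ^ 2 * (3 * ρ) ^ (L + 1)) := by
          rw [pow_succ, mul_pow]
          ring
      _ < 3 * ρ := hL'
  have h7 : (0 : ℝ) < 3 * ρ := by linarith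
  nlinarith

theorem isPM_mu (V : Type) [Fintype V] (m N : ℕ) (hN : 0 < N) : IsPM (mu V m N) := by
  refine ⟨fun i a => ?_, fun i => ?_⟩
  · unfold mu
    positivity
  · unfold mu
    rw [sum_const, card_univ, Fintype.card_fin, nsmul_eq_mul]
    have : (N : ℝ) ≠ 0 := by exact_mod_cast hN.ne'
    field_simp

/-- the bound for the probability of a path gives the theorem -/
theorem regular_four_of {m N : ℕ} {A : ℕ → ℕ → ℕ} {ρ : ℝ} (h0 : 0 < ρ) (h3 : 3 * ρ < 1)
    (hN : 0 < N) {C : ℝ} (hC : 0 < C)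
    (hpath : ∀ (V : Type) [Fintype V] (nb : V → Finset V) (ori : V → V → Prop),
      (∀ x y, y ∈ nb x → x ∈ nb y) → (∀ x, x ∉ nb x) →
      (∀ x y, x ≠ y → (ori x y ↔ ¬ ori y x)) →
      ∀ (L : ℕ) (p : ℕ → V), TreePath nb (3 * m + 3) L p →
        Pr (mu V m N) (fun ω => ∀ i ≤ L, (sys nb A ori ω).st ∅ m (p i) ≠ St.x) ≤ C * ρ ^ L) :
    ∃ g : ℕ, ∀ (V : Type) [Fintype V] (G : SimpleGraph V),
      (∀ v, (nbG G v).card = 4) → (∀ (u : V) (c : G.Walk u u), c.IsCycle → g < c.length) →
      G.Colorable 3 := by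
  obtain ⟨L, hL1, hL2, hL3⟩ := exists_length (C := C)
    (K := (((5 ^ (3 * m) + 1) ^ 2 * m * (5 ^ (3 * m) * 16) : ℕ) : ℝ)) h0 h3
  refine ⟨L + 2 * (3 * m + 3) + 10, ?_⟩
  intro V _ G h4 hg
  set nb := nbG G with hnb
  have hs : ∀ x y, y ∈ nb x → x ∈ nb y := by
    intro x y h
    rw [hnb, mem_nbG] at h ⊢
    exact h.symm
  have hirr : ∀ x, x ∉ nb x := by
    intro x h
    rw [hnb, mem_nbG] at h
    exact h.ne rfl
  set ori : V → V → Prop := fun x y => Fintype.equivFin V x < Fintype.equivFin V y with hori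
  have hor : ∀ x y, x ≠ y → (ori x y ↔ ¬ ori y x) := by
    intro x y hxy
    have : Fintype.equivFin V x ≠ Fintype.equivFin V y := fun h =>
      hxy ((Fintype.equivFin V).injective h)
    simp only [hori, not_lt]
    exact ⟨fun h => h.le, fun h => lt_of_le_of_ne h this⟩
  -- the paths
  let κ : Type := {b : Fin (L + 1) → V // Function.Injective b ∧
    ∀ i (hi : i < L), b ⟨i + 1, by omega⟩ ∈ nb (b ⟨i, by omega⟩)}
  let ex : κ → ℕ → V := fun b i => b.1 ⟨min i L, by omega⟩
  have hexi : ∀ (b : κ) (i : ℕ) (hi : i ≤ L), ex b i = b.1 ⟨i, by omega⟩ := by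
    intro b i hi
    exact congrArg b.1 (Fin.ext (Nat.min_eq_left hi))
  let E : κ → (Co V m → Fin N) → Prop := fun b ω =>
    ∀ i ≤ L, (sys nb A ori ω).st ∅ m (ex b i) ≠ St.x
  let S : κ → Finset (Co V m) := fun b =>
    (range (L + 1)).biUnion fun i => coo m (ball nb ∅ (3 * m) (ex b i))
  have hdep : ∀ b, DependsOn (E b) (S b : Set (Co V m)) := by
    intro b ω ω' h
    refine propext (forall₂_congr fun i hi => ?_)
    have := st_dep_ball nb A ori (m := m) (N := N) m ∅ (ex b i) (x := ω) (y := ω') (fun j hj => by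
      apply h
      rw [mem_coe, mem_biUnion]
      exact ⟨i, mem_range.2 (by omega), hj⟩)
    exact not_congr (Eq.congr_left this)
  have hE : ∀ b, Pr (mu V m N) (E b) ≤ C * ρ ^ L := by
    intro b
    refine hpath V nb ori hs hirr hor L (ex b) ?_
    refine treePath_of_girth G (3 * m + 3) L (ex b) hg ?_ ?_ (fun i _ x _ => h4 x)
    · intro i hi j hj h
      rw [hexi b i hi, hexi b j hj] at h
      have := b.2.1 h
      simpa using this
    · intro i hi
      rw [hexi b i hi.le, hexi b (i + 1) (by omega), ← mem_nbG]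
      exact b.2.2 i hi
  have hcardS : ∀ b, (S b).card ≤ (L + 1) * ((5 ^ (3 * m) + 1) ^ 2 * m) := by
    intro b
    refine card_biUnion_le.trans ?_
    calc ∑ i ∈ range (L + 1), (coo m (ball nb ∅ (3 * m) (ex b i))).card
        ≤ ∑ _i ∈ range (L + 1), (5 ^ (3 * m) + 1) ^ 2 * m :=
          sum_le_sum fun i _ => card_coo_le h4 m (3 * m) _
      _ = _ := by rw [sum_const, card_range, smul_eq_mul]
  have hcount : ∀ c : Co V m, (univ.filter fun b => c ∈ S b).card ≤
      (L + 1) * (5 ^ (3 * m) * (16 * 3 ^ L)) := by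
    rintro ⟨e, τ⟩
    obtain ⟨x, y⟩ := e
    have hsub : (univ.filter fun b : κ => ((s(x, y), τ) : Co V m) ∈ S b) ⊆
        (range (L + 1)).biUnion fun j => (ball nb ∅ (3 * m) x).biUnion fun z =>
          univ.filter fun b : κ => ex b j = z := by
      intro b hb
      rw [mem_filter] at hb
      obtain ⟨j, hj, hb⟩ := mem_biUnion.1 hb.2
      rw [mem_coo_iff, mk_mem_sym2_iff] at hb
      rw [mem_biUnion]
      refine ⟨j, hj, ?_⟩
      rw [mem_biUnion]
      exact ⟨ex b j, ball_symm hs _ hb.1, mem_filter.2 ⟨mem_univ _, rfl⟩⟩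
    refine (card_le_card hsub).trans (card_biUnion_le.trans ?_)
    have h5 : ∀ j ∈ range (L + 1), ((ball nb ∅ (3 * m) x).biUnion fun z =>
        univ.filter fun b : κ => ex b j = z).card ≤ 5 ^ (3 * m) * (16 * 3 ^ L) := by
      intro j hj
      have hjL : j ≤ L := by
        have := mem_range.1 hj
        omega
      refine card_biUnion_le.trans ?_
      calc ∑ z ∈ ball nb ∅ (3 * m) x, (univ.filter fun b : κ => ex b j = z).card
          ≤ ∑ _z ∈ ball nb ∅ (3 * m) x, 16 * 3 ^ L := by
            refine sum_le_sum fun z _ => ?_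
            rw [← card_map ⟨fun b : κ => b.1, Subtype.val_injective⟩]
            refine card_through h4 hs L j hjL z _ ?_
            intro b hb
            rw [Finset.mem_map] at hb
            obtain ⟨b, hb, rfl⟩ := hb
            rw [mem_filter] at hb
            refine ⟨b.2.2, fun i hi h => ?_, ?_⟩
            · have := b.2.1 h
              simp at this
            · rw [← hb.2, hexi b j hjL]
              rfl
        _ = (ball nb ∅ (3 * m) x).card * (16 * 3 ^ L) := by rw [sum_const, smul_eq_mul]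
        _ ≤ 5 ^ (3 * m) * (16 * 3 ^ L) := Nat.mul_le_mul_right _ (card_ball_le h4 _ _)
    calc _ ≤ ∑ _j ∈ range (L + 1), 5 ^ (3 * m) * (16 * 3 ^ L) := sum_le_sum h5
      _ = _ := by rw [sum_const, card_range, smul_eq_mul]
  obtain ⟨ω, -, hω⟩ := lll_local (isPM_mu V m N hN) E S hdep (C * ρ ^ L) _ _ (by positivity)
    hE hcardS hcount (by
      refine le_trans (le_of_eq ?_) hL2
      push_cast
      ring) hL3
  -- the colouring
  set s := sys nb A ori ω with hsys
  set X : Set V := {v | s.st ∅ m v = St.x} with hX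
  have hanti : ∀ x y t, y ∈ s.nb x → s.bt x y t → ¬ s.bt y x t := by
    intro x y t hy h1 h2
    obtain ⟨ht, h1⟩ := h1
    obtain ⟨ht', h2⟩ := h2
    have hxy : x ≠ y := by
      rintro rfl
      exact hirr x hy
    rw [Sym2.eq_swap] at h2
    have h5 := h1.symm.trans h2
    exact iff_not_self (h5.symm.trans (hor x y hxy))
  have hind : ∀ x y, G.Adj x y → x ∈ X → y ∉ X := by
    intro x y hxy hx
    exact s.indep hs hanti (mem_nbG.2 hxy) hx
  -- the graph off X
  let H : SimpleGraph V :=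
    { Adj := fun x y => G.Adj x y ∧ x ∉ X ∧ y ∉ X
      symm := ⟨fun x y h => ⟨h.1.symm, h.2.2, h.2.1⟩⟩
      loopless := ⟨fun x h => h.1.ne rfl⟩ }
  have hHG : H ≤ G := fun x y h => h.1
  have hac : H.IsAcyclic := by
    intro u c hc
    have hlen := hg u (c.mapLe hHG) (hc.mapLe hHG)
    rw [SimpleGraph.Walk.length_mapLe] at hlen
    have hcL : L < c.length := by omega
    let b : κ := ⟨fun i => c.getVert i.1, ?_, ?_⟩
    · refine hω b fun i hi => ?_
      have h5 : H.Adj (c.getVert i) (c.getVert (i + 1)) := c.adj_getVert_succ (by omega)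
      rw [hexi b i hi]
      exact h5.2.1
    · intro i j hij
      have h5 := hc.getVert_injOn' (show i.1 ≤ c.length - 1 by omega)
        (show j.1 ≤ c.length - 1 by omega) hij
      exact Fin.ext h5
    · intro i hi
      have h5 : H.Adj (c.getVert i) (c.getVert (i + 1)) := c.adj_getVert_succ (by omega)
      exact mem_nbG.2 h5.1
  obtain ⟨col⟩ := hac.colorable_two
  refine ⟨SimpleGraph.Coloring.mk (fun v => if v ∈ X then 2 else (col v).castSucc) ?_⟩
  intro x y hxy
  by_cases hx : x ∈ X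
  · have hy := hind x y hxy hx
    simp only [hx, hy, if_true, if_false]
    intro h
    have := congrArg Fin.val h
    simp at this
    omega
  · by_cases hy : y ∈ X
    · simp only [hx, hy, if_true, if_false]
      intro h
      have := congrArg Fin.val h
      simp at this
      omega
    · simp only [hx, hy, if_false]
      intro h
      exact col.valid (show H.Adj x y from ⟨hxy, hx, hy⟩) (Fin.castSucc_injective _ h)

end Pool.Agent.G4
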