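import Pool.Agent.G4.PathDet
import Pool.Agent.G4.EvLaw

/-!
# The probability of a path without members of the independent set
-/

set_option autoImplicit false

namespace Pool.Agent.G4

open Finset Pool.Agent.Acy
open scoped Classical

section Path

variable {V : Type} {m N : ℕ} {nb : V → Finset V} {A : ℕ → ℕ → ℕ} {ori : V → V → Prop}

theorem mem_chs {p : ℕ → V} {i : ℕ} {j : V} :
    j ∈ chs nb p i ↔ j ∈ nb (p i) ∧ j ≠ p (i - 1) ∧ j ≠ p (i + 1) := by
  unfold chs
  rw [mem_filter]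

theorem chs_card {R L : ℕ} {p : ℕ → V} (hsymm : ∀ x y, y ∈ nb x → x ∈ nb y)
    (hp : TreePath nb R L p) {i : ℕ} (h1 : 1 ≤ i) (h2 : i < L) : (chs nb p i).card = 2 := by
  have hd := hp.deg i h1 h2
  have ha : p (i + 1) ∈ nb (p i) := hp.adj i h2
  have hb : p (i - 1) ∈ nb (p i) := by
    apply hsymm
    have := hp.adj (i - 1) (by omega)
    rwa [show i - 1 + 1 = i by omega] at this
  have hne : p (i - 1) ≠ p (i + 1) := by
    intro h
    have := hp.inj (i - 1) (by omega) (i + 1) (by omega) h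
    omega
  have hc : chs nb p i = ((nb (p i)).erase (p (i - 1))).erase (p (i + 1)) := by
    ext j
    rw [mem_chs, mem_erase, mem_erase]
    tauto
  rw [hc, card_erase_of_mem, card_erase_of_mem hb, hd]
  exact mem_erase.2 ⟨fun h => hne h.symm, ha⟩

/-- the coordinate of the coin of an edge of the path -/
def coinS (m : ℕ) (p : ℕ → V) (k : ℕ) : Set (Co V m) := {i | i.1 = s(p (k + 1), p k)}

/-- the coordinates of a vertex of the path and of the next coin -/
def regP (nb : V → Finset V) (m : ℕ) (p : ℕ → V) (k : ℕ) : Set (Co V m) :=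
  regV nb m (p k) (chs nb p k) ∪ coinS m p k

/-- the coordinates of the last `n` inner vertices of the path -/
def regS (nb : V → Finset V) (m L : ℕ) (p : ℕ → V) (n : ℕ) : Set (Co V m) :=
  {i | ∃ k, L - n ≤ k ∧ k < L ∧ i ∈ regP nb m p k}

variable [Fintype V]

theorem mem_regV {v : V} {Ch : Finset V} {i : Co V m} : i ∈ regV nb m v Ch ↔
    i.1 = s(v, v) ∨ ∃ j ∈ Ch, (∀ a ∈ i.1, a ∈ ball nb {v} (3 * m + 3) j) ∨ i.1 = s(v, j) := by
  unfold regV reg
  simp only [Set.mem_union, Set.mem_iUnion, Set.mem_ofPred_eq, mem_coe, mem_coo, exists_prop]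

theorem regV_coin {R L : ℕ} {p : ℕ → V} (hR : 3 * m + 3 = R) (hp : TreePath nb R L p) {k : ℕ}
    (h1 : 1 ≤ k) (h2 : k < L) :
    Disjoint (regV nb m (p k) (chs nb p k)) (coinS m p k) := by
  rw [Set.disjoint_left]
  intro i hi hi'
  rw [mem_regV] at hi
  unfold coinS at hi'
  rw [Set.mem_ofPred_eq] at hi'
  rw [hi'] at hi
  rcases hi with h | ⟨j, hj, h | h⟩
  · rw [Sym2.eq_iff] at h
    have : p (k + 1) = p k := by tauto
    have := hp.inj (k + 1) (by omega) k (by omega) this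
    omega
  · rw [mem_chs] at hj
    have h3 := h (p k) (Sym2.mem_mk_right _ _)
    rw [hR] at h3
    exact hp.off k h1 h2 j hj.1 hj.2.1 hj.2.2 k (by omega) h3
  · rw [mem_chs] at hj
    rw [Sym2.eq_iff] at h
    rcases h with h | h
    · have := hp.inj (k + 1) (by omega) k (by omega) h.1
      omega
    · exact hj.2.2 h.1.symm

theorem regP_disj {R L : ℕ} {p : ℕ → V} (hR : 3 * m + 3 = R) (hp : TreePath nb R L p) {i k : ℕ}
    (h1 : 1 ≤ i) (hik : i < k) (h2 : k < L) :
    Disjoint (regP nb m p i) (regP nb m p k) := by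
  subst hR
  rw [Set.disjoint_left]
  rintro ⟨e, t⟩ hi hi'
  unfold regP at hi hi'
  rw [Set.mem_union, mem_regV] at hi hi'
  unfold coinS at hi hi'
  rw [Set.mem_ofPred_eq] at hi hi'
  simp only at hi hi'
  have inj : ∀ a ≤ L, ∀ b ≤ L, a ≠ b → p a ≠ p b := fun a ha b hb hab h =>
    hab (hp.inj a ha b hb h)
  have off1 : ∀ j ∈ chs nb p i, ∀ a ≤ L, p a ∉ ball nb {p i} (3 * m + 3) j := by
    intro j hj a ha
    rw [mem_chs] at hj
    exact hp.off i h1 (by omega) j hj.1 hj.2.1 hj.2.2 a ha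
  have off2 : ∀ j ∈ chs nb p k, ∀ a ≤ L, p a ∉ ball nb {p k} (3 * m + 3) j := by
    intro j hj a ha
    rw [mem_chs] at hj
    exact hp.off k (by omega) h2 j hj.1 hj.2.1 hj.2.2 a ha
  have ne1 : ∀ j ∈ chs nb p i, ∀ a ≤ L, p a ≠ j := by
    intro j hj a ha h
    apply off1 j hj a ha
    rw [h]
    exact mem_ball_self _ _ _ _
  have ne2 : ∀ j ∈ chs nb p k, ∀ a ≤ L, p a ≠ j := by
    intro j hj a ha h
    apply off2 j hj a ha
    rw [h]
    exact mem_ball_self _ _ _ _
  have hik1 : p i ≠ p k := inj i (by omega) k (by omega) (by omega)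
  rcases hi with (h | ⟨j, hj, h | h⟩) | h
  · rw [h] at hi'
    rcases hi' with (h' | ⟨j', hj', h' | h'⟩) | h'
    · rw [Sym2.eq_iff] at h'
      exact hik1 (by tauto)
    · exact off2 j' hj' i (by omega) (h' _ (Sym2.mem_mk_left _ _))
    · rw [Sym2.eq_iff] at h'
      exact hik1 (by tauto)
    · rw [Sym2.eq_iff] at h'
      exact hik1 (by tauto)
  · rcases hi' with (h' | ⟨j', hj', h' | h'⟩) | h'
    · rw [h'] at h
      exact off1 j hj k (by omega) (h _ (Sym2.mem_mk_left _ _))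
    · have hj1 := mem_chs.1 hj
      have hj2 := mem_chs.1 hj'
      have hd := hp.disj i h1 (by omega) j hj1.1 hj1.2.1 hj1.2.2 k (by omega) h2 j' hj2.1 hj2.2.1
        hj2.2.2 (Or.inl (by omega))
      induction e using Sym2.ind with
      | _ a b =>
        exact Finset.disjoint_left.1 hd (h a (Sym2.mem_mk_left a b)) (h' a (Sym2.mem_mk_left a b))
    · rw [h'] at h
      exact off1 j hj k (by omega) (h _ (Sym2.mem_mk_left _ _))
    · rw [h'] at h
      exact off1 j hj k (by omega) (h _ (Sym2.mem_mk_right _ _))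
  · rw [h] at hi'
    rcases hi' with (h' | ⟨j', hj', h' | h'⟩) | h'
    · rw [Sym2.eq_iff] at h'
      exact hik1 (by tauto)
    · exact off2 j' hj' i (by omega) (h' _ (Sym2.mem_mk_left _ _))
    · rw [Sym2.eq_iff] at h'
      rcases h' with h' | h'
      · exact hik1 h'.1
      · exact ne2 j' hj' i (by omega) h'.1
    · rw [Sym2.eq_iff] at h'
      rcases h' with h' | h'
      · exact inj i (by omega) (k + 1) (by omega) (by omega) h'.1
      · exact hik1 h'.1
  · rw [h] at hi'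
    rcases hi' with (h' | ⟨j', hj', h' | h'⟩) | h'
    · rw [Sym2.eq_iff] at h'
      exact hik1 (by tauto)
    · exact off2 j' hj' i (by omega) (h' _ (Sym2.mem_mk_right _ _))
    · rw [Sym2.eq_iff] at h'
      rcases h' with h' | h'
      · exact ne2 j' hj' i (by omega) h'.2
      · exact hik1 h'.2
    · rw [Sym2.eq_iff] at h'
      rcases h' with h' | h'
      · exact hik1 h'.2
      · exact inj i (by omega) (k + 1) (by omega) (by omega) h'.2

/-! ### The coin -/

theorem dep_coin (p : ℕ → V) (i t : ℕ) (ρ : Bool) (t' : ℕ) (ρ' c : Bool) :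
    DependsOn (fun ω : Co V m → Fin N => (sys nb A ori ω).CoinOK p i t ρ t' ρ' c)
      (coinS m p i) := by
  intro x y hxy
  have h : btOf ori x (p (i + 1)) (p i) t = btOf ori y (p (i + 1)) (p i) t :=
    dep_bt ori _ _ t fun j hj => hxy j hj
  show Sys.CoinOK _ _ _ _ _ _ _ _ = Sys.CoinOK _ _ _ _ _ _ _ _
  unfold Sys.CoinOK
  show (if t' = t ∧ ρ ∧ ρ' then ((c : Prop) ↔ btOf ori x (p (i + 1)) (p i) t) else c = false) =
    (if t' = t ∧ ρ ∧ ρ' then ((c : Prop) ↔ btOf ori y (p (i + 1)) (p i) t) else c = false)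
  rw [h]

theorem Pr_false {ι α : Type*} [Fintype ι] [DecidableEq ι] [Fintype α] {μ : ι → α → ℝ} :
    Pr μ (fun _ => False) = 0 := by
  unfold Pr Ex
  simp

theorem Pr_coin (hN : 0 < N) (hN2 : Even N) (p : ℕ → V) (i t : ℕ) (ρ : Bool) (t' : ℕ)
    (ρ' c : Bool) (hadm : Adm m t ρ) :
    Pr (mu V m N) (fun ω => (sys nb A ori ω).CoinOK p i t ρ t' ρ' c) = cw t ρ t' ρ' c := by
  unfold cw
  by_cases h : t' = t ∧ (ρ : Prop) ∧ (ρ' : Prop)
  · have ht : t < m := hadm.2 h.2.1
    rw [if_pos h]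
    have hb := Pr_bt (V := V) (m := m) hN hN2 ori (p (i + 1)) (p i) ht
    cases c with
    | true =>
      rw [← hb]
      refine Pr_congr fun ω => ?_
      unfold Sys.CoinOK
      rw [if_pos h]
      show (((true : Bool) : Prop) ↔ btOf ori ω (p (i + 1)) (p i) t) ↔ _
      simp
    | false =>
      have h2 := Pr_not (pm_mu (V := V) (m := m) hN)
        (fun ω => btOf ori ω (p (i + 1)) (p i) t)
      rw [hb] at h2
      rw [show (1 : ℝ) / 2 = 1 - 1 / 2 by norm_num, ← h2]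
      refine Pr_congr fun ω => ?_
      unfold Sys.CoinOK
      rw [if_pos h]
      show (((false : Bool) : Prop) ↔ btOf ori ω (p (i + 1)) (p i) t) ↔ _
      simp
  · rw [if_neg h]
    cases c with
    | true =>
      rw [if_pos (by rfl), ← Pr_false (μ := mu V m N)]
      refine Pr_congr fun ω => ?_
      unfold Sys.CoinOK
      rw [if_neg h]
      simp
    | false =>
      rw [if_neg (by simp), ← Pr_true (pm_mu (V := V) (m := m) hN)]
      refine Pr_congr fun ω => ?_
      unfold Sys.CoinOK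
      rw [if_neg h]
      simp

theorem cw_nonneg (t : ℕ) (ρ : Bool) (t' : ℕ) (ρ' c : Bool) : 0 ≤ cw t ρ t' ρ' c := by
  unfold cw
  split_ifs <;> norm_num

/-! ### The events of the end of the path -/

theorem dep_suf {L : ℕ} {p : ℕ → V} : ∀ (n : ℕ), n + 1 ≤ L → ∀ (l : Info) (t : ℕ) (ρ : Bool),
    t ≤ m → DependsOn (fun ω : Co V m → Fin N => (sys nb A ori ω).Suf m L p n l t ρ)
      (regS nb m L p n) := by
  intro n
  induction n with
  | zero =>
    intro _ l t ρ _ x y _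
    rfl
  | succ n ih =>
    intro hn l t ρ ht x y hxy
    have hx1 : ∀ i ∈ regP nb m p (L - (n + 1)), x i = y i := fun i hi =>
      hxy i ⟨L - (n + 1), le_rfl, by omega, hi⟩
    have hx2 : ∀ i ∈ regS nb m L p n, x i = y i := by
      rintro i ⟨k, hk1, hk2, hi⟩
      exact hxy i ⟨k, by omega, hk2, hi⟩
    show Sys.Suf _ _ _ _ _ _ _ _ = Sys.Suf _ _ _ _ _ _ _ _
    rw [Sys.Suf, Sys.Suf]
    refine propext (exists_congr fun t' => exists_congr fun ρ' => exists_congr fun c =>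
      and_congr_right fun hadm => ?_)
    refine and_congr ?_ (and_congr ?_ ?_)
    · exact iff_of_eq (dep_coin (A := A) (nb := nb) (ori := ori) p (L - (n + 1)) t ρ t' ρ' c
        fun i hi => hx1 i (Or.inr hi))
    · exact iff_of_eq (dep_EvV nb A ori (p (L - (n + 1))) (chs nb p (L - (n + 1))) l
        (rInfo t ρ t' ρ' c) t ρ ht fun i hi => hx1 i (Or.inl hi))
    · exact iff_of_eq (ih (by omega) (lInfo t ρ t' ρ' c) t' ρ' hadm.1 hx2)

theorem lInfo_tl_r {t : ℕ} {ρ : Bool} {t' : ℕ} {ρ' c : Bool} (h : lInfo t ρ t' ρ' c = Info.tl) :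
    ρ' := by
  unfold lInfo at h
  split_ifs at h with h1 h2
  exact h2.2.2.1

theorem lInfo_ea_r {t : ℕ} {ρ : Bool} {t' : ℕ} {ρ' c : Bool} {d : ℕ}
    (h : lInfo t ρ t' ρ' c = Info.ea d) : d < t' := by
  unfold lInfo at h
  split_ifs at h with h1 h2
  rw [Info.ea.injEq] at h
  omega

theorem Pr_suf {w : Law m N A} {ρ₀ : ℝ} (h0 : 0 < ρ₀) (pot : Potential m N A w ρ₀) (hN : 0 < N)
    (hN2 : Even N) (hA : ∀ t k, A t k ≤ N) (hsymm : ∀ x y, y ∈ nb x → x ∈ nb y)
    (hirr : ∀ x, x ∉ nb x) {L : ℕ} {p : ℕ → V} (hp : TreePath nb (3 * m + 3) L p) :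
    ∀ (n : ℕ), n + 1 ≤ L → ∀ (l : Info) (t : ℕ) (ρ : Bool), Adm m t ρ → (l = Info.tl → ρ) →
      (∀ c, l = Info.ea c → c < t) →
      Pr (mu V m N) (fun ω => (sys nb A ori ω).Suf m L p n l t ρ) ≤ ρ₀ ^ n * pot.Φ l t ρ := by
  have hpm := pm_mu (V := V) (m := m) hN
  intro n
  induction n with
  | zero =>
    intro _ l t ρ _ _ _
    rw [pow_zero, one_mul]
    exact (Pr_le_one hpm _).trans (pot.one_le l t ρ)
  | succ n ih =>
    intro hn l t ρ hadm hl1 hl2
    set i := L - (n + 1) with hi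
    have hi1 : 1 ≤ i := by omega
    have hi2 : i < L := by omega
    set E : ℕ → Bool → Bool → (Co V m → Fin N) → Prop := fun t' ρ' c ω =>
      Adm m t' ρ' ∧ (sys nb A ori ω).CoinOK p i t ρ t' ρ' c ∧
      (sys nb A ori ω).EvV m (p i) (chs nb p i) l (rInfo t ρ t' ρ' c) t ρ ∧
      (sys nb A ori ω).Suf m L p n (lInfo t ρ t' ρ' c) t' ρ' with hE
    have h1 : Pr (mu V m N) (fun ω => (sys nb A ori ω).Suf m L p (n + 1) l t ρ) ≤
        ∑ t' ∈ range (m + 1), ∑ ρ' : Bool, ∑ c : Bool, Pr (mu V m N) (E t' ρ' c) := by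
      calc Pr (mu V m N) (fun ω => (sys nb A ori ω).Suf m L p (n + 1) l t ρ)
          ≤ Pr (mu V m N) (fun ω => ∃ t' ∈ range (m + 1), ∃ ρ' ∈ (univ : Finset Bool),
              ∃ c ∈ (univ : Finset Bool), E t' ρ' c ω) := by
            refine Pr_mono hpm fun ω hω => ?_
            rw [Sys.Suf] at hω
            obtain ⟨t', ρ', c, ha, hb⟩ := hω
            exact ⟨t', mem_range.2 (by have := ha.1; omega), ρ', mem_univ _, c, mem_univ _,
              ha, hb⟩
        _ ≤ ∑ t' ∈ range (m + 1), Pr (mu V m N) (fun ω => ∃ ρ' ∈ (univ : Finset Bool),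
              ∃ c ∈ (univ : Finset Bool), E t' ρ' c ω) :=
            Pr_exists_le hpm (range (m + 1)) (fun t' ω => ∃ ρ' ∈ (univ : Finset Bool),
              ∃ c ∈ (univ : Finset Bool), E t' ρ' c ω)
        _ ≤ ∑ t' ∈ range (m + 1), ∑ ρ' : Bool, Pr (mu V m N) (fun ω =>
              ∃ c ∈ (univ : Finset Bool), E t' ρ' c ω) :=
            sum_le_sum fun t' _ => Pr_exists_le hpm univ
              (fun ρ' ω => ∃ c ∈ (univ : Finset Bool), E t' ρ' c ω)
        _ ≤ _ := sum_le_sum fun t' _ => sum_le_sum fun ρ' _ => Pr_exists_le hpm univ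
              (fun c ω => E t' ρ' c ω)
    have h2 : ∀ t' ρ' c, Pr (mu V m N) (E t' ρ' c) ≤
        ρ₀ ^ n * (if Adm m t' ρ' then cw t ρ t' ρ' c * Fw A N w l (rInfo t ρ t' ρ' c) t ρ *
          pot.Φ (lInfo t ρ t' ρ' c) t' ρ' else 0) := by
      intro t' ρ' c
      by_cases ha : Adm m t' ρ'
      · rw [if_pos ha]
        have hS := ih (by omega) (lInfo t ρ t' ρ' c) t' ρ' ha lInfo_tl_r (fun d => lInfo_ea_r)
        have hV := Pr_EvV w hN hN2 hA nb ori hirr (p i) (chs nb p i)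
          (fun j hj => (mem_chs.1 hj).1) (chs_card hsymm hp hi1 hi2)
          (fun j hj => hp.good i hi1 hi2 j (mem_chs.1 hj).1 (mem_chs.1 hj).2.1
            (mem_chs.1 hj).2.2)
          (fun j hj k hk hjk => hp.disj i hi1 hi2 j (mem_chs.1 hj).1 (mem_chs.1 hj).2.1
            (mem_chs.1 hj).2.2 i hi1 hi2 k (mem_chs.1 hk).1 (mem_chs.1 hk).2.1
            (mem_chs.1 hk).2.2 (Or.inr hjk)) l (rInfo t ρ t' ρ' c) t ρ hadm
        have hC := Pr_coin (nb := nb) (A := A) (ori := ori) hN hN2 p i t ρ t' ρ' c hadm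
        have hd1 := dep_coin (m := m) (N := N) (nb := nb) (A := A) (ori := ori) p i t ρ t' ρ' c
        have hd2 := dep_EvV (m := m) (N := N) nb A ori (p i) (chs nb p i) l
          (rInfo t ρ t' ρ' c) t ρ hadm.1
        have hd3 := dep_suf (m := m) (N := N) (nb := nb) (A := A) (ori := ori) (L := L) (p := p)
          n (by omega) (lInfo t ρ t' ρ' c) t' ρ' ha.1
        have hdisj : ∀ k, i < k → k < L → Disjoint (regP nb m p i) (regP nb m p k) :=
          fun k h3 h4 => regP_disj rfl hp hi1 h3 h4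
        have hsep : Disjoint (regP nb m p i) (regS nb m L p n) := by
          rw [Set.disjoint_left]
          rintro x hx ⟨k, hk1, hk2, hk3⟩
          exact Set.disjoint_left.1 (hdisj k (by omega) hk2) hx hk3
        have e1 : Pr (mu V m N) (E t' ρ' c) = Pr (mu V m N)
            (fun ω => (sys nb A ori ω).CoinOK p i t ρ t' ρ' c) *
            Pr (mu V m N) (fun ω =>
              (sys nb A ori ω).EvV m (p i) (chs nb p i) l (rInfo t ρ t' ρ' c) t ρ ∧
              (sys nb A ori ω).Suf m L p n (lInfo t ρ t' ρ' c) t' ρ') := by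
          rw [← Pr_and_disjoint hpm (S := coinS m p i)
            (T := regV nb m (p i) (chs nb p i) ∪ regS nb m L p n) hd1]
          · refine Pr_congr fun ω => ?_
            simp only [hE]
            exact ⟨fun h => h.2, fun h => ⟨ha, h⟩⟩
          · exact dep_and (dep_mono hd2 Set.subset_union_left)
              (dep_mono hd3 Set.subset_union_right)
          · rw [Set.disjoint_union_right]
            exact ⟨(regV_coin rfl hp hi1 hi2).symm,
              hsep.mono_left Set.subset_union_right⟩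
        have e2 : Pr (mu V m N) (fun ω =>
              (sys nb A ori ω).EvV m (p i) (chs nb p i) l (rInfo t ρ t' ρ' c) t ρ ∧
              (sys nb A ori ω).Suf m L p n (lInfo t ρ t' ρ' c) t' ρ') =
            Pr (mu V m N) (fun ω =>
              (sys nb A ori ω).EvV m (p i) (chs nb p i) l (rInfo t ρ t' ρ' c) t ρ) *
            Pr (mu V m N) (fun ω =>
              (sys nb A ori ω).Suf m L p n (lInfo t ρ t' ρ' c) t' ρ') :=
          Pr_and_disjoint hpm hd2 hd3 (hsep.mono_left Set.subset_union_left)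
        rw [e1, e2, hC, hV]
        have hF : 0 ≤ Fw A N w l (rInfo t ρ t' ρ' c) t ρ := by
          rw [← hV]
          exact Pr_nonneg hpm _
        have h5 := mul_le_mul_of_nonneg_left hS (mul_nonneg (cw_nonneg t ρ t' ρ' c) hF)
        calc _ = cw t ρ t' ρ' c * Fw A N w l (rInfo t ρ t' ρ' c) t ρ *
              Pr (mu V m N) (fun ω =>
              (sys nb A ori ω).Suf m L p n (lInfo t ρ t' ρ' c) t' ρ') := by ring
          _ ≤ _ := h5
          _ = _ := by ring
      · rw [if_neg ha, mul_zero]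
        have : Pr (mu V m N) (E t' ρ' c) = 0 := by
          rw [← Pr_false (μ := mu V m N)]
          refine Pr_congr fun ω => ⟨fun h => ha h.1, False.elim⟩
        rw [this]
    calc _ ≤ _ := h1
      _ ≤ ∑ t' ∈ range (m + 1), ∑ ρ' : Bool, ∑ c : Bool,
          ρ₀ ^ n * (if Adm m t' ρ' then cw t ρ t' ρ' c * Fw A N w l (rInfo t ρ t' ρ' c) t ρ *
            pot.Φ (lInfo t ρ t' ρ' c) t' ρ' else 0) :=
          sum_le_sum fun t' _ => sum_le_sum fun ρ' _ => sum_le_sum fun c _ => h2 t' ρ' c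
      _ = ρ₀ ^ n * ∑ t' ∈ range (m + 1), ∑ ρ' : Bool, ∑ c : Bool,
          (if Adm m t' ρ' then cw t ρ t' ρ' c * Fw A N w l (rInfo t ρ t' ρ' c) t ρ *
            pot.Φ (lInfo t ρ t' ρ' c) t' ρ' else 0) := by
          simp only [mul_sum]
      _ ≤ ρ₀ ^ n * (ρ₀ * pot.Φ l t ρ) :=
          mul_le_mul_of_nonneg_left (pot.step l t ρ hadm hl1 hl2) (pow_pos h0 n).le
      _ = _ := by ring

end Path

/-- the possible information of a vertex -/
noncomputable def infos (m : ℕ) : Finset Info :=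
  insert Info.ne (insert Info.tl ((range m).image Info.ea))

theorem mem_infos {m t : ℕ} (ht : t ≤ m) {l : Info} (hl : ∀ c, l = Info.ea c → c < t) :
    l ∈ infos m := by
  unfold infos
  rw [mem_insert, mem_insert, mem_image]
  cases l with
  | ea c =>
    right
    right
    exact ⟨c, mem_range.2 ((hl c rfl).trans_le ht), rfl⟩
  | ne => exact Or.inl rfl
  | tl => exact Or.inr (Or.inl rfl)

theorem path_prob {m N : ℕ} {A : ℕ → ℕ → ℕ} {w : Law m N A} {ρ₀ : ℝ} (h0 : 0 < ρ₀)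
    (pot : Potential m N A w ρ₀) (hN : 0 < N) (hN2 : Even N) (hA : ∀ t k, A t k ≤ N) :
    ∃ C : ℝ, 0 < C ∧ ∀ (V : Type) [Fintype V] (nb : V → Finset V) (ori : V → V → Prop),
      (∀ x y, y ∈ nb x → x ∈ nb y) → (∀ x, x ∉ nb x) →
      (∀ x y, x ≠ y → (ori x y ↔ ¬ ori y x)) →
      ∀ (L : ℕ) (p : ℕ → V), TreePath nb (3 * m + 3) L p →
        Pr (mu V m N) (fun ω => ∀ i ≤ L, (sys nb A ori ω).st ∅ m (p i) ≠ St.x) ≤ C * ρ₀ ^ L := by
  set C₀ : ℝ := ∑ l ∈ infos m, ∑ t ∈ range (m + 1), ∑ ρ : Bool, pot.Φ l t ρ with hC₀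
  have hC₀0 : 0 ≤ C₀ := sum_nonneg fun l _ => sum_nonneg fun t _ => sum_nonneg fun ρ _ =>
    zero_le_one.trans (pot.one_le l t ρ)
  refine ⟨C₀ / ρ₀ + 1, by positivity, ?_⟩
  intro V _ nb ori hsymm hirr hori L p hp
  have hpm := pm_mu (V := V) (m := m) hN
  rcases Nat.eq_zero_or_pos L with rfl | hL
  · rw [pow_zero, mul_one]
    refine (Pr_le_one hpm _).trans ?_
    have : 0 ≤ C₀ / ρ₀ := div_nonneg hC₀0 h0.le
    linarith
  have hbt : ∀ (ω : Co V m → Fin N) (x y : V) (t : ℕ), t < m → x ≠ y →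
      (btOf ori ω x y t ↔ ¬ btOf ori ω y x t) := by
    intro ω x y t ht hxy
    unfold btOf
    rw [Sym2.eq_swap (a := y) (b := x)]
    have := hori x y hxy
    simp only [ht, exists_true_left]
    tauto
  set E : Info → ℕ → Bool → (Co V m → Fin N) → Prop := fun l t ρ ω =>
    (Adm m t ρ ∧ (l = Info.tl → ρ) ∧ ∀ c, l = Info.ea c → c < t) ∧
      (sys nb A ori ω).Suf m L p (L - 1) l t ρ with hE
  have h1 : Pr (mu V m N) (fun ω => ∀ i ≤ L, (sys nb A ori ω).st ∅ m (p i) ≠ St.x) ≤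
      ∑ l ∈ infos m, ∑ t ∈ range (m + 1), ∑ ρ : Bool, Pr (mu V m N) (E l t ρ) := by
    calc Pr (mu V m N) (fun ω => ∀ i ≤ L, (sys nb A ori ω).st ∅ m (p i) ≠ St.x)
        ≤ Pr (mu V m N) (fun ω => ∃ l ∈ infos m, ∃ t ∈ range (m + 1),
            ∃ ρ ∈ (univ : Finset Bool), E l t ρ ω) := by
          refine Pr_mono hpm fun ω hω => ?_
          obtain ⟨l, t, ρ, ha, hb, hc, hd⟩ := Sys.suf_of_off (sys nb A ori ω) m (3 * m + 3) L p
            hsymm hirr (hbt ω) hp hω
          exact ⟨l, mem_infos ha.1 hc, t, mem_range.2 (by have := ha.1; omega), ρ, mem_univ _,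
            ⟨ha, hb, hc⟩, hd⟩
      _ ≤ ∑ l ∈ infos m, Pr (mu V m N) (fun ω => ∃ t ∈ range (m + 1),
            ∃ ρ ∈ (univ : Finset Bool), E l t ρ ω) :=
          Pr_exists_le hpm (infos m) (fun l ω => ∃ t ∈ range (m + 1),
            ∃ ρ ∈ (univ : Finset Bool), E l t ρ ω)
      _ ≤ ∑ l ∈ infos m, ∑ t ∈ range (m + 1), Pr (mu V m N) (fun ω =>
            ∃ ρ ∈ (univ : Finset Bool), E l t ρ ω) :=
          sum_le_sum fun l _ => Pr_exists_le hpm (range (m + 1))
            (fun t ω => ∃ ρ ∈ (univ : Finset Bool), E l t ρ ω)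
      _ ≤ _ := sum_le_sum fun l _ => sum_le_sum fun t _ => Pr_exists_le hpm univ
            (fun ρ ω => E l t ρ ω)
  have h2 : ∀ l t ρ, Pr (mu V m N) (E l t ρ) ≤ ρ₀ ^ (L - 1) * pot.Φ l t ρ := by
    intro l t ρ
    by_cases ha : Adm m t ρ ∧ (l = Info.tl → ρ) ∧ ∀ c, l = Info.ea c → c < t
    · refine le_trans (Pr_mono hpm fun ω hω => hω.2) ?_
      exact Pr_suf h0 pot hN hN2 hA hsymm hirr hp (L - 1) (by omega) l t ρ ha.1 ha.2.1 ha.2.2
    · have : Pr (mu V m N) (E l t ρ) = 0 := by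
        rw [← Pr_false (μ := mu V m N)]
        exact Pr_congr fun ω => ⟨fun h => ha h.1, False.elim⟩
      rw [this]
      exact mul_nonneg (pow_pos h0 _).le (zero_le_one.trans (pot.one_le l t ρ))
  have h3 : ρ₀ ^ L = ρ₀ ^ (L - 1) * ρ₀ := by
    rw [← pow_succ, Nat.sub_add_cancel hL]
  calc _ ≤ _ := h1
    _ ≤ ∑ l ∈ infos m, ∑ t ∈ range (m + 1), ∑ ρ : Bool, ρ₀ ^ (L - 1) * pot.Φ l t ρ :=
        sum_le_sum fun l _ => sum_le_sum fun t _ => sum_le_sum fun ρ _ => h2 l t ρ
    _ = ρ₀ ^ (L - 1) * C₀ := by simp only [hC₀, mul_sum]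
    _ = C₀ / ρ₀ * ρ₀ ^ L := by
        rw [h3]
        field_simp
    _ ≤ _ := by
        have := pow_pos h0 L
        nlinarith

end Pool.Agent.G4
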