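import Pool.Agent.G4.FinB
import Pool.Agent.G4.PathPr
import Pool.Agent.G4.Embed

/-!
# The theorems from the certificate
-/

set_option autoImplicit false

namespace Pool.Agent.G4

open Finset Pool.Agent.Acy
open scoped Classical

/-- the statement of the certificate -/
def CertStmt : Prop :=
  ∃ (m N : ℕ) (A : ℕ → ℕ → ℕ) (w : Law m N A) (ρ₀ : ℝ), 0 < ρ₀ ∧ 3 * ρ₀ < 1 ∧
    0 < N ∧ Even N ∧ (∀ t k, A t k ≤ N) ∧ Nonempty (Potential m N A w ρ₀)

theorem regular_four_of_cert (h : CertStmt) :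
    ∃ g : ℕ, ∀ (V : Type) [Fintype V] (G : SimpleGraph V),
      (∀ v, (nbG G v).card = 4) → (∀ (u : V) (c : G.Walk u u), c.IsCycle → g < c.length) →
      G.Colorable 3 := by
  obtain ⟨m, N, A, w, ρ₀, h0, h3, hN, hN2, hA, ⟨pot⟩⟩ := h
  obtain ⟨C, hC, hp⟩ := path_prob h0 pot hN hN2 hA
  exact regular_four_of h0 h3 hN hC hp

theorem max_degree_of_cert (h : CertStmt) (k : ℕ) (hk : 4 ≤ k) :
    ∃ g : ℕ, ∀ (V : Type) [Finite V] (G : SimpleGraph V),
      (∀ v, (G.neighborSet v).ncard ≤ k) → (g : ℕ∞) ≤ G.egirth → G.Colorable (k - 1) :=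
  max_degree_of (regular_four_of_cert h) k hk

/-- no 4-regular graph of large girth has chromatic number four -/
theorem not_four_of_cert (h : CertStmt) :
    ¬ (∀ g : ℕ, ∃ (n : ℕ) (G : SimpleGraph (Fin n)),
      (∀ v : Fin n, (G.neighborSet v).ncard = 4) ∧
      G.chromaticNumber = 4 ∧
      (g : ℕ∞) ≤ G.egirth) := by
  intro hall
  obtain ⟨g, hg⟩ := max_degree_of_cert h 4 le_rfl
  obtain ⟨n, G, hd, hc, hgir⟩ := hall g
  have h1 := (hg (Fin n) G (fun v => (hd v).le) hgir).chromaticNumber_le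
  rw [hc] at h1
  exact absurd h1 (by norm_num)

end Pool.Agent.G4
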