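import Pool.Agent.G4.Defs

/-!
# The star lemma: one vertex with independent children
-/

set_option autoImplicit false
set_option linter.unusedSectionVars false

namespace Pool.Agent.G4

open Finset Pool.Agent.Acy
open scoped Classical

section Tools

variable {ι α κ : Type*} [Fintype ι] [DecidableEq ι] [Fintype α] {μ : ι → α → ℝ}

theorem Pr_congr {E F : (ι → α) → Prop} (h : ∀ ω, E ω ↔ F ω) : Pr μ E = Pr μ F := by
  have : E = F := funext fun ω => propext (h ω)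
  rw [this]

theorem Pr_true (h : IsPM μ) : Pr μ (fun _ => True) = 1 := by
  unfold Pr
  simp [Ex_const h]

/-- exclusive events -/
theorem Pr_exists_eq (s : Finset κ) (E : κ → (ι → α) → Prop)
    (hE : ∀ ω, ∀ a ∈ s, ∀ b ∈ s, E a ω → E b ω → a = b) :
    Pr μ (fun ω => ∃ b ∈ s, E b ω) = ∑ b ∈ s, Pr μ (E b) := by
  unfold Pr
  rw [← Ex_sum]
  congr 1
  funext ω
  by_cases h : ∃ b ∈ s, E b ω
  · rw [if_pos h]
    obtain ⟨b, hb, hbE⟩ := h
    rw [Finset.sum_eq_single_of_mem b hb, if_pos hbE]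
    intro c hc hcb
    rw [if_neg]
    intro hcE
    exact hcb (hE ω c hc b hb hcE hbE)
  · rw [if_neg h]
    push Not at h
    symm
    apply Finset.sum_eq_zero
    intro c hc
    rw [if_neg (h c hc)]

theorem Pr_add {E F : (ι → α) → Prop} (h : ∀ ω, E ω → ¬ F ω) :
    Pr μ (fun ω => E ω ∨ F ω) = Pr μ E + Pr μ F := by
  unfold Pr
  rw [← Ex_add]
  congr 1
  funext ω
  by_cases h1 : E ω
  · simp [h1, h ω h1]
  · simp [h1]

/-- `Pr (E and not F) = Pr E - Pr (E and F)` -/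
theorem Pr_and_not (E F : (ι → α) → Prop) :
    Pr μ (fun ω => E ω ∧ ¬ F ω) = Pr μ E - Pr μ (fun ω => E ω ∧ F ω) := by
  have h := Pr_add (μ := μ) (E := fun ω => E ω ∧ F ω) (F := fun ω => E ω ∧ ¬ F ω)
    (fun ω h1 h2 => h2.2 h1.2)
  have h2 : Pr μ E = Pr μ (fun ω => (E ω ∧ F ω) ∨ (E ω ∧ ¬ F ω)) := Pr_congr fun ω => by
    by_cases hF : F ω <;> simp [hF]
  rw [h2, h]
  ring

theorem dep_mono {β : Type*} {f : (ι → α) → β} {S T : Set ι} (h : DependsOn f S) (hST : S ⊆ T) :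
    DependsOn f T := fun _ _ hxy => h fun i hi => hxy i (hST hi)

theorem dep_and {E F : (ι → α) → Prop} {S : Set ι} (hE : DependsOn E S) (hF : DependsOn F S) :
    DependsOn (fun ω => E ω ∧ F ω) S := fun x y hxy => by
  show (E x ∧ F x) = (E y ∧ F y)
  rw [hE hxy, hF hxy]

theorem dep_not {E : (ι → α) → Prop} {S : Set ι} (hE : DependsOn E S) :
    DependsOn (fun ω => ¬ E ω) S := fun x y hxy => by
  show (¬ E x) = (¬ E y)
  rw [hE hxy]

theorem dep_or {E F : (ι → α) → Prop} {S : Set ι} (hE : DependsOn E S) (hF : DependsOn F S) :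
    DependsOn (fun ω => E ω ∨ F ω) S := fun x y hxy => by
  show (E x ∨ F x) = (E y ∨ F y)
  rw [hE hxy, hF hxy]

theorem dep_imp {E F : (ι → α) → Prop} {S : Set ι} (hE : DependsOn E S) (hF : DependsOn F S) :
    DependsOn (fun ω => E ω → F ω) S := fun x y hxy => by
  show (E x → F x) = (E y → F y)
  rw [hE hxy, hF hxy]

theorem dep_forall {β : Type*} {E : β → (ι → α) → Prop} {S : Set ι} (p : β → Prop)
    (hE : ∀ b, p b → DependsOn (E b) S) : DependsOn (fun ω => ∀ b, p b → E b ω) S :=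
  fun x y hxy => by
    show (∀ b, p b → E b x) = (∀ b, p b → E b y)
    refine propext (forall₂_congr fun b hb => ?_)
    rw [hE b hb hxy]

theorem dep_exists {β : Type*} {E : β → (ι → α) → Prop} {S : Set ι} (p : β → Prop)
    (hE : ∀ b, p b → DependsOn (E b) S) : DependsOn (fun ω => ∃ b, p b ∧ E b ω) S :=
  fun x y hxy => by
    show (∃ b, p b ∧ E b x) = (∃ b, p b ∧ E b y)
    refine propext (exists_congr fun b => and_congr_right fun hb => ?_)
    rw [hE b hb hxy]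

theorem dep_const (P : Prop) (S : Set ι) : DependsOn (fun _ : ι → α => P) S :=
  fun _ _ _ => rfl

theorem Pr_forall_prod (h : IsPM μ) (s : Finset κ) (E : κ → (ι → α) → Prop) (reg : κ → Set ι)
    (hdep : ∀ j ∈ s, DependsOn (E j) (reg j))
    (hdis : ∀ j ∈ s, ∀ k ∈ s, j ≠ k → Disjoint (reg j) (reg k)) :
    Pr μ (fun ω => ∀ j ∈ s, E j ω) = ∏ j ∈ s, Pr μ (E j) := by
  induction s using Finset.induction_on with
  | empty =>
    rw [Finset.prod_empty, ← Pr_true h]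
    exact Pr_congr fun ω => by simp
  | insert a s ha ih =>
    rw [Finset.prod_insert ha, ← ih (fun j hj => hdep j (mem_insert_of_mem hj))
      (fun j hj k hk => hdis j (mem_insert_of_mem hj) k (mem_insert_of_mem hk))]
    rw [← Pr_and_disjoint h (S := reg a) (T := ⋃ j ∈ s, reg j) (hdep a (mem_insert_self _ _))]
    · exact Pr_congr fun ω => by simp
    · exact dep_forall _ fun j hj => dep_mono (hdep j (mem_insert_of_mem hj))
        (Set.subset_biUnion_of_mem (u := reg) hj)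
    · rw [Set.disjoint_iUnion₂_right]
      intro j hj
      refine hdis a (mem_insert_self _ _) j (mem_insert_of_mem hj) ?_
      rintro rfl
      exact ha hj

end Tools

section Star

variable {ι α κ : Type*} [Fintype ι] [DecidableEq ι] [Fintype α] {μ : ι → α → ℝ}

/-- A vertex with children: `U j t`: child `j` is undecided at time `t`, `D j t`: it is dead,
`nr t k`: the label of the vertex does not let it ring in round `t` if `k` neighbours are
decided. -/
structure StarD (μ : ι → α → ℝ) (A : ℕ → ℕ → ℕ) (N : ℕ) (Z : ℕ → ℝ) (T : ℕ) (Ch : Finset κ)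
    (U D : κ → ℕ → (ι → α) → Prop) (nr : ℕ → ℕ → (ι → α) → Prop) (reg : κ → Set ι)
    (cv : ℕ → Set ι) : Prop where
  pm : IsPM μ
  U0 : ∀ j ∈ Ch, ∀ ω, U j 0 ω
  Um : ∀ j ∈ Ch, ∀ t ω, U j (t + 1) ω → U j t ω
  Dm : ∀ j ∈ Ch, ∀ t ω, D j t ω → D j (t + 1) ω
  UD : ∀ j ∈ Ch, ∀ t ω, U j t ω → ¬ D j t ω
  Ds : ∀ j ∈ Ch, ∀ t ω, D j (t + 1) ω → D j t ω ∨ U j t ω
  depU : ∀ j ∈ Ch, ∀ t ≤ T, DependsOn (U j t) (reg j)
  depD : ∀ j ∈ Ch, ∀ t ≤ T, DependsOn (D j t) (reg j)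
  depn : ∀ t ≤ T, ∀ k, DependsOn (nr t k) (cv t)
  dis : ∀ j ∈ Ch, ∀ k ∈ Ch, j ≠ k → Disjoint (reg j) (reg k)
  cvr : ∀ t ≤ T, ∀ j ∈ Ch, Disjoint (reg j) (cv t)
  cvi : ∀ t ≤ T, ∀ t' ≤ T, t ≠ t' → Disjoint (cv t) (cv t')
  prn : ∀ t < T, ∀ k, Pr μ (nr t k) = 1 - (A t k : ℝ) / N
  prZ : ∀ t < T, ∀ j ∈ Ch, Pr μ (fun ω => U j t ω ∧ D j (t + 1) ω) = Z t

namespace StarD

variable {A : ℕ → ℕ → ℕ} {N : ℕ} {Z : ℕ → ℝ} {T : ℕ} {Ch : Finset κ}
  {U D : κ → ℕ → (ι → α) → Prop} {nr : ℕ → ℕ → (ι → α) → Prop} {reg : κ → Set ι}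
  {cv : ℕ → Set ι}

/-- number of decided children -/
noncomputable def dc (Ch : Finset κ) (U : κ → ℕ → (ι → α) → Prop) (t : ℕ) (ω : ι → α) : ℕ :=
  (Ch.filter fun j => ¬ U j t ω).card

/-- exactly the children of `J` are dead, the vertex has not rung -/
def NN (Ch : Finset κ) (U D : κ → ℕ → (ι → α) → Prop) (nr : ℕ → ℕ → (ι → α) → Prop)
    (e : ℕ → ℕ) (t : ℕ) (J : Finset κ) (ω : ι → α) : Prop :=
  (∀ j ∈ J, D j t ω) ∧ (∀ j ∈ Ch \ J, U j t ω) ∧ ∀ τ < t, nr τ (dc Ch U τ ω + e τ) ω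

theorem dc_eq (hs : StarD μ A N Z T Ch U D nr reg cv) {t : ℕ} {J : Finset κ} (hJ : J ⊆ Ch)
    {ω : ι → α} (h1 : ∀ j ∈ J, D j t ω) (h2 : ∀ j ∈ Ch \ J, U j t ω) : dc Ch U t ω = J.card := by
  unfold dc
  congr 1
  ext j
  rw [mem_filter]
  constructor
  · rintro ⟨hj, hU⟩
    by_contra hcon
    exact hU (h2 j (mem_sdiff.2 ⟨hj, hcon⟩))
  · intro hj
    exact ⟨hJ hj, fun hU => hs.UD j (hJ hj) t ω hU (h1 j hj)⟩

theorem depdc (hs : StarD μ A N Z T Ch U D nr reg cv) {t : ℕ} (ht : t ≤ T) :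
    DependsOn (dc Ch U t) (⋃ j ∈ Ch, reg j) := by
  intro x y hxy
  unfold dc
  congr 1
  apply filter_congr
  intro j hj
  rw [hs.depU j hj t ht (x := x) (y := y) fun i hi => hxy i (Set.mem_biUnion hj hi)]

theorem depNN (hs : StarD μ A N Z T Ch U D nr reg cv) (e : ℕ → ℕ) {t : ℕ} (ht : t ≤ T)
    {J : Finset κ} (hJ : J ⊆ Ch) :
    DependsOn (NN Ch U D nr e t J) ({i | ∃ τ < t, i ∈ cv τ} ∪ ⋃ j ∈ Ch, reg j) := by
  intro x y hxy
  have hU : ∀ j ∈ Ch, ∀ τ ≤ T, U j τ x = U j τ y := fun j hj τ hτ =>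
    hs.depU j hj τ hτ fun i hi => hxy i (Or.inr (Set.mem_biUnion hj hi))
  have hD : ∀ j ∈ Ch, ∀ τ ≤ T, D j τ x = D j τ y := fun j hj τ hτ =>
    hs.depD j hj τ hτ fun i hi => hxy i (Or.inr (Set.mem_biUnion hj hi))
  unfold NN
  refine propext (and_congr (forall₂_congr fun j hj => ?_)
    (and_congr (forall₂_congr fun j hj => ?_) (forall₂_congr fun τ hτ => ?_)))
  · rw [hD j (hJ hj) t ht]
  · rw [hU j (mem_sdiff.1 hj).1 t ht]
  · rw [hs.depdc (t := τ) (by omega) fun i hi => hxy i (Or.inr hi)]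
    rw [hs.depn τ (by omega) _ (x := x) (y := y) fun i hi => hxy i (Or.inl ⟨τ, hτ, hi⟩)]

theorem sep (hs : StarD μ A N Z T Ch U D nr reg cv) {t : ℕ} (ht : t ≤ T) :
    Disjoint ({i | ∃ τ < t, i ∈ cv τ} ∪ ⋃ j ∈ Ch, reg j) (cv t) := by
  rw [Set.disjoint_union_left]
  constructor
  · rw [Set.disjoint_left]
    rintro i ⟨τ, hτ, hi⟩ hi'
    exact Set.disjoint_left.1 (hs.cvi τ (by omega) t ht (by omega)) hi hi'
  · rw [Set.disjoint_iUnion₂_left]
    exact fun j hj => hs.cvr t ht j hj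

/-- THE STAR LEMMA -/
theorem star (hs : StarD μ A N Z T Ch U D nr reg cv) (e : ℕ → ℕ) :
    ∀ t ≤ T, ∀ J ⊆ Ch, ∀ F : κ → (ι → α) → Prop,
      (∀ j ∈ Ch \ J, DependsOn (F j) (reg j)) → (∀ j ∈ Ch \ J, ∀ ω, F j ω → U j t ω) →
      Pr μ (fun ω => NN Ch U D nr e t J ω ∧ ∀ j ∈ Ch \ J, F j ω) =
        he A N Z e t J.card * ∏ j ∈ Ch \ J, Pr μ (F j) := by
  intro t
  induction t with
  | zero =>
    intro _ J hJ F hF hFU
    by_cases h0 : J = ∅
    · subst h0
      rw [card_empty, he, if_pos rfl, one_mul]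
      rw [← Pr_forall_prod hs.pm (Ch \ ∅) F reg hF (fun j hj k hk =>
        hs.dis j (mem_sdiff.1 hj).1 k (mem_sdiff.1 hk).1)]
      refine Pr_congr fun ω => ?_
      unfold NN
      constructor
      · exact fun h => h.2
      · exact fun h => ⟨⟨by simp, fun j hj => hs.U0 j (mem_sdiff.1 hj).1 ω, by simp⟩, h⟩
    · have h1 : J.card ≠ 0 := by
        rw [Ne, card_eq_zero]
        exact h0
      rw [he, if_neg h1, zero_mul]
      have h2 : Pr μ (fun ω => NN Ch U D nr e 0 J ω ∧ ∀ j ∈ Ch \ J, F j ω) =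
          Pr μ (fun _ => False) := by
        refine Pr_congr fun ω => ⟨fun h => ?_, False.elim⟩
        obtain ⟨j, hj⟩ := Finset.nonempty_iff_ne_empty.2 h0
        exact hs.UD j (hJ hj) 0 ω (hs.U0 j (hJ hj) ω) (h.1.1 j hj)
      rw [h2]
      unfold Pr Ex
      simp
  | succ t ih =>
    intro hT J' hJ' F hF hFU
    set F' : κ → (ι → α) → Prop := fun j ω => if j ∈ J' then U j t ω ∧ D j (t + 1) ω else F j ω
      with hF'
    have hdepF' : ∀ j ∈ Ch, DependsOn (F' j) (reg j) := by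
      intro j hj
      by_cases hjJ : j ∈ J'
      · have : F' j = fun ω => U j t ω ∧ D j (t + 1) ω := by
          funext ω
          simp [hF', hjJ]
        rw [this]
        exact dep_and (hs.depU j hj t (by omega)) (hs.depD j hj (t + 1) hT)
      · have : F' j = F j := by
          funext ω
          simp [hF', hjJ]
        rw [this]
        exact hF j (mem_sdiff.2 ⟨hj, hjJ⟩)
    have hF'U : ∀ j ∈ Ch, ∀ ω, F' j ω → U j t ω := by
      intro j hj ω hω
      by_cases hjJ : j ∈ J'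
      · simp only [hF', if_pos hjJ] at hω
        exact hω.1
      · simp only [hF', if_neg hjJ] at hω
        exact hs.Um j hj t ω (hFU j (mem_sdiff.2 ⟨hj, hjJ⟩) ω hω)
    -- decomposition
    have h1 : Pr μ (fun ω => NN Ch U D nr e (t + 1) J' ω ∧ ∀ j ∈ Ch \ J', F j ω) =
        Pr μ (fun ω => ∃ J ∈ J'.powerset, (NN Ch U D nr e t J ω ∧ ∀ j ∈ Ch \ J, F' j ω) ∧
          nr t (J.card + e t) ω) := by
      refine Pr_congr fun ω => ⟨fun h => ?_, fun h => ?_⟩
      · obtain ⟨⟨ha, hb, hc⟩, hd⟩ := h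
        set J := J'.filter fun j => D j t ω with hJ
        have hJJ : J ⊆ J' := filter_subset _ _
        have hD : ∀ j ∈ J, D j t ω := fun j hj => (mem_filter.1 hj).2
        have hU : ∀ j ∈ Ch \ J, U j t ω := by
          intro j hj
          rw [mem_sdiff] at hj
          by_cases hjJ : j ∈ J'
          · rcases hs.Ds j hj.1 t ω (ha j hjJ) with h5 | h5
            · exact absurd (mem_filter.2 ⟨hjJ, h5⟩) hj.2
            · exact h5
          · exact hs.Um j hj.1 t ω (hb j (mem_sdiff.2 ⟨hj.1, hjJ⟩))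
        refine ⟨J, mem_powerset.2 hJJ, ⟨⟨hD, hU, fun τ hτ => hc τ (by omega)⟩, ?_⟩, ?_⟩
        · intro j hj
          by_cases hjJ : j ∈ J'
          · simp only [hF', if_pos hjJ]
            exact ⟨hU j hj, ha j hjJ⟩
          · simp only [hF', if_neg hjJ]
            exact hd j (mem_sdiff.2 ⟨(mem_sdiff.1 hj).1, hjJ⟩)
        · have h6 := hc t (by omega)
          rwa [hs.dc_eq (hJJ.trans hJ') hD hU] at h6
      · obtain ⟨J, hJJ, ⟨⟨ha, hb, hc⟩, hd⟩, hn⟩ := h
        rw [mem_powerset] at hJJ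
        have hF0 : ∀ j ∈ Ch \ J', F j ω := by
          intro j hj
          rw [mem_sdiff] at hj
          have h7 := hd j (mem_sdiff.2 ⟨hj.1, fun h => hj.2 (hJJ h)⟩)
          simpa only [hF', if_neg hj.2] using h7
        refine ⟨⟨?_, fun j hj => hFU j hj ω (hF0 j hj), ?_⟩, hF0⟩
        · intro j hj
          by_cases hjJ : j ∈ J
          · exact hs.Dm j (hJ' hj) t ω (ha j hjJ)
          · have h7 := hd j (mem_sdiff.2 ⟨hJ' hj, hjJ⟩)
            simp only [hF', if_pos hj] at h7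
            exact h7.2
        · intro τ hτ
          rcases Nat.lt_succ_iff_lt_or_eq.1 hτ with h8 | rfl
          · exact hc τ h8
          · rwa [hs.dc_eq (hJJ.trans hJ') ha hb]
    rw [h1, Pr_exists_eq]
    swap
    · intro ω J1 hJ1 J2 hJ2 h1 h2
      rw [mem_powerset] at hJ1 hJ2
      have key : ∀ J ⊆ J', NN Ch U D nr e t J ω → J = J'.filter fun j => D j t ω := by
        intro J hJ h
        ext j
        rw [mem_filter]
        refine ⟨fun hj => ⟨hJ hj, h.1 j hj⟩, fun hj => ?_⟩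
        by_contra hcon
        exact hs.UD j (hJ' hj.1) t ω (h.2.1 j (mem_sdiff.2 ⟨hJ' hj.1, hcon⟩)) hj.2
      rw [key J1 hJ1 h1.1.1, key J2 hJ2 h2.1.1]
    -- each term
    have h2 : ∀ J ∈ J'.powerset,
        Pr μ (fun ω => (NN Ch U D nr e t J ω ∧ ∀ j ∈ Ch \ J, F' j ω) ∧ nr t (J.card + e t) ω) =
        (he A N Z e t J.card * (1 - (A t (J.card + e t) : ℝ) / N) *
          Z t ^ (J'.card - J.card)) * ∏ j ∈ Ch \ J', Pr μ (F j) := by
      intro J hJ
      rw [mem_powerset] at hJ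
      have hJC := hJ.trans hJ'
      rw [Pr_and_disjoint hs.pm (S := {i | ∃ τ < t, i ∈ cv τ} ∪ ⋃ j ∈ Ch, reg j) (T := cv t)]
      · rw [ih (by omega) J hJC F' (fun j hj => hdepF' j (mem_sdiff.1 hj).1)
          (fun j hj => hF'U j (mem_sdiff.1 hj).1), hs.prn t (by omega)]
        have h3 : Ch \ J = (J' \ J) ∪ (Ch \ J') := by
          ext j
          simp only [mem_sdiff, mem_union]
          constructor
          · rintro ⟨h4, h5⟩
            by_cases h6 : j ∈ J'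
            · exact Or.inl ⟨h6, h5⟩
            · exact Or.inr ⟨h4, h6⟩
          · rintro (⟨h4, h5⟩ | ⟨h4, h5⟩)
            · exact ⟨hJ' h4, h5⟩
            · exact ⟨h4, fun h6 => h5 (hJ h6)⟩
        have h4 : Disjoint (J' \ J) (Ch \ J') := by
          rw [Finset.disjoint_left]
          intro j hj hj'
          exact (mem_sdiff.1 hj').2 (mem_sdiff.1 hj).1
        rw [h3, prod_union h4]
        have h5 : ∏ j ∈ J' \ J, Pr μ (F' j) = Z t ^ (J'.card - J.card) := by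
          rw [← card_sdiff_of_subset hJ, ← prod_const]
          refine prod_congr rfl fun j hj => ?_
          rw [mem_sdiff] at hj
          rw [← hs.prZ t (by omega) j (hJ' hj.1)]
          refine Pr_congr fun ω => ?_
          simp only [hF', if_pos hj.1]
        have h6 : ∏ j ∈ Ch \ J', Pr μ (F' j) = ∏ j ∈ Ch \ J', Pr μ (F j) := by
          refine prod_congr rfl fun j hj => ?_
          rw [mem_sdiff] at hj
          refine Pr_congr fun ω => ?_
          simp only [hF', if_neg hj.2]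
        rw [h5, h6]
        ring
      · refine dep_and (hs.depNN e (by omega) hJC) ?_
        refine dep_forall _ fun j hj => dep_mono (hdepF' j (mem_sdiff.1 hj).1) ?_
        exact Set.subset_union_of_subset_right (Set.subset_biUnion_of_mem (u := reg)
          (mem_sdiff.1 hj).1) _
      · exact hs.depn t (by omega) _
      · exact hs.sep (by omega)
    rw [sum_congr rfl h2, ← sum_mul]
    congr 1
    rw [he, Finset.sum_powerset_apply_card
      (fun k => he A N Z e t k * (1 - (A t (k + e t) : ℝ) / N) * Z t ^ (J'.card - k))]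
    refine sum_congr rfl fun k _ => ?_
    rw [nsmul_eq_mul]
    ring

/-- the vertex is undecided at time `t` if no child joins -/
def Und (Ch : Finset κ) (U D : κ → ℕ → (ι → α) → Prop) (nr : ℕ → ℕ → (ι → α) → Prop)
    (e : ℕ → ℕ) (t : ℕ) (ω : ι → α) : Prop :=
  (∀ j ∈ Ch, U j t ω ∨ D j t ω) ∧ ∀ τ < t, nr τ (dc Ch U τ ω + e τ) ω

/-- the vertex formula -/
theorem vf (hs : StarD μ A N Z T Ch U D nr reg cv) (e : ℕ → ℕ) {t : ℕ} (ht : t ≤ T)
    (F : κ → (ι → α) → Prop) (f : ℝ) (hF : ∀ j ∈ Ch, DependsOn (F j) (reg j))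
    (hf : ∀ j ∈ Ch, Pr μ (fun ω => U j t ω ∧ F j ω) = f)
    (L : ℕ → (ι → α) → Prop) (hL : ∀ k, DependsOn (L k) (cv t)) :
    Pr μ (fun ω => Und Ch U D nr e t ω ∧ L (dc Ch U t ω + e t) ω ∧
        ∀ j ∈ Ch, U j t ω → F j ω) =
      ∑ k ∈ range (Ch.card + 1), (Ch.card.choose k : ℝ) * he A N Z e t k *
        Pr μ (L (k + e t)) * f ^ (Ch.card - k) := by
  have h1 : Pr μ (fun ω => Und Ch U D nr e t ω ∧ L (dc Ch U t ω + e t) ω ∧
        ∀ j ∈ Ch, U j t ω → F j ω) =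
      Pr μ (fun ω => ∃ J ∈ Ch.powerset, (NN Ch U D nr e t J ω ∧
        ∀ j ∈ Ch \ J, U j t ω ∧ F j ω) ∧ L (J.card + e t) ω) := by
    refine Pr_congr fun ω => ⟨fun h => ?_, fun h => ?_⟩
    · obtain ⟨⟨ha, hb⟩, hc, hd⟩ := h
      set J := Ch.filter fun j => D j t ω with hJ
      have hJJ : J ⊆ Ch := filter_subset _ _
      have hD : ∀ j ∈ J, D j t ω := fun j hj => (mem_filter.1 hj).2
      have hU : ∀ j ∈ Ch \ J, U j t ω := by
        intro j hj
        rw [mem_sdiff] at hj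
        rcases ha j hj.1 with h | h
        · exact h
        · exact absurd (mem_filter.2 ⟨hj.1, h⟩) hj.2
      rw [hs.dc_eq hJJ hD hU] at hc
      exact ⟨J, mem_powerset.2 hJJ, ⟨⟨hD, hU, hb⟩, fun j hj =>
        ⟨hU j hj, hd j (mem_sdiff.1 hj).1 (hU j hj)⟩⟩, hc⟩
    · obtain ⟨J, hJJ, ⟨⟨ha, hb, hc⟩, hd⟩, hn⟩ := h
      rw [mem_powerset] at hJJ
      refine ⟨⟨fun j hj => ?_, hc⟩, ?_, fun j hj hju => ?_⟩
      · by_cases h : j ∈ J
        · exact Or.inr (ha j h)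
        · exact Or.inl (hb j (mem_sdiff.2 ⟨hj, h⟩))
      · rwa [hs.dc_eq hJJ ha hb]
      · by_cases h : j ∈ J
        · exact absurd (ha j h) (hs.UD j hj t ω hju)
        · exact (hd j (mem_sdiff.2 ⟨hj, h⟩)).2
  rw [h1, Pr_exists_eq]
  swap
  · intro ω J1 hJ1 J2 hJ2 h1 h2
    rw [mem_powerset] at hJ1 hJ2
    have key : ∀ J ⊆ Ch, NN Ch U D nr e t J ω → J = Ch.filter fun j => D j t ω := by
      intro J hJ h
      ext j
      rw [mem_filter]
      refine ⟨fun hj => ⟨hJ hj, h.1 j hj⟩, fun hj => ?_⟩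
      by_contra hcon
      exact hs.UD j hj.1 t ω (h.2.1 j (mem_sdiff.2 ⟨hj.1, hcon⟩)) hj.2
    rw [key J1 hJ1 h1.1.1, key J2 hJ2 h2.1.1]
  have h2 : ∀ J ∈ Ch.powerset, Pr μ (fun ω => (NN Ch U D nr e t J ω ∧
        ∀ j ∈ Ch \ J, U j t ω ∧ F j ω) ∧ L (J.card + e t) ω) =
      he A N Z e t J.card * Pr μ (L (J.card + e t)) * f ^ (Ch.card - J.card) := by
    intro J hJ
    rw [mem_powerset] at hJ
    have hd1 : ∀ j ∈ Ch \ J, DependsOn (fun ω => U j t ω ∧ F j ω) (reg j) := fun j hj =>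
      dep_and (hs.depU j (mem_sdiff.1 hj).1 t ht) (hF j (mem_sdiff.1 hj).1)
    rw [Pr_and_disjoint hs.pm (S := {i | ∃ τ < t, i ∈ cv τ} ∪ ⋃ j ∈ Ch, reg j) (T := cv t)]
    · rw [hs.star e t ht J hJ (fun j ω => U j t ω ∧ F j ω) hd1 (fun j _ ω h => h.1)]
      have h5 : ∏ j ∈ Ch \ J, Pr μ (fun ω => U j t ω ∧ F j ω) = f ^ (Ch.card - J.card) := by
        rw [← card_sdiff_of_subset hJ, ← prod_const]
        exact prod_congr rfl fun j hj => hf j (mem_sdiff.1 hj).1
      rw [h5]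
      ring
    · refine dep_and (hs.depNN e ht hJ) ?_
      refine dep_forall _ fun j hj => dep_mono (hd1 j hj) ?_
      exact Set.subset_union_of_subset_right (Set.subset_biUnion_of_mem (u := reg)
        (mem_sdiff.1 hj).1) _
    · exact hL _
    · exact hs.sep ht
  rw [sum_congr rfl h2, Finset.sum_powerset_apply_card
      (fun k => he A N Z e t k * Pr μ (L (k + e t)) * f ^ (Ch.card - k))]
  refine sum_congr rfl fun k _ => ?_
  rw [nsmul_eq_mul]
  ring

end StarD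

end Star

end Pool.Agent.G4
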