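import Pool.Agent.G4.Proc
import Pool.Agent.G4.Star

/-!
# The law of a branch
-/

set_option autoImplicit false
set_option linter.unusedSectionVars false

namespace Pool.Agent.G4

open Finset Pool.Agent.Acy
open scoped Classical

/-! ### A vertex and its branches: deterministic part -/

namespace Sys

variable {V : Type} (s : Sys V)

theorem st_cases (S : Finset V) (t : ℕ) (v : V) :
    s.st S t v = St.u ∨ s.st S t v = St.x ∨ s.st S t v = St.d := by
  cases s.st S t v <;> simp

theorem ne_x_iff (S : Finset V) (t : ℕ) (v : V) :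
    s.st S t v ≠ St.x ↔ s.st S t v = St.u ∨ s.st S t v = St.d := by
  cases s.st S t v <;> simp

/-- while `v` is undecided, no child joins and `v` does not ring -/
theorem und_of {S : Finset V} {t : ℕ} {v : V} (hv0 : v ∉ s.nb v) (Ch : Finset V)
    (hCh : Ch ⊆ s.nb v \ S) (hv : s.st S t v = St.u) :
    (∀ j ∈ Ch, s.st (insert v S) t j ≠ St.x) ∧
      ∀ τ < t, ¬ s.lab v τ < s.A τ ((Ch.filter fun j => s.st (insert v S) τ j ≠ St.u).card +
        (((s.nb v \ S) \ Ch).filter fun y => s.st S τ y ≠ St.u).card) := by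
  have hne : ∀ j ∈ Ch, j ≠ v := by
    rintro j hj rfl
    exact hv0 (mem_sdiff.1 (hCh hj)).1
  constructor
  · intro j hj
    induction t with
    | zero => rw [st_zero]; simp
    | succ t ih =>
      have h1 := s.st_succ_u.1 hv
      intro h2
      rcases s.st_succ_x.1 h2 with h3 | h3
      · exact ih h1.1 h3
      · exact h1.2.2 j (hCh hj) ((s.silent_win h1.1 h1.2.1 (hne j hj)).2 h3)
  · intro τ hτ hlab
    have h1 := s.st_succ_u.1 (s.st_u_mono (show τ + 1 ≤ t by omega) hv)
    apply h1.2.1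
    refine ⟨h1.1, ?_⟩
    have h2 : s.cnt S (s.st S τ) v = (Ch.filter fun j => s.st (insert v S) τ j ≠ St.u).card +
        (((s.nb v \ S) \ Ch).filter fun y => s.st S τ y ≠ St.u).card := by
      unfold cnt
      have h3 : s.nb v \ S = Ch ∪ ((s.nb v \ S) \ Ch) := by
        rw [union_sdiff_of_subset hCh]
      rw [h3, filter_union, card_union_of_disjoint]
      · congr 1
        · congr 1
          apply filter_congr
          intro j hj
          rw [s.silent h1.1 le_rfl (hne j hj)]
        · rw [← h3]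
      · apply disjoint_filter_filter
        exact disjoint_sdiff
    rw [h2]
    exact hlab

theorem cnt_eq {S : Finset V} {t : ℕ} {v : V} (hv0 : v ∉ s.nb v) (Ch : Finset V)
    (hCh : Ch ⊆ s.nb v \ S) (hv : s.st S t v = St.u) :
    s.cnt S (s.st S t) v = (Ch.filter fun j => s.st (insert v S) t j ≠ St.u).card +
        (((s.nb v \ S) \ Ch).filter fun y => s.st S t y ≠ St.u).card := by
  have hne : ∀ j ∈ Ch, j ≠ v := by
    rintro j hj rfl
    exact hv0 (mem_sdiff.1 (hCh hj)).1
  unfold cnt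
  have h3 : s.nb v \ S = Ch ∪ ((s.nb v \ S) \ Ch) := by
    rw [union_sdiff_of_subset hCh]
  rw [h3, filter_union, card_union_of_disjoint]
  · congr 1
    · congr 1
      apply filter_congr
      intro j hj
      rw [s.silent hv le_rfl (hne j hj)]
    · rw [← h3]
  · apply disjoint_filter_filter
    exact disjoint_sdiff

/-- all neighbours are children -/
theorem und_iff {S : Finset V} {t : ℕ} {v : V} (hv0 : v ∉ s.nb v) : s.st S t v = St.u ↔
    (∀ j ∈ s.nb v \ S, s.st (insert v S) t j = St.u ∨ s.st (insert v S) t j = St.d) ∧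
      ∀ τ < t, ¬ s.lab v τ <
        s.A τ (((s.nb v \ S).filter fun j => ¬ s.st (insert v S) τ j = St.u).card) := by
  constructor
  · intro hv
    have h := s.und_of hv0 (s.nb v \ S) (Subset.refl _) hv
    refine ⟨fun j hj => (s.ne_x_iff _ _ _).1 (h.1 j hj), fun τ hτ => ?_⟩
    have h2 := h.2 τ hτ
    rwa [Finset.sdiff_self, filter_empty, card_empty, Nat.add_zero] at h2
  · rintro ⟨h1, h2⟩
    have hne : ∀ j ∈ s.nb v \ S, j ≠ v := by
      rintro j hj rfl
      exact hv0 (mem_sdiff.1 hj).1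
    have key : ∀ τ ≤ t, s.st S τ v = St.u := by
      intro τ
      induction τ with
      | zero => intro _; rfl
      | succ τ ih =>
        intro hτ
        have h3 := ih (by omega)
        rw [s.st_succ_u]
        have hr : ¬ s.Ring S τ v := by
          rintro ⟨_, h4⟩
          rw [s.cnt_eq hv0 (s.nb v \ S) (Subset.refl _) h3, Finset.sdiff_self, filter_empty,
            card_empty, Nat.add_zero] at h4
          exact h2 τ (by omega) h4
        refine ⟨h3, hr, fun y hy hw => ?_⟩
        have h5 := (s.silent_win h3 hr (hne y hy)).1 hw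
        have h6 : s.st (insert v S) (τ + 1) y = St.x := s.st_succ_x.2 (Or.inr h5)
        have h7 : s.st (insert v S) t y = St.x := by
          rw [s.st_stay hτ (by rw [h6]; simp), h6]
        rcases h1 y hy with h8 | h8 <;> rw [h7] at h8 <;> simp at h8
    exact key t le_rfl

end Sys

/-! ### Coordinates -/

section Coord

variable {V : Type} [Fintype V] {m N : ℕ}

theorem pm_mu (hN : 0 < N) : IsPM (mu V m N) where
  nonneg := fun _ _ => by unfold mu; positivity
  sum_one := fun _ => by
    unfold mu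
    rw [Finset.sum_const, card_univ, Fintype.card_fin, nsmul_eq_mul]
    have : (N : ℝ) ≠ 0 := by positivity
    field_simp

theorem Ex_coord {ι α : Type*} [Fintype ι] [DecidableEq ι] [Fintype α] {μ : ι → α → ℝ}
    (h : IsPM μ) (i : ι) (g : α → ℝ) : Ex μ (fun ω => g (ω i)) = ∑ a, μ i a * g a := by
  rw [Ex_resample h i]
  simp only [Function.update_self]
  exact Ex_const h _

theorem Pr_coord (hN : 0 < N) (i : Co V m) (a : ℕ) (ha : a ≤ N) :
    Pr (mu V m N) (fun ω => (ω i : ℕ) < a) = (a : ℝ) / N := by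
  have h0 := Ex_coord (pm_mu hN) i (fun b : Fin N => if (b : ℕ) < a then (1 : ℝ) else 0)
  refine Eq.trans ?_ (h0.trans ?_)
  · unfold Pr
    congr 1
    funext ω
    by_cases h1 : (ω i : ℕ) < a <;> simp [h1]
  unfold mu
  rw [← Finset.mul_sum, Finset.sum_boole]
  have : (univ.filter fun b : Fin N => (b : ℕ) < a).card = a := by
    have h1 : (univ.filter fun b : Fin N => (b : ℕ) < a) = univ.map (Fin.castLEEmb ha) := by
      ext b
      simp only [mem_filter, mem_univ, true_and, mem_map]
      constructor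
      · intro hb
        exact ⟨⟨b, hb⟩, by ext; simp⟩
      · rintro ⟨c, hc⟩
        rw [← hc]
        simp
    rw [h1, card_map, card_univ, Fintype.card_fin]
  rw [this]
  ring

theorem labOf_eq (ω : Co V m → Fin N) (v : V) {t : ℕ} (ht : t < m) :
    labOf ω v t = (ω (s(v, v), ⟨t, ht⟩) : ℕ) := by
  unfold labOf
  rw [dif_pos ht]

theorem Pr_lab (hN : 0 < N) {A : ℕ → ℕ → ℕ} (hA : ∀ t k, A t k ≤ N) (v : V) {t : ℕ} (ht : t < m)
    (k : ℕ) : Pr (mu V m N) (fun ω => labOf ω v t < A t k) = (A t k : ℝ) / N := by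
  rw [← Pr_coord (V := V) (m := m) hN (s(v, v), ⟨t, ht⟩) (A t k) (hA t k)]
  exact Pr_congr fun ω => by rw [labOf_eq ω v ht]

theorem Pr_not {ι α : Type*} [Fintype ι] [DecidableEq ι] [Fintype α] {μ : ι → α → ℝ}
    (h : IsPM μ) (E : (ι → α) → Prop) : Pr μ (fun ω => ¬ E ω) = 1 - Pr μ E := by
  have h1 := Pr_and_not (μ := μ) (fun _ => True) E
  rw [Pr_true h] at h1
  rw [show Pr μ (fun ω => ¬ E ω) = Pr μ (fun ω => True ∧ ¬ E ω) from Pr_congr fun ω => by simp,
    h1]
  congr 1
  exact Pr_congr fun ω => by simp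

theorem Pr_nlab (hN : 0 < N) {A : ℕ → ℕ → ℕ} (hA : ∀ t k, A t k ≤ N) (v : V) {t : ℕ} (ht : t < m)
    (k : ℕ) : Pr (mu V m N) (fun ω => ¬ labOf ω v t < A t k) = 1 - (A t k : ℝ) / N := by
  rw [Pr_not (pm_mu hN), Pr_lab hN hA v ht]

theorem Pr_bt (hN : 0 < N) (hN2 : Even N) (ori : V → V → Prop) (x y : V) {t : ℕ} (ht : t < m) :
    Pr (mu V m N) (fun ω => btOf ori ω x y t) = 1 / 2 := by
  have h1 := Pr_coord (V := V) (m := m) hN (s(x, y), ⟨t, ht⟩) (N / 2) (Nat.div_le_self _ _)
  have h2 : ((N / 2 : ℕ) : ℝ) / N = 1 / 2 := by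
    obtain ⟨k, hk⟩ := hN2
    have h3 : N / 2 = k := by omega
    rw [h3, hk]
    have : (k : ℝ) ≠ 0 := by
      have : 0 < k := by omega
      positivity
    push_cast
    field_simp
    norm_num
  rw [h2] at h1
  by_cases h : ori x y
  · rw [← h1]
    refine Pr_congr fun ω => ?_
    unfold btOf
    simp [h, ht]
  · have h4 := Pr_not (pm_mu (V := V) (m := m) hN)
      (fun ω => ((ω (s(x, y), ⟨t, ht⟩) : ℕ) < N / 2))
    rw [h1] at h4
    rw [show (1 : ℝ) / 2 = 1 - 1 / 2 by norm_num, ← h4]
    refine Pr_congr fun ω => ?_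
    unfold btOf
    simp [h, ht]

theorem dep_lab (v : V) (t : ℕ) : DependsOn (fun ω : Co V m → Fin N => labOf ω v t)
    {i : Co V m | i.1 = s(v, v) ∧ (i.2 : ℕ) = t} := by
  intro x y hxy
  unfold labOf
  by_cases h : t < m
  · simp only [dif_pos h]
    rw [hxy (s(v, v), ⟨t, h⟩) ⟨rfl, rfl⟩]
  · simp only [dif_neg h]

theorem dep_bt (ori : V → V → Prop) (x y : V) (t : ℕ) :
    DependsOn (fun ω : Co V m → Fin N => btOf ori ω x y t) {i : Co V m | i.1 = s(x, y)} := by
  intro ω ω' h
  unfold btOf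
  refine propext (exists_congr fun ht => ?_)
  rw [h (s(x, y), ⟨t, ht⟩) rfl]

theorem mem_coo {B : Finset V} {i : Co V m} : i ∈ coo m B ↔ ∀ a ∈ i.1, a ∈ B := by
  unfold coo
  rw [mem_product, mem_sym2_iff]
  simp

theorem coo_mono {B B' : Finset V} (h : B ⊆ B') : (coo m B : Set (Co V m)) ⊆ coo m B' := by
  intro i hi
  rw [mem_coe, mem_coo] at hi ⊢
  exact fun a ha => h (hi a ha)

theorem coo_disj {B B' : Finset V} (h : Disjoint B B') :
    Disjoint (coo m B : Set (Co V m)) (coo m B') := by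
  rw [Set.disjoint_left]
  rintro ⟨e, t⟩ hi hi'
  rw [mem_coe, mem_coo] at hi hi'
  induction e using Sym2.ind with
  | _ a b =>
    exact Finset.disjoint_left.1 h (hi a (Sym2.mem_mk_left a b)) (hi' a (Sym2.mem_mk_left a b))

theorem coo_disj_of_notMem {B : Finset V} {v : V} (hv : v ∉ B) (w : V) :
    Disjoint (coo m B : Set (Co V m)) {i : Co V m | i.1 = s(v, w)} := by
  rw [Set.disjoint_left]
  rintro i hi hi'
  rw [mem_coe, mem_coo] at hi
  rw [Set.mem_ofPred_eq] at hi'
  exact hv (hi v (by rw [hi']; exact Sym2.mem_mk_left v w))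

variable (nb : V → Finset V) (A : ℕ → ℕ → ℕ) (ori : V → V → Prop)

theorem st_dependsOn (t : ℕ) (S : Finset V) (v : V) :
    DependsOn (fun ω : Co V m → Fin N => (sys nb A ori ω).st S t v)
      (coo m (ball nb S (3 * t) v) : Set (Co V m)) := by
  intro ω ω' h
  refine Sys.st_congr (sys nb A ori ω) (sys nb A ori ω') id Function.injective_id rfl S S t t v
    le_rfl ?_ ?_ ?_
  · intro x _
    rw [image_id]
    rfl
  · intro x hx τ _
    show labOf ω x τ = labOf ω' x τ
    refine dep_lab x τ fun i hi => h i ?_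
    rw [mem_coe, mem_coo, hi.1]
    intro a ha
    rw [Sym2.mem_iff, or_self] at ha
    rw [ha]
    exact hx
  · intro x hx y hy τ _
    show btOf ori ω x y τ ↔ btOf ori ω' x y τ
    refine iff_of_eq (dep_bt ori x y τ fun i hi => h i ?_)
    rw [mem_coe, mem_coo, hi]
    intro a ha
    rw [Sym2.mem_iff] at ha
    rcases ha with rfl | rfl
    · exact hx
    · exact hy

theorem ring_dependsOn (t : ℕ) (S : Finset V) (v : V) :
    DependsOn (fun ω : Co V m → Fin N => (sys nb A ori ω).Ring S t v)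
      (coo m (ball nb S (3 * t + 1) v) : Set (Co V m)) := by
  intro ω ω' h
  have h1 : ∀ y ∈ insert v (nb v \ S), (sys nb A ori ω).st S t y = (sys nb A ori ω').st S t y := by
    intro y hy
    refine st_dependsOn nb A ori t S y fun i hi => h i ?_
    refine coo_mono (m := m) ?_ hi
    rw [mem_insert] at hy
    rcases hy with rfl | hy
    · exact ball_mono nb (by omega) _
    · exact ball_sub_of_mem nb hy
  have h2 : labOf ω v t = labOf ω' v t := by
    refine dep_lab v t fun i hi => h i ?_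
    rw [mem_coe, mem_coo, hi.1]
    intro a ha
    rw [Sym2.mem_iff, or_self] at ha
    rw [ha]
    exact mem_ball_self _ _ _ _
  show Sys.RingA _ _ _ _ _ = Sys.RingA _ _ _ _ _
  unfold Sys.RingA Sys.cnt
  show ((sys nb A ori ω).st S t v = St.u ∧ labOf ω v t < A t _) =
    ((sys nb A ori ω').st S t v = St.u ∧ labOf ω' v t < A t _)
  rw [h1 v (mem_insert_self _ _), h2]
  have h3 : ((nb v \ S).filter fun y => (sys nb A ori ω).st S t y ≠ St.u) =
      ((nb v \ S).filter fun y => (sys nb A ori ω').st S t y ≠ St.u) :=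
    filter_congr fun y hy => by rw [h1 y (mem_insert_of_mem hy)]
  show (_ ∧ _ < A t ((nb v \ S).filter fun y => (sys nb A ori ω).st S t y ≠ St.u).card) =
    (_ ∧ _ < A t ((nb v \ S).filter fun y => (sys nb A ori ω').st S t y ≠ St.u).card)
  rw [h3]

theorem win_dependsOn (t : ℕ) (S : Finset V) (v : V) :
    DependsOn (fun ω : Co V m → Fin N => (sys nb A ori ω).Win S t v)
      (coo m (ball nb S (3 * t + 2) v) : Set (Co V m)) := by
  intro ω ω' h
  have h1 : ∀ y ∈ insert v (nb v \ S), (sys nb A ori ω).Ring S t y = (sys nb A ori ω').Ring S t y := by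
    intro y hy
    refine ring_dependsOn nb A ori t S y fun i hi => h i ?_
    refine coo_mono (m := m) ?_ hi
    rw [mem_insert] at hy
    rcases hy with rfl | hy
    · exact ball_mono nb (by omega) _
    · exact ball_sub_of_mem nb hy
  have h2 : ∀ y ∈ nb v \ S, btOf ori ω v y t = btOf ori ω' v y t := by
    intro y hy
    refine dep_bt ori v y t fun i hi => h i ?_
    rw [mem_coe, mem_coo, hi]
    intro a ha
    rw [Sym2.mem_iff] at ha
    rcases ha with rfl | rfl
    · exact mem_ball_self _ _ _ _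
    · exact ball_sub_of_mem nb hy (mem_ball_self _ _ _ _)
  show ((sys nb A ori ω).Ring S t v ∧ ∀ y ∈ nb v \ S, (sys nb A ori ω).Ring S t y →
      btOf ori ω v y t) = ((sys nb A ori ω').Ring S t v ∧ ∀ y ∈ nb v \ S,
      (sys nb A ori ω').Ring S t y → btOf ori ω' v y t)
  rw [h1 v (mem_insert_self _ _)]
  refine propext (and_congr_right fun _ => forall₂_congr fun y hy => ?_)
  rw [h1 y (mem_insert_of_mem hy), h2 y hy]

end Coord

/-! ### The star of a vertex with branches -/

section Branch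

variable {V : Type} [Fintype V] {m N : ℕ} (nb : V → Finset V) (A : ℕ → ℕ → ℕ)
  (ori : V → V → Prop)

/-- the coordinates of a branch -/
def reg (m : ℕ) (T : Finset V) (R : ℕ) (v j : V) : Set (Co V m) :=
  (coo m (ball nb T R j) : Set (Co V m)) ∪ {i | i.1 = s(v, j)}

/-- the coordinate of the label of `v` in round `t` -/
def cvs (m : ℕ) (v : V) (t : ℕ) : Set (Co V m) := {i | i.1 = s(v, v) ∧ (i.2 : ℕ) = t}

variable {nb A ori}

theorem reg_disj {T : Finset V} {R : ℕ} {v j k : V} (hjk : j ≠ k)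
    (hb : Disjoint (ball nb T R j) (ball nb T R k)) (hj : v ∉ ball nb T R j)
    (hk : v ∉ ball nb T R k) : Disjoint (reg nb m T R v j) (reg nb m T R v k) := by
  unfold reg
  rw [Set.disjoint_union_left, Set.disjoint_union_right, Set.disjoint_union_right]
  refine ⟨⟨coo_disj hb, coo_disj_of_notMem hj _⟩, (coo_disj_of_notMem hk _).symm, ?_⟩
  rw [Set.disjoint_left]
  rintro i hi hi'
  rw [Set.mem_ofPred_eq] at hi hi'
  rw [hi] at hi'
  rw [Sym2.eq_iff] at hi'
  rcases hi' with h | h
  · exact hjk h.2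
  · exact hjk (h.2.trans h.1)

theorem reg_cvs {T : Finset V} {R : ℕ} {v j : V} (hjv : j ≠ v) (hj : v ∉ ball nb T R j) (t : ℕ) :
    Disjoint (reg nb m T R v j) (cvs m v t) := by
  unfold reg cvs
  rw [Set.disjoint_union_left]
  constructor
  · exact (coo_disj_of_notMem hj v).mono_right fun i hi => hi.1
  · rw [Set.disjoint_left]
    rintro i hi hi'
    rw [Set.mem_ofPred_eq] at hi hi'
    rw [hi, Sym2.eq_iff] at hi'
    rcases hi'.1 with h | h
    · exact hjv h.2
    · exact hjv h.2

theorem cvs_disj {v : V} {t t' : ℕ} (h : t ≠ t') : Disjoint (cvs m v t) (cvs m v t') := by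
  rw [Set.disjoint_left]
  rintro i hi hi'
  exact h (hi.2.symm.trans hi'.2)

/-- the star of `v` whose children `Ch` have independent branches in the graph without `T` -/
theorem starD (hN : 0 < N) (hA : ∀ t k, A t k ≤ N) (T : Finset V) (R : ℕ) (v : V)
    (Ch : Finset V) (hv : v ∈ T) (hCh : ∀ j ∈ Ch, j ∉ T)
    (hdis : ∀ j ∈ Ch, ∀ k ∈ Ch, j ≠ k → Disjoint (ball nb T R j) (ball nb T R k))
    {t : ℕ} (ht : t ≤ m) (hR : 3 * t ≤ R) (Z : ℕ → ℝ)
    (hZ : ∀ τ < t, ∀ j ∈ Ch, Pr (mu V m N) (fun ω => (sys nb A ori ω).Die T τ j) = Z τ) :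
    StarD (mu V m N) A N Z t Ch (fun j τ ω => (sys nb A ori ω).st T τ j = St.u)
      (fun j τ ω => (sys nb A ori ω).st T τ j = St.d) (fun τ k ω => ¬ labOf ω v τ < A τ k)
      (reg nb m T R v) (cvs m v) where
  pm := pm_mu hN
  U0 := fun _ _ _ => rfl
  Um := fun _ _ τ _ h => Sys.st_u_mono _ (Nat.le_succ τ) h
  Dm := fun _ _ τ _ h => by rw [Sys.st_stay _ (Nat.le_succ τ) (by rw [h]; simp), h]
  UD := fun _ _ _ _ h h' => by rw [h] at h'; simp at h'
  Ds := fun j _ τ ω h => by
    by_cases h1 : (sys nb A ori ω).st T τ j = St.u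
    · exact Or.inr h1
    · left
      rw [← h, Sys.st_stay _ (Nat.le_succ τ) h1]
  depU := fun j _ τ hτ => by
    refine dep_mono (S := (coo m (ball nb T (3 * τ) j) : Set (Co V m))) (fun x y hxy => ?_) ?_
    · show ((sys nb A ori x).st T τ j = St.u) = ((sys nb A ori y).st T τ j = St.u)
      rw [show (sys nb A ori x).st T τ j = (sys nb A ori y).st T τ j from
        st_dependsOn nb A ori τ T j hxy]
    · exact (coo_mono (ball_mono nb (by omega) j)).trans Set.subset_union_left
  depD := fun j _ τ hτ => by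
    refine dep_mono (S := (coo m (ball nb T (3 * τ) j) : Set (Co V m))) (fun x y hxy => ?_) ?_
    · show ((sys nb A ori x).st T τ j = St.d) = ((sys nb A ori y).st T τ j = St.d)
      rw [show (sys nb A ori x).st T τ j = (sys nb A ori y).st T τ j from
        st_dependsOn nb A ori τ T j hxy]
    · exact (coo_mono (ball_mono nb (by omega) j)).trans Set.subset_union_left
  depn := fun τ _ k x y hxy => by
    show (¬ labOf x v τ < A τ k) = (¬ labOf y v τ < A τ k)
    rw [show labOf x v τ = labOf y v τ from dep_lab v τ hxy]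
  dis := fun j hj k hk hjk => reg_disj hjk (hdis j hj k hk hjk)
    (fun h => ball_disj nb (hCh j hj) h hv) (fun h => ball_disj nb (hCh k hk) h hv)
  cvr := fun τ _ j hj => reg_cvs (by rintro rfl; exact hCh j hj hv)
    (fun h => ball_disj nb (hCh j hj) h hv) τ
  cvi := fun _ _ _ _ h => cvs_disj h
  prn := fun τ hτ k => Pr_nlab hN hA v (by omega) k
  prZ := fun τ hτ j hj => hZ τ hτ j hj

end Branch

end Pool.Agent.G4
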