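import Pool.Agent.G4.Cert

/-!
# Existence and positivity of the law
-/

set_option autoImplicit false
set_option linter.unusedSimpArgs false

namespace Pool.Agent.G4

open Finset

/-- the cubic form of the law -/
noncomputable def cube (h c : ℕ → ℝ) (x : ℝ) : ℝ :=
  ∑ k ∈ range 4, (Nat.choose 3 k : ℝ) * h k * c k * x ^ (3 - k)

section

variable (A : ℕ → ℕ → ℕ) (N : ℕ)

/-- the probability to ring -/
noncomputable def lP (t : ℕ) (s : ℝ × (ℕ → ℝ)) : ℝ := cube s.2 (fun k => (A t k : ℝ) / N) s.1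

/-- the probability to join -/
noncomputable def lX (t : ℕ) (s : ℝ × (ℕ → ℝ)) : ℝ :=
  cube s.2 (fun k => (A t k : ℝ) / N) (s.1 - lP A N t s / 2)

/-- the probability to stay undecided -/
noncomputable def lW (t : ℕ) (s : ℝ × (ℕ → ℝ)) : ℝ :=
  cube s.2 (fun k => 1 - (A t k : ℝ) / N) (s.1 - lX A N t s)

/-- `W` and the vector `he`, round by round -/
noncomputable def lawSeq : ℕ → ℝ × (ℕ → ℝ)
  | 0 => (1, fun k => if k = 0 then 1 else 0)
  | t + 1 => (lW A N t (lawSeq t),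
      fun q => hstep A N ((lawSeq t).1 - lX A N t (lawSeq t) - lW A N t (lawSeq t)) t 0
        (lawSeq t).2 q)

theorem lawSeq_he (t : ℕ) : ∀ q, he A N (fun τ => (lawSeq A N τ).1 - lX A N τ (lawSeq A N τ) -
    (lawSeq A N (τ + 1)).1) 0 t q = (lawSeq A N t).2 q := by
  induction t with
  | zero => intro q; rfl
  | succ t ih =>
    intro q
    rw [he_succ]
    have : he A N (fun τ => (lawSeq A N τ).1 - lX A N τ (lawSeq A N τ) -
        (lawSeq A N (τ + 1)).1) 0 t = (lawSeq A N t).2 := funext ih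
    rw [this]
    rfl

/-- the law of the process with thresholds `A` -/
noncomputable def lawOf (m : ℕ) : Law m N A where
  W t := (lawSeq A N t).1
  P t := lP A N t (lawSeq A N t)
  X t := lX A N t (lawSeq A N t)
  Z t := (lawSeq A N t).1 - lX A N t (lawSeq A N t) - (lawSeq A N (t + 1)).1
  W_zero := rfl
  P_eq := by
    intro t _
    unfold lP cube
    refine Finset.sum_congr rfl fun k _ => ?_
    rw [lawSeq_he]
  X_eq := by
    intro t _
    show cube (lawSeq A N t).2 (fun k => (A t k : ℝ) / N)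
      ((lawSeq A N t).1 - lP A N t (lawSeq A N t) / 2) = _
    unfold cube
    refine Finset.sum_congr rfl fun k _ => ?_
    rw [lawSeq_he]
  W_succ := by
    intro t _
    show cube (lawSeq A N t).2 (fun k => 1 - (A t k : ℝ) / N)
      ((lawSeq A N t).1 - lX A N t (lawSeq A N t)) = _
    unfold cube
    refine Finset.sum_congr rfl fun k _ => ?_
    rw [lawSeq_he]
  Z_eq := by
    intro t _
    rfl

theorem lawOf_he (m t q : ℕ) : he A N (lawOf A N m).Z 0 t q = (lawSeq A N t).2 q :=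
  lawSeq_he A N t q

end

theorem cube_mono {h c : ℕ → ℝ} (hh : ∀ k, 0 ≤ h k) (hc : ∀ k, 0 ≤ c k) {x y : ℝ} (hx : 0 ≤ x)
    (hxy : x ≤ y) : cube h c x ≤ cube h c y := by
  unfold cube
  refine Finset.sum_le_sum fun k _ => ?_
  exact mul_le_mul_of_nonneg_left (pow_le_pow_left₀ hx hxy _)
    (mul_nonneg (mul_nonneg (Nat.cast_nonneg _) (hh k)) (hc k))

theorem cube_nonneg {h c : ℕ → ℝ} (hh : ∀ k, 0 ≤ h k) (hc : ∀ k, 0 ≤ c k) {x : ℝ} (hx : 0 ≤ x) :
    0 ≤ cube h c x := by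
  unfold cube
  refine Finset.sum_nonneg fun k _ => ?_
  exact mul_nonneg (mul_nonneg (mul_nonneg (Nat.cast_nonneg _) (hh k)) (hc k)) (pow_nonneg hx _)

theorem cube_add (h c c' : ℕ → ℝ) (x : ℝ) :
    cube h c x + cube h c' x = cube h (fun k => c k + c' k) x := by
  unfold cube
  rw [← Finset.sum_add_distrib]
  refine Finset.sum_congr rfl fun k _ => ?_
  ring

/-- the binomial identity behind `W = Σ C(3,k) he k W ^ (3 - k)` -/
theorem cube_hstep (A : ℕ → ℕ → ℕ) (N : ℕ) (z w : ℝ) (t : ℕ) (h : ℕ → ℝ) :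
    cube (fun q => hstep A N z t 0 h q) (fun _ => 1) w =
      cube h (fun k => 1 - (A t k : ℝ) / N) (z + w) := by
  unfold cube hstep
  simp only [Finset.sum_range_succ, Finset.sum_range_zero, Nat.choose, Nat.cast_one, Nat.cast_ofNat,
    Nat.add_zero, zero_add, Nat.sub_zero, Nat.sub_self, pow_zero, mul_one, one_mul]
  norm_num
  ring

section

variable {A : ℕ → ℕ → ℕ} {N : ℕ}

/-- the invariant of the law -/
structure LInv (A : ℕ → ℕ → ℕ) (N : ℕ) (s : ℝ × (ℕ → ℝ)) : Prop where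
  w : 0 ≤ s.1
  h : ∀ k, 0 ≤ s.2 k
  eq : cube s.2 (fun _ => 1) s.1 = s.1

theorem frac_nonneg (A : ℕ → ℕ → ℕ) (N t k : ℕ) : 0 ≤ (A t k : ℝ) / N :=
  div_nonneg (Nat.cast_nonneg _) (Nat.cast_nonneg _)

theorem frac_le (hA : ∀ t k, A t k ≤ N) (t k : ℕ) : 0 ≤ 1 - (A t k : ℝ) / N := by
  have h1 : (A t k : ℝ) ≤ N := by exact_mod_cast hA t k
  rcases eq_or_lt_of_le (Nat.zero_le N) with h0 | h0
  · rw [← h0]; simp
  · have : (0 : ℝ) < N := by exact_mod_cast h0
    rw [sub_nonneg, div_le_one this]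
    exact h1

theorem LInv.facts (hA : ∀ t k, A t k ≤ N) {s : ℝ × (ℕ → ℝ)} (I : LInv A N s) (t : ℕ) :
    0 ≤ lP A N t s ∧ lP A N t s ≤ s.1 ∧ 0 ≤ lX A N t s ∧ lX A N t s ≤ s.1 ∧ 0 ≤ lW A N t s ∧
      0 ≤ s.1 - lX A N t s - lW A N t s := by
  have ha := frac_nonneg A N t
  have hb := frac_le hA t
  have h1 : 0 ≤ lP A N t s := cube_nonneg I.h ha I.w
  have hsum : cube s.2 (fun k => (A t k : ℝ) / N) s.1 +
      cube s.2 (fun k => 1 - (A t k : ℝ) / N) s.1 = s.1 := by
    rw [cube_add]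
    have : (fun k => (A t k : ℝ) / N + (1 - (A t k : ℝ) / N)) = fun _ => (1 : ℝ) := by
      funext k; ring
    rw [this, I.eq]
  have h2 : lP A N t s ≤ s.1 := by
    have := cube_nonneg I.h hb I.w
    unfold lP; linarith
  have h3 : 0 ≤ s.1 - lP A N t s / 2 := by linarith
  have h4 : 0 ≤ lX A N t s := cube_nonneg I.h ha h3
  have h5 : lX A N t s ≤ lP A N t s := cube_mono I.h ha h3 (by linarith)
  have h6 : 0 ≤ s.1 - lX A N t s := by linarith
  have h7 : 0 ≤ lW A N t s := cube_nonneg I.h hb h6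
  have h8 : lW A N t s ≤ cube s.2 (fun k => 1 - (A t k : ℝ) / N) s.1 :=
    cube_mono I.h hb h6 (by linarith)
  refine ⟨h1, h2, h4, by linarith, h7, ?_⟩
  have h9 : lP A N t s = cube s.2 (fun k => (A t k : ℝ) / N) s.1 := rfl
  linarith

theorem lawSeq_inv (hA : ∀ t k, A t k ≤ N) (t : ℕ) : LInv A N (lawSeq A N t) := by
  induction t with
  | zero =>
    refine ⟨by norm_num [lawSeq], ?_, ?_⟩
    · intro k; simp only [lawSeq]; split_ifs <;> norm_num
    · simp [lawSeq, cube, Finset.sum_range_succ]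
  | succ t ih =>
    obtain ⟨h1, h2, h3, h4, h5, h6⟩ := ih.facts hA t
    refine ⟨h5, ?_, ?_⟩
    · intro k
      simp only [lawSeq]
      unfold hstep
      refine Finset.sum_nonneg fun j _ => ?_
      exact mul_nonneg (mul_nonneg (mul_nonneg (Nat.cast_nonneg _) (ih.h j))
        (frac_le hA _ _)) (pow_nonneg h6 _)
    · simp only [lawSeq]
      rw [cube_hstep]
      have : (lawSeq A N t).1 - lX A N t (lawSeq A N t) - lW A N t (lawSeq A N t) +
          lW A N t (lawSeq A N t) = (lawSeq A N t).1 - lX A N t (lawSeq A N t) := by ring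
      rw [this]
      rfl

theorem lawOf_pos (hA : ∀ t k, A t k ≤ N) (m : ℕ) : Pos A N (lawOf A N m) where
  A_le := hA
  W_nonneg t _ := (lawSeq_inv hA t).w
  Z_nonneg t _ := ((lawSeq_inv hA t).facts hA t).2.2.2.2.2
  X_nonneg t _ := ((lawSeq_inv hA t).facts hA t).2.2.1
  X_le t _ := ((lawSeq_inv hA t).facts hA t).2.2.2.1
  P_nonneg t _ := ((lawSeq_inv hA t).facts hA t).1
  P_le t _ := by
    have h := (lawSeq_inv hA t).facts hA t
    have h1 : lP A N t (lawSeq A N t) ≤ (lawSeq A N t).1 := h.2.1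
    have h2 := (lawSeq_inv hA t).w
    show lP A N t (lawSeq A N t) / 2 ≤ (lawSeq A N t).1
    linarith

end

end Pool.Agent.G4
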