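import Mathlib

/-!
The neighbour map of a finite graph.
-/

set_option autoImplicit false

namespace Pool.Agent.G4

open Finset
open scoped Classical

/-- the neighbour map of a finite graph -/
noncomputable def nbG {V : Type} [Fintype V] (G : SimpleGraph V) (v : V) : Finset V :=
  univ.filter fun w => G.Adj v w

theorem mem_nbG {V : Type} [Fintype V] {G : SimpleGraph V} {v w : V} :
    w ∈ nbG G v ↔ G.Adj v w := by
  simp [nbG]

end Pool.Agent.G4
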