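import Pool.Agent.G4.PathDefs
import Pool.Agent.G4.Law

/-!
# A path outside `X`: the chain of the events of its vertices
-/

set_option autoImplicit false

namespace Pool.Agent.G4

open Finset
open scoped Classical

theorem lInfo_dl {ta t τ : ℕ} {ρa ρ c : Bool} (hτ : τ ≤ t) :
    (lInfo ta ρa t ρ c).dl τ = if ta < τ then 1 else 0 := by
  unfold lInfo
  split_ifs with h1 h2 h3 h4 h5
  · simp [Info.dl, h2]
  · simp [Info.dl, h2]
  · omega
  · rfl
  · omega
  · rfl

theorem rInfo_dl {ta t τ : ℕ} {ρa ρ c : Bool} (hτ : τ ≤ t) :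
    (rInfo t ρ ta ρa c).dl τ = if ta < τ then 1 else 0 := by
  unfold rInfo
  split_ifs with h1 h2 h3 h4 h5
  · simp [Info.dl, h2]
  · simp [Info.dl, h2]
  · omega
  · rfl
  · omega
  · rfl

theorem lInfo_tl {ta t : ℕ} {ρa ρ c : Bool} (h : lInfo ta ρa t ρ c = Info.tl) : ρ = true := by
  unfold lInfo at h
  split_ifs at h with h1 h2
  exact h2.2.2.1

theorem lInfo_ea {ta t c' : ℕ} {ρa ρ c : Bool} (h : lInfo ta ρa t ρ c = Info.ea c') : c' < t := by
  unfold lInfo at h
  split_ifs at h with h1 h2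
  cases h
  exact h1

namespace Sys

variable {V : Type} (s : Sys V)

/-- the round in which `v` is decided, `m` if it is never decided -/
theorem exists_dt (m : ℕ) (v : V) :
    ∃ t ≤ m, s.st ∅ t v = St.u ∧ (t < m → s.st ∅ (t + 1) v ≠ St.u) := by
  induction m with
  | zero => exact ⟨0, le_rfl, rfl, fun h => absurd h (lt_irrefl 0)⟩
  | succ m ih =>
    obtain ⟨t, h1, h2, h3⟩ := ih
    by_cases h4 : s.st ∅ (m + 1) v = St.u
    · exact ⟨m + 1, le_rfl, h4, fun h => absurd h (lt_irrefl _)⟩
    · refine ⟨t, by omega, h2, fun _ => ?_⟩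
      rcases Nat.lt_or_ge t m with h5 | h5
      · exact h3 h5
      · have h6 : t = m := by omega
        rw [h6]
        exact h4

noncomputable def dt (m : ℕ) (v : V) : ℕ := (s.exists_dt m v).choose

theorem dt_le (m : ℕ) (v : V) : s.dt m v ≤ m := (s.exists_dt m v).choose_spec.1

theorem st_dt (m : ℕ) (v : V) : s.st ∅ (s.dt m v) v = St.u := (s.exists_dt m v).choose_spec.2.1

theorem st_dt_succ {m : ℕ} {v : V} (h : s.dt m v < m) : s.st ∅ (s.dt m v + 1) v ≠ St.u :=
  (s.exists_dt m v).choose_spec.2.2 h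

theorem dt_eq {m t : ℕ} {v : V} (ht : t < m) (h1 : s.st ∅ t v = St.u)
    (h2 : s.st ∅ (t + 1) v ≠ St.u) : s.dt m v = t := by
  rcases lt_trichotomy (s.dt m v) t with h | h | h
  · exact absurd (s.st_u_mono (show s.dt m v + 1 ≤ t by omega) h1) (s.st_dt_succ (by omega))
  · exact h
  · exact absurd (s.st_u_mono (show t + 1 ≤ s.dt m v by omega) (s.st_dt m v)) h2

theorem st_ne_iff {m τ : ℕ} {v : V} (hτ : τ ≤ m) : s.st ∅ τ v ≠ St.u ↔ s.dt m v < τ := by
  constructor
  · intro h
    by_contra h1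
    exact h (s.st_u_mono (by omega) (s.st_dt m v))
  · intro h h1
    exact s.st_dt_succ (by omega : s.dt m v < m) (s.st_u_mono (by omega) h1)

noncomputable def rg (m : ℕ) (v : V) : Bool := decide (s.dt m v < m ∧ s.Ring ∅ (s.dt m v) v)

theorem rg_iff {m : ℕ} {v : V} : s.rg m v = true ↔ s.dt m v < m ∧ s.Ring ∅ (s.dt m v) v := by
  unfold rg
  exact decide_eq_true_iff

theorem rg_of_ring {m t : ℕ} {v : V} (ht : t < m) (h : s.Ring ∅ t v) :
    s.dt m v = t ∧ s.rg m v = true := by
  have h1 : s.dt m v = t := by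
    refine s.dt_eq ht (s.ring_u h) fun h2 => ?_
    exact (s.st_succ_u.1 h2).2.1 h
  refine ⟨h1, s.rg_iff.2 ⟨by omega, ?_⟩⟩
  rw [h1]
  exact h

/-- the coin of an edge -/
noncomputable def cc (m : ℕ) (a b : V) : Bool :=
  decide ((s.dt m b = s.dt m a ∧ s.rg m a = true ∧ s.rg m b = true) ∧ s.bt b a (s.dt m a))

/-- the event of one vertex -/
theorem evV_of {m : ℕ} {v a b : V} (hirr : v ∉ s.nb v)
    (hbt : ∀ x y t, t < m → x ≠ y → (s.bt x y t ↔ ¬ s.bt y x t))
    (Ch : Finset V) (hCh : Ch ⊆ s.nb v) (hab : a ≠ b) (hC : s.nb v \ Ch = {a, b})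
    (hv : s.st ∅ m v ≠ St.x) (ha : s.st ∅ m a ≠ St.x) (hb : s.st ∅ m b ≠ St.x) :
    s.EvV m v Ch (lInfo (s.dt m a) (s.rg m a) (s.dt m v) (s.rg m v) (s.cc m a v))
      (rInfo (s.dt m v) (s.rg m v) (s.dt m b) (s.rg m b) (s.cc m v b)) (s.dt m v) (s.rg m v) := by
  have hCh' : Ch ⊆ s.nb v \ ∅ := by rwa [sdiff_empty]
  have haN : a ∈ s.nb v := by
    have h : a ∈ s.nb v \ Ch := by rw [hC]; exact mem_insert_self _ _
    exact (mem_sdiff.1 h).1
  have hbN : b ∈ s.nb v := by
    have h : b ∈ s.nb v \ Ch := by rw [hC]; exact mem_insert_of_mem (mem_singleton_self _)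
    exact (mem_sdiff.1 h).1
  have hav : a ≠ v := fun h => hirr (h ▸ haN)
  have hbv : b ≠ v := fun h => hirr (h ▸ hbN)
  have hcase : ∀ y ∈ s.nb v \ ∅, y = a ∨ y = b ∨ y ∈ Ch := by
    intro y hy
    rw [sdiff_empty] at hy
    by_cases h : y ∈ Ch
    · exact Or.inr (Or.inr h)
    · have h1 : y ∈ s.nb v \ Ch := mem_sdiff.2 ⟨hy, h⟩
      rw [hC, mem_insert, mem_singleton] at h1
      rcases h1 with h1 | h1
      · exact Or.inl h1
      · exact Or.inr (Or.inl h1)
  have hst := s.st_dt m v
  have htm := s.dt_le m v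
  -- the number of decided neighbours on the path
  have hnum : ∀ τ ≤ s.dt m v, (((s.nb v \ ∅) \ Ch).filter fun y => s.st ∅ τ y ≠ St.u).card =
      (lInfo (s.dt m a) (s.rg m a) (s.dt m v) (s.rg m v) (s.cc m a v)).dl τ +
        (rInfo (s.dt m v) (s.rg m v) (s.dt m b) (s.rg m b) (s.cc m v b)).dl τ := by
    intro τ hτ
    rw [sdiff_empty, hC, lInfo_dl hτ, rInfo_dl hτ]
    have h1 : ∀ y : V, s.st ∅ τ y ≠ St.u ↔ s.dt m y < τ := fun y => s.st_ne_iff (by omega)
    rw [filter_congr fun y _ => h1 y, filter_insert, filter_singleton]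
    by_cases h2 : s.dt m a < τ <;> by_cases h3 : s.dt m b < τ <;> simp [h2, h3, hab]
  have hins : (insert v (∅ : Finset V)) = {v} := by simp
  have hU := s.und_of hirr Ch hCh' hst
  rw [hins] at hU
  refine ⟨fun j hj => (s.ne_x_iff _ _ _).1 (hU.1 j hj), fun τ hτ => ?_, ?_⟩
  · have h := hU.2 τ hτ
    rw [hnum τ hτ.le] at h
    exact h
  · have hcnt := s.cnt_eq hirr Ch hCh' hst
    rw [hins, hnum _ le_rfl] at hcnt
    by_cases hρ : s.rg m v = true
    · rw [if_pos hρ]
      obtain ⟨h1, h2⟩ := s.rg_iff.1 hρ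
      constructor
      · have h3 := h2.2
        rw [hcnt] at h3
        exact h3
      · have h3 : ¬ s.Win ∅ (s.dt m v) v := by
          intro h
          have h4 : s.st ∅ (s.dt m v + 1) v = St.x := s.st_succ_x.2 (Or.inr h)
          apply hv
          rw [s.st_stay (show s.dt m v + 1 ≤ m by omega) (by rw [h4]; simp), h4]
        have h4 : ∃ y ∈ s.nb v \ ∅, s.Ring ∅ (s.dt m v) y ∧ ¬ s.bt v y (s.dt m v) := by
          by_contra h5
          push Not at h5
          exact h3 ⟨h2, h5⟩
        obtain ⟨y, hy, hyr, hyb⟩ := h4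
        rcases hcase y hy with rfl | rfl | hyC
        · left
          obtain ⟨h5, h6⟩ := s.rg_of_ring h1 hyr
          have h7 : s.cc m y v = false := by
            unfold cc
            rw [decide_eq_false_iff_not]
            rintro ⟨_, h8⟩
            rw [h5] at h8
            exact hyb h8
          unfold lInfo
          rw [if_neg (by omega), if_pos]
          exact ⟨h5.symm, h6, hρ, by rw [h7]; simp⟩
        · right; left
          obtain ⟨h5, h6⟩ := s.rg_of_ring h1 hyr
          have h7 : s.cc m v y = true := by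
            unfold cc
            rw [decide_eq_true_iff]
            exact ⟨⟨h5, hρ, h6⟩, (hbt _ _ _ h1 hbv).2 hyb⟩
          unfold rInfo
          rw [if_neg (by omega), if_pos]
          exact ⟨h5, hρ, h6, h7⟩
        · right; right
          have hyv : y ≠ v := fun h => hirr (h ▸ hCh hyC)
          have h5 := (s.silent_ring hst hyv).1 hyr
          rw [hins] at h5
          exact ⟨y, hyC, h5, hyb⟩
    · rw [if_neg hρ]
      intro h1
      have h2 : ¬ s.Ring ∅ (s.dt m v) v := fun h => hρ (s.rg_iff.2 ⟨h1, h⟩)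
      constructor
      · intro h3
        apply h2
        refine ⟨hst, ?_⟩
        rw [hcnt]
        exact h3
      · have h3 : ∃ y ∈ s.nb v \ ∅, s.Win ∅ (s.dt m v) y := by
          by_contra h4
          push Not at h4
          exact s.st_dt_succ h1 (s.st_succ_u.2 ⟨hst, h2, h4⟩)
        obtain ⟨y, hy, hyw⟩ := h3
        have hyx : s.st ∅ m y = St.x := by
          have h4 : s.st ∅ (s.dt m v + 1) y = St.x := s.st_succ_x.2 (Or.inr hyw)
          rw [s.st_stay (show s.dt m v + 1 ≤ m by omega) (by rw [h4]; simp), h4]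
        rcases hcase y hy with rfl | rfl | hyC
        · exact absurd hyx ha
        · exact absurd hyx hb
        · have hyv : y ≠ v := fun h => hirr (h ▸ hCh hyC)
          have h5 := (s.silent_win hst h2 hyv).1 hyw
          rw [hins] at h5
          exact ⟨y, hyC, h5⟩

theorem suf_of_off (m R L : ℕ) (p : ℕ → V)
    (hsymm : ∀ x y, y ∈ s.nb x → x ∈ s.nb y) (hirr : ∀ x, x ∉ s.nb x)
    (hbt : ∀ x y t, t < m → x ≠ y → (s.bt x y t ↔ ¬ s.bt y x t))
    (hp : TreePath s.nb R L p)
    (hoff : ∀ i ≤ L, s.st ∅ m (p i) ≠ St.x) :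
    ∃ l t ρ, Adm m t ρ ∧ (l = Info.tl → ρ) ∧ (∀ c, l = Info.ea c → c < t) ∧
      s.Suf m L p (L - 1) l t ρ := by
  have hadm : ∀ v, Adm m (s.dt m v) (s.rg m v) := fun v =>
    ⟨s.dt_le m v, fun h => (s.rg_iff.1 h).1⟩
  have key : ∀ n, n + 1 ≤ L → s.Suf m L p n
      (lInfo (s.dt m (p (L - (n + 1)))) (s.rg m (p (L - (n + 1)))) (s.dt m (p (L - n)))
        (s.rg m (p (L - n))) (s.cc m (p (L - (n + 1))) (p (L - n))))
      (s.dt m (p (L - n))) (s.rg m (p (L - n))) := by
    intro n
    induction n with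
    | zero => intro _; exact trivial
    | succ n ih =>
      intro hn
      have ih' := ih (by omega)
      set i := L - (n + 1) with hi
      have h1 : L - (n + 1 + 1) = i - 1 := by omega
      have h2 : L - n = i + 1 := by omega
      rw [h2] at ih'
      rw [h1]
      have haN : p (i - 1) ∈ s.nb (p i) := by
        apply hsymm
        have h3 := hp.adj (i - 1) (by omega)
        have h4 : i - 1 + 1 = i := by omega
        rw [h4] at h3
        exact h3
      have hbN : p (i + 1) ∈ s.nb (p i) := hp.adj i (by omega)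
      have hab : p (i - 1) ≠ p (i + 1) := by
        intro h
        have := hp.inj (i - 1) (by omega) (i + 1) (by omega) h
        omega
      refine ⟨s.dt m (p (i + 1)), s.rg m (p (i + 1)), s.cc m (p i) (p (i + 1)), hadm _, ?_, ?_, ?_⟩
      · rw [← hi]
        unfold CoinOK
        by_cases h3 : s.dt m (p (i + 1)) = s.dt m (p i) ∧ s.rg m (p i) = true ∧
            s.rg m (p (i + 1)) = true
        · rw [if_pos h3]
          unfold cc
          rw [decide_eq_true_iff]
          exact ⟨fun h => h.2, fun h => ⟨h3, h⟩⟩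
        · rw [if_neg h3]
          unfold cc
          rw [decide_eq_false_iff_not]
          exact fun h => h3 h.1
      · rw [← hi]
        refine s.evV_of (hirr _) hbt _ (filter_subset _ _) hab ?_ (hoff i (by omega))
          (hoff (i - 1) (by omega)) (hoff (i + 1) (by omega))
        ext y
        rw [mem_sdiff, chs, mem_filter, mem_insert, mem_singleton]
        constructor
        · rintro ⟨h3, h4⟩
          by_contra h5
          rw [not_or] at h5
          exact h4 ⟨h3, h5⟩
        · rintro (rfl | rfl)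
          · exact ⟨haN, fun h => h.2.1 rfl⟩
          · exact ⟨hbN, fun h => h.2.2 rfl⟩
      · exact ih'
  rcases Nat.eq_zero_or_pos L with hL | hL
  · subst hL
    exact ⟨Info.ne, 0, false, ⟨Nat.zero_le _, fun h => by simp at h⟩, fun h => by simp at h,
      fun c h => by simp at h, trivial⟩
  · refine ⟨_, _, _, hadm _, fun h => ?_, fun c h => ?_, key (L - 1) (by omega)⟩
    · exact lInfo_tl h
    · exact lInfo_ea h

end Sys

end Pool.Agent.G4
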