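import Pool.Agent.G4.Chk
import Pool.Agent.G4.LawOf

/-!
# Soundness of the checker, part 1: the law
-/

set_option autoImplicit false
set_option linter.unusedSimpArgs false
set_option linter.unusedVariables false
set_option exponentiation.threshold 400

namespace Pool.Agent.G4.Chk

open Finset

theorem force_eq {α : Type} (n : ℕ) (k : ℕ → α) : force n k = k n := by
  cases n <;> rfl

theorem force_ex {n : ℕ} {k : ℕ → Bool} (h : force n k = true) : ∃ v, v = n ∧ k v = true :=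
  ⟨n, rfl, by rwa [force_eq] at h⟩

theorem SS_pos : (0 : ℝ) < (SS : ℝ) := by norm_num [SS]
theorem UU_pos : (0 : ℝ) < (UU : ℝ) := by norm_num [UU]
theorem NN_pos : (0 : ℝ) < (NN : ℝ) := by norm_num [NN]
theorem DD_pos : (0 : ℝ) < (DD : ℝ) := by
  unfold DD; push_cast; positivity
theorem KK_pos : (0 : ℝ) < (KK : ℝ) := by
  unfold KK; push_cast; positivity
theorem NN_pos' : 0 < NN := by norm_num [NN]
theorem KK_pos' : 0 < KK := by unfold KK; positivity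
theorem SS_pos' : 0 < SS := by norm_num [SS]

theorem KK_eq : KK = SS * DD := by
  have : SS = 2 ^ 64 := by norm_num [SS]
  rw [this]
  unfold KK DD
  rw [← pow_add]

theorem div_ub (n d : ℕ) (hd : 0 < d) : (n : ℝ) / d ≤ ((n / d + 1 : ℕ) : ℝ) := by
  have h1 : (0 : ℝ) < d := by exact_mod_cast hd
  rw [div_le_iff₀ h1]
  have h2 := (Nat.lt_mul_div_succ n hd).le
  have h3 : (n : ℝ) ≤ ((d * (n / d + 1) : ℕ) : ℝ) := by exact_mod_cast h2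
  push_cast at h3 ⊢
  linarith

theorem div_lb (n d : ℕ) : ((n / d : ℕ) : ℝ) ≤ (n : ℝ) / d := Nat.cast_div_le

theorem cast_sub_ge (a b : ℕ) : (a : ℝ) - b ≤ ((a - b : ℕ) : ℝ) := by
  rcases le_total b a with h | h
  · rw [Nat.cast_sub h]
  · have h1 : (a : ℝ) ≤ b := by exact_mod_cast h
    have h2 : (0 : ℝ) ≤ ((a - b : ℕ) : ℝ) := Nat.cast_nonneg _
    linarith

theorem sub_lb {K : ℝ} (hK : 0 < K) {a b : ℕ} {x y : ℝ} (h1 : (a : ℝ) / K ≤ x)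
    (h2 : y ≤ (b : ℝ) / K) (h3 : 0 ≤ x - y) : ((a - b : ℕ) : ℝ) / K ≤ x - y := by
  rcases le_total b a with h | h
  · rw [Nat.cast_sub h, sub_div]; linarith
  · rw [Nat.sub_eq_zero_of_le h]; simpa using h3

theorem sub_ub {K : ℝ} (hK : 0 < K) {a b : ℕ} {x y : ℝ} (h1 : x ≤ (a : ℝ) / K)
    (h2 : (b : ℝ) / K ≤ y) : x - y ≤ ((a - b : ℕ) : ℝ) / K := by
  have h := cast_sub_ge a b
  have : ((a : ℝ) - b) / K ≤ ((a - b : ℕ) : ℝ) / K := div_le_div_of_nonneg_right h hK.le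
  rw [sub_div] at this
  linarith

theorem cube_expand (h c : ℕ → ℝ) (x : ℝ) :
    cube h c x = h 0 * c 0 * x ^ 3 + 3 * (h 1 * c 1 * x ^ 2) + 3 * (h 2 * c 2 * x) + h 3 * c 3 := by
  unfold cube
  simp only [Finset.sum_range_succ, Finset.sum_range_zero, Nat.choose]
  norm_num
  ring

theorem hstep_zero (A : ℕ → ℕ → ℕ) (N : ℕ) (z : ℝ) (t e : ℕ) (v : ℕ → ℝ) :
    hstep A N z t e v 0 = v 0 * (1 - (A t (0 + e) : ℝ) / N) := by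
  unfold hstep
  simp only [Finset.sum_range_succ, Finset.sum_range_zero, Nat.choose]
  norm_num

theorem hstep_one (A : ℕ → ℕ → ℕ) (N : ℕ) (z : ℝ) (t e : ℕ) (v : ℕ → ℝ) :
    hstep A N z t e v 1 = v 0 * (1 - (A t (0 + e) : ℝ) / N) * z +
      v 1 * (1 - (A t (1 + e) : ℝ) / N) := by
  unfold hstep
  simp only [Finset.sum_range_succ, Finset.sum_range_zero, Nat.choose]
  norm_num

theorem hstep_two (A : ℕ → ℕ → ℕ) (N : ℕ) (z : ℝ) (t e : ℕ) (v : ℕ → ℝ) :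
    hstep A N z t e v 2 = v 0 * (1 - (A t (0 + e) : ℝ) / N) * z ^ 2 +
      2 * (v 1 * (1 - (A t (1 + e) : ℝ) / N) * z) + v 2 * (1 - (A t (2 + e) : ℝ) / N) := by
  unfold hstep
  simp only [Finset.sum_range_succ, Finset.sum_range_zero, Nat.choose]
  norm_num
  ring

theorem hstep_three (A : ℕ → ℕ → ℕ) (N : ℕ) (z : ℝ) (t : ℕ) (v : ℕ → ℝ) :
    hstep A N z t 0 v 3 = cube v (fun k => 1 - (A t k : ℝ) / N) z := by
  rfl

/-- the value of the numerator of `ev` -/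
theorem ev_val (h0 h1 h2 h3 a0 a1 a2 a3 x : ℕ) :
    ((h0 * a0 * (x * x * x) + 3 * (h1 * a1 * (x * x * KK)) + 3 * (h2 * a2 * (x * KK * KK)) +
    h3 * a3 * (KK * KK * KK) : ℕ) : ℝ) / ((NN * (KK * KK * KK) : ℕ) : ℝ) / KK =
    (h0 : ℝ) / KK * ((a0 : ℝ) / NN) * ((x : ℝ) / KK) ^ 3 +
      3 * ((h1 : ℝ) / KK * ((a1 : ℝ) / NN) * ((x : ℝ) / KK) ^ 2) +
      3 * ((h2 : ℝ) / KK * ((a2 : ℝ) / NN) * ((x : ℝ) / KK)) +
      (h3 : ℝ) / KK * ((a3 : ℝ) / NN) := by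
  have hK := KK_pos.ne'
  have hN := NN_pos.ne'
  push_cast
  generalize (KK : ℝ) = K at *
  generalize (NN : ℝ) = N at *
  field_simp

theorem e1_val (h0 h1 c0 c1 z : ℕ) :
    ((h0 * c0 * z + h1 * c1 * KK : ℕ) : ℝ) / ((NN * KK : ℕ) : ℝ) / KK =
    (h0 : ℝ) / KK * ((c0 : ℝ) / NN) * ((z : ℝ) / KK) + (h1 : ℝ) / KK * ((c1 : ℝ) / NN) := by
  have hK := KK_pos.ne'
  have hN := NN_pos.ne'
  push_cast
  generalize (KK : ℝ) = K at *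
  generalize (NN : ℝ) = N at *
  field_simp

theorem e2_val (h0 h1 h2 c0 c1 c2 z : ℕ) :
    ((h0 * c0 * (z * z) + 2 * (h1 * c1 * (z * KK)) + h2 * c2 * (KK * KK) : ℕ) : ℝ) /
      ((NN * (KK * KK) : ℕ) : ℝ) / KK =
    (h0 : ℝ) / KK * ((c0 : ℝ) / NN) * ((z : ℝ) / KK) ^ 2 +
      2 * ((h1 : ℝ) / KK * ((c1 : ℝ) / NN) * ((z : ℝ) / KK)) +
      (h2 : ℝ) / KK * ((c2 : ℝ) / NN) := by
  have hK := KK_pos.ne'
  have hN := NN_pos.ne'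
  push_cast
  generalize (KK : ℝ) = K at *
  generalize (NN : ℝ) = N at *
  field_simp

theorem e0_val (h0 c0 : ℕ) :
    ((h0 * c0 : ℕ) : ℝ) / (NN : ℝ) / KK = (h0 : ℝ) / KK * ((c0 : ℝ) / NN) := by
  have hK := KK_pos.ne'
  have hN := NN_pos.ne'
  push_cast
  generalize (KK : ℝ) = K at *
  generalize (NN : ℝ) = N at *
  field_simp

section bounds

variable {h c : ℕ → ℝ} {a0 a1 a2 a3 : ℕ}

theorem ev_lb {l0 l1 l2 l3 X : ℕ} {x : ℝ} (hc0 : c 0 = (a0 : ℝ) / NN) (hc1 : c 1 = (a1 : ℝ) / NN)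
    (hc2 : c 2 = (a2 : ℝ) / NN) (hc3 : c 3 = (a3 : ℝ) / NN) (hl0 : (l0 : ℝ) / KK ≤ h 0)
    (hl1 : (l1 : ℝ) / KK ≤ h 1) (hl2 : (l2 : ℝ) / KK ≤ h 2) (hl3 : (l3 : ℝ) / KK ≤ h 3)
    (hx : (X : ℝ) / KK ≤ x) :
    ((ev l0 l1 l2 l3 a0 a1 a2 a3 X : ℕ) : ℝ) / KK ≤ cube h c x := by
  have hK := KK_pos
  have hN := NN_pos
  have h1 : ((ev l0 l1 l2 l3 a0 a1 a2 a3 X : ℕ) : ℝ) / KK ≤
      (l0 : ℝ) / KK * ((a0 : ℝ) / NN) * ((X : ℝ) / KK) ^ 3 +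
      3 * ((l1 : ℝ) / KK * ((a1 : ℝ) / NN) * ((X : ℝ) / KK) ^ 2) +
      3 * ((l2 : ℝ) / KK * ((a2 : ℝ) / NN) * ((X : ℝ) / KK)) +
      (l3 : ℝ) / KK * ((a3 : ℝ) / NN) := by
    rw [← ev_val]
    unfold ev
    exact div_le_div_of_nonneg_right (div_lb _ _) hK.le
  refine le_trans h1 ?_
  rw [cube_expand, hc0, hc1, hc2, hc3]
  have e0 : 0 ≤ h 0 := le_trans (by positivity) hl0
  have e1 : 0 ≤ h 1 := le_trans (by positivity) hl1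
  have e2 : 0 ≤ h 2 := le_trans (by positivity) hl2
  have ex : 0 ≤ x := le_trans (by positivity) hx
  gcongr

theorem ev_ub {u0 u1 u2 u3 X : ℕ} {x : ℝ} (hc0 : c 0 = (a0 : ℝ) / NN) (hc1 : c 1 = (a1 : ℝ) / NN)
    (hc2 : c 2 = (a2 : ℝ) / NN) (hc3 : c 3 = (a3 : ℝ) / NN) (hh : ∀ k, 0 ≤ h k)
    (hu0 : h 0 ≤ (u0 : ℝ) / KK)
    (hu1 : h 1 ≤ (u1 : ℝ) / KK) (hu2 : h 2 ≤ (u2 : ℝ) / KK) (hu3 : h 3 ≤ (u3 : ℝ) / KK)
    (hx0 : 0 ≤ x) (hx : x ≤ (X : ℝ) / KK) :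
    cube h c x ≤ ((ev u0 u1 u2 u3 a0 a1 a2 a3 X + 1 : ℕ) : ℝ) / KK := by
  have hK := KK_pos
  have hN := NN_pos
  have h1 : (u0 : ℝ) / KK * ((a0 : ℝ) / NN) * ((X : ℝ) / KK) ^ 3 +
      3 * ((u1 : ℝ) / KK * ((a1 : ℝ) / NN) * ((X : ℝ) / KK) ^ 2) +
      3 * ((u2 : ℝ) / KK * ((a2 : ℝ) / NN) * ((X : ℝ) / KK)) +
      (u3 : ℝ) / KK * ((a3 : ℝ) / NN) ≤ ((ev u0 u1 u2 u3 a0 a1 a2 a3 X + 1 : ℕ) : ℝ) / KK := by
    rw [← ev_val]
    unfold ev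
    refine div_le_div_of_nonneg_right (div_ub _ _ ?_) hK.le
    have := NN_pos'
    have := KK_pos'
    positivity
  refine le_trans ?_ h1
  rw [cube_expand, hc0, hc1, hc2, hc3]
  have e0 := hh 0
  have e1 := hh 1
  have e2 := hh 2
  gcongr

end bounds

theorem one_sub_frac {a : ℕ} (ha : a ≤ NN) : 1 - (a : ℝ) / NN = ((NN - a : ℕ) : ℝ) / NN := by
  have hN := NN_pos.ne'
  rw [Nat.cast_sub ha]
  field_simp

/-- the intervals of the state `s` contain `q` -/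
structure LOK (s : Ls) (q : ℝ × (ℕ → ℝ)) : Prop where
  l0 : (s.l0 : ℝ) / KK ≤ q.2 0
  l1 : (s.l1 : ℝ) / KK ≤ q.2 1
  l2 : (s.l2 : ℝ) / KK ≤ q.2 2
  l3 : (s.l3 : ℝ) / KK ≤ q.2 3
  u0 : q.2 0 ≤ (s.u0 : ℝ) / KK
  u1 : q.2 1 ≤ (s.u1 : ℝ) / KK
  u2 : q.2 2 ≤ (s.u2 : ℝ) / KK
  u3 : q.2 3 ≤ (s.u3 : ℝ) / KK
  wl : (s.wl : ℝ) / KK ≤ q.1
  wu : q.1 ≤ (s.wu : ℝ) / KK

theorem lstp_sound {A : ℕ → ℕ → ℕ} (hA : ∀ t k, A t k ≤ NN) {t : ℕ} {r : Rd} {s : Ls}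
    (h0 : A t 0 = r.a0) (h1 : A t 1 = r.a1) (h2 : A t 2 = r.a2) (h3 : A t 3 = r.a3)
    (hs : LOK s (lawSeq A NN t)) {k : (pu xu zu : ℕ) → Ls → Bool} (h : lstp r s k = true) :
    ∃ pu xu zu s', k pu xu zu s' = true ∧ lP A NN t (lawSeq A NN t) ≤ (pu : ℝ) / KK ∧
      lX A NN t (lawSeq A NN t) ≤ (xu : ℝ) / KK ∧
      (lawSeq A NN t).1 - lX A NN t (lawSeq A NN t) - lW A NN t (lawSeq A NN t) ≤
        (zu : ℝ) / KK ∧ LOK s' (lawSeq A NN (t + 1)) := by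
  have hK := KK_pos
  have hN := NN_pos
  have inv := lawSeq_inv hA t
  obtain ⟨f1, f2, f3, f4, f5, f6⟩ := inv.facts hA t
  have a0 : (fun k => (A t k : ℝ) / NN) 0 = (r.a0 : ℝ) / NN := by simp [h0]
  have a1 : (fun k => (A t k : ℝ) / NN) 1 = (r.a1 : ℝ) / NN := by simp [h1]
  have a2 : (fun k => (A t k : ℝ) / NN) 2 = (r.a2 : ℝ) / NN := by simp [h2]
  have a3 : (fun k => (A t k : ℝ) / NN) 3 = (r.a3 : ℝ) / NN := by simp [h3]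
  have c0 : (fun k => 1 - (A t k : ℝ) / NN) 0 = ((NN - r.a0 : ℕ) : ℝ) / NN := by
    rw [← h0]; exact one_sub_frac (hA t 0)
  have c1 : (fun k => 1 - (A t k : ℝ) / NN) 1 = ((NN - r.a1 : ℕ) : ℝ) / NN := by
    rw [← h1]; exact one_sub_frac (hA t 1)
  have c2 : (fun k => 1 - (A t k : ℝ) / NN) 2 = ((NN - r.a2 : ℕ) : ℝ) / NN := by
    rw [← h2]; exact one_sub_frac (hA t 2)
  have c3 : (fun k => 1 - (A t k : ℝ) / NN) 3 = ((NN - r.a3 : ℕ) : ℝ) / NN := by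
    rw [← h3]; exact one_sub_frac (hA t 3)
  unfold lstp at h
  obtain ⟨pl, hpl, h⟩ := force_ex h
  obtain ⟨pu, hpu, h⟩ := force_ex h
  obtain ⟨bl, hbl, h⟩ := force_ex h
  obtain ⟨bu, hbu, h⟩ := force_ex h
  obtain ⟨xl, hxl, h⟩ := force_ex h
  obtain ⟨xu, hxu, h⟩ := force_ex h
  obtain ⟨cl, hcl, h⟩ := force_ex h
  obtain ⟨cu, hcu, h⟩ := force_ex h
  obtain ⟨wl, hwl, h⟩ := force_ex h
  obtain ⟨wu, hwu, h⟩ := force_ex h
  obtain ⟨zl, hzl, h⟩ := force_ex h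
  obtain ⟨zu, hzu, h⟩ := force_ex h
  obtain ⟨l0, hl0, h⟩ := force_ex h
  obtain ⟨l1, hl1, h⟩ := force_ex h
  obtain ⟨l2, hl2, h⟩ := force_ex h
  obtain ⟨l3, hl3, h⟩ := force_ex h
  obtain ⟨u0, hu0, h⟩ := force_ex h
  obtain ⟨u1, hu1, h⟩ := force_ex h
  obtain ⟨u2, hu2, h⟩ := force_ex h
  obtain ⟨u3, hu3, h⟩ := force_ex h
  have rpl : (pl : ℝ) / KK ≤ lP A NN t (lawSeq A NN t) := by
    rw [hpl]; exact ev_lb a0 a1 a2 a3 hs.l0 hs.l1 hs.l2 hs.l3 hs.wl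
  have rpu : lP A NN t (lawSeq A NN t) ≤ (pu : ℝ) / KK := by
    rw [hpu]; exact ev_ub a0 a1 a2 a3 inv.h hs.u0 hs.u1 hs.u2 hs.u3 inv.w hs.wu
  have rb0 : 0 ≤ (lawSeq A NN t).1 - lP A NN t (lawSeq A NN t) / 2 := by linarith
  have rbl : (bl : ℝ) / KK ≤ (lawSeq A NN t).1 - lP A NN t (lawSeq A NN t) / 2 := by
    rw [hbl]
    refine sub_lb hK hs.wl ?_ rb0
    have e1 := div_ub pu 2 (by norm_num)
    have e2 : (pu : ℝ) / KK / 2 ≤ ((pu / 2 + 1 : ℕ) : ℝ) / KK := by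
      rw [div_right_comm]
      exact div_le_div_of_nonneg_right (by exact_mod_cast e1) hK.le
    linarith
  have rbu : (lawSeq A NN t).1 - lP A NN t (lawSeq A NN t) / 2 ≤ (bu : ℝ) / KK := by
    rw [hbu]
    refine sub_ub hK hs.wu ?_
    have e1 := div_lb pl 2
    have e2 : ((pl / 2 : ℕ) : ℝ) / KK ≤ (pl : ℝ) / KK / 2 := by
      rw [div_right_comm]
      exact div_le_div_of_nonneg_right (by exact_mod_cast e1) hK.le
    linarith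
  have rxl : (xl : ℝ) / KK ≤ lX A NN t (lawSeq A NN t) := by
    rw [hxl]; exact ev_lb a0 a1 a2 a3 hs.l0 hs.l1 hs.l2 hs.l3 rbl
  have rxu : lX A NN t (lawSeq A NN t) ≤ (xu : ℝ) / KK := by
    rw [hxu]; exact ev_ub a0 a1 a2 a3 inv.h hs.u0 hs.u1 hs.u2 hs.u3 rb0 rbu
  have rc0 : 0 ≤ (lawSeq A NN t).1 - lX A NN t (lawSeq A NN t) := by linarith
  have rcl : (cl : ℝ) / KK ≤ (lawSeq A NN t).1 - lX A NN t (lawSeq A NN t) := by
    rw [hcl]; exact sub_lb hK hs.wl rxu rc0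
  have rcu : (lawSeq A NN t).1 - lX A NN t (lawSeq A NN t) ≤ (cu : ℝ) / KK := by
    rw [hcu]; exact sub_ub hK hs.wu rxl
  have rwl : (wl : ℝ) / KK ≤ lW A NN t (lawSeq A NN t) := by
    rw [hwl]; exact ev_lb c0 c1 c2 c3 hs.l0 hs.l1 hs.l2 hs.l3 rcl
  have rwu : lW A NN t (lawSeq A NN t) ≤ (wu : ℝ) / KK := by
    rw [hwu]; exact ev_ub c0 c1 c2 c3 inv.h hs.u0 hs.u1 hs.u2 hs.u3 rc0 rcu
  have rzl : (zl : ℝ) / KK ≤
      (lawSeq A NN t).1 - lX A NN t (lawSeq A NN t) - lW A NN t (lawSeq A NN t) := by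
    rw [hzl]; exact sub_lb hK rcl rwu f6
  have rzu : (lawSeq A NN t).1 - lX A NN t (lawSeq A NN t) - lW A NN t (lawSeq A NN t) ≤
      (zu : ℝ) / KK := by
    rw [hzu]; exact sub_ub hK rcu rwl
  refine ⟨pu, xu, zu, _, h, rpu, rxu, rzu, ?_⟩
  have i0 := inv.h 0
  have i1 := inv.h 1
  have i2 := inv.h 2
  have i3 := inv.h 3
  have g0 : (fun k => 1 - (A t k : ℝ) / NN) 0 = 1 - (A t 0 : ℝ) / NN := rfl
  have g1 : (fun k => 1 - (A t k : ℝ) / NN) 1 = 1 - (A t 1 : ℝ) / NN := rfl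
  have g2 : (fun k => 1 - (A t k : ℝ) / NN) 2 = 1 - (A t 2 : ℝ) / NN := rfl
  rw [g0] at c0
  rw [g1] at c1
  rw [g2] at c2
  have z0 : (0 : ℝ) ≤ (zl : ℝ) / KK := by positivity
  refine ⟨?_, ?_, ?_, ?_, ?_, ?_, ?_, ?_, ?_, ?_⟩
  · show (l0 : ℝ) / KK ≤ hstep A NN _ t 0 (lawSeq A NN t).2 0
    rw [hstep_zero, Nat.add_zero, c0, hl0]
    refine le_trans ?_ (mul_le_mul_of_nonneg_right hs.l0 (by positivity))
    rw [← e0_val]
    exact div_le_div_of_nonneg_right (div_lb _ _) hK.le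
  · show (l1 : ℝ) / KK ≤ hstep A NN _ t 0 (lawSeq A NN t).2 1
    rw [hstep_one, Nat.add_zero, Nat.add_zero, c0, c1, hl1]
    refine le_trans (b := (s.l0 : ℝ) / KK * (((NN - r.a0 : ℕ) : ℝ) / NN) * ((zl : ℝ) / KK) +
      (s.l1 : ℝ) / KK * (((NN - r.a1 : ℕ) : ℝ) / NN)) ?_ ?_
    · rw [← e1_val]
      exact div_le_div_of_nonneg_right (div_lb _ _) hK.le
    · have := hs.l0
      have := hs.l1
      gcongr
  · show (l2 : ℝ) / KK ≤ hstep A NN _ t 0 (lawSeq A NN t).2 2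
    rw [hstep_two, Nat.add_zero, Nat.add_zero, Nat.add_zero, c0, c1, c2, hl2]
    refine le_trans (b := (s.l0 : ℝ) / KK * (((NN - r.a0 : ℕ) : ℝ) / NN) * ((zl : ℝ) / KK) ^ 2 +
      2 * ((s.l1 : ℝ) / KK * (((NN - r.a1 : ℕ) : ℝ) / NN) * ((zl : ℝ) / KK)) +
      (s.l2 : ℝ) / KK * (((NN - r.a2 : ℕ) : ℝ) / NN)) ?_ ?_
    · rw [← e2_val]
      exact div_le_div_of_nonneg_right (div_lb _ _) hK.le
    · have := hs.l0
      have := hs.l1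
      have := hs.l2
      gcongr
  · show (l3 : ℝ) / KK ≤ hstep A NN _ t 0 (lawSeq A NN t).2 3
    rw [hstep_three, hl3]
    exact ev_lb c0 c1 c2 c3 hs.l0 hs.l1 hs.l2 hs.l3 rzl
  · show hstep A NN _ t 0 (lawSeq A NN t).2 0 ≤ (u0 : ℝ) / KK
    rw [hstep_zero, Nat.add_zero, c0, hu0]
    refine le_trans (mul_le_mul_of_nonneg_right hs.u0 (by positivity)) ?_
    rw [← e0_val]
    exact div_le_div_of_nonneg_right (div_ub _ _ NN_pos') hK.le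
  · show hstep A NN _ t 0 (lawSeq A NN t).2 1 ≤ (u1 : ℝ) / KK
    rw [hstep_one, Nat.add_zero, Nat.add_zero, c0, c1, hu1]
    refine le_trans (b := (s.u0 : ℝ) / KK * (((NN - r.a0 : ℕ) : ℝ) / NN) * ((zu : ℝ) / KK) +
      (s.u1 : ℝ) / KK * (((NN - r.a1 : ℕ) : ℝ) / NN)) ?_ ?_
    · have := hs.u0
      have := hs.u1
      gcongr
    · rw [← e1_val]
      refine div_le_div_of_nonneg_right (div_ub _ _ ?_) hK.le
      have := NN_pos'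
      have := KK_pos'
      positivity
  · show hstep A NN _ t 0 (lawSeq A NN t).2 2 ≤ (u2 : ℝ) / KK
    rw [hstep_two, Nat.add_zero, Nat.add_zero, Nat.add_zero, c0, c1, c2, hu2]
    refine le_trans (b := (s.u0 : ℝ) / KK * (((NN - r.a0 : ℕ) : ℝ) / NN) * ((zu : ℝ) / KK) ^ 2 +
      2 * ((s.u1 : ℝ) / KK * (((NN - r.a1 : ℕ) : ℝ) / NN) * ((zu : ℝ) / KK)) +
      (s.u2 : ℝ) / KK * (((NN - r.a2 : ℕ) : ℝ) / NN)) ?_ ?_
    · have := hs.u0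
      have := hs.u1
      have := hs.u2
      gcongr
    · rw [← e2_val]
      refine div_le_div_of_nonneg_right (div_ub _ _ ?_) hK.le
      have := NN_pos'
      have := KK_pos'
      positivity
  · show hstep A NN _ t 0 (lawSeq A NN t).2 3 ≤ (u3 : ℝ) / KK
    rw [hstep_three, hu3]
    exact ev_ub c0 c1 c2 c3 inv.h hs.u0 hs.u1 hs.u2 hs.u3 f6 rzu
  · exact rwl
  · exact rwu

end Pool.Agent.G4.Chk
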