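import Pool.Agent.G4.Sound1

/-!
# Soundness of the checker, part 2: the whole law
-/

set_option autoImplicit false
set_option linter.unusedSimpArgs false
set_option linter.unusedVariables false
set_option exponentiation.threshold 400

namespace Pool.Agent.G4.Chk

open Finset

/-- the thresholds of a round -/
def Rd.a (r : Rd) : ℕ → ℕ
  | 0 => r.a0
  | 1 => r.a1
  | 2 => r.a2
  | 3 => r.a3
  | 4 => r.a4
  | _ => 0

/-- the entry of round `t` -/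
def ent (T : List Rd) (e : Rd) (t : ℕ) : Rd := T.getD t e

/-- the thresholds -/
def AA (T : List Rd) (e : Rd) (t k : ℕ) : ℕ := (ent T e t).a k

theorem drop_nil {T : List Rd} {t : ℕ} (h : T.drop t = []) : T.length ≤ t :=
  List.drop_eq_nil_iff.mp h

theorem drop_cons {T : List Rd} {e : Rd} {t : ℕ} {r : Rd} {rs : List Rd} (h : T.drop t = r :: rs) :
    t < T.length ∧ ent T e t = r ∧ T.drop (t + 1) = rs := by
  have h1 : t < T.length := by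
    by_contra hc
    rw [List.drop_eq_nil_iff.mpr (not_lt.mp hc)] at h
    exact absurd h (by simp)
  have h2 := List.drop_eq_getElem_cons h1
  rw [h2] at h
  injection h with h3 h4
  refine ⟨h1, ?_, h4⟩
  unfold ent
  rw [List.getD_eq_getElem _ _ h1]
  exact h3

/-- the simple checks of the last entry -/
structure EOK (r : Rd) : Prop where
  a0 : r.a0 ≤ NN
  a1 : r.a1 ≤ NN
  a2 : r.a2 ≤ NN
  a3 : r.a3 ≤ NN
  a4 : r.a4 ≤ NN
  hb : UU ≤ r.b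
  hr : UU ≤ r.r
  hl : UU ≤ r.l

/-- the simple checks of a round -/
structure ROK (r : Rd) : Prop where
  toE : EOK r
  xw : r.x ≤ r.w
  pw : r.p ≤ 2 * r.w

theorem EOK.a_le {r : Rd} (h : EOK r) (k : ℕ) : r.a k ≤ NN := by
  match k with
  | 0 => exact h.a0
  | 1 => exact h.a1
  | 2 => exact h.a2
  | 3 => exact h.a3
  | 4 => exact h.a4
  | k + 5 => exact Nat.zero_le _

theorem lstp_ex {r : Rd} {s : Ls} {k : (pu xu zu : ℕ) → Ls → Bool} (h : lstp r s k = true) :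
    ∃ pu xu zu s', k pu xu zu s' = true := by
  unfold lstp at h
  obtain ⟨pl, hpl, h⟩ := force_ex h
  obtain ⟨pu, hpu, h⟩ := force_ex h
  obtain ⟨bl, hbl, h⟩ := force_ex h
  obtain ⟨bu, hbu, h⟩ := force_ex h
  obtain ⟨xl, hxl, h⟩ := force_ex h
  obtain ⟨xu, hxu, h⟩ := force_ex h
  obtain ⟨cl, hcl, h⟩ := force_ex h
  obtain ⟨cu, hcu, h⟩ := force_ex h
  obtain ⟨wl, hwl, h⟩ := force_ex h
  obtain ⟨wu, hwu, h⟩ := force_ex h
  obtain ⟨zl, hzl, h⟩ := force_ex h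
  obtain ⟨zu, hzu, h⟩ := force_ex h
  obtain ⟨l0, hl0, h⟩ := force_ex h
  obtain ⟨l1, hl1, h⟩ := force_ex h
  obtain ⟨l2, hl2, h⟩ := force_ex h
  obtain ⟨l3, hl3, h⟩ := force_ex h
  obtain ⟨u0, hu0, h⟩ := force_ex h
  obtain ⟨u1, hu1, h⟩ := force_ex h
  obtain ⟨u2, hu2, h⟩ := force_ex h
  obtain ⟨u3, hu3, h⟩ := force_ex h
  exact ⟨pu, xu, zu, _, h⟩

theorem law_ok {e : Rd} : ∀ (rs : List Rd) (s : Ls), law e rs s = true →
    EOK e ∧ ∀ r ∈ rs, ROK r := by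
  intro rs
  induction rs with
  | nil =>
    intro s h
    simp only [law, Bool.and_eq_true, Nat.ble_eq] at h
    obtain ⟨⟨⟨⟨⟨⟨⟨⟨h1, h2⟩, h3⟩, h4⟩, h5⟩, h6⟩, h7⟩, h8⟩, h9⟩ := h
    exact ⟨⟨h5, h6, h7, h8, h9, h2, h3, h4⟩, by simp⟩
  | cons r rs ih =>
    intro s h
    unfold law at h
    obtain ⟨pu, xu, zu, s', h⟩ := lstp_ex h
    simp only [Bool.and_eq_true, Nat.ble_eq] at h
    obtain ⟨⟨⟨⟨⟨⟨⟨⟨⟨⟨⟨⟨⟨⟨h1, h2⟩, h3⟩, h4⟩, h5⟩, h6⟩, h7⟩, h8⟩, h9⟩, h10⟩, h11⟩, h12⟩, h13⟩,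
      h14⟩, h15⟩ := h
    obtain ⟨i1, i2⟩ := ih s' h15
    refine ⟨i1, ?_⟩
    intro x hx
    rcases List.mem_cons.mp hx with hx | hx
    · subst hx
      exact ⟨⟨h7, h8, h9, h10, h11, h12, h13, h14⟩, h5, h6⟩
    · exact i2 x hx

theorem EOK.ent {T : List Rd} {e : Rd} (h : EOK e) (h' : ∀ r ∈ T, ROK r) (t : ℕ) :
    EOK (ent T e t) := by
  unfold Chk.ent
  by_cases ht : t < T.length
  · rw [List.getD_eq_getElem _ _ ht]
    exact (h' _ (List.getElem_mem ht)).toE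
  · rw [List.getD_eq_default _ _ (not_lt.mp ht)]
    exact h

theorem ROK.ent {T : List Rd} (e : Rd) (h' : ∀ r ∈ T, ROK r) {t : ℕ} (ht : t < T.length) :
    ROK (Chk.ent T e t) := by
  unfold Chk.ent
  rw [List.getD_eq_getElem _ _ ht]
  exact h' _ (List.getElem_mem ht)

/-- upper bounds of the law -/
structure LB (r : Rd) (W P X Z : ℝ) : Prop where
  w : W ≤ (r.w : ℝ) / SS
  p : P ≤ (r.p : ℝ) / SS
  x : X ≤ (r.x : ℝ) / SS
  z : Z ≤ (r.z : ℝ) / SS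

theorem scale_ub {n k : ℕ} {x : ℝ} (h : x ≤ (n : ℝ) / KK) (hn : n ≤ k * DD) :
    x ≤ (k : ℝ) / SS := by
  have h1 : (n : ℝ) ≤ (k : ℝ) * DD := by exact_mod_cast hn
  have hK := KK_pos
  have hS := SS_pos
  have hD := DD_pos
  have h2 : (KK : ℝ) = SS * DD := by exact_mod_cast KK_eq
  refine le_trans h ?_
  rw [h2, div_le_div_iff₀ (by positivity) hS]
  calc (n : ℝ) * SS ≤ (k : ℝ) * DD * SS := mul_le_mul_of_nonneg_right h1 hS.le
    _ = (k : ℝ) * (SS * DD) := by ring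

theorem law_sound {T : List Rd} {e : Rd} (hA : ∀ t k, AA T e t k ≤ NN) :
    ∀ (rs : List Rd) (t : ℕ) (s : Ls), T.drop t = rs → t ≤ T.length →
      LOK s (lawSeq (AA T e) NN t) → law e rs s = true →
      (∀ τ, t ≤ τ → τ < T.length → LB (ent T e τ) (lawSeq (AA T e) NN τ).1
        (lP (AA T e) NN τ (lawSeq (AA T e) NN τ)) (lX (AA T e) NN τ (lawSeq (AA T e) NN τ))
        ((lawSeq (AA T e) NN τ).1 - lX (AA T e) NN τ (lawSeq (AA T e) NN τ) -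
          (lawSeq (AA T e) NN (τ + 1)).1)) ∧
      (lawSeq (AA T e) NN T.length).1 ≤ (e.w : ℝ) / SS := by
  intro rs
  induction rs with
  | nil =>
    intro t s hd ht hs h
    have ht' : t = T.length := le_antisymm ht (drop_nil hd)
    subst ht'
    simp only [law, Bool.and_eq_true, Nat.ble_eq] at h
    obtain ⟨⟨⟨⟨⟨⟨⟨⟨h1, h2⟩, h3⟩, h4⟩, h5⟩, h6⟩, h7⟩, h8⟩, h9⟩ := h
    exact ⟨fun τ h1 h2 => absurd h2 (not_lt.mpr h1), scale_ub hs.wu h1⟩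
  | cons r rs ih =>
    intro t s hd ht hs h
    obtain ⟨d1, d2, d3⟩ := drop_cons (e := e) hd
    unfold law at h
    have a0 : AA T e t 0 = r.a0 := by unfold AA; rw [d2]; rfl
    have a1 : AA T e t 1 = r.a1 := by unfold AA; rw [d2]; rfl
    have a2 : AA T e t 2 = r.a2 := by unfold AA; rw [d2]; rfl
    have a3 : AA T e t 3 = r.a3 := by unfold AA; rw [d2]; rfl
    obtain ⟨pu, xu, zu, s', h, rp, rx, rz, hs'⟩ := lstp_sound hA a0 a1 a2 a3 hs h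
    simp only [Bool.and_eq_true, Nat.ble_eq] at h
    obtain ⟨⟨⟨⟨⟨⟨⟨⟨⟨⟨⟨⟨⟨⟨h1, h2⟩, h3⟩, h4⟩, h5⟩, h6⟩, h7⟩, h8⟩, h9⟩, h10⟩, h11⟩, h12⟩, h13⟩,
      h14⟩, h15⟩ := h
    obtain ⟨i1, i2⟩ := ih (t + 1) s' d3 d1 hs' h15
    refine ⟨?_, i2⟩
    intro τ hτ hτ'
    rcases eq_or_lt_of_le hτ with hτ | hτ
    · subst hτ
      rw [d2]
      exact ⟨scale_ub hs.wu h1, scale_ub rp h2, scale_ub rx h3, scale_ub rz h4⟩
    · exact i1 τ hτ hτ'

theorem LOK_zero (A : ℕ → ℕ → ℕ) : LOK ⟨KK, 0, 0, 0, KK, 0, 0, 0, KK, KK⟩ (lawSeq A NN 0) := by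
  have hK := KK_pos.ne'
  refine ⟨?_, ?_, ?_, ?_, ?_, ?_, ?_, ?_, ?_, ?_⟩ <;> simp [lawSeq, hK]

end Pool.Agent.G4.Chk
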