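import Pool.Agent.G4.Sound2

/-!
# Soundness of the checker, part 3: the functionals
-/

set_option autoImplicit false
set_option linter.unusedSimpArgs false
set_option linter.unusedVariables false
set_option exponentiation.threshold 400

namespace Pool.Agent.G4.Chk

open Finset

theorem d1_pos : 0 < NN * SS := Nat.mul_pos NN_pos' SS_pos'
theorem d2_pos : 0 < NN * (SS * SS) := Nat.mul_pos NN_pos' (Nat.mul_pos SS_pos' SS_pos')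
theorem d3_pos : 0 < 4 * (NN * (SS * SS)) := Nat.mul_pos (by norm_num) d2_pos
theorem d4_pos : 0 < SS * SS := Nat.mul_pos SS_pos' SS_pos'

section vals

variable (σ : ℝ)

theorem h0_val (c0 v0 : ℕ) :
    ((v0 * c0 : ℕ) : ℝ) / (NN : ℝ) / σ = (v0 : ℝ) / σ * ((c0 : ℝ) / NN) := by
  push_cast; ring

theorem h1_val (hσ : 0 < σ) (c0 c1 z v0 v1 : ℕ) :
    ((v0 * c0 * z + v1 * c1 * SS : ℕ) : ℝ) / ((NN * SS : ℕ) : ℝ) / σ =
      (v0 : ℝ) / σ * ((c0 : ℝ) / NN) * ((z : ℝ) / SS) + (v1 : ℝ) / σ * ((c1 : ℝ) / NN) := by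
  have hS := SS_pos.ne'
  have hN := NN_pos.ne'
  push_cast
  generalize (SS : ℝ) = S at *
  generalize (NN : ℝ) = N at *
  field_simp

theorem h2_val (hσ : 0 < σ) (c0 c1 c2 z v0 v1 v2 : ℕ) :
    ((v0 * c0 * (z * z) + 2 * (v1 * c1 * (z * SS)) + v2 * c2 * (SS * SS) : ℕ) : ℝ) /
      ((NN * (SS * SS) : ℕ) : ℝ) / σ =
      (v0 : ℝ) / σ * ((c0 : ℝ) / NN) * ((z : ℝ) / SS) ^ 2 +
      2 * ((v1 : ℝ) / σ * ((c1 : ℝ) / NN) * ((z : ℝ) / SS)) + (v2 : ℝ) / σ * ((c2 : ℝ) / NN) := by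
  have hS := SS_pos.ne'
  have hN := NN_pos.ne'
  push_cast
  generalize (SS : ℝ) = S at *
  generalize (NN : ℝ) = N at *
  field_simp

theorem kB_val (hσ : 0 < σ) (c0 c1 w x v0 v1 : ℕ) (hx : x ≤ w) :
    ((v0 * c0 * (x * (2 * w - x)) + 2 * (v1 * c1 * (x * SS)) : ℕ) : ℝ) /
      ((NN * (SS * SS) : ℕ) : ℝ) / σ =
      (v0 : ℝ) / σ * ((c0 : ℝ) / NN) * ((x : ℝ) / SS * (2 * ((w : ℝ) / SS) - (x : ℝ) / SS)) +
      2 * ((v1 : ℝ) / σ * ((c1 : ℝ) / NN) * ((x : ℝ) / SS)) := by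
  have hS := SS_pos.ne'
  have hN := NN_pos.ne'
  have h2 : x ≤ 2 * w := by omega
  push_cast [Nat.cast_sub h2]
  generalize (SS : ℝ) = S at *
  generalize (NN : ℝ) = N at *
  field_simp

theorem kM_val (hσ : 0 < σ) (a0 a1 a2 w v0 v1 v2 : ℕ) :
    ((v0 * a0 * (w * w) + 2 * (v1 * a1 * (w * SS)) + v2 * a2 * (SS * SS) : ℕ) : ℝ) /
      ((NN * (SS * SS) : ℕ) : ℝ) / σ =
      (v0 : ℝ) / σ * ((a0 : ℝ) / NN) * ((w : ℝ) / SS) ^ 2 +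
      2 * ((v1 : ℝ) / σ * ((a1 : ℝ) / NN) * ((w : ℝ) / SS)) + (v2 : ℝ) / σ * ((a2 : ℝ) / NN) :=
  h2_val σ hσ a0 a1 a2 w v0 v1 v2

theorem kO_val (hσ : 0 < σ) (a0 a1 w p v0 v1 : ℕ) (hp : p ≤ 2 * w) :
    ((v0 * a0 * (p * (4 * w - p)) + 4 * (v1 * a1 * (p * SS)) : ℕ) : ℝ) /
      ((4 * (NN * (SS * SS)) : ℕ) : ℝ) / σ =
      (v0 : ℝ) / σ * ((a0 : ℝ) / NN) * ((p : ℝ) / SS * (4 * ((w : ℝ) / SS) - (p : ℝ) / SS) / 4) +
      (v1 : ℝ) / σ * ((a1 : ℝ) / NN) * ((p : ℝ) / SS) := by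
  have hS := SS_pos.ne'
  have hN := NN_pos.ne'
  have h2 : p ≤ 4 * w := by omega
  push_cast [Nat.cast_sub h2]
  generalize (SS : ℝ) = S at *
  generalize (NN : ℝ) = N at *
  field_simp

theorem kE_val (hσ : 0 < σ) (w v0 v1 v2 : ℕ) :
    ((v0 * (w * w) + 2 * (v1 * (w * SS)) + v2 * (SS * SS) : ℕ) : ℝ) /
      ((SS * SS : ℕ) : ℝ) / σ =
      (v0 : ℝ) / σ * ((w : ℝ) / SS) ^ 2 +
      2 * ((v1 : ℝ) / σ * ((w : ℝ) / SS)) + (v2 : ℝ) / σ := by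
  have hS := SS_pos.ne'
  push_cast
  generalize (SS : ℝ) = S at *
  field_simp

end vals

section mono

theorem mono_x {W X w x : ℝ} (hX : 0 ≤ X) (hWw : W ≤ w) (hXx : X ≤ x) (hxw : x ≤ w) :
    X * (2 * W - X) ≤ x * (2 * w - x) := by
  have h1 : X * (2 * W - X) ≤ X * (2 * w - X) := mul_le_mul_of_nonneg_left (by linarith) hX
  have h2 : 0 ≤ (x - X) * (2 * w - x - X) := mul_nonneg (by linarith) (by linarith)
  nlinarith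

theorem mono_p {W P w p : ℝ} (hP : 0 ≤ P) (hWw : W ≤ w) (hPp : P ≤ p) (hpw : p ≤ 2 * w) :
    P * (4 * W - P) / 4 ≤ p * (4 * w - p) / 4 := by
  have h1 : P * (4 * W - P) ≤ P * (4 * w - P) := mul_le_mul_of_nonneg_left (by linarith) hP
  have h2 : 0 ≤ (p - P) * (4 * w - p - P) := mul_nonneg (by linarith) (by linarith)
  nlinarith

end mono

section funs

variable {A : ℕ → ℕ → ℕ} {m : ℕ} {w : Law m NN A}

theorem fB_lt {t e : ℕ} {v : ℕ → ℝ} (ht : t < m) :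
    fB A NN w t e v = v 0 * (1 - (A t (0 + e) : ℝ) / NN) * (w.X t * (2 * w.W t - w.X t)) +
      2 * (v 1 * (1 - (A t (1 + e) : ℝ) / NN) * w.X t) := by
  unfold fB
  rw [if_pos ht]
  simp only [Finset.sum_range_succ, Finset.sum_range_zero, Nat.choose]
  norm_num
  ring

theorem fB_end {e : ℕ} {v : ℕ → ℝ} :
    fB A NN w m e v = v 0 * w.W m ^ 2 + 2 * (v 1 * w.W m) + v 2 := by
  unfold fB
  rw [if_neg (lt_irrefl m)]
  simp only [Finset.sum_range_succ, Finset.sum_range_zero, Nat.choose]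
  norm_num
  ring

theorem fM_val {t e : ℕ} {v : ℕ → ℝ} :
    fM A NN w t e v = v 0 * ((A t (0 + e) : ℝ) / NN) * w.W t ^ 2 +
      2 * (v 1 * ((A t (1 + e) : ℝ) / NN) * w.W t) + v 2 * ((A t (2 + e) : ℝ) / NN) := by
  unfold fM
  simp only [Finset.sum_range_succ, Finset.sum_range_zero, Nat.choose]
  norm_num
  ring

theorem fO_val {t e : ℕ} {v : ℕ → ℝ} :
    fO A NN w t e v = v 0 * ((A t (0 + e) : ℝ) / NN) * (w.P t * (4 * w.W t - w.P t) / 4) +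
      v 1 * ((A t (1 + e) : ℝ) / NN) * w.P t := by
  unfold fO
  simp only [Finset.sum_range_succ, Finset.sum_range_zero, Nat.choose]
  norm_num
  ring

/-- scaled upper bounds of three entries -/
structure VB (σ : ℝ) (v0 v1 v2 : ℕ) (v : ℕ → ℝ) : Prop where
  nn : ∀ k, 0 ≤ v k
  h0 : v 0 ≤ (v0 : ℝ) / σ
  h1 : v 1 ≤ (v1 : ℝ) / σ
  h2 : v 2 ≤ (v2 : ℝ) / σ

variable (hpos : Pos A NN w)
include hpos

theorem oneSub (t k : ℕ) : 1 - (A t k : ℝ) / NN = ((NN - A t k : ℕ) : ℝ) / NN :=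
  one_sub_frac (hpos.A_le t k)

theorem h0_ub {σ : ℝ} (hσ : 0 < σ) {t e : ℕ} (ht : t < m) {v : ℕ → ℝ} {v0 v1 v2 : ℕ}
    (hv : VB σ v0 v1 v2 v) {c0 : ℕ} (hc0 : NN - A t (0 + e) = c0) :
    hstep A NN (w.Z t) t e v 0 ≤ ((h0 c0 v0 : ℕ) : ℝ) / σ := by
  have hN := NN_pos
  rw [hstep_zero, oneSub hpos, hc0]
  refine le_trans (mul_le_mul_of_nonneg_right hv.h0 (by positivity)) ?_
  rw [← h0_val]
  exact div_le_div_of_nonneg_right (div_ub _ _ NN_pos') hσ.le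

theorem h1_ub {σ : ℝ} (hσ : 0 < σ) {t e : ℕ} (ht : t < m) {v : ℕ → ℝ} {v0 v1 v2 : ℕ}
    (hv : VB σ v0 v1 v2 v) {c0 c1 : ℕ} (hc0 : NN - A t (0 + e) = c0)
    (hc1 : NN - A t (1 + e) = c1) {z : ℕ} (hz : w.Z t ≤ (z : ℝ) / SS) :
    hstep A NN (w.Z t) t e v 1 ≤ ((h1 c0 c1 z v0 v1 : ℕ) : ℝ) / σ := by
  have hN := NN_pos
  have hS := SS_pos
  rw [hstep_one, oneSub hpos, oneSub hpos, hc0, hc1]
  have b := h1_val σ hσ c0 c1 z v0 v1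
  have z0 := hpos.Z_nonneg t ht
  have n0 := hv.nn 0
  have n1 := hv.nn 1
  have g0 := hv.h0
  have g1 := hv.h1
  refine le_trans (b := (v0 : ℝ) / σ * ((c0 : ℝ) / NN) * ((z : ℝ) / SS) +
    (v1 : ℝ) / σ * ((c1 : ℝ) / NN)) ?_ ?_
  · gcongr
  · rw [← b]
    exact div_le_div_of_nonneg_right (div_ub _ _ d1_pos) hσ.le

theorem h2_ub {σ : ℝ} (hσ : 0 < σ) {t e : ℕ} (ht : t < m) {v : ℕ → ℝ} {v0 v1 v2 : ℕ}
    (hv : VB σ v0 v1 v2 v) {c0 c1 c2 : ℕ} (hc0 : NN - A t (0 + e) = c0)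
    (hc1 : NN - A t (1 + e) = c1) (hc2 : NN - A t (2 + e) = c2) {z : ℕ}
    (hz : w.Z t ≤ (z : ℝ) / SS) :
    hstep A NN (w.Z t) t e v 2 ≤ ((h2 c0 c1 c2 z v0 v1 v2 : ℕ) : ℝ) / σ := by
  have hN := NN_pos
  have hS := SS_pos
  rw [hstep_two, oneSub hpos, oneSub hpos, oneSub hpos, hc0, hc1, hc2]
  have b := h2_val σ hσ c0 c1 c2 z v0 v1 v2
  have z0 := hpos.Z_nonneg t ht
  have n0 := hv.nn 0
  have n1 := hv.nn 1
  have n2 := hv.nn 2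
  have g0 := hv.h0
  have g1 := hv.h1
  have g2 := hv.h2
  refine le_trans (b := (v0 : ℝ) / σ * ((c0 : ℝ) / NN) * ((z : ℝ) / SS) ^ 2 +
      2 * ((v1 : ℝ) / σ * ((c1 : ℝ) / NN) * ((z : ℝ) / SS)) +
      (v2 : ℝ) / σ * ((c2 : ℝ) / NN)) ?_ ?_
  · gcongr
  · rw [← b]
    exact div_le_div_of_nonneg_right (div_ub _ _ d2_pos) hσ.le

theorem kB_ub {σ : ℝ} (hσ : 0 < σ) {t e : ℕ} (ht : t < m) {v : ℕ → ℝ} {v0 v1 v2 : ℕ}
    (hv : VB σ v0 v1 v2 v) {c0 c1 : ℕ} (hc0 : NN - A t (0 + e) = c0)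
    (hc1 : NN - A t (1 + e) = c1) {r : Rd} (hr : ROK r) (hb : LB r (w.W t) (w.P t) (w.X t) (w.Z t)) :
    fB A NN w t e v ≤ ((kB c0 c1 r.w r.x v0 v1 : ℕ) : ℝ) / σ := by
  have hN := NN_pos
  have hS := SS_pos
  rw [fB_lt ht, oneSub hpos, oneSub hpos, hc0, hc1]
  have b := kB_val σ hσ c0 c1 r.w r.x v0 v1 hr.xw
  have x0 := hpos.X_nonneg t ht
  have xW := hpos.X_le t ht
  have hx := hb.x
  have hxw : (r.x : ℝ) / SS ≤ (r.w : ℝ) / SS :=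
    div_le_div_of_nonneg_right (by exact_mod_cast hr.xw) hS.le
  have hm := mono_x x0 hb.w hx hxw
  have hm0 : 0 ≤ w.X t * (2 * w.W t - w.X t) := mul_nonneg x0 (by linarith)
  have n0 := hv.nn 0
  have n1 := hv.nn 1
  have g0 := hv.h0
  have g1 := hv.h1
  refine le_trans (b := (v0 : ℝ) / σ * ((c0 : ℝ) / NN) *
    ((r.x : ℝ) / SS * (2 * ((r.w : ℝ) / SS) - (r.x : ℝ) / SS)) +
      2 * ((v1 : ℝ) / σ * ((c1 : ℝ) / NN) * ((r.x : ℝ) / SS))) ?_ ?_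
  · gcongr
  · rw [← b]
    exact div_le_div_of_nonneg_right (div_ub _ _ d2_pos) hσ.le

theorem kM_ub {σ : ℝ} (hσ : 0 < σ) {t e : ℕ} (ht : t < m) {v : ℕ → ℝ} {v0 v1 v2 : ℕ}
    (hv : VB σ v0 v1 v2 v) {a0 a1 a2 : ℕ} (ha0 : A t (0 + e) = a0) (ha1 : A t (1 + e) = a1)
    (ha2 : A t (2 + e) = a2) {r : Rd} (hb : LB r (w.W t) (w.P t) (w.X t) (w.Z t)) :
    fM A NN w t e v ≤ ((kM a0 a1 a2 r.w v0 v1 v2 : ℕ) : ℝ) / σ := by
  have hN := NN_pos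
  have hS := SS_pos
  rw [fM_val, ha0, ha1, ha2]
  have b := kM_val σ hσ a0 a1 a2 r.w v0 v1 v2
  have W0 := hpos.W_nonneg t ht.le
  have hw := hb.w
  have n0 := hv.nn 0
  have n1 := hv.nn 1
  have n2 := hv.nn 2
  have g0 := hv.h0
  have g1 := hv.h1
  have g2 := hv.h2
  refine le_trans (b := (v0 : ℝ) / σ * ((a0 : ℝ) / NN) * ((r.w : ℝ) / SS) ^ 2 +
      2 * ((v1 : ℝ) / σ * ((a1 : ℝ) / NN) * ((r.w : ℝ) / SS)) +
      (v2 : ℝ) / σ * ((a2 : ℝ) / NN)) ?_ ?_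
  · gcongr
  · rw [← b]
    exact div_le_div_of_nonneg_right (div_ub _ _ d2_pos) hσ.le

theorem kO_ub {σ : ℝ} (hσ : 0 < σ) {t e : ℕ} (ht : t < m) {v : ℕ → ℝ} {v0 v1 v2 : ℕ}
    (hv : VB σ v0 v1 v2 v) {a0 a1 : ℕ} (ha0 : A t (0 + e) = a0) (ha1 : A t (1 + e) = a1)
    {r : Rd} (hr : ROK r) (hb : LB r (w.W t) (w.P t) (w.X t) (w.Z t)) :
    fO A NN w t e v ≤ ((kO a0 a1 r.w r.p v0 v1 : ℕ) : ℝ) / σ := by
  have hN := NN_pos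
  have hS := SS_pos
  rw [fO_val, ha0, ha1]
  have b := kO_val σ hσ a0 a1 r.w r.p v0 v1 hr.pw
  have p0 := hpos.P_nonneg t ht
  have pW := hpos.P_le t ht
  have hp := hb.p
  have hpw : (r.p : ℝ) / SS ≤ 2 * ((r.w : ℝ) / SS) := by
    rw [← mul_div_assoc]
    refine div_le_div_of_nonneg_right ?_ hS.le
    exact_mod_cast hr.pw
  have hm := mono_p p0 hb.w hp hpw
  have hm0 : 0 ≤ w.P t * (4 * w.W t - w.P t) / 4 := by
    have := mul_nonneg p0 (show 0 ≤ 4 * w.W t - w.P t by linarith)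
    linarith
  have n0 := hv.nn 0
  have n1 := hv.nn 1
  have g0 := hv.h0
  have g1 := hv.h1
  refine le_trans (b := (v0 : ℝ) / σ * ((a0 : ℝ) / NN) *
    ((r.p : ℝ) / SS * (4 * ((r.w : ℝ) / SS) - (r.p : ℝ) / SS) / 4) +
      (v1 : ℝ) / σ * ((a1 : ℝ) / NN) * ((r.p : ℝ) / SS)) ?_ ?_
  · gcongr
  · rw [← b]
    exact div_le_div_of_nonneg_right (div_ub _ _ d3_pos) hσ.le

theorem kE_ub {σ : ℝ} (hσ : 0 < σ) {e : ℕ} {v : ℕ → ℝ} {v0 v1 v2 : ℕ}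
    (hv : VB σ v0 v1 v2 v) {W : ℕ} (hW : w.W m ≤ (W : ℝ) / SS) :
    fB A NN w m e v ≤ ((kE W v0 v1 v2 : ℕ) : ℝ) / σ := by
  have hS := SS_pos
  rw [fB_end]
  have b := kE_val σ hσ W v0 v1 v2
  have W0 := hpos.W_nonneg m le_rfl
  have n0 := hv.nn 0
  have n1 := hv.nn 1
  have g0 := hv.h0
  have g1 := hv.h1
  have g2 := hv.h2
  refine le_trans (b := (v0 : ℝ) / σ * ((W : ℝ) / SS) ^ 2 +
      2 * ((v1 : ℝ) / σ * ((W : ℝ) / SS)) + (v2 : ℝ) / σ) ?_ ?_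
  · gcongr
  · rw [← b]
    exact div_le_div_of_nonneg_right (div_ub _ _ d4_pos) hσ.le

end funs

end Pool.Agent.G4.Chk
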