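import Pool.Agent.G4.Sound3

/-!
# Soundness of the checker, part 4: the transfer operator
-/

set_option autoImplicit false
set_option linter.unusedSimpArgs false
set_option linter.unusedVariables false
set_option exponentiation.threshold 400

namespace Pool.Agent.G4.Chk

open Finset

/-- potential of `ne` -/
noncomputable def aA (T : List Rd) (e : Rd) (t : ℕ) (ρ : Bool) : ℝ :=
  if ρ then ((ent T e t).r : ℝ) / UU else ((ent T e t).b : ℝ) / UU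

/-- potential of `tl` -/
noncomputable def dA (T : List Rd) (e : Rd) (t : ℕ) : ℝ := ((ent T e t).l : ℝ) / UU

/-- sum of the potentials of `ea t` -/
noncomputable def bA (T : List Rd) (e : Rd) (t : ℕ) : ℝ := ((ent T e t).q : ℝ) / UU

/-- the invariant of the loops -/
structure SOK (s : Vs) (h g : ℕ → ℝ) : Prop where
  hh : VB (SS : ℝ) s.v0 s.v1 s.v2 h
  hg : VB ((SS : ℝ) * UU) s.g0 s.g1 s.g2 g

theorem SU_pos : (0 : ℝ) < (SS : ℝ) * UU := mul_pos SS_pos UU_pos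

/-- the result of a step -/
def stpV (c0 c1 c2 c3 : ℕ) (r : Rd) (s : Vs) : Vs :=
  ⟨h0 c0 s.v0, h1 c0 c1 r.z s.v0 s.v1, h2 c0 c1 c2 r.z s.v0 s.v1 s.v2,
    h0 c1 s.g0 + (r.b + r.r) * h0 c0 s.v0,
    h1 c1 c2 r.z s.g0 s.g1 + (r.b + r.r) * h1 c0 c1 r.z s.v0 s.v1,
    h2 c1 c2 c3 r.z s.g0 s.g1 s.g2 + (r.b + r.r) * h2 c0 c1 c2 r.z s.v0 s.v1 s.v2⟩

theorem stp_eq {α : Type} (c0 c1 c2 c3 : ℕ) (r : Rd) (s : Vs) (k : Vs → α) :
    stp c0 c1 c2 c3 r s k = k (stpV c0 c1 c2 c3 r s) := by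
  unfold stp stpV
  simp only [force_eq]

theorem G_congr (A : ℕ → ℕ → ℕ) (N : ℕ) {m : ℕ} (w : Law m N A) (φ : ℕ → ℝ) {l l' : Info} {t : ℕ}
    (h : ∀ τ < t, l.dl τ = l'.dl τ) (k : ℕ) : G A N w φ l t k = G A N w φ l' t k := by
  unfold G
  refine Finset.sum_congr rfl fun c _ => ?_
  rw [he_congr A N w.Z t (fun τ hτ => by rw [h τ hτ]) k]

theorem H_congr (A : ℕ → ℕ → ℕ) (N : ℕ) {m : ℕ} (w : Law m N A) {l l' : Info} {t : ℕ}
    (h : ∀ τ < t, l.dl τ = l'.dl τ) (k : ℕ) : H A N w l t k = H A N w l' t k :=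
  he_congr A N w.Z t h k

section

/-- the combination of two bounds in a step -/
theorem comb {x y φ : ℝ} {p q n : ℕ} (hx : x ≤ (p : ℝ) / ((SS : ℝ) * UU)) (hφ : φ = (n : ℝ) / UU)
    (hy : y ≤ (q : ℝ) / SS) : x + φ * y ≤ ((p + n * q : ℕ) : ℝ) / ((SS : ℝ) * UU) := by
  have hS := SS_pos
  have hU := UU_pos
  have h1 : φ * y ≤ (n : ℝ) / UU * ((q : ℝ) / SS) := by
    rw [hφ]
    exact mul_le_mul_of_nonneg_left hy (by positivity)
  have h2 : (n : ℝ) / UU * ((q : ℝ) / SS) = (n : ℝ) * q / ((SS : ℝ) * UU) := by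
    rw [div_mul_div_comm, mul_comm (UU : ℝ)]
  push_cast
  rw [add_div]
  linarith

/-- final rounding -/
theorem roundU {n : ℕ} {x : ℝ} (h : x ≤ (n : ℝ) / ((SS : ℝ) * UU)) :
    x ≤ ((n / SS + 1 : ℕ) : ℝ) / UU := by
  refine le_trans h ?_
  rw [← div_div]
  exact div_le_div_of_nonneg_right (div_ub _ _ SS_pos') UU_pos.le

theorem roundU2 {n : ℕ} {x : ℝ} (h : x ≤ (n : ℝ) / (2 * ((SS : ℝ) * UU))) :
    x ≤ ((n / (2 * SS) + 1 : ℕ) : ℝ) / UU := by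
  refine le_trans h ?_
  have h1 := div_ub n (2 * SS) (Nat.mul_pos (by norm_num) SS_pos')
  have h2 : (n : ℝ) / (2 * ((SS : ℝ) * UU)) = (n : ℝ) / ((2 * SS : ℕ) : ℝ) / UU := by
    rw [div_div]
    push_cast
    ring_nf
  rw [h2]
  exact div_le_div_of_nonneg_right h1 UU_pos.le

variable {A : ℕ → ℕ → ℕ} {m : ℕ} {w : Law m NN A} (hpos : Pos A NN w)
include hpos

theorem H_nonneg (l : Info) {t : ℕ} (ht : t ≤ m) (k : ℕ) : 0 ≤ H A NN w l t k :=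
  hpos.he_nonneg _ t ht k

theorem G_nonneg {φ : ℕ → ℝ} (hφ : ∀ c < m, 0 ≤ φ c) (l : Info) {t : ℕ} (ht : t ≤ m) (k : ℕ) :
    0 ≤ G A NN w φ l t k := by
  unfold G
  refine Finset.sum_nonneg fun c hc => ?_
  have := Finset.mem_range.mp hc
  exact mul_nonneg (hφ c (by omega)) (hpos.he_nonneg _ t ht k)

theorem stp_sound {φ : ℕ → ℝ} (hφ : ∀ c < m, 0 ≤ φ c) {l : Info} {t j : ℕ} (ht : t < m)
    (hj : l.dl t = j) {r : Rd} (hφt : φ t = ((r.b + r.r : ℕ) : ℝ) / UU)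
    (hb : LB r (w.W t) (w.P t) (w.X t) (w.Z t)) {c0 c1 c2 c3 : ℕ}
    (hc0 : NN - A t (0 + j) = c0) (hc1 : NN - A t (1 + j) = c1) (hc2 : NN - A t (2 + j) = c2)
    (hc3 : NN - A t (3 + j) = c3) {s : Vs} (hs : SOK s (H A NN w l t) (G A NN w φ l t)) :
    SOK (stpV c0 c1 c2 c3 r s) (H A NN w l (t + 1)) (G A NN w φ l (t + 1)) := by
  have hS := SS_pos
  have hU := UU_pos
  have hSU := SU_pos
  have e1 : NN - A t (0 + (j + 1)) = c1 := by rw [← hc1]; congr 2; omega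
  have e2 : NN - A t (1 + (j + 1)) = c2 := by rw [← hc2]; congr 2; omega
  have e3 : NN - A t (2 + (j + 1)) = c3 := by rw [← hc3]; congr 2; omega
  refine ⟨⟨fun k => H_nonneg hpos l ht k, ?_, ?_, ?_⟩,
    ⟨fun k => G_nonneg hpos hφ l ht k, ?_, ?_, ?_⟩⟩
  · rw [H_succ, hj]
    exact h0_ub hpos hS ht hs.hh hc0
  · rw [H_succ, hj]
    exact h1_ub hpos hS ht hs.hh hc0 hc1 hb.z
  · rw [H_succ, hj]
    exact h2_ub hpos hS ht hs.hh hc0 hc1 hc2 hb.z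
  · rw [G_succ, hj]
    exact comb (h0_ub hpos hSU ht hs.hg e1) hφt (h0_ub hpos hS ht hs.hh hc0)
  · rw [G_succ, hj]
    exact comb (h1_ub hpos hSU ht hs.hg e1 e2 hb.z) hφt
      (h1_ub hpos hS ht hs.hh hc0 hc1 hb.z)
  · rw [G_succ, hj]
    exact comb (h2_ub hpos hSU ht hs.hg e1 e2 e3 hb.z) hφt
      (h2_ub hpos hS ht hs.hh hc0 hc1 hc2 hb.z)

variable {a : ℕ → Bool → ℝ} {d b : ℕ → ℝ}

theorem evB {l : Info} {t j : ℕ} (ht : t < m) (hj : l.dl t = j) {r : Rd} (hr : ROK r)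
    (hat : a t true = (r.r : ℝ) / UU) (haf : a t false = (r.b : ℝ) / UU)
    (hbt : b t = (r.q : ℝ) / UU)
    (hb : LB r (w.W t) (w.P t) (w.X t) (w.Z t)) {c0 c1 c2 : ℕ}
    (hc0 : NN - A t (0 + j) = c0) (hc1 : NN - A t (1 + j) = c1) (hc2 : NN - A t (2 + j) = c2)
    {s : Vs} (hs : SOK s (H A NN w l t) (G A NN w (phi m a) l t)) :
    Sf A NN w a d b (phi m a) l t false ≤ ((eB c0 c1 c2 r s : ℕ) : ℝ) / UU := by
  have hS := SS_pos
  have hU := UU_pos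
  have hSU := SU_pos
  have e1 : NN - A t (0 + (j + 1)) = c1 := by rw [← hc1]; congr 2; omega
  have e2 : NN - A t (1 + (j + 1)) = c2 := by rw [← hc2]; congr 2; omega
  have hphi : phi m a t = (r.b : ℝ) / UU + (r.r : ℝ) / UU := by
    unfold phi; rw [if_pos ht, hat, haf]
  have k1 := kB_ub hpos hSU ht hs.hg e1 e2 hr hb
  have k2 := kB_ub hpos hS ht hs.hh hc0 hc1 hr hb
  unfold Sf fw eB
  simp only [Bool.false_eq_true, if_false]
  rw [hj, hbt, hphi]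
  refine roundU ?_
  have h2 : fB A NN w t j (H A NN w l t) * ((r.q : ℝ) / UU + ((r.b : ℝ) / UU + (r.r : ℝ) / UU)) ≤
      ((kB c0 c1 r.w r.x s.v0 s.v1 : ℕ) : ℝ) / SS *
        ((r.q : ℝ) / UU + ((r.b : ℝ) / UU + (r.r : ℝ) / UU)) :=
    mul_le_mul_of_nonneg_right k2 (by positivity)
  refine le_trans (add_le_add k1 h2) (le_of_eq ?_)
  push_cast
  field_simp
  ring

theorem evR {l : Info} {t j : ℕ} (ht : t < m) (hj : l.dl t = j) (hl : l ≠ Info.tl) {r : Rd}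
    (hr : ROK r)
    (hat : a t true = (r.r : ℝ) / UU) (haf : a t false = (r.b : ℝ) / UU)
    (hbt : b t = (r.q : ℝ) / UU) (hdt : d t = (r.l : ℝ) / UU)
    (hb : LB r (w.W t) (w.P t) (w.X t) (w.Z t)) {a0 a1 a2 : ℕ}
    (ha0 : A t (0 + j) = a0) (ha1 : A t (1 + j) = a1) (ha2 : A t (2 + j) = a2)
    {s : Vs} (hs : SOK s (H A NN w l t) (G A NN w (phi m a) l t)) :
    Sf A NN w a d b (phi m a) l t true ≤ ((eR a1 a2 (kO a0 a1 r.w r.p s.v0 s.v1)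
      (kM a0 a1 a2 r.w s.v0 s.v1 s.v2) r s : ℕ) : ℝ) / UU := by
  have hS := SS_pos
  have hU := UU_pos
  have hSU := SU_pos
  have e1 : A t (0 + (j + 1)) = a1 := by rw [← ha1]; congr 1; omega
  have e2 : A t (1 + (j + 1)) = a2 := by rw [← ha2]; congr 1; omega
  have k1 := kO_ub hpos hSU ht hs.hg e1 e2 hr hb
  have k2 := kO_ub hpos hS ht hs.hh ha0 ha1 hr hb
  have k3 := kM_ub hpos hS ht hs.hh ha0 ha1 ha2 hb
  have n1 : ¬ (l = Info.tl ∨ Info.ne = Info.tl) := by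
    rintro (h | h)
    · exact hl h
    · exact absurd h (by simp)
  have n2 : (l = Info.tl ∨ Info.tl = Info.tl) := Or.inr rfl
  unfold Sf fw eR
  simp only [if_true]
  rw [if_neg n1, if_neg n1, if_pos n2, hj, hbt, hat, haf, hdt]
  refine roundU2 ?_
  have h2 : fO A NN w t j (H A NN w l t) * ((r.q : ℝ) / UU + (r.b : ℝ) / UU) ≤
      ((kO a0 a1 r.w r.p s.v0 s.v1 : ℕ) : ℝ) / SS * ((r.q : ℝ) / UU + (r.b : ℝ) / UU) :=
    mul_le_mul_of_nonneg_right k2 (by positivity)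
  have h3 : fM A NN w t j (H A NN w l t) * ((r.r : ℝ) / UU / 2) ≤
      ((kM a0 a1 a2 r.w s.v0 s.v1 s.v2 : ℕ) : ℝ) / SS * ((r.r : ℝ) / UU / 2) :=
    mul_le_mul_of_nonneg_right k3 (by positivity)
  have h4 : fO A NN w t j (H A NN w l t) * ((r.l : ℝ) / UU / 2) ≤
      ((kO a0 a1 r.w r.p s.v0 s.v1 : ℕ) : ℝ) / SS * ((r.l : ℝ) / UU / 2) :=
    mul_le_mul_of_nonneg_right k2 (by positivity)
  refine le_trans (add_le_add k1 (add_le_add (add_le_add h2 h3) h4)) (le_of_eq ?_)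
  push_cast
  field_simp
  ring

theorem evL {t : ℕ} (ht : t < m) {r : Rd}
    (hat : a t true = (r.r : ℝ) / UU) (haf : a t false = (r.b : ℝ) / UU)
    (hbt : b t = (r.q : ℝ) / UU) (hdt : d t = (r.l : ℝ) / UU)
    (hb : LB r (w.W t) (w.P t) (w.X t) (w.Z t))
    (ha0 : A t 0 = r.a0) (ha1 : A t 1 = r.a1) (ha2 : A t 2 = r.a2) (ha3 : A t 3 = r.a3)
    {s : Vs} (hs : SOK s (H A NN w Info.tl t) (G A NN w (phi m a) Info.tl t)) :
    Sf A NN w a d b (phi m a) Info.tl t true ≤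
      ((eL (kM r.a0 r.a1 r.a2 r.w s.v0 s.v1 s.v2) r s : ℕ) : ℝ) / UU := by
  have hS := SS_pos
  have hU := UU_pos
  have hSU := SU_pos
  have hj : Info.tl.dl t = 0 := rfl
  have e1 : A t (0 + (0 + 1)) = r.a1 := ha1
  have e2 : A t (1 + (0 + 1)) = r.a2 := ha2
  have e3 : A t (2 + (0 + 1)) = r.a3 := ha3
  have k1 := kM_ub hpos hSU ht hs.hg e1 e2 e3 hb
  have k3 := kM_ub hpos hS ht hs.hh (e := 0) ha0 ha1 ha2 hb
  have n1 : (Info.tl = Info.tl ∨ Info.ne = Info.tl) := Or.inl rfl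
  have n2 : (Info.tl = Info.tl ∨ Info.tl = Info.tl) := Or.inr rfl
  unfold Sf fw eL
  simp only [if_true, true_or, or_true]
  rw [hj, hbt, hat, haf, hdt]
  refine roundU2 ?_
  have h2 : fM A NN w t 0 (H A NN w Info.tl t) * ((r.q : ℝ) / UU + (r.b : ℝ) / UU) ≤
      ((kM r.a0 r.a1 r.a2 r.w s.v0 s.v1 s.v2 : ℕ) : ℝ) / SS *
        ((r.q : ℝ) / UU + (r.b : ℝ) / UU) :=
    mul_le_mul_of_nonneg_right k3 (by positivity)
  have h3 : fM A NN w t 0 (H A NN w Info.tl t) * ((r.r : ℝ) / UU / 2) ≤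
      ((kM r.a0 r.a1 r.a2 r.w s.v0 s.v1 s.v2 : ℕ) : ℝ) / SS * ((r.r : ℝ) / UU / 2) :=
    mul_le_mul_of_nonneg_right k3 (by positivity)
  have h4 : fM A NN w t 0 (H A NN w Info.tl t) * ((r.l : ℝ) / UU / 2) ≤
      ((kM r.a0 r.a1 r.a2 r.w s.v0 s.v1 s.v2 : ℕ) : ℝ) / SS * ((r.l : ℝ) / UU / 2) :=
    mul_le_mul_of_nonneg_right k3 (by positivity)
  refine le_trans (add_le_add k1 (add_le_add (add_le_add h2 h3) h4)) (le_of_eq ?_)
  push_cast
  field_simp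

theorem evE {l : Info} {e : Rd} (haf : a m false = (e.b : ℝ) / UU) (hbt : b m = (e.q : ℝ) / UU)
    (hW : w.W m ≤ (e.w : ℝ) / SS) {s : Vs}
    (hs : SOK s (H A NN w l m) (G A NN w (phi m a) l m)) :
    Sf A NN w a d b (phi m a) l m false ≤ ((eE e s : ℕ) : ℝ) / UU := by
  have hS := SS_pos
  have hU := UU_pos
  have hSU := SU_pos
  have hphi : phi m a m = (e.b : ℝ) / UU := by
    unfold phi; rw [if_neg (lt_irrefl m), haf, add_zero]
  have k1 := kE_ub hpos hSU (e := l.dl m + 1) hs.hg hW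
  have k2 := kE_ub hpos hS (e := l.dl m) hs.hh hW
  unfold Sf fw eE
  simp only [Bool.false_eq_true, if_false]
  rw [hbt, hphi]
  refine roundU ?_
  have h2 : fB A NN w m (l.dl m) (H A NN w l m) * ((e.q : ℝ) / UU + (e.b : ℝ) / UU) ≤
      ((kE e.w s.v0 s.v1 s.v2 : ℕ) : ℝ) / SS * ((e.q : ℝ) / UU + (e.b : ℝ) / UU) :=
    mul_le_mul_of_nonneg_right k2 (by positivity)
  refine le_trans (add_le_add k1 h2) (le_of_eq ?_)
  push_cast
  field_simp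
  ring

end

/-! ### The growth -/

/-- the growth -/
noncomputable def rho (rn : ℕ) : ℝ := (rn : ℝ) / 30000

theorem pot_val {rn s : ℕ} (hrn : 0 < rn) {x : ℝ} (hx : x ≤ (s : ℝ) / UU) :
    x / rho rn + 1 ≤ ((pot rn s : ℕ) : ℝ) / UU := by
  have hU := UU_pos
  have hr : (0 : ℝ) < rn := by exact_mod_cast hrn
  have h1 := div_ub (30000 * s) rn hrn
  have h2 : x / rho rn ≤ (s : ℝ) / UU / rho rn :=
    div_le_div_of_nonneg_right hx (by unfold rho; positivity)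
  have h3 : (s : ℝ) / UU / rho rn = ((30000 * s : ℕ) : ℝ) / rn / UU := by
    unfold rho
    push_cast
    field_simp
  have h4 : ((30000 * s : ℕ) : ℝ) / rn / UU ≤ ((30000 * s / rn + 1 : ℕ) : ℝ) / UU :=
    div_le_div_of_nonneg_right h1 hU.le
  have h5 : ((pot rn s : ℕ) : ℝ) / UU = 1 + ((30000 * s / rn + 1 : ℕ) : ℝ) / UU := by
    unfold pot
    push_cast
    field_simp
    ring
  rw [h5]
  linarith

theorem pot_val' {rn s : ℕ} (hrn : 0 < rn) {x : ℝ} (hx : x ≤ (s : ℝ) / UU) :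
    max 0 x / rho rn + 1 ≤ ((pot rn s : ℕ) : ℝ) / UU := by
  refine pot_val hrn (max_le ?_ hx)
  have := UU_pos
  positivity

theorem pot_le {rn s b : ℕ} (hrn : 0 < rn) {x : ℝ} (hx : x ≤ (s : ℝ) / UU)
    (h : pot rn s ≤ b) : x ≤ rho rn * ((b : ℝ) / UU) := by
  have hU := UU_pos
  have hr : (0 : ℝ) < rho rn := by
    have : (0 : ℝ) < rn := by exact_mod_cast hrn
    unfold rho; positivity
  have h1 := pot_val hrn hx
  have h2 : ((pot rn s : ℕ) : ℝ) / UU ≤ (b : ℝ) / UU :=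
    div_le_div_of_nonneg_right (by exact_mod_cast h) hU.le
  have h3 : x / rho rn ≤ (b : ℝ) / UU := by linarith
  rw [div_le_iff₀ hr] at h3
  linarith

end Pool.Agent.G4.Chk
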