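import Pool.Agent.G4.Sound4

/-!
# Soundness of the checker, part 5: the loops
-/

set_option autoImplicit false
set_option linter.unusedSimpArgs false
set_option linter.unusedVariables false
set_option exponentiation.threshold 400

namespace Pool.Agent.G4.Chk

open Finset

/-- what the law gives -/
structure Ctx (T : List Rd) (e : Rd) (w : Law T.length NN (AA T e)) : Prop where
  pos : Pos (AA T e) NN w
  rok : ∀ t < T.length, ROK (ent T e t)
  lb : ∀ t < T.length, LB (ent T e t) (w.W t) (w.P t) (w.X t) (w.Z t)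
  we : w.W T.length ≤ (e.w : ℝ) / SS

theorem ent_end (T : List Rd) (e : Rd) : ent T e T.length = e := by
  unfold ent
  rw [List.getD_eq_default _ _ le_rfl]

section

variable {T : List Rd} {e : Rd} {w : Law T.length NN (AA T e)} (C : Ctx T e w)

/-- the sum of the potentials of `ne` -/
noncomputable abbrev pp (T : List Rd) (e : Rd) : ℕ → ℝ := phi T.length (aA T e)

theorem pp_lt {t : ℕ} (ht : t < T.length) :
    pp T e t = (((ent T e t).b + (ent T e t).r : ℕ) : ℝ) / UU := by
  unfold pp phi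
  rw [if_pos ht]
  unfold aA
  simp only [Bool.false_eq_true, if_false, if_true]
  push_cast
  ring

theorem pp_nonneg (c : ℕ) (hc : c < T.length) : 0 ≤ pp T e c := by
  rw [pp_lt hc]
  have := UU_pos
  positivity

/-- the value of the operator -/
noncomputable abbrev SF (w : Law T.length NN (AA T e)) (l : Info) (t : ℕ) (ρ : Bool) : ℝ :=
  Sf (AA T e) NN w (aA T e) (dA T e) (bA T e) (pp T e) l t ρ

/-- the summand of the inner sum -/
noncomputable abbrev IN (rn : ℕ) (w : Law T.length NN (AA T e)) (c t : ℕ) : ℝ :=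
  phi T.length (fun τ ρ => max 0 (SF w (Info.ea c) τ ρ) / rho rn + 1) t

include C

theorem inner_sound {rn : ℕ} (hrn : 0 < rn) {c : ℕ} : ∀ (rs : List Rd) (t : ℕ) (s : Vs) (acc : ℕ),
    T.drop t = rs → c < t → t ≤ T.length →
    SOK s (H (AA T e) NN w (Info.ea c) t) (G (AA T e) NN w (pp T e) (Info.ea c) t) →
    (acc : ℝ) / UU + ∑ τ ∈ Ico t (T.length + 1), IN rn w c τ ≤
      ((inner rn e rs s acc : ℕ) : ℝ) / UU := by
  intro rs
  induction rs with
  | nil =>
    intro t s acc hd hc ht hs
    have ht' : t = T.length := le_antisymm ht (drop_nil hd)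
    subst ht'
    rw [Finset.sum_Ico_succ_top le_rfl, Finset.Ico_self, Finset.sum_empty, zero_add]
    unfold inner
    have h1 : SF w (Info.ea c) T.length false ≤ ((eE e s : ℕ) : ℝ) / UU := by
      refine evE C.pos ?_ ?_ C.we hs
      · unfold aA; rw [ent_end]; rfl
      · unfold bA; rw [ent_end]
    have h2 := pot_val' hrn h1
    have h3 : IN rn w c T.length = max 0 (SF w (Info.ea c) T.length false) / rho rn + 1 := by
      unfold IN phi
      rw [if_neg (lt_irrefl _), add_zero]
    rw [h3]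
    push_cast at h2 ⊢
    rw [add_div]
    linarith
  | cons r rs ih =>
    intro t s acc hd hc ht hs
    obtain ⟨d1, d2, d3⟩ := drop_cons (e := e) hd
    have hr := C.rok t d1
    have hb := C.lb t d1
    rw [d2] at hr hb
    have hj : (Info.ea c).dl t = 1 := by simp [Info.dl, hc]
    have a1 : AA T e t (0 + 1) = r.a1 := by unfold AA; rw [d2]; rfl
    have a2 : AA T e t (1 + 1) = r.a2 := by unfold AA; rw [d2]; rfl
    have a3 : AA T e t (2 + 1) = r.a3 := by unfold AA; rw [d2]; rfl
    have a4 : AA T e t (3 + 1) = r.a4 := by unfold AA; rw [d2]; rfl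
    have hat : aA T e t true = (r.r : ℝ) / UU := by unfold aA; rw [d2]; rfl
    have haf : aA T e t false = (r.b : ℝ) / UU := by unfold aA; rw [d2]; rfl
    have hbt : bA T e t = (r.q : ℝ) / UU := by unfold bA; rw [d2]
    have hdt : dA T e t = (r.l : ℝ) / UU := by unfold dA; rw [d2]
    have k1 : SF w (Info.ea c) t false ≤
        ((eB (NN - r.a1) (NN - r.a2) (NN - r.a3) r s : ℕ) : ℝ) / UU :=
      evB C.pos d1 hj hr hat haf hbt hb (by rw [a1]) (by rw [a2]) (by rw [a3]) hs
    have k2 : SF w (Info.ea c) t true ≤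
        ((eR r.a2 r.a3 (kO r.a1 r.a2 r.w r.p s.v0 s.v1)
          (kM r.a1 r.a2 r.a3 r.w s.v0 s.v1 s.v2) r s : ℕ) : ℝ) / UU :=
      evR C.pos d1 hj (by simp) hr hat haf hbt hdt hb a1 a2 a3 hs
    have p1 := pot_val' hrn k1
    have p2 := pot_val' hrn k2
    have hs' : SOK (stpV (NN - r.a1) (NN - r.a2) (NN - r.a3) (NN - r.a4) r s)
        (H (AA T e) NN w (Info.ea c) (t + 1)) (G (AA T e) NN w (pp T e) (Info.ea c) (t + 1)) :=
      stp_sound C.pos pp_nonneg d1 hj (by rw [pp_lt d1, d2]) hb (by rw [a1]) (by rw [a2])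
        (by rw [a3]) (by rw [a4]) hs
    have i1 := ih (t + 1) _ (acc + pot rn (eB (NN - r.a1) (NN - r.a2) (NN - r.a3) r s) +
      pot rn (eR r.a2 r.a3 (kO r.a1 r.a2 r.w r.p s.v0 s.v1)
        (kM r.a1 r.a2 r.a3 r.w s.v0 s.v1 s.v2) r s)) d3 (by omega) d1 hs'
    unfold inner
    rw [force_eq, stp_eq]
    refine le_trans ?_ i1
    rw [Finset.sum_eq_sum_Ico_succ_bot (by omega)]
    have h3 : IN rn w c t = (max 0 (SF w (Info.ea c) t false) / rho rn + 1) +
        (max 0 (SF w (Info.ea c) t true) / rho rn + 1) := by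
      unfold IN phi
      rw [if_pos d1]
    rw [h3]
    push_cast at p1 p2 ⊢
    rw [add_div, add_div]
    linarith

theorem outer_sound {rn : ℕ} (hrn : 0 < rn) : ∀ (rs : List Rd) (t : ℕ) (s : Vs),
    T.drop t = rs → t ≤ T.length →
    SOK s (H (AA T e) NN w Info.ne t) (G (AA T e) NN w (pp T e) Info.ne t) →
    outer rn e rs s = true → ∀ τ, t ≤ τ → τ ≤ T.length →
    (∀ ρ, Adm T.length τ ρ → SF w Info.ne τ ρ ≤ rho rn * aA T e τ ρ) ∧
    (τ < T.length → SF w Info.tl τ true ≤ rho rn * dA T e τ) ∧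
    ∑ t' ∈ Ico (τ + 1) (T.length + 1), IN rn w τ t' ≤ bA T e τ := by
  intro rs
  induction rs with
  | nil =>
    intro t s hd ht hs h τ h1 h2
    have ht' : t = T.length := le_antisymm ht (drop_nil hd)
    subst ht'
    have hτ : τ = T.length := le_antisymm h2 h1
    subst hτ
    simp only [outer, Nat.ble_eq] at h
    have haf : aA T e T.length false = (e.b : ℝ) / UU := by unfold aA; rw [ent_end]; rfl
    have k1 : SF w Info.ne T.length false ≤ ((eE e s : ℕ) : ℝ) / UU := by
      refine evE C.pos haf ?_ C.we hs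
      unfold bA; rw [ent_end]
    refine ⟨?_, fun h => absurd h (lt_irrefl _), ?_⟩
    · intro ρ hA
      cases ρ
      · rw [haf]
        exact pot_le hrn k1 h
      · exact absurd (hA.2 rfl) (lt_irrefl _)
    · rw [Finset.Ico_self, Finset.sum_empty]
      have := UU_pos
      unfold bA
      positivity
  | cons r rs ih =>
    intro t s hd ht hs h τ h1 h2
    obtain ⟨d1, d2, d3⟩ := drop_cons (e := e) hd
    have hr := C.rok t d1
    have hb := C.lb t d1
    rw [d2] at hr hb
    unfold outer at h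
    rw [stp_eq] at h
    simp only [Bool.and_eq_true, Nat.ble_eq] at h
    obtain ⟨⟨⟨q1, q2⟩, q3⟩, q4, q5⟩ := h
    have hj : Info.ne.dl t = 0 := rfl
    have a0 : AA T e t (0 + 0) = r.a0 := by unfold AA; rw [d2]; rfl
    have a1 : AA T e t (1 + 0) = r.a1 := by unfold AA; rw [d2]; rfl
    have a2 : AA T e t (2 + 0) = r.a2 := by unfold AA; rw [d2]; rfl
    have a3 : AA T e t (3 + 0) = r.a3 := by unfold AA; rw [d2]; rfl
    have hat : aA T e t true = (r.r : ℝ) / UU := by unfold aA; rw [d2]; rfl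
    have haf : aA T e t false = (r.b : ℝ) / UU := by unfold aA; rw [d2]; rfl
    have hbt : bA T e t = (r.q : ℝ) / UU := by unfold bA; rw [d2]
    have hdt : dA T e t = (r.l : ℝ) / UU := by unfold dA; rw [d2]
    have hs' : SOK (stpV (NN - r.a0) (NN - r.a1) (NN - r.a2) (NN - r.a3) r s)
        (H (AA T e) NN w Info.ne (t + 1)) (G (AA T e) NN w (pp T e) Info.ne (t + 1)) :=
      stp_sound C.pos pp_nonneg d1 hj (by rw [pp_lt d1, d2]) hb (by rw [a0]) (by rw [a1])
        (by rw [a2]) (by rw [a3]) hs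
    rcases eq_or_lt_of_le h1 with h1 | h1
    · subst h1
      refine ⟨?_, ?_, ?_⟩
      · intro ρ hA
        cases ρ
        · have k1 : SF w Info.ne t false ≤
              ((eB (NN - r.a0) (NN - r.a1) (NN - r.a2) r s : ℕ) : ℝ) / UU :=
            evB C.pos d1 hj hr hat haf hbt hb (by rw [a0]) (by rw [a1]) (by rw [a2]) hs
          rw [haf]
          exact pot_le hrn k1 q1
        · have k2 : SF w Info.ne t true ≤
              ((eR r.a1 r.a2 (kO r.a0 r.a1 r.w r.p s.v0 s.v1)
                (kM r.a0 r.a1 r.a2 r.w s.v0 s.v1 s.v2) r s : ℕ) : ℝ) / UU :=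
            evR C.pos d1 hj (by simp) hr hat haf hbt hdt hb a0 a1 a2 hs
          rw [hat]
          exact pot_le hrn k2 q2
      · intro _
        have hs1 : SOK s (H (AA T e) NN w Info.tl t) (G (AA T e) NN w (pp T e) Info.tl t) := hs
        have k3 : SF w Info.tl t true ≤
            ((eL (kM r.a0 r.a1 r.a2 r.w s.v0 s.v1 s.v2) r s : ℕ) : ℝ) / UU :=
          evL C.pos d1 hat haf hbt hdt hb a0 a1 a2 a3 hs1
        rw [hdt]
        exact pot_le hrn k3 q3
      · have hd0 : ∀ τ < t + 1, Info.ne.dl τ = (Info.ea t).dl τ := by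
          intro τ hτ
          simp only [Info.dl]
          rw [if_neg (by omega)]
        have hs2 : SOK (stpV (NN - r.a0) (NN - r.a1) (NN - r.a2) (NN - r.a3) r s)
            (H (AA T e) NN w (Info.ea t) (t + 1))
            (G (AA T e) NN w (pp T e) (Info.ea t) (t + 1)) := by
          have e1 : H (AA T e) NN w (Info.ea t) (t + 1) = H (AA T e) NN w Info.ne (t + 1) :=
            funext fun k => (H_congr _ _ _ hd0 k).symm
          have e2 : G (AA T e) NN w (pp T e) (Info.ea t) (t + 1) =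
              G (AA T e) NN w (pp T e) Info.ne (t + 1) :=
            funext fun k => (G_congr _ _ _ _ hd0 k).symm
          rw [e1, e2]
          exact hs'
        have i1 := inner_sound C hrn rs (t + 1) _ 0 d3 (Nat.lt_succ_self t) d1 hs2
        have i2 : ((inner rn e rs (stpV (NN - r.a0) (NN - r.a1) (NN - r.a2) (NN - r.a3) r s) 0 : ℕ)
            : ℝ) / UU ≤ (r.q : ℝ) / UU :=
          div_le_div_of_nonneg_right (by exact_mod_cast q4) UU_pos.le
        rw [hbt]
        rw [Nat.cast_zero, zero_div, zero_add] at i1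
        linarith
    · exact ih (t + 1) _ d3 d1 hs' q5 τ h1 h2

end

theorem SOK_zero {T : List Rd} {e : Rd} (w : Law T.length NN (AA T e)) :
    SOK ⟨SS, 0, 0, 0, 0, 0⟩ (H (AA T e) NN w Info.ne 0) (G (AA T e) NN w (pp T e) Info.ne 0) := by
  have hS := SS_pos.ne'
  refine ⟨⟨?_, ?_, ?_, ?_⟩, ⟨?_, ?_, ?_, ?_⟩⟩
  · intro k; rw [H_zero]; split_ifs <;> norm_num
  · rw [H_zero]; simp [hS]
  · rw [H_zero]; simp
  · rw [H_zero]; simp
  · intro k; rw [G_zero]
  · rw [G_zero]; simp
  · rw [G_zero]; simp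
  · rw [G_zero]; simp

/-- soundness of the checker -/
theorem check_sound {rn : ℕ} {T : List Rd} {e : Rd} (hrn : 0 < rn) (h : check rn T e = true) :
    (∀ t k, AA T e t k ≤ NN) ∧
      ∃ w : Law T.length NN (AA T e), Nonempty (Potential T.length NN (AA T e) w (rho rn)) := by
  unfold check at h
  rw [Bool.and_eq_true] at h
  obtain ⟨h1, h2⟩ := h
  obtain ⟨he, hT⟩ := law_ok T _ h1
  have hA : ∀ t k, AA T e t k ≤ NN := fun t k => (he.ent hT t).a_le k
  refine ⟨hA, lawOf (AA T e) NN T.length, ?_⟩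
  obtain ⟨l1, l2⟩ := law_sound hA T 0 _ (List.drop_zero) (Nat.zero_le _) (LOK_zero _) h1
  have C : Ctx T e (lawOf (AA T e) NN T.length) :=
    { pos := lawOf_pos hA T.length
      rok := fun t ht => ROK.ent e hT ht
      lb := fun t ht => l1 t (Nat.zero_le _) ht
      we := l2 }
  have hrho : 0 < rho rn := by
    have : (0 : ℝ) < rn := by exact_mod_cast hrn
    unfold rho; positivity
  have hO := outer_sound C hrn T 0 _ (List.drop_zero) (Nat.zero_le _) (SOK_zero _) h2
  have hU := UU_pos
  refine potential_of_arrays C.pos hrho one_pos (aA T e) (dA T e) (bA T e)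
    (fun c t ρ => max 0 (SF (lawOf (AA T e) NN T.length) (Info.ea c) t ρ)) ?_ ?_ ?_ ?_ ?_ ?_ ?_
  · intro t ρ
    have hE := he.ent hT t
    unfold aA
    cases ρ
    · simp only [Bool.false_eq_true, if_false]
      rw [le_div_iff₀ hU, one_mul]
      exact_mod_cast hE.hb
    · simp only [if_true]
      rw [le_div_iff₀ hU, one_mul]
      exact_mod_cast hE.hr
  · intro t
    have hE := he.ent hT t
    unfold dA
    rw [le_div_iff₀ hU, one_mul]
    exact_mod_cast hE.hl
  · intro c t ρ
    exact le_max_left _ _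
  · intro t ρ hAd
    exact (hO t (Nat.zero_le _) hAd.1).1 ρ hAd
  · intro t ht
    exact (hO t (Nat.zero_le _) ht.le).2.1 ht
  · intro c t ρ _ _
    exact le_max_right _ _
  · intro c hc
    exact (hO c (Nat.zero_le _) hc).2.2

end Pool.Agent.G4.Chk
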